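import Mathlib

/-!
# Weighted mean values and weak Laplacians on Euclidean space

Basic tools for the uniqueness theorem on exterior-star domains.
-/

set_option autoImplicit false

open MeasureTheory Metric Set Filter Topology

namespace Pool.Agent.ExtStar

/-- Euclidean space of dimension `d`. -/
abbrev E (d : ℕ) := EuclideanSpace ℝ (Fin d)

variable {d : ℕ}

/-- standard basis vector -/
noncomputable abbrev bv (i : Fin d) : E d := EuclideanSpace.single i (1 : ℝ)

/-- the Laplacian, as in the frozen statement -/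
noncomputable def lap (w : E d → ℝ) (x : E d) : ℝ :=
  ∑ i : Fin d, iteratedFDeriv ℝ 2 w x (fun _ => EuclideanSpace.single i (1 : ℝ))

lemma lap_eq (w : E d → ℝ) (x : E d) :
    lap w x = ∑ i : Fin d, fderiv ℝ (fderiv ℝ w) x (bv i) (bv i) := by
  unfold lap
  refine Finset.sum_congr rfl fun i _ => ?_
  rw [iteratedFDeriv_two_apply]

lemma lap_congr {w v : E d → ℝ} {x : E d} (h : w =ᶠ[𝓝 x] v) : lap w x = lap v x := by
  rw [lap_eq, lap_eq]
  have h1 : fderiv ℝ w =ᶠ[𝓝 x] fderiv ℝ v := h.fderiv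
  rw [h1.fderiv_eq]

lemma contDiffAt_fderiv {w : E d → ℝ} {x : E d} (h : ContDiffAt ℝ 2 w x) :
    ContDiffAt ℝ 1 (fderiv ℝ w) x := by
  exact h.fderiv_right (m := 1) (by norm_num)

lemma lap_add {w v : E d → ℝ} {x : E d} (hw : ContDiffAt ℝ 2 w x) (hv : ContDiffAt ℝ 2 v x) :
    lap (fun y => w y + v y) x = lap w x + lap v x := by
  rw [lap_eq, lap_eq, lap_eq, ← Finset.sum_add_distrib]
  have h1 : fderiv ℝ (fun y => w y + v y) =ᶠ[𝓝 x] fun y => fderiv ℝ w y + fderiv ℝ v y := by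
    filter_upwards [hw.eventually (by simp), hv.eventually (by simp)] with y hy1 hy2
    rw [fderiv_fun_add (hy1.differentiableAt (by norm_num)) (hy2.differentiableAt (by norm_num))]
  rw [h1.fderiv_eq, fderiv_fun_add ((contDiffAt_fderiv hw).differentiableAt (by norm_num))
    ((contDiffAt_fderiv hv).differentiableAt (by norm_num))]
  simp

lemma lap_const_mul {w : E d → ℝ} {x : E d} (c : ℝ) (hw : ContDiffAt ℝ 2 w x) :
    lap (fun y => c * w y) x = c * lap w x := by
  rw [lap_eq, lap_eq, Finset.mul_sum]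
  have h1 : fderiv ℝ (fun y => c * w y) =ᶠ[𝓝 x] fun y => c • fderiv ℝ w y := by
    filter_upwards [hw.eventually (by simp)] with y hy1
    rw [fderiv_const_mul (hy1.differentiableAt (by norm_num))]
  rw [h1.fderiv_eq, fderiv_fun_const_smul ((contDiffAt_fderiv hw).differentiableAt (by norm_num))]
  simp

lemma lap_sub {w v : E d → ℝ} {x : E d} (hw : ContDiffAt ℝ 2 w x) (hv : ContDiffAt ℝ 2 v x) :
    lap (fun y => w y - v y) x = lap w x - lap v x := by
  have h : (fun y => w y - v y) = fun y => w y + (-1) * v y := by ext y; ring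
  rw [h, lap_add hw (contDiffAt_const.mul hv), lap_const_mul _ hv]
  ring

/-- chain rule for the Laplacian of a composition with a one-variable function -/
lemma lap_comp {g g' g'' : ℝ → ℝ} {w : E d → ℝ} {x : E d}
    (hg : ∀ s, HasDerivAt g (g' s) s) (hg' : HasDerivAt g' (g'' (w x)) (w x))
    (hw : ContDiffAt ℝ 2 w x) :
    lap (fun y => g (w y)) x =
      g'' (w x) * ∑ i : Fin d, (fderiv ℝ w x (bv i)) ^ 2 + g' (w x) * lap w x := by
  rw [lap_eq, lap_eq]
  have h1 : fderiv ℝ (fun y => g (w y)) =ᶠ[𝓝 x] fun y => g' (w y) • fderiv ℝ w y := by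
    filter_upwards [hw.eventually (by simp)] with y hy1
    exact ((hg (w y)).comp_hasFDerivAt y (hy1.differentiableAt (by norm_num)).hasFDerivAt).fderiv
  have h2 : HasFDerivAt (fun y => g' (w y)) (g'' (w x) • fderiv ℝ w x) x :=
    hg'.comp_hasFDerivAt x (hw.differentiableAt (by norm_num)).hasFDerivAt
  have h3 : HasFDerivAt (fderiv ℝ w) (fderiv ℝ (fderiv ℝ w) x) x :=
    ((contDiffAt_fderiv hw).differentiableAt (by norm_num)).hasFDerivAt
  have h4 := h2.smul h3
  have h5 : fderiv ℝ (fun y => g' (w y) • fderiv ℝ w y) x =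
      g' (w x) • fderiv ℝ (fderiv ℝ w) x +
        ContinuousLinearMap.smulRight (g'' (w x) • fderiv ℝ w x) (fderiv ℝ w x) := h4.fderiv
  rw [h1.fderiv_eq, h5, Finset.mul_sum, Finset.mul_sum, ← Finset.sum_add_distrib]
  refine Finset.sum_congr rfl fun i _ => ?_
  simp
  ring


/-- positive part to a power -/
noncomputable def pp (j : ℕ) (s : ℝ) : ℝ := (max 0 s) ^ j

lemma pp_nonneg (j : ℕ) (s : ℝ) : 0 ≤ pp j s := pow_nonneg (le_max_left _ _) _

lemma pp_of_nonpos {j : ℕ} (hj : j ≠ 0) {s : ℝ} (hs : s ≤ 0) : pp j s = 0 := by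
  simp [pp, max_eq_left hs, hj]

lemma pp_of_nonneg (j : ℕ) {s : ℝ} (hs : 0 ≤ s) : pp j s = s ^ j := by
  simp [pp, max_eq_right hs]

lemma continuous_pp (j : ℕ) : Continuous (pp j) := by
  unfold pp; fun_prop

lemma hasDerivAt_pp (j : ℕ) (s : ℝ) :
    HasDerivAt (pp (j + 2)) (((j : ℝ) + 2) * pp (j + 1) s) s := by
  rcases lt_trichotomy s 0 with hs | hs | hs
  · have h1 : pp (j + 2) =ᶠ[𝓝 s] fun _ => 0 := by
      filter_upwards [Iio_mem_nhds hs] with t ht
      exact pp_of_nonpos (by omega) (le_of_lt ht)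
    rw [pp_of_nonpos (by omega) hs.le, mul_zero]
    exact (hasDerivAt_const s (0 : ℝ)).congr_of_eventuallyEq h1
  · subst hs
    rw [pp_of_nonpos (by omega) le_rfl, mul_zero]
    rw [hasDerivAt_iff_isLittleO_nhds_zero]
    have hb : ∀ h : ℝ, |h| ≤ 1 → ‖pp (j + 2) (0 + h) - pp (j + 2) 0 - h • (0:ℝ)‖ ≤ |h| * |h| := by
      intro h hh
      rw [pp_of_nonpos (j := j + 2) (by omega) le_rfl]
      simp only [zero_add, sub_zero, smul_eq_mul, mul_zero]
      rcases le_total h 0 with h0 | h0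
      · rw [pp_of_nonpos (by omega) h0, norm_zero]; positivity
      · rw [pp_of_nonneg _ h0, Real.norm_eq_abs, abs_pow, pow_add]
        have : |h| ^ j ≤ 1 := pow_le_one₀ (abs_nonneg _) hh
        have h2 : 0 ≤ |h| * |h| := by positivity
        nlinarith [sq_abs h]
    rw [Asymptotics.isLittleO_iff]
    intro c hc
    have : ∀ᶠ h : ℝ in 𝓝 0, |h| < min 1 c := by
      have := Metric.ball_mem_nhds (0:ℝ) (lt_min one_pos hc)
      filter_upwards [this] with h hh
      simpa using hh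
    filter_upwards [this] with h hh
    have h1 := hb h (le_of_lt (lt_of_lt_of_le hh (min_le_left _ _)))
    have h2 : |h| ≤ c := le_of_lt (lt_of_lt_of_le hh (min_le_right _ _))
    calc _ ≤ |h| * |h| := h1
      _ ≤ c * ‖h‖ := by rw [Real.norm_eq_abs]; exact mul_le_mul_of_nonneg_right h2 (abs_nonneg _)
  · have h1 : pp (j + 2) =ᶠ[𝓝 s] fun t => t ^ (j + 2) := by
      filter_upwards [Ioi_mem_nhds hs] with t ht
      exact pp_of_nonneg _ (le_of_lt ht)
    rw [pp_of_nonneg _ hs.le]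
    refine HasDerivAt.congr_of_eventuallyEq ?_ h1
    have := hasDerivAt_pow (j + 2) s
    simpa using this

lemma contDiff_pp (j k : ℕ) (hk : k + 1 ≤ j) : ContDiff ℝ k (pp j) := by
  induction k generalizing j with
  | zero => exact contDiff_zero.2 (continuous_pp j)
  | succ k ih =>
    obtain ⟨i, rfl⟩ : ∃ i, j = i + 2 := ⟨j - 2, by omega⟩
    have h1 : deriv (pp (i + 2)) = fun s => ((i : ℝ) + 2) * pp (i + 1) s := by
      ext s; exact (hasDerivAt_pp i s).deriv
    have : ContDiff ℝ ((k : ℕ) + 1 : WithTop ℕ∞) (pp (i + 2)) := by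
      rw [contDiff_succ_iff_deriv]
      refine ⟨fun s => (hasDerivAt_pp i s).differentiableAt, by simp, ?_⟩
      rw [h1]
      exact contDiff_const.mul (ih (i + 1) (by omega))
    exact_mod_cast this

/-- the kernel `(t² - |z-x|²)₊ ^ j` -/
noncomputable def ker (j : ℕ) (t : ℝ) (x z : E d) : ℝ := pp j (t ^ 2 - ‖z - x‖ ^ 2)

lemma ker_nonneg (j : ℕ) (t : ℝ) (x z : E d) : 0 ≤ ker j t x z := pp_nonneg _ _

lemma ker_eq_zero {j : ℕ} (hj : j ≠ 0) {t : ℝ} (ht : 0 ≤ t) {x z : E d} (h : t ≤ dist z x) :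
    ker j t x z = 0 := by
  refine pp_of_nonpos hj ?_
  rw [← dist_eq_norm]
  nlinarith [dist_nonneg (x := z) (y := x)]

lemma ker_le {j : ℕ} {t : ℝ} (x z : E d) : ker j t x z ≤ (t ^ 2) ^ j := by
  unfold ker pp
  refine pow_le_pow_left₀ (le_max_left _ _) ?_ _
  refine max_le (by positivity) ?_
  have := sq_nonneg ‖z - x‖
  linarith

lemma continuous_ker (j : ℕ) (t : ℝ) (x : E d) : Continuous (ker j t x) := by
  unfold ker; exact (continuous_pp j).comp (by fun_prop)

lemma continuous_ker' (j : ℕ) : Continuous (fun p : ℝ × E d × E d => ker j p.1 p.2.1 p.2.2) := by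
  unfold ker; exact (continuous_pp j).comp (by fun_prop)

lemma contDiff_ker (j k : ℕ) (hk : k + 1 ≤ j) (t : ℝ) (x : E d) : ContDiff ℝ k (ker j t x) := by
  unfold ker
  refine (contDiff_pp j k hk).comp ?_
  exact contDiff_const.sub ((contDiff_id.sub contDiff_const).norm_sq ℝ)

lemma support_ker {j : ℕ} (hj : j ≠ 0) {t : ℝ} (ht : 0 ≤ t) (x : E d) :
    Function.support (ker j t x) ⊆ ball x t := by
  intro z hz
  by_contra h
  exact hz (ker_eq_zero hj ht (by simpa [mem_ball] using h))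

lemma tsupport_ker {j : ℕ} (hj : j ≠ 0) {t : ℝ} (ht : 0 ≤ t) (x : E d) :
    tsupport (ker j t x) ⊆ closedBall x t :=
  closure_minimal ((support_ker hj ht x).trans ball_subset_closedBall) isClosed_closedBall

lemma hasCompactSupport_ker {j : ℕ} (hj : j ≠ 0) {t : ℝ} (ht : 0 ≤ t) (x : E d) :
    HasCompactSupport (ker j t x) :=
  (isCompact_closedBall x t).of_isClosed_subset (isClosed_tsupport _) (tsupport_ker hj ht x)

lemma fderiv_q (t : ℝ) (x z v : E d) :
    fderiv ℝ (fun z : E d => t ^ 2 - ‖z - x‖ ^ 2) z v = -2 * inner ℝ (z - x) v := by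
  have h : HasFDerivAt (fun z : E d => t ^ 2 - ‖z - x‖ ^ 2) (-(2 • innerSL ℝ (z - x))) z := by
    have h1 : HasFDerivAt (fun z : E d => z - x) (ContinuousLinearMap.id ℝ (E d)) z :=
      (hasFDerivAt_id z).sub_const x
    have h2 := h1.norm_sq
    have h3 := h2.const_sub (t ^ 2)
    simpa using h3
  rw [h.fderiv]
  simp [inner_sub_left]

lemma lap_q (t : ℝ) (x z : E d) : lap (fun z : E d => t ^ 2 - ‖z - x‖ ^ 2) z = -2 * d := by
  rw [lap_eq]
  have h : fderiv ℝ (fun z : E d => t ^ 2 - ‖z - x‖ ^ 2) =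
      fun z => (-2 : ℝ) • innerSL ℝ (z - x) := by
    ext z v
    rw [fderiv_q]; simp [inner_sub_left]
  have h2 : ∀ z : E d, HasFDerivAt (fun z : E d => (-2 : ℝ) • innerSL ℝ (z - x))
      ((-2 : ℝ) • (innerSL ℝ : E d →L[ℝ] E d →L[ℝ] ℝ)) z := by
    intro z
    have h1 : HasFDerivAt (fun z : E d => z - x) (ContinuousLinearMap.id ℝ (E d)) z :=
      (hasFDerivAt_id z).sub_const x
    have h3 := (((innerSL ℝ : E d →L[ℝ] E d →L[ℝ] ℝ)).hasFDerivAt (x := z - x)).comp z h1
    exact h3.const_smul (-2 : ℝ)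
  rw [h]
  simp only [(h2 z).fderiv]
  have h5 : ∀ i : Fin d, ((-2 : ℝ) • (innerSL ℝ : E d →L[ℝ] E d →L[ℝ] ℝ)) (bv i) (bv i) = -2 := by
    intro i
    have : ((-2 : ℝ) • (innerSL ℝ : E d →L[ℝ] E d →L[ℝ] ℝ)) (bv i) (bv i) =
      -2 * inner ℝ (bv i) (bv i : E d) := rfl
    rw [this, real_inner_self_eq_norm_sq]
    simp
  simp only [h5]
  simp
  ring

lemma sum_sq_fderiv_q (t : ℝ) (x z : E d) :
    ∑ i : Fin d, (fderiv ℝ (fun z : E d => t ^ 2 - ‖z - x‖ ^ 2) z (bv i)) ^ 2 =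
      4 * ‖z - x‖ ^ 2 := by
  simp only [fderiv_q]
  rw [EuclideanSpace.norm_sq_eq, Finset.mul_sum]
  refine Finset.sum_congr rfl fun i _ => ?_
  have : inner ℝ (z - x) (bv i) = (z - x) i := by
    rw [real_inner_comm]
    simp [EuclideanSpace.inner_single_left]
  rw [this, Real.norm_eq_abs, sq_abs]
  ring

lemma contDiff_q (t : ℝ) (x : E d) : ContDiff ℝ 2 (fun z : E d => t ^ 2 - ‖z - x‖ ^ 2) :=
  contDiff_const.sub ((contDiff_id.sub contDiff_const).norm_sq ℝ)

lemma mul_pp (i : ℕ) (s : ℝ) : s * pp (i + 1) s = pp (i + 2) s := by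
  rcases le_total s 0 with h | h
  · rw [pp_of_nonpos (by omega) h, pp_of_nonpos (by omega) h, mul_zero]
  · rw [pp_of_nonneg _ h, pp_of_nonneg _ h]; ring

lemma lap_ker (i : ℕ) (t : ℝ) (x z : E d) :
    lap (ker (i + 3) t x) z = 2 * ((i : ℝ) + 3) *
      (2 * ((i : ℝ) + 2) * t ^ 2 * ker (i + 1) t x z -
        ((d : ℝ) + 2 * ((i : ℝ) + 2)) * ker (i + 2) t x z) := by
  have h := lap_comp (g := pp (i + 3)) (g' := fun s => ((i : ℝ) + 3) * pp (i + 2) s)
    (g'' := fun s => ((i : ℝ) + 3) * (((i : ℝ) + 2) * pp (i + 1) s))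
    (w := fun z : E d => t ^ 2 - ‖z - x‖ ^ 2) (x := z)
    (fun s => by
      have := hasDerivAt_pp (i + 1) s
      convert this using 1
      push_cast; ring)
    ((hasDerivAt_pp i _).const_mul _) (contDiff_q t x).contDiffAt
  have h2 : lap (ker (i + 3) t x) z = lap (fun y : E d => pp (i + 3) (t ^ 2 - ‖y - x‖ ^ 2)) z := rfl
  rw [h2, h, lap_q, sum_sq_fderiv_q]
  have h3 := mul_pp i (t ^ 2 - ‖z - x‖ ^ 2)
  unfold ker
  linear_combination (4 * ((i : ℝ) + 3) * ((i : ℝ) + 2)) * (-h3)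

end Pool.Agent.ExtStar
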