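import Pool.Agent.ExtStar.Sol

set_option autoImplicit false

open MeasureTheory Metric Set Filter Topology

namespace Pool.Agent.ExtStar

variable {d : ℕ}

lemma second_deriv_nonneg {g g' : ℝ → ℝ} {c : ℝ} (hmin : IsLocalMin g 0)
    (hg : ∀ᶠ s in 𝓝 (0:ℝ), HasDerivAt g (g' s) s) (hg' : HasDerivAt g' c 0) : 0 ≤ c := by
  by_contra hc
  rw [not_le] at hc
  have h0 : deriv g =ᶠ[𝓝 0] g' := by
    filter_upwards [hg] with s hs
    exact hs.deriv
  have h1 : deriv (deriv g) 0 = c := by rw [h0.deriv_eq, hg'.deriv]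
  have h2 : deriv g 0 = 0 := hmin.deriv_eq_zero
  have h3 : ContinuousAt g 0 := hg.self_of_nhds.continuousAt
  have h4 : IsLocalMax g 0 := isLocalMax_of_deriv_deriv_neg (by rw [h1]; exact hc) h2 h3
  have h5 : g =ᶠ[𝓝 0] fun _ => g 0 := by
    filter_upwards [hmin, h4] with s hs1 hs2
    exact le_antisymm hs2 hs1
  have h6 : deriv g =ᶠ[𝓝 0] fun _ => 0 := by
    have := h5.deriv
    simpa using this
  have h7 : deriv (deriv g) 0 = 0 := by rw [h6.deriv_eq]; simp
  rw [h1] at h7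
  exact absurd h7 hc.ne

lemma lap_nonneg_of_isLocalMin {w : E d → ℝ} {x : E d} (hw : ContDiffAt ℝ 2 w x)
    (hmin : IsLocalMin w x) : 0 ≤ lap w x := by
  rw [lap_eq]
  refine Finset.sum_nonneg fun i _ => ?_
  have hline : ∀ s : ℝ, HasDerivAt (fun s : ℝ => x + s • (bv i : E d)) (bv i) s := by
    intro s
    have := ((hasDerivAt_id s).smul_const (bv i : E d)).const_add x
    simpa using this
  have hx0 : x + (0:ℝ) • (bv i : E d) = x := by simp
  have hcont : ContinuousAt (fun s : ℝ => x + s • (bv i : E d)) 0 := (hline 0).continuousAt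
  refine second_deriv_nonneg (g := fun s : ℝ => w (x + s • bv i))
    (g' := fun s : ℝ => fderiv ℝ w (x + s • bv i) (bv i)) ?_ ?_ ?_
  · have : Tendsto (fun s : ℝ => x + s • (bv i : E d)) (𝓝 0) (𝓝 x) := by
      have := hcont.tendsto
      simpa using this
    have h := this.eventually hmin
    simpa [IsLocalMin, IsMinFilter] using h
  · have h1 : ∀ᶠ y in 𝓝 x, ContDiffAt ℝ 2 w y := hw.eventually (by simp)
    have : Tendsto (fun s : ℝ => x + s • (bv i : E d)) (𝓝 0) (𝓝 x) := by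
      have := hcont.tendsto
      simpa using this
    filter_upwards [this.eventually h1] with s hs
    exact (hs.differentiableAt (by norm_num)).hasFDerivAt.comp_hasDerivAt s (hline s)
  · have h1 : HasFDerivAt (fderiv ℝ w) (fderiv ℝ (fderiv ℝ w) x) (x + (0:ℝ) • (bv i : E d)) := by
      rw [hx0]
      exact ((contDiffAt_fderiv hw).differentiableAt (by norm_num)).hasFDerivAt
    have h2 := h1.comp_hasDerivAt (0:ℝ) (hline 0)
    have h3 := ((ContinuousLinearMap.apply ℝ ℝ (bv i : E d)).hasFDerivAt).comp_hasDerivAt (0:ℝ) h2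
    exact h3

variable {R : RD} {Ω : Set (E d)} {u v : E d → ℝ}

/-- On large balls solutions are bounded below by `s0`. -/
lemma Sol.big_ball_one (R : RD) (d : ℕ) : ∃ R1 : ℝ, 0 < R1 ∧ ∀ (Ω : Set (E d)) (v : E d → ℝ),
    IsOpen Ω → Sol R Ω v → ∀ x, closedBall x R1 ⊆ Ω → R.s0 ≤ v x := by
  have hmu := R.hmu
  set Q : ℝ := (6 * d + 24) / (2 * Real.sqrt (24 * R.mu)) + 1 with hQ
  have hsq : 0 < Real.sqrt (24 * R.mu) := Real.sqrt_pos.2 (by positivity)
  have hQpos : 0 < Q := by positivity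
  refine ⟨Q, hQpos, ?_⟩
  intro Ω v hΩ h x hb
  have hvpos : ∀ y ∈ closedBall x Q, 0 < v y := fun y hy => h.pos y (hb hy)
  -- maximise φ / v over the closed ball
  set φ : E d → ℝ := ker 3 Q x with hφ
  have hφc : Continuous φ := continuous_ker 3 Q x
  have hcont : ContinuousOn (fun y => φ y / v y) (closedBall x Q) :=
    hφc.continuousOn.div h.cont.continuousOn (fun y hy => (hvpos y hy).ne')
  obtain ⟨y, hy, hmax⟩ := (isCompact_closedBall x Q).exists_isMaxOn
    ⟨x, mem_closedBall_self hQpos.le⟩ hcont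
  have hφx : φ x = (Q ^ 2) ^ 3 := by
    simp only [hφ, ker, sub_self, norm_zero]
    rw [pp_of_nonneg _ (by nlinarith [sq_nonneg Q])]
    ring
  have hφx0 : 0 < φ x := by rw [hφx]; positivity
  have hxy : φ x / v x ≤ φ y / v y := hmax (mem_closedBall_self hQpos.le)
  have hvx := hvpos x (mem_closedBall_self hQpos.le)
  have hvy := hvpos y hy
  have hφy : 0 < φ y := by
    have h1 : 0 < φ x / v x := div_pos hφx0 hvx
    have h2 : 0 < φ y / v y := lt_of_lt_of_le h1 hxy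
    by_contra hcon
    rw [not_lt] at hcon
    have : φ y / v y ≤ 0 := div_nonpos_of_nonpos_of_nonneg hcon hvy.le
    linarith
  have hyb : y ∈ ball x Q := support_ker (by norm_num) hQpos.le x hφy.ne'
  -- w = v - s φ has a local min at y
  set s : ℝ := v y / φ y with hs
  have hspos : 0 < s := by positivity
  have hmin : IsLocalMin (fun z => v z - s * φ z) y := by
    have hball : ball x Q ∈ 𝓝 y := isOpen_ball.mem_nhds hyb
    filter_upwards [hball] with z hz
    have h1 : φ z / v z ≤ φ y / v y := hmax (ball_subset_closedBall hz)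
    have hvz := hvpos z (ball_subset_closedBall hz)
    have h2 : s * φ z ≤ v z := by
      rw [hs, div_mul_eq_mul_div, div_le_iff₀ hφy]
      rw [div_le_div_iff₀ hvz hvy] at h1
      linarith
    have h3 : v y - s * φ y = 0 := by
      rw [hs]; field_simp; ring
    show v y - s * φ y ≤ v z - s * φ z
    rw [h3]
    linarith
  have hyΩ : y ∈ Ω := hb hy
  have hvC : ContDiffAt ℝ 2 v y := h.smooth.contDiffAt (hΩ.mem_nhds hyΩ)
  have hφC : ContDiffAt ℝ 2 φ y := (contDiff_ker 3 2 (by norm_num) Q x).contDiffAt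
  have hlap := lap_nonneg_of_isLocalMin (hvC.sub (contDiffAt_const.mul hφC)) hmin
  have hlap2 : lap (fun z => v z - s * φ z) y = - R.f (v y) - s * lap φ y := by
    have := lap_sub (w := v) (v := fun z => s * φ z) hvC (contDiffAt_const.mul hφC)
    rw [this, lap_const_mul s hφC, h.eq y hyΩ]
  rw [hlap2] at hlap
  -- compute lap φ
  have hq : φ y = (Q ^ 2 - ‖y - x‖ ^ 2) ^ 3 ∧ 0 < Q ^ 2 - ‖y - x‖ ^ 2 := by
    have h1 : ‖y - x‖ < Q := by rw [← dist_eq_norm]; exact hyb
    have h2 : 0 < Q ^ 2 - ‖y - x‖ ^ 2 := by nlinarith [norm_nonneg (y - x)]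
    exact ⟨pp_of_nonneg _ h2.le, h2⟩
  set q : ℝ := Q ^ 2 - ‖y - x‖ ^ 2 with hqdef
  have hlapφ : -lap φ y ≤ R.mu * φ y := by
    have h1 := lap_ker (d := d) 0 Q x y
    have e1 : ker (0 + 1) Q x y = q := by
      simp only [ker]; rw [pp_of_nonneg _ hq.2.le]; simp [hqdef]
    have e2 : ker (0 + 2) Q x y = q ^ 2 := by
      simp only [ker]; rw [pp_of_nonneg _ hq.2.le]
    rw [e1, e2] at h1
    have h2 : lap φ y = 2 * 3 * (2 * 2 * Q ^ 2 * q - (d + 2 * 2) * q ^ 2) := by
      have : lap φ y = lap (ker (0 + 3) Q x) y := rfl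
      rw [this, h1]; push_cast; ring
    rw [h2, hq.1]
    -- need: 6(d+4) q^2 - 24 Q^2 q ≤ mu q^3
    have h3 : (6 * d + 24) * q ≤ R.mu * q ^ 2 + 24 * Q ^ 2 := by
      have h4 : (6 * (d:ℝ) + 24) ≤ 2 * Real.sqrt (24 * R.mu) * Q := by
        have : (6 * (d:ℝ) + 24) / (2 * Real.sqrt (24 * R.mu)) ≤ Q := by rw [hQ]; linarith
        rw [div_le_iff₀ (by positivity)] at this
        linarith
      have h5 : 2 * Real.sqrt (24 * R.mu) * Q * q ≤ R.mu * q ^ 2 + 24 * Q ^ 2 := by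
        have h6 : Real.sqrt (24 * R.mu) ^ 2 = 24 * R.mu := Real.sq_sqrt (by positivity)
        have h7 : 0 ≤ (Real.sqrt (24 * R.mu) * q - 24 * Q) ^ 2 := sq_nonneg _
        nlinarith
      have h6 : (6 * (d:ℝ) + 24) * q ≤ 2 * Real.sqrt (24 * R.mu) * Q * q :=
        mul_le_mul_of_nonneg_right h4 hq.2.le
      linarith
    have h4 : 0 ≤ q * (R.mu * q ^ 2 + 24 * Q ^ 2 - (6 * d + 24) * q) :=
      mul_nonneg hq.2.le (by linarith)
    have h5 : R.mu * q ^ 3 - -(2 * 3 * (2 * 2 * Q ^ 2 * q - (d + 2 * 2) * q ^ 2)) =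
      q * (R.mu * q ^ 2 + 24 * Q ^ 2 - (6 * d + 24) * q) := by ring
    linarith
  have hfy : R.f (v y) ≤ R.mu * v y := by
    have h1 : s * (-lap φ y) ≤ s * (R.mu * φ y) := mul_le_mul_of_nonneg_left hlapφ hspos.le
    have h2 : s * (R.mu * φ y) = R.mu * v y := by rw [hs]; field_simp
    linarith
  have hvy2 : R.s0 < v y := by
    by_contra hcon
    rw [not_lt] at hcon
    have := R.low (v y) hvy hcon
    linarith
  -- conclude at x
  have h1 : φ y ≤ φ x := by
    rw [hφx]; exact ker_le x y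
  have h2 : v y ≤ v x := by
    rw [div_le_div_iff₀ hvx hvy] at hxy
    by_contra hcon
    rw [not_le] at hcon
    have : φ y * v x < φ x * v y := by
      calc φ y * v x < φ y * v y := mul_lt_mul_of_pos_left hcon hφy
        _ ≤ φ x * v y := mul_le_mul_of_nonneg_right h1 hvy.le
    linarith
  linarith

lemma RD.exists_min (R : RD) (a b : ℝ) (ha : 0 < a) (hb : b < 1) :
    ∃ c : ℝ, 0 < c ∧ ∀ s ∈ Icc a b, c ≤ R.f s := by
  rcases (Icc a b).eq_empty_or_nonempty with h | h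
  · exact ⟨1, one_pos, by simp [h]⟩
  · obtain ⟨s, hs, hmin⟩ := isCompact_Icc.exists_isMinOn h R.cont.continuousOn
    exact ⟨R.f s, R.pos s (lt_of_lt_of_le ha hs.1) (lt_of_le_of_lt hs.2 hb), fun t ht => hmin ht⟩

/-- On large balls solutions are close to one. -/
theorem Sol.big_ball (R : RD) (d : ℕ) : ∃ R2 : ℝ, 0 < R2 ∧ ∀ (Ω : Set (E d)) (v : E d → ℝ),
    IsOpen Ω → Sol R Ω v → ∀ x, closedBall x R2 ⊆ Ω → 1 - R.e1 ≤ v x := by
  obtain ⟨R1, hR1, h1⟩ := Sol.big_ball_one R d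
  have he := R.he1
  obtain ⟨c, hc, hcmin⟩ := R.exists_min R.s0 (1 - R.e1) R.hs0 (by linarith)
  set ρ : ℝ := Real.sqrt (2 * d / c) + 1 with hρ
  have hρ0 : 0 < ρ := by positivity
  have hρ2 : 2 * d / ρ ^ 2 < c := by
    have h2 : Real.sqrt (2 * d / c) ^ 2 = 2 * d / c := Real.sq_sqrt (by positivity)
    have h3 : 2 * d / c < ρ ^ 2 := by
      have h4 : 0 ≤ Real.sqrt (2 * d / c) := Real.sqrt_nonneg _
      rw [hρ]; nlinarith
    rw [div_lt_iff₀ hc] at h3
    rw [div_lt_iff₀ (by positivity)]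
    linarith
  refine ⟨R1 + ρ, by positivity, ?_⟩
  intro Ω v hΩ h x hb
  by_contra hcon
  rw [not_le] at hcon
  have hsub : ∀ y ∈ closedBall x ρ, R.s0 ≤ v y := by
    intro y hy
    refine h1 Ω v hΩ h y (subset_trans ?_ hb)
    refine closedBall_subset_closedBall' ?_
    have : dist y x ≤ ρ := hy
    linarith
  have hsubΩ : closedBall x ρ ⊆ Ω := (closedBall_subset_closedBall (by linarith)).trans hb
  set q : E d → ℝ := fun y => v y + (-(1 / ρ ^ 2)) * ((0:ℝ) ^ 2 - ‖y - x‖ ^ 2) with hq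
  have hqc : Continuous q := by
    have := h.cont
    fun_prop
  obtain ⟨y, hy, hmin⟩ := (isCompact_closedBall x ρ).exists_isMinOn
    ⟨x, mem_closedBall_self hρ0.le⟩ hqc.continuousOn
  have hqx : q x = v x := by simp [hq]
  have hqy : q y ≤ v x := by rw [← hqx]; exact hmin (mem_closedBall_self hρ0.le)
  have hqy2 : q y = v y + ‖y - x‖ ^ 2 / ρ ^ 2 := by simp only [hq]; ring
  have hvy : v y ≤ q y := by
    rw [hqy2]
    have : 0 ≤ ‖y - x‖ ^ 2 / ρ ^ 2 := by positivity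
    linarith
  have hvy0 := hsub y hy
  have hs0 := R.hs0
  have hyball : y ∈ ball x ρ := by
    rw [mem_ball]
    have h2 : dist y x ≤ ρ := hy
    rcases h2.lt_or_eq with h3 | h3
    · exact h3
    · exfalso
      rw [dist_eq_norm] at h3
      rw [h3] at hqy2
      have : ρ ^ 2 / ρ ^ 2 = 1 := by field_simp
      rw [this] at hqy2
      linarith
  have hlocmin : IsLocalMin q y := by
    filter_upwards [isOpen_ball.mem_nhds hyball] with z hz
    exact hmin (ball_subset_closedBall hz)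
  have hyΩ : y ∈ Ω := hsubΩ hy
  have hvC : ContDiffAt ℝ 2 v y := h.smooth.contDiffAt (hΩ.mem_nhds hyΩ)
  have hqC : ContDiffAt ℝ 2 (fun y : E d => (0:ℝ) ^ 2 - ‖y - x‖ ^ 2) y :=
    (contDiff_q 0 x).contDiffAt
  have hlap := lap_nonneg_of_isLocalMin (hvC.add (contDiffAt_const.mul hqC)) hlocmin
  have hlap2 : lap q y = - R.f (v y) + 2 * d / ρ ^ 2 := by
    have := lap_add (w := v) (v := fun y => (-(1 / ρ ^ 2)) * ((0:ℝ) ^ 2 - ‖y - x‖ ^ 2)) hvC
      (contDiffAt_const.mul hqC)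
    have e : lap q y = lap (fun y => v y + (-(1 / ρ ^ 2)) * ((0:ℝ) ^ 2 - ‖y - x‖ ^ 2)) y := rfl
    rw [e, this, lap_const_mul _ hqC, h.eq y hyΩ, lap_q]
    ring
  rw [hlap2] at hlap
  have := hcmin (v y) ⟨hvy0, by linarith⟩
  linarith

end Pool.Agent.ExtStar
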