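import Pool.Agent.ExtStar.GLocal

set_option autoImplicit false

open MeasureTheory Metric Set Filter Topology

namespace Pool.Agent.ExtStar

variable {d : ℕ}

lemma Sol.harnack_ball {R : RD} {Ω : Set (E d)} {u : E d → ℝ} (hΩ : IsOpen Ω) (h : Sol R Ω u)
    {z z' : E d} {ρ : ℝ} (hρ : 0 < ρ) (hρ1 : ρ ≤ 1) (hb : ball z ρ ⊆ Ω)
    (hd : dist z z' ≤ ρ / 8) : u z' ≤ CH R d * u z ∧ u z ≤ CH R d * u z' := by
  constructor
  · refine h.harnack hΩ (t := ρ / 4) (by positivity) (by linarith) ?_ (by linarith)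
    exact (closedBall_subset_ball (by linarith)).trans hb
  · refine h.harnack hΩ (t := ρ / 4) (by positivity) (by linarith) ?_ ?_
    · refine subset_trans ?_ hb
      intro y hy
      have h1 : dist y z' ≤ 2 * (ρ / 4) := hy
      have h2 := dist_triangle y z' z
      rw [dist_comm z' z] at h2
      rw [mem_ball]; linarith
    · rw [dist_comm]; linarith

/-- local chart data at a boundary point -/
structure Chart (Ω : Set (E d)) (r Λ : ℝ) (y0 e : E d) (h : E d → ℝ) : Prop where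
  hr : 0 < r
  hΛ : 1 ≤ Λ
  isOpen : IsOpen Ω
  he : ‖e‖ = 1
  lip : ∀ z z', |h z - h z'| ≤ Λ * dist z z'
  tr : ∀ (z : E d) (t : ℝ), h (z + t • e) = h z + t
  h0 : h y0 = 0
  mem : ∀ z ∈ ball y0 r, (z ∈ Ω ↔ 0 < h z)

variable {R : RD} {Ω : Set (E d)} {u : E d → ℝ} {r Λ : ℝ} {y0 e : E d} {h : E d → ℝ}

lemma Chart.inner (c : Chart Ω r Λ y0 e h) {z : E d} (hz : z ∈ ball y0 (r / 2)) (hz0 : 0 < h z)
    (hz1 : h z ≤ r / 4) : ball z (h z / Λ) ⊆ Ω := by
  intro z' hz'
  have h1 : dist z' z < h z / Λ := hz'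
  have h2 : dist z y0 < r / 2 := hz
  have hΛ := c.hΛ
  have h3 : h z / Λ ≤ h z := div_le_self hz0.le hΛ
  have h4 := dist_triangle z' z y0
  have hr := c.hr
  have h5 : z' ∈ ball y0 r := by rw [mem_ball]; linarith
  rw [c.mem z' h5]
  have h6 := (abs_le.1 (c.lip z' z)).1
  have h7 : Λ * dist z' z < h z := by
    rw [lt_div_iff₀ (by linarith)] at h1
    linarith
  linarith

lemma dist_add_smul (c : Chart Ω r Λ y0 e h) (z : E d) (t : ℝ) : dist (z + t • e) z = |t| := by
  rw [dist_eq_norm, add_sub_cancel_left, norm_smul, c.he, mul_one, Real.norm_eq_abs]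

/-- one vertical Harnack step -/
lemma Chart.step (c : Chart Ω r Λ y0 e h) (hu : Sol R Ω u) (hr1 : r ≤ 1) {z : E d}
    (hz : z ∈ ball y0 (r / 2)) (hz0 : 0 < h z) (hz1 : h z ≤ r / 4) {z' : E d}
    (hd : dist z z' ≤ h z / (8 * Λ)) : u z' ≤ CH R d * u z ∧ u z ≤ CH R d * u z' := by
  have hΛ := c.hΛ
  refine hu.harnack_ball c.isOpen (ρ := h z / Λ) (by positivity) ?_ (c.inner hz hz0 hz1) ?_
  · have := div_le_self hz0.le hΛ
    linarith
  · have : h z / Λ / 8 = h z / (8 * Λ) := by field_simp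
    rw [this]; exact hd

/-- growth factor of the height in one vertical step -/
noncomputable def qq (Λ : ℝ) : ℝ := 1 + 1 / (8 * Λ)

lemma one_lt_qq (hΛ : 1 ≤ Λ) : 1 < qq Λ := by
  unfold qq
  have : 0 < 1 / (8 * Λ) := by positivity
  linarith

lemma Chart.chain (c : Chart Ω r Λ y0 e h) (hu : Sol R Ω u) (hr1 : r ≤ 1) {z : E d}
    (hz : z ∈ ball y0 (r / 4)) (hz0 : 0 < h z) (n : ℕ) (hn : qq Λ ^ n * h z ≤ r / 8) :
    u (z + ((qq Λ ^ n - 1) * h z) • e) ≤ CH R d ^ n * u z ∧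
      u z ≤ CH R d ^ n * u (z + ((qq Λ ^ n - 1) * h z) • e) := by
  have hq := one_lt_qq c.hΛ
  have hCH := one_le_CH R d
  have hΛ := c.hΛ
  have hr := c.hr
  induction n with
  | zero => simp
  | succ n ih =>
    have hqn : 1 ≤ qq Λ ^ n := one_le_pow₀ hq.le
    have hle : qq Λ ^ n * h z ≤ qq Λ ^ (n + 1) * h z := by
      refine mul_le_mul_of_nonneg_right ?_ hz0.le
      rw [pow_succ]; nlinarith
    obtain ⟨ih1, ih2⟩ := ih (hle.trans hn)
    set zn := z + ((qq Λ ^ n - 1) * h z) • e with hzn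
    have hhz : h zn = qq Λ ^ n * h z := by rw [hzn, c.tr]; ring
    have hdist : dist zn z = (qq Λ ^ n - 1) * h z := by
      rw [hzn, dist_add_smul c, abs_of_nonneg (mul_nonneg (by linarith) hz0.le)]
    have hznb : zn ∈ ball y0 (r / 2) := by
      rw [mem_ball]
      have h1 : dist z y0 < r / 4 := hz
      have h2 := dist_triangle zn z y0
      have h3 : (qq Λ ^ n - 1) * h z ≤ qq Λ ^ n * h z := by nlinarith
      linarith
    have hstep := c.step hu hr1 hznb (by rw [hhz]; positivity) (by rw [hhz]; linarith)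
      (z' := z + ((qq Λ ^ (n + 1) - 1) * h z) • e) ?_
    · obtain ⟨h1, h2⟩ := hstep
      have hC0 : 0 ≤ CH R d ^ n := by positivity
      constructor
      · calc u (z + ((qq Λ ^ (n + 1) - 1) * h z) • e) ≤ CH R d * u zn := h1
          _ ≤ CH R d * (CH R d ^ n * u z) := mul_le_mul_of_nonneg_left ih1 (by linarith)
          _ = CH R d ^ (n + 1) * u z := by ring
      · calc u z ≤ CH R d ^ n * u zn := ih2
          _ ≤ CH R d ^ n * (CH R d * u (z + ((qq Λ ^ (n + 1) - 1) * h z) • e)) :=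
            mul_le_mul_of_nonneg_left h2 hC0
          _ = _ := by ring
    · have e1 : z + ((qq Λ ^ (n + 1) - 1) * h z) • e = zn + (h zn / (8 * Λ)) • e := by
        rw [hhz, hzn, add_assoc, ← add_smul]
        congr 2
        have : qq Λ ^ (n + 1) = qq Λ ^ n * (1 + 1 / (8 * Λ)) := by rw [pow_succ]; rfl
        rw [this]; field_simp; ring
      rw [e1, dist_comm, dist_add_smul c, abs_of_nonneg]
      rw [hhz]; positivity

/-- exponent in the Harnack chain -/
noncomputable def pexp (R : RD) (d : ℕ) (Λ : ℝ) : ℝ := Real.log (CH R d) / Real.log (qq Λ)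

lemma one_lt_CH (R : RD) (d : ℕ) : 1 < CH R d := by
  unfold CH
  have h1 : 1 ≤ Real.exp (R.L / 12) := Real.one_le_exp (by have := R.hL; positivity)
  have h2 : (1:ℝ) ≤ 2 ^ d := one_le_pow₀ (by norm_num)
  have h3 : (1:ℝ) < (16 / 7) ^ 2 := by norm_num
  have h4 : (1:ℝ) < 2 ^ d * (16 / 7) ^ 2 := by nlinarith
  nlinarith

lemma pexp_pos (R : RD) (d : ℕ) (hΛ : 1 ≤ Λ) : 0 < pexp R d Λ :=
  div_pos (Real.log_pos (one_lt_CH R d)) (Real.log_pos (one_lt_qq hΛ))

lemma CH_eq (R : RD) (d : ℕ) (hΛ : 1 ≤ Λ) : CH R d = qq Λ ^ pexp R d Λ := by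
  have hq := one_lt_qq hΛ
  have hC := one_lt_CH R d
  rw [Real.rpow_def_of_pos (by linarith), pexp,
    mul_div_cancel₀ _ (Real.log_pos hq).ne', Real.exp_log (by linarith)]

/-- the point above `z` at height `r/8` -/
noncomputable def top (r : ℝ) (e : E d) (h : E d → ℝ) (z : E d) : E d := z + (r / 8 - h z) • e

lemma Chart.h_top (c : Chart Ω r Λ y0 e h) (z : E d) : h (top r e h z) = r / 8 := by
  unfold top; rw [c.tr]; ring

/-- comparison with the value at height `r/8` -/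
lemma Chart.to_top (c : Chart Ω r Λ y0 e h) (hu : Sol R Ω u) (hr1 : r ≤ 1) {z : E d}
    (hz : z ∈ ball y0 (r / 4)) (hz0 : 0 < h z) (hz1 : h z ≤ r / 8) :
    u (top r e h z) ≤ CH R d * (r / 8 / h z) ^ pexp R d Λ * u z ∧
      u z ≤ CH R d * (r / 8 / h z) ^ pexp R d Λ * u (top r e h z) := by
  have hq := one_lt_qq c.hΛ
  have hCH := one_lt_CH R d
  have hΛ := c.hΛ
  have hr := c.hr
  have hp := pexp_pos R d hΛ
  -- choose n
  obtain ⟨n, hn1, hn2⟩ : ∃ n : ℕ, qq Λ ^ n ≤ r / 8 / h z ∧ r / 8 / h z < qq Λ ^ (n + 1) := by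
    have h1 : 1 ≤ r / 8 / h z := by rw [le_div_iff₀ hz0]; linarith
    exact exists_nat_pow_near h1 hq
  have hn1' : qq Λ ^ n * h z ≤ r / 8 := by rwa [le_div_iff₀ hz0] at hn1
  have hn2' : r / 8 < qq Λ ^ (n + 1) * h z := by rwa [div_lt_iff₀ hz0] at hn2
  obtain ⟨h1, h2⟩ := c.chain hu hr1 hz hz0 n hn1'
  set zn := z + ((qq Λ ^ n - 1) * h z) • e with hzn
  have hqn : 1 ≤ qq Λ ^ n := one_le_pow₀ hq.le
  have hhz : h zn = qq Λ ^ n * h z := by rw [hzn, c.tr]; ring
  have hdist : dist zn z = (qq Λ ^ n - 1) * h z := by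
    rw [hzn, dist_add_smul c, abs_of_nonneg (mul_nonneg (by linarith) hz0.le)]
  have hznb : zn ∈ ball y0 (r / 2) := by
    rw [mem_ball]
    have h1 : dist z y0 < r / 4 := hz
    have h2 := dist_triangle zn z y0
    have h3 : (qq Λ ^ n - 1) * h z ≤ qq Λ ^ n * h z := by nlinarith
    linarith
  have htop : top r e h z = zn + (r / 8 - qq Λ ^ n * h z) • e := by
    rw [top, hzn, add_assoc, ← add_smul]
    congr 2; ring
  have hstep := c.step hu hr1 hznb (by rw [hhz]; positivity) (by rw [hhz]; linarith)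
    (z' := top r e h z) ?_
  · obtain ⟨h3, h4⟩ := hstep
    have hpow : CH R d ^ n ≤ (r / 8 / h z) ^ pexp R d Λ := by
      have : CH R d ^ n = (qq Λ ^ n) ^ pexp R d Λ := by
        rw [CH_eq R d hΛ, ← Real.rpow_natCast, ← Real.rpow_natCast, ← Real.rpow_mul (by linarith),
          ← Real.rpow_mul (by linarith), mul_comm]
      rw [this]
      exact Real.rpow_le_rpow (by positivity) hn1 hp.le
    have hu1 := hu.nonneg z
    have hu2 := hu.nonneg (top r e h z)
    constructor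
    · calc u (top r e h z) ≤ CH R d * u zn := h3
        _ ≤ CH R d * (CH R d ^ n * u z) := mul_le_mul_of_nonneg_left h1 (by linarith)
        _ ≤ CH R d * ((r / 8 / h z) ^ pexp R d Λ * u z) :=
          mul_le_mul_of_nonneg_left (mul_le_mul_of_nonneg_right hpow hu1) (by linarith)
        _ = _ := by ring
    · calc u z ≤ CH R d ^ n * u zn := h2
        _ ≤ CH R d ^ n * (CH R d * u (top r e h z)) := mul_le_mul_of_nonneg_left h4 (by positivity)
        _ ≤ (r / 8 / h z) ^ pexp R d Λ * (CH R d * u (top r e h z)) :=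
          mul_le_mul_of_nonneg_right hpow (mul_nonneg (by linarith) hu2)
        _ = _ := by ring
  · rw [htop, dist_comm, dist_add_smul c, abs_of_nonneg (by linarith), hhz]
    have : qq Λ ^ (n + 1) * h z = qq Λ ^ n * h z + qq Λ ^ n * h z / (8 * Λ) := by
      rw [pow_succ]
      have : qq Λ = 1 + 1 / (8 * Λ) := rfl
      nth_rewrite 2 [this]
      field_simp
    linarith

/-- radius in which everything is compared with the value at height `r/8` -/
noncomputable def rho2 (r Λ : ℝ) : ℝ := r / (64 * Λ * (1 + Λ))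

lemma Chart.rho2_pos (c : Chart Ω r Λ y0 e h) : 0 < rho2 r Λ := by
  have := c.hr; have := c.hΛ
  unfold rho2; positivity

lemma Chart.rho2_le (c : Chart Ω r Λ y0 e h) : (1 + Λ) * rho2 r Λ = r / (64 * Λ) := by
  have := c.hr; have := c.hΛ
  unfold rho2
  have : 1 + Λ ≠ 0 := by positivity
  field_simp

lemma Chart.rho2_small (c : Chart Ω r Λ y0 e h) : rho2 r Λ ≤ r / 128 ∧ Λ * rho2 r Λ ≤ r / 64 := by
  have hr := c.hr; have hΛ := c.hΛ
  have h1 := c.rho2_le
  have h2 := c.rho2_pos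
  have h3 : r / (64 * Λ) ≤ r / 64 := by
    apply div_le_div_of_nonneg_left hr.le (by norm_num) (by linarith)
  constructor
  · nlinarith
  · nlinarith

lemma Chart.compare_top (c : Chart Ω r Λ y0 e h) (hu : Sol R Ω u) (hr1 : r ≤ 1) {x : E d}
    (hx : x ∈ ball y0 (r / 8)) (hx0 : 0 < h x) (hx1 : h x ≤ r / 16) {y : E d}
    (hy : y ∈ ball x (rho2 r Λ)) (hy0 : 0 < h y) :
    u y ≤ CH R d ^ 2 * (r / 8 / h y) ^ pexp R d Λ * u (top r e h x) := by
  have hr := c.hr; have hΛ := c.hΛ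
  obtain ⟨hs1, hs2⟩ := c.rho2_small
  have hs3 := c.rho2_le
  have hρ := c.rho2_pos
  have hyx : dist y x < rho2 r Λ := hy
  have hx' : dist x y0 < r / 8 := hx
  have hlip := c.lip y x
  have h1 : Λ * dist y x ≤ Λ * rho2 r Λ := mul_le_mul_of_nonneg_left hyx.le (by linarith)
  have hy4 : y ∈ ball y0 (r / 4) := by
    rw [mem_ball]
    have := dist_triangle y x y0
    linarith
  have hy8 : h y ≤ r / 8 := by
    have := (abs_le.1 hlip).2
    linarith
  have h2 := (c.to_top hu hr1 hy4 hy0 hy8).2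
  have htx : top r e h x ∈ ball y0 (r / 2) := by
    rw [mem_ball]
    have e1 : dist (top r e h x) x = r / 8 - h x := by
      unfold top; rw [dist_add_smul c, abs_of_nonneg (by linarith)]
    have := dist_triangle (top r e h x) x y0
    linarith
  have h3 := (c.step hu hr1 htx (by rw [c.h_top]; positivity) (by rw [c.h_top]; linarith)
    (z' := top r e h y) ?_).1
  · have hCH := one_lt_CH R d
    calc u y ≤ CH R d * (r / 8 / h y) ^ pexp R d Λ * u (top r e h y) := h2
      _ ≤ CH R d * (r / 8 / h y) ^ pexp R d Λ * (CH R d * u (top r e h x)) := by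
        refine mul_le_mul_of_nonneg_left h3 ?_
        have : 0 ≤ (r / 8 / h y) ^ pexp R d Λ := Real.rpow_nonneg (by positivity) _
        positivity
      _ = _ := by ring
  · rw [c.h_top]
    have e1 : top r e h x - top r e h y = (x - y) + (h y - h x) • e := by
      unfold top
      rw [sub_smul, sub_smul, sub_smul]
      abel
    rw [dist_eq_norm, e1]
    have h4 : ‖(x - y) + (h y - h x) • e‖ ≤ ‖x - y‖ + |h y - h x| := by
      refine (norm_add_le _ _).trans ?_
      rw [norm_smul, c.he, mul_one, Real.norm_eq_abs]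
    have h5 : ‖x - y‖ = dist y x := by rw [dist_comm, dist_eq_norm]
    have h6 : r / 8 / (8 * Λ) = r / (64 * Λ) := by field_simp; ring
    rw [h6, ← hs3]
    nlinarith

lemma Sup.zero (hR : RD) (Ω : Set (E d)) : Sup hR Ω 1 (fun _ : E d => (0:ℝ)) where
  hK := le_rfl
  cont := continuous_const
  nonneg := fun _ => le_rfl
  le_one := fun _ => zero_le_one
  smooth := contDiffOn_const
  eq := by
    intro x _
    rw [hR.f0, lap_eq]; simp

/-- decay at the boundary: nearby there is a point with a value larger by a fixed factor -/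
lemma boundary_growth (R : RD) (d : ℕ) {Λ : ℝ} (hΛ : 1 ≤ Λ) : ∃ b0 G : ℝ, 0 < b0 ∧ 1 < G ∧
    ∀ (Ω : Set (E d)) (u : E d → ℝ) (r : ℝ) (y0 e : E d) (h : E d → ℝ),
      Chart Ω r Λ y0 e h → Sol R Ω u → ∀ (y : E d) (b : ℝ), y ∈ ball y0 (r / 4) → 0 < h y →
      h y < b → b ≤ b0 → b ≤ r / 16 → 0 < u y → ∃ y' ∈ ball y (4 * b), G * u y ≤ u y' := by
  have hcc2 : 0 < cc d 2 := cc_pos (by norm_num)
  have hω := ω_pos d
  have hLp := R.hL
  set A1 : ℝ := (1 - (5 / 8 : ℝ) ^ 2) ^ 2 * (1 / (8 * Λ)) ^ d * ω d with hA1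
  have hA1pos : 0 < A1 := by rw [hA1]; positivity
  set A : ℝ := min A1 (cc d 2 / 2) with hA
  have hApos : 0 < A := lt_min hA1pos (by positivity)
  have hA2 : A ≤ cc d 2 / 2 := min_le_right _ _
  have hAA1 : A ≤ A1 := min_le_left _ _
  obtain ⟨b0, hb0, hb0'⟩ : ∃ b0 : ℝ, 0 < b0 ∧
      Real.exp (R.L * (4 * b0) ^ 2 / 4) * (cc d 2 - A) ≤ cc d 2 - A / 2 := by
    have hcont : Continuous fun s : ℝ => Real.exp (R.L * (4 * s) ^ 2 / 4) * (cc d 2 - A) := by
      fun_prop
    have h0 : Tendsto (fun s : ℝ => Real.exp (R.L * (4 * s) ^ 2 / 4) * (cc d 2 - A)) (𝓝[>] 0)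
        (𝓝 (cc d 2 - A)) := by
      have := (hcont.tendsto 0).mono_left (nhdsWithin_le_nhds (s := Ioi 0))
      simpa using this
    have h1 : ∀ᶠ s in 𝓝[>] (0:ℝ), Real.exp (R.L * (4 * s) ^ 2 / 4) * (cc d 2 - A) <
        cc d 2 - A / 2 := h0.eventually_lt_const (by linarith)
    obtain ⟨s, hs1, hs2⟩ := (h1.and self_mem_nhdsWithin).exists
    exact ⟨s, hs2, hs1.le⟩
  set θ : ℝ := (cc d 2 - A / 2) / cc d 2 with hθ
  have hθ1 : θ < 1 := by rw [hθ, div_lt_one hcc2]; linarith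
  have hθ0 : 0 < θ := by rw [hθ]; apply div_pos _ hcc2; linarith
  set G : ℝ := 1 + (1 - θ) / 8 with hG
  have hG1 : 1 < G := by rw [hG]; linarith
  have hG3 : G ^ 3 * θ < 1 := by
    have h1 : G ^ 3 ≤ 1 + 7 * ((1 - θ) / 8) := by
      rw [hG]
      set ψ := (1 - θ) / 8 with hψ
      have : 0 ≤ ψ := by rw [hψ]; linarith
      have : ψ ≤ 1 := by rw [hψ]; linarith
      nlinarith [sq_nonneg ψ, mul_nonneg ‹0 ≤ ψ› (sub_nonneg.2 ‹ψ ≤ 1›)]
    have h2 : G ^ 3 * θ ≤ (1 + 7 * ((1 - θ) / 8)) * θ := mul_le_mul_of_nonneg_right h1 hθ0.le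
    nlinarith
  refine ⟨b0, G, hb0, hG1, ?_⟩
  intro Ω u r y0 e h c hu y b hy hy0 hyb hbb0 hbr huy
  by_contra hcon
  push Not at hcon
  have hb : 0 < b := hy0.trans hyb
  have hr := c.hr
  set p : E d := y + (-(h y + b)) • e with hp
  have hhp : h p = -b := by rw [hp, c.tr]; ring
  have hpy : dist p y = h y + b := by
    rw [hp, dist_add_smul c, abs_neg, abs_of_pos (by linarith)]
  have hbΛ : b / (2 * Λ) ≤ b / 2 := by
    apply div_le_div_of_nonneg_left hb.le (by norm_num) (by linarith)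
  have hy' : dist y y0 < r / 4 := hy
  have h1 := (Sup.zero R Ω).hole_decay c.isOpen hu (x := y) (p := p) (t := 4 * b)
    (ρ := b / (2 * Λ)) (θ := 5 / 8) (S := (G * u y) ^ 3) (by positivity) (by positivity)
    (by norm_num) (by norm_num) (by positivity) ?_ ?_ ?_
  · have e1 : b / (2 * Λ) / (4 * b) = 1 / (8 * Λ) := by field_simp; ring
    rw [e1, sub_zero, pp_of_nonneg _ huy.le, ← hA1] at h1
    have hexp : Real.exp (R.L * (4 * b) ^ 2 / 4) ≤ Real.exp (R.L * (4 * b0) ^ 2 / 4) := by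
      apply Real.exp_le_exp.2
      have : (4 * b) ^ 2 ≤ (4 * b0) ^ 2 := by gcongr
      nlinarith
    have hS : 0 ≤ (G * u y) ^ 3 := by positivity
    have h2 : cc d 2 * u y ^ 3 ≤ (cc d 2 - A / 2) * (G * u y) ^ 3 := by
      calc cc d 2 * u y ^ 3 ≤ Real.exp (R.L * (4 * b) ^ 2 / 4) *
            ((G * u y) ^ 3 * (cc d 2 - A1)) := h1
        _ ≤ Real.exp (R.L * (4 * b) ^ 2 / 4) * ((G * u y) ^ 3 * (cc d 2 - A)) := by
          refine mul_le_mul_of_nonneg_left ?_ (Real.exp_pos _).le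
          exact mul_le_mul_of_nonneg_left (by linarith) hS
        _ ≤ Real.exp (R.L * (4 * b0) ^ 2 / 4) * ((G * u y) ^ 3 * (cc d 2 - A)) := by
          refine mul_le_mul_of_nonneg_right hexp ?_
          exact mul_nonneg hS (by linarith)
        _ = (Real.exp (R.L * (4 * b0) ^ 2 / 4) * (cc d 2 - A)) * (G * u y) ^ 3 := by ring
        _ ≤ _ := mul_le_mul_of_nonneg_right hb0' hS
    have h3 : u y ^ 3 ≤ θ * (G * u y) ^ 3 := by
      rw [hθ, div_mul_eq_mul_div, le_div_iff₀ hcc2]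
      linarith
    have h4 : θ * (G * u y) ^ 3 = (G ^ 3 * θ) * u y ^ 3 := by ring
    rw [h4] at h3
    have h5 : 0 < u y ^ 3 := by positivity
    nlinarith
  · intro z hz
    simp only [sub_zero]
    rw [pp_of_nonneg _ (hu.nonneg z)]
    have := (hcon z hz).le
    have h0 := hu.nonneg z
    gcongr
  · intro z hz
    have hzp : dist z p < b / (2 * Λ) := hz
    have hzy : z ∈ ball y0 r := by
      rw [mem_ball]
      have h2 := dist_triangle z p y
      have h3 := dist_triangle z y y0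
      linarith
    rw [c.mem z hzy, not_lt]
    have h3 := (abs_le.1 (c.lip z p)).2
    have h4 : Λ * dist z p ≤ b / 2 := by
      have : Λ * dist z p ≤ Λ * (b / (2 * Λ)) := mul_le_mul_of_nonneg_left hzp.le (by linarith)
      have e2 : Λ * (b / (2 * Λ)) = b / 2 := by field_simp
      linarith
    linarith
  · refine ball_subset_closedBall.trans (closedBall_subset_closedBall' ?_)
    rw [hpy]
    linarith

end Pool.Agent.ExtStar
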