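import Pool.Agent.ExtStar.Carleson

set_option autoImplicit false

open MeasureTheory Metric Set Filter Topology

namespace Pool.Agent.ExtStar

variable {d : ℕ}

/-- Carleson estimate -/
theorem carleson (R : RD) (d : ℕ) {r Λ : ℝ} (hr : 0 < r) (hr1 : r ≤ 1) (hΛ : 1 ≤ Λ) :
    ∃ C3 : ℝ, 0 < C3 ∧
    ∀ (Ω : Set (E d)) (u : E d → ℝ) (y0 e : E d) (h : E d → ℝ),
      Chart Ω r Λ y0 e h → Sol R Ω u → ∀ x ∈ ball y0 (r / 8), 0 < h x → h x ≤ r / 16 →
      ∀ y ∈ ball x (rho2 r Λ / 2), u y ≤ C3 * u (top r e h x) := by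
  obtain ⟨b0, G, hb0, hG, hgrow⟩ := boundary_growth R d hΛ
  have hp := pexp_pos R d hΛ
  set p := pexp R d Λ with hpdef
  set g : ℝ := G ^ (-(1 / p)) with hg
  have hG0 : 0 < G := by linarith
  have hg0 : 0 < g := Real.rpow_pos_of_pos hG0 _
  have hg1 : g < 1 := Real.rpow_lt_one_of_one_lt_of_neg hG (by
    have : 0 < 1 / p := by positivity
    linarith)
  have hgp : g ^ p = G⁻¹ := by
    rw [hg, ← Real.rpow_mul hG0.le, neg_mul, one_div, inv_mul_cancel₀ hp.ne', Real.rpow_neg_one]
  have hρ2 : 0 < rho2 r Λ := by unfold rho2; positivity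
  set B0 : ℝ := min (min b0 (r / 16)) (rho2 r Λ * (1 - g) / 16) with hB0
  have h1g : 0 < 1 - g := by linarith
  have hB0pos : 0 < B0 := lt_min (lt_min hb0 (by positivity)) (by positivity)
  have hB0b : B0 ≤ b0 := (min_le_left _ _).trans (min_le_left _ _)
  have hB0r : B0 ≤ r / 16 := (min_le_left _ _).trans (min_le_right _ _)
  have hB0g : B0 ≤ rho2 r Λ * (1 - g) / 16 := min_le_right _ _
  have hCH := one_lt_CH R d
  set C3 : ℝ := CH R d ^ 2 * (r / 8 / B0) ^ p with hC3
  have hC3pos : 0 < C3 := by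
    rw [hC3]
    have : 0 < (r / 8 / B0) ^ p := Real.rpow_pos_of_pos (by positivity) _
    positivity
  refine ⟨C3, hC3pos, ?_⟩
  intro Ω u y0 e h c hu x hx hx0 hx1 y hy
  by_contra hcon
  rw [not_le] at hcon
  set U := u (top r e h x) with hU
  have hU0 : 0 ≤ U := hu.nonneg _
  have huy : 0 < u y := lt_of_le_of_lt (by positivity) hcon
  obtain ⟨hs1, hs2⟩ := c.rho2_small
  have hx' : dist x y0 < r / 8 := hx
  -- partial sums
  have hsum : ∀ n : ℕ, (∑ k ∈ Finset.range n, 4 * (B0 * g ^ k)) ≤ rho2 r Λ / 4 := by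
    intro n
    have h1 : ∑ k ∈ Finset.range n, g ^ k ≤ 1 / (1 - g) := by
      rw [geom_sum_eq hg1.ne, ← neg_div_neg_eq, neg_sub, neg_sub]
      apply div_le_div_of_nonneg_right _ h1g.le
      have : 0 < g ^ n := by positivity
      linarith
    rw [← Finset.mul_sum, ← Finset.mul_sum]
    calc 4 * (B0 * ∑ k ∈ Finset.range n, g ^ k) ≤ 4 * (B0 * (1 / (1 - g))) := by gcongr
      _ ≤ 4 * ((rho2 r Λ * (1 - g) / 16) * (1 / (1 - g))) := by gcongr
      _ = rho2 r Λ / 4 := by field_simp; norm_num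
  have key : ∀ n : ℕ, ∃ z, dist z x ≤ dist y x + ∑ k ∈ Finset.range n, 4 * (B0 * g ^ k) ∧
      G ^ n * u y ≤ u z := by
    intro n
    induction n with
    | zero => exact ⟨y, by simp, by simp⟩
    | succ n ih =>
      obtain ⟨z, hz1, hz2⟩ := ih
      have hyx : dist y x < rho2 r Λ / 2 := hy
      have hzx : dist z x < rho2 r Λ := by
        have := hsum n
        linarith
      have hGn : 0 < G ^ n := by positivity
      have huz : 0 < u z := lt_of_lt_of_le (by positivity) hz2
      have hzΩ : z ∈ Ω := by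
        by_contra hzn
        rw [hu.zero z hzn] at huz
        exact lt_irrefl _ huz
      have hzy0 : dist z y0 < r / 4 := by
        have := dist_triangle z x y0
        linarith
      have hhz0 : 0 < h z := (c.mem z (by rw [mem_ball]; linarith)).1 hzΩ
      have hzb : h z < B0 * g ^ n := by
        by_contra hge
        rw [not_lt] at hge
        have h1 := c.compare_top hu hr1 hx hx0 hx1 (y := z) hzx hhz0
        have hBg : 0 < B0 * g ^ n := by positivity
        have h2 : (r / 8 / h z) ^ p ≤ (r / 8 / (B0 * g ^ n)) ^ p := by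
          apply Real.rpow_le_rpow (by positivity) _ hp.le
          exact div_le_div_of_nonneg_left (by positivity) hBg hge
        have h3 : (r / 8 / (B0 * g ^ n)) ^ p = (r / 8 / B0) ^ p * G ^ n := by
          have e1 : r / 8 / (B0 * g ^ n) = (r / 8 / B0) / g ^ n := by field_simp
          rw [e1, Real.div_rpow (by positivity) (by positivity)]
          have e2 : (g ^ n : ℝ) ^ p = (G ^ n)⁻¹ := by
            rw [← Real.rpow_natCast, ← Real.rpow_mul hg0.le, mul_comm, Real.rpow_mul hg0.le, hgp,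
              Real.rpow_natCast, inv_pow]
          rw [e2]; field_simp
        rw [h3] at h2
        have h4 : u z ≤ C3 * G ^ n * U := by
          calc u z ≤ CH R d ^ 2 * (r / 8 / h z) ^ p * U := h1
            _ ≤ CH R d ^ 2 * ((r / 8 / B0) ^ p * G ^ n) * U := by gcongr
            _ = C3 * G ^ n * U := by rw [hC3]; ring
        have h5 : C3 * G ^ n * U < G ^ n * u y := by
          calc C3 * G ^ n * U = G ^ n * (C3 * U) := by ring
            _ < G ^ n * u y := mul_lt_mul_of_pos_left hcon hGn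
        linarith
      have hgn : g ^ n ≤ 1 := pow_le_one₀ hg0.le hg1.le
      have hBn : B0 * g ^ n ≤ B0 := by nlinarith
      obtain ⟨z', hz'1, hz'2⟩ := hgrow Ω u r y0 e h c hu z (B0 * g ^ n)
        (by rw [mem_ball]; exact hzy0) hhz0 hzb (by linarith) (by linarith) huz
      refine ⟨z', ?_, ?_⟩
      · rw [Finset.sum_range_succ]
        have h1 : dist z' z < 4 * (B0 * g ^ n) := hz'1
        have := dist_triangle z' z x
        linarith
      · calc G ^ (n + 1) * u y = G * (G ^ n * u y) := by ring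
          _ ≤ G * u z := mul_le_mul_of_nonneg_left hz2 hG0.le
          _ ≤ u z' := hz'2
  obtain ⟨n, hn⟩ := pow_unbounded_of_one_lt (1 / u y) hG
  obtain ⟨z, _, hz⟩ := key n
  have := hu.le_one z
  rw [div_lt_iff₀ huy] at hn
  linarith

end Pool.Agent.ExtStar
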