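import Pool.Agent.ExtStar.Growth

set_option autoImplicit false

open MeasureTheory Metric Set Filter Topology

namespace Pool.Agent.ExtStar

variable {d : ℕ}

lemma cc_succ_le {j : ℕ} (hj : j ≠ 0) : cc d (j + 1) ≤ cc d j := by
  have := m_succ_le (d := d) hj one_pos (x := 0) (w := fun _ => 1)
    (locallyIntegrable_const _) (fun _ _ => zero_le_one)
  rwa [m_const one_pos, m_const one_pos, mul_one, mul_one] at this

lemma pp_mono (j : ℕ) {s t : ℝ} (h : s ≤ t) : pp j s ≤ pp j t := by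
  unfold pp
  exact pow_le_pow_left₀ (le_max_left _ _) (max_le_max le_rfl h) _

lemma pp_le_one {j : ℕ} {s : ℝ} (h : s ≤ 1) : pp j s ≤ 1 := by
  unfold pp
  exact pow_le_one₀ (le_max_left _ _) (max_le zero_le_one h)

lemma hasDerivAt_pp_shift (j : ℕ) (σ s : ℝ) :
    HasDerivAt (fun s => pp (j + 2) (s - σ)) (((j : ℝ) + 2) * pp (j + 1) (s - σ)) s := by
  have := (hasDerivAt_pp j (s - σ)).comp s ((hasDerivAt_id s).sub_const σ)
  exact this.congr_deriv (by simp)

/-- Laplacian of the shifted cube -/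
lemma lap_cube {w : E d → ℝ} {x : E d} (σ : ℝ) (hw : ContDiffAt ℝ 2 w x) :
    3 * pp 2 (w x - σ) * lap w x ≤ lap (fun y => pp 3 (w y - σ)) x := by
  have h := lap_comp (g := fun s => pp 3 (s - σ)) (g' := fun s => 3 * pp 2 (s - σ))
    (g'' := fun s => 3 * (2 * pp 1 (s - σ))) (w := w) (x := x)
    (fun s => by
      have := hasDerivAt_pp_shift 1 σ s
      refine this.congr_deriv ?_
      norm_num)
    (by
      have := (hasDerivAt_pp_shift 0 σ (w x)).const_mul 3
      refine this.congr_deriv ?_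
      norm_num) hw
  rw [h]
  have h1 : 0 ≤ ∑ i : Fin d, (fderiv ℝ w x (bv i)) ^ 2 := Finset.sum_nonneg fun i _ => sq_nonneg _
  have h2 : 0 ≤ pp 1 (w x - σ) := pp_nonneg _ _
  have h3 : 0 ≤ 3 * (2 * pp 1 (w x - σ)) * ∑ i : Fin d, (fderiv ℝ w x (bv i)) ^ 2 := by positivity
  linarith

lemma contDiff_cube {Ω : Set (E d)} (hΩ : IsOpen Ω) {w : E d → ℝ} (hwc : Continuous w)
    (hw0 : ∀ x ∉ Ω, w x ≤ 0) (hws : ContDiffOn ℝ 2 w Ω) {σ : ℝ} (hσ : 0 < σ) :
    ContDiff ℝ 2 (fun z => pp 3 (w z - σ)) := by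
  rw [contDiff_iff_contDiffAt]
  intro z
  by_cases hz : z ∈ Ω
  · have h1 : ContDiffAt ℝ 2 w z := hws.contDiffAt (hΩ.mem_nhds hz)
    have h2 : ContDiff ℝ 2 (pp 3) := contDiff_pp 3 2 (by norm_num)
    exact h2.contDiffAt.comp z (h1.sub contDiffAt_const)
  · have h1 : w z < σ := lt_of_le_of_lt (hw0 z hz) hσ
    have h2 : (fun z => pp 3 (w z - σ)) =ᶠ[𝓝 z] fun _ => 0 := by
      filter_upwards [hwc.continuousAt.eventually_lt_const h1] with y hy
      exact pp_of_nonpos (by norm_num) (by linarith)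
    exact contDiffAt_const.congr_of_eventuallyEq h2

lemma lap_cube_ge {Ω : Set (E d)} (hΩ : IsOpen Ω) {w : E d → ℝ} (hwc : Continuous w)
    (hw0 : ∀ x ∉ Ω, w x ≤ 0) (hw1 : ∀ x, w x ≤ 1) (hws : ContDiffOn ℝ 2 w Ω) {σ : ℝ} (hσ : 0 < σ)
    {L : ℝ} (hL : 0 ≤ L) (hlap : ∀ x ∈ Ω, 0 < w x → -(L * w x) ≤ lap w x) (z : E d) :
    -(3 * L) * (pp 3 (w z - σ) + σ) ≤ lap (fun z => pp 3 (w z - σ)) z := by
  have hp3 : 0 ≤ pp 3 (w z - σ) := pp_nonneg _ _
  have hneg : -(3 * L) * (pp 3 (w z - σ) + σ) ≤ 0 := by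
    have : 0 ≤ 3 * L * (pp 3 (w z - σ) + σ) := by positivity
    linarith
  by_cases hz : z ∈ Ω
  · have h1 := lap_cube σ (hws.contDiffAt (hΩ.mem_nhds hz))
    refine le_trans ?_ h1
    rcases le_or_gt (w z) σ with h | h
    · rw [pp_of_nonpos (j := 2) (by norm_num) (by linarith)]
      simpa using hneg
    · have h2 := hlap z hz (by linarith)
      have h3 : pp 2 (w z - σ) = (w z - σ) ^ 2 := pp_of_nonneg _ (by linarith)
      have h4 : pp 3 (w z - σ) = (w z - σ) ^ 3 := pp_of_nonneg _ (by linarith)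
      rw [h3, h4]
      have h5 : (w z - σ) ^ 2 ≤ 1 := by nlinarith [hw1 z]
      have h6 : 0 ≤ (w z - σ) ^ 2 := sq_nonneg _
      have h7 : 3 * (w z - σ) ^ 2 * (-(L * w z)) ≤ 3 * (w z - σ) ^ 2 * lap w z :=
        mul_le_mul_of_nonneg_left h2 (by positivity)
      refine le_trans ?_ h7
      have h8 : 0 ≤ L * σ * (1 - (w z - σ) ^ 2) := by
        have : 0 ≤ 1 - (w z - σ) ^ 2 := by linarith
        positivity
      nlinarith
  · have h1 : w z < σ := lt_of_le_of_lt (hw0 z hz) hσ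
    have h2 : (fun z => pp 3 (w z - σ)) =ᶠ[𝓝 z] fun _ => 0 := by
      filter_upwards [hwc.continuousAt.eventually_lt_const h1] with y hy
      exact pp_of_nonpos (by norm_num) (by linarith)
    rw [lap_congr h2]
    have : lap (fun _ : E d => (0 : ℝ)) z = 0 := by
      rw [lap_eq]; simp
    rw [this]
    exact hneg

/-- sub-mean-value inequality for cubes of positive parts of subsolutions, with no restriction
on the radius -/
theorem sub_mean_cube {Ω : Set (E d)} (hΩ : IsOpen Ω) {w : E d → ℝ} (hwc : Continuous w)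
    (hw0 : ∀ x ∉ Ω, w x ≤ 0) (hw1 : ∀ x, w x ≤ 1) (hws : ContDiffOn ℝ 2 w Ω)
    {L : ℝ} (hL : 0 ≤ L) (hlap : ∀ x ∈ Ω, 0 < w x → -(L * w x) ≤ lap w x) (x : E d)
    {t : ℝ} (ht : 0 < t) :
    cc d 2 * pp 3 (w x) ≤ Real.exp (L * t ^ 2 / 4) * m 2 (fun z => pp 3 (w z)) x t := by
  have hYc : Continuous (fun z => pp 3 (w z)) := (continuous_pp 3).comp hwc
  have key : ∀ σ : ℝ, 0 < σ → cc d 2 * pp 3 (w x - σ) ≤
      Real.exp (L * t ^ 2 / 4) * (m 2 (fun z => pp 3 (w z)) x t + cc d 2 * σ) := by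
    intro σ hσ
    set Y : E d → ℝ := fun z => pp 3 (w z - σ) with hY
    have hYsm : ContDiff ℝ 2 Y := contDiff_cube hΩ hwc hw0 hws hσ
    have hYc' : Continuous Y := hYsm.continuous
    have hYi : LocallyIntegrable Y volume := hYc'.locallyIntegrable
    set F : E d → ℝ := fun z => Y z + σ with hF
    have hFi : LocallyIntegrable F volume := (hYc'.add continuous_const).locallyIntegrable
    have hF0 : ∀ z, 0 ≤ F z := fun z => add_nonneg (pp_nonneg _ _) hσ.le
    have hFsm : ContDiff ℝ 2 F := hYsm.add contDiff_const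
    have hlapF : ∀ z, lap F z = lap Y z := by
      intro z
      have := lap_add (w := Y) (v := fun _ => σ) (x := z) hYsm.contDiffAt contDiffAt_const
      have h0 : lap (fun _ : E d => σ) z = 0 := by rw [lap_eq]; simp
      rw [h0, add_zero] at this
      exact this
    have hW : WGe univ F (fun z => -(3 * L) * F z) := by
      refine wge_of_contDiffOn isOpen_univ hFsm.contDiffOn ?_ ?_
      · exact (continuous_const.mul hFsm.continuous).locallyIntegrable
      · intro z _
        rw [hlapF]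
        exact lap_cube_ge hΩ hwc hw0 hw1 hws hσ hL hlap z
    have hder : ∀ s, 0 < s → ∃ D, HasDerivAt (m 2 F x) D s ∧ -(L / 2 * s * m 2 F x s) ≤ D := by
      intro s hs
      obtain ⟨D, hD, hD2⟩ := deriv_m_ge hW hFi 0 (x := x) hs (subset_univ _)
      refine ⟨D, hD, le_trans ?_ hD2⟩
      have e1 : m (0 + 3) (fun z => -(3 * L) * F z) x s = -(3 * L) * m 3 F x s := m_const_mul _
      rw [e1]
      have h1 : m 3 F x s ≤ m 2 F x s := m_succ_le (by norm_num) hs hFi (fun z _ => hF0 z)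
      have h2 : L / 2 * s * m 3 F x s ≤ L / 2 * s * m 2 F x s :=
        mul_le_mul_of_nonneg_left h1 (by positivity)
      have e2 : s / (2 * (((0 : ℕ) : ℝ) + 3)) * (-(3 * L) * m 3 F x s) =
        -(L / 2 * s * m 3 F x s) := by push_cast; ring
      rw [e2]
      linarith
    choose! D hD1 hD2 using hder
    have hlim := tendsto_m (j := 2) (by norm_num) hFi hFsm.continuous.continuousAt (x := x)
    have h := gronwall_aux (F := m 2 F x) (D := D) (C := L / 2) ht
      (fun s hs => hD1 s hs.1) (fun s hs => hD2 s hs.1) hlim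
    have e : L / 2 * t ^ 2 / 2 = L * t ^ 2 / 4 := by ring
    rw [e] at h
    have h1 : m 2 F x t ≤ m 2 (fun z => pp 3 (w z)) x t + cc d 2 * σ := by
      rw [← m_const ht x σ, ← m_add (by norm_num) ht hYc.locallyIntegrable
        (locallyIntegrable_const _)]
      refine m_mono (by norm_num) ht hFi ((hYc.add continuous_const).locallyIntegrable) ?_
      intro z _
      have : pp 3 (w z - σ) ≤ pp 3 (w z) := pp_mono 3 (by linarith)
      simp only [hF, hY]
      linarith
    have h2 : cc d 2 * pp 3 (w x - σ) ≤ cc d 2 * F x :=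
      mul_le_mul_of_nonneg_left (by simp only [hF, hY]; linarith) (cc_pos (by norm_num)).le
    calc cc d 2 * pp 3 (w x - σ) ≤ cc d 2 * F x := h2
      _ ≤ _ := h
      _ ≤ _ := mul_le_mul_of_nonneg_left h1 (Real.exp_pos _).le
  have l1 : Tendsto (fun σ : ℝ => cc d 2 * pp 3 (w x - σ)) (𝓝[>] 0) (𝓝 (cc d 2 * pp 3 (w x))) := by
    have : Continuous fun σ : ℝ => cc d 2 * pp 3 (w x - σ) :=
      continuous_const.mul ((continuous_pp 3).comp (continuous_const.sub continuous_id))
    have h := (this.tendsto 0).mono_left (nhdsWithin_le_nhds (s := Ioi 0))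
    simpa using h
  have l2 : Tendsto (fun σ : ℝ => Real.exp (L * t ^ 2 / 4) *
      (m 2 (fun z => pp 3 (w z)) x t + cc d 2 * σ)) (𝓝[>] 0)
      (𝓝 (Real.exp (L * t ^ 2 / 4) * m 2 (fun z => pp 3 (w z)) x t)) := by
    have : Continuous fun σ : ℝ => Real.exp (L * t ^ 2 / 4) *
      (m 2 (fun z => pp 3 (w z)) x t + cc d 2 * σ) := by fun_prop
    have h := (this.tendsto 0).mono_left (nhdsWithin_le_nhds (s := Ioi 0))
    simpa using h
  exact le_of_tendsto_of_tendsto l1 l2 (by
    filter_upwards [self_mem_nhdsWithin] with σ hσ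
    exact key σ hσ)

/-- improved sub-mean-value inequality where the function is strictly subharmonic -/
theorem super_growth_cube {U : Set (E d)} (hU : IsOpen U) {w : E d → ℝ} (hwc : Continuous w)
    (hws : ContDiffOn ℝ 2 w U) {c : ℝ} (hc : 0 ≤ c)
    (hlap : ∀ x ∈ U, 0 < w x → c * w x ≤ lap w x) {x : E d}
    {t : ℝ} (ht : 0 < t) (hb : closedBall x t ⊆ U) :
    pp 3 (w x) * (cc d 2 + c / 4 * cc d 3 * t ^ 2) ≤ m 2 (fun z => pp 3 (w z)) x t := by
  have hYc : Continuous (fun z => pp 3 (w z)) := (continuous_pp 3).comp hwc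
  have key : ∀ σ : ℝ, 0 < σ → pp 3 (w x - σ) * (cc d 2 + c / 4 * cc d 3 * t ^ 2) ≤
      m 2 (fun z => pp 3 (w z)) x t := by
    intro σ hσ
    set Y : E d → ℝ := fun z => pp 3 (w z - σ) with hY
    have hYc' : Continuous Y := (continuous_pp 3).comp (hwc.sub continuous_const)
    have hYi : LocallyIntegrable Y volume := hYc'.locallyIntegrable
    have hY0 : ∀ z, 0 ≤ Y z := fun z => pp_nonneg _ _
    have hYsm : ContDiffOn ℝ 2 Y U := by
      intro z hz
      have h1 : ContDiffAt ℝ 2 w z := hws.contDiffAt (hU.mem_nhds hz)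
      have h2 : ContDiff ℝ 2 (pp 3) := contDiff_pp 3 2 (by norm_num)
      exact (h2.contDiffAt.comp z (h1.sub contDiffAt_const)).contDiffWithinAt
    have hW : WGe U Y (fun z => (3 * c) * Y z) := by
      refine wge_of_contDiffOn hU hYsm ((continuous_const.mul hYc').locallyIntegrable) ?_
      intro z hz
      refine le_trans ?_ (lap_cube σ (hws.contDiffAt (hU.mem_nhds hz)))
      rcases le_or_gt (w z) σ with h | h
      · simp only [hY]
        rw [pp_of_nonpos (j := 2) (by norm_num) (by linarith),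
          pp_of_nonpos (j := 3) (by norm_num) (by linarith)]
        simp
      · have h2 := hlap z hz (by linarith)
        have h3 : pp 2 (w z - σ) = (w z - σ) ^ 2 := pp_of_nonneg _ (by linarith)
        have h4 : Y z = (w z - σ) ^ 3 := pp_of_nonneg _ (by linarith)
        rw [h3, h4]
        have h7 : 3 * (w z - σ) ^ 2 * (c * w z) ≤ 3 * (w z - σ) ^ 2 * lap w z :=
          mul_le_mul_of_nonneg_left h2 (by positivity)
        refine le_trans ?_ h7
        have h8 : 0 ≤ c * σ * (w z - σ) ^ 2 := by positivity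
        nlinarith
    have hder : ∀ (i : ℕ) (s : ℝ), s ∈ Ioc 0 t → ∃ D, HasDerivAt (m (i + 2) Y x) D s ∧
        (s / (2 * ((i : ℝ) + 3))) * (3 * c * m (i + 3) Y x s) ≤ D := by
      intro i s hs
      obtain ⟨D, hD, hD2⟩ := deriv_m_ge hW hYi i (x := x) hs.1
        ((closedBall_subset_closedBall hs.2).trans hb)
      refine ⟨D, hD, ?_⟩
      have e1 : m (i + 3) (fun z => (3 * c) * Y z) x s = (3 * c) * m (i + 3) Y x s := m_const_mul _
      rw [e1] at hD2
      exact hD2
    have hm3 : ∀ s ∈ Ioc 0 t, cc d 3 * Y x ≤ m 3 Y x s := by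
      intro s hs
      have hh : ∀ r ∈ Ioc 0 s, ∃ D, HasDerivAt (m 3 Y x) D r ∧ 0 ≤ D := by
        intro r hr
        obtain ⟨D, hD, hD2⟩ := hder 1 r ⟨hr.1, hr.2.trans hs.2⟩
        refine ⟨D, hD, le_trans ?_ hD2⟩
        have : 0 ≤ m (1 + 3) Y x r := m_nonneg (by norm_num) hr.1 (fun z _ => hY0 z)
        have hr1 := hr.1
        positivity
      choose! D hD1 hD2 using hh
      exact mono_aux hs.1 hD1 hD2 (tendsto_m (by norm_num) hYi hYc'.continuousAt)
    have hm2 : cc d 2 * Y x + (c / 2 * cc d 3 * Y x) * t ^ 2 / 2 ≤ m 2 Y x t := by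
      have hh : ∀ s ∈ Ioc 0 t, ∃ D, HasDerivAt (m 2 Y x) D s ∧ (c / 2 * cc d 3 * Y x) * s ≤ D := by
        intro s hs
        obtain ⟨D, hD, hD2⟩ := hder 0 s hs
        refine ⟨D, hD, le_trans ?_ hD2⟩
        have h3 := hm3 s hs
        have hs1 := hs.1
        have e : s / (2 * (((0 : ℕ) : ℝ) + 3)) * (3 * c * m (0 + 3) Y x s) =
          c / 2 * s * m 3 Y x s := by push_cast; ring
        rw [e]
        calc (c / 2 * cc d 3 * Y x) * s = c / 2 * s * (cc d 3 * Y x) := by ring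
          _ ≤ c / 2 * s * m 3 Y x s := mul_le_mul_of_nonneg_left h3 (by positivity)
      choose! D hD1 hD2 using hh
      exact growth_aux ht hD1 hD2 (tendsto_m (by norm_num) hYi hYc'.continuousAt)
    have hle : m 2 Y x t ≤ m 2 (fun z => pp 3 (w z)) x t :=
      m_mono (by norm_num) ht hYi hYc.locallyIntegrable (fun z _ => pp_mono 3 (by linarith))
    calc pp 3 (w x - σ) * (cc d 2 + c / 4 * cc d 3 * t ^ 2)
        = cc d 2 * Y x + (c / 2 * cc d 3 * Y x) * t ^ 2 / 2 := by simp only [hY]; ring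
      _ ≤ _ := hm2
      _ ≤ _ := hle
  have l1 : Tendsto (fun σ : ℝ => pp 3 (w x - σ) * (cc d 2 + c / 4 * cc d 3 * t ^ 2)) (𝓝[>] 0)
      (𝓝 (pp 3 (w x) * (cc d 2 + c / 4 * cc d 3 * t ^ 2))) := by
    have : Continuous fun σ : ℝ => pp 3 (w x - σ) * (cc d 2 + c / 4 * cc d 3 * t ^ 2) :=
      ((continuous_pp 3).comp (continuous_const.sub continuous_id)).mul continuous_const
    have h := (this.tendsto 0).mono_left (nhdsWithin_le_nhds (s := Ioi 0))
    simpa using h
  exact le_of_tendsto l1 (by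
    filter_upwards [self_mem_nhdsWithin] with σ hσ
    exact key σ hσ)

end Pool.Agent.ExtStar
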