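import Pool.Agent.ExtStar.Resolv3
import Pool.Agent.ExtStar.SubMean

set_option autoImplicit false

open MeasureTheory Metric Set Filter Topology

namespace Pool.Agent.ExtStar

variable {d : ℕ}

/-- `Δ w = g` weakly in `U` -/
def WEq (U : Set (E d)) (w g : E d → ℝ) : Prop :=
  ∀ φ : E d → ℝ, ContDiff ℝ 2 φ → HasCompactSupport φ → tsupport φ ⊆ U →
    ∫ z, w z * lap φ z = ∫ z, g z * φ z

lemma WEq.toWGe {U : Set (E d)} {w g : E d → ℝ} (h : WEq U w g) : WGe U w g :=
  fun φ h1 h2 h3 _ => (h φ h1 h2 h3).ge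

lemma WEq.mono {U U' : Set (E d)} {w g : E d → ℝ} (h : WEq U w g) (hU : U' ⊆ U) : WEq U' w g :=
  fun φ h1 h2 h3 => h φ h1 h2 (h3.trans hU)

lemma WEq.congr {U : Set (E d)} {w g g' : E d → ℝ} (h : WEq U w g) (hg : ∀ x ∈ U, g x = g' x) :
    WEq U w g' := by
  intro φ h1 h2 h3
  rw [h φ h1 h2 h3]
  refine integral_congr_ae (Eventually.of_forall fun z => ?_)
  simp only
  by_cases hz : z ∈ U
  · rw [hg z hz]
  · have : φ z = 0 := image_eq_zero_of_notMem_tsupport (fun h => hz (h3 h))
    rw [this, mul_zero, mul_zero]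

/-- weak maximum principle on the whole space -/
theorem weak_max {Λ M0 : ℝ} (hΛ : 0 < Λ) {z : E d → ℝ} (hz : Continuous z) (hM : ∀ x, z x ≤ M0)
    (h : WGe univ z (fun x => Λ * z x)) : ∀ x, z x ≤ 0 := by
  by_contra hcon
  push Not at hcon
  obtain ⟨x1, hx1⟩ := hcon
  have hcc2 : 0 < cc d 2 := cc_pos (by norm_num)
  have hcc3 : 0 < cc d 3 := cc_pos (by norm_num)
  have hbdd : BddAbove (range z) := ⟨M0, by rintro _ ⟨x, rfl⟩; exact hM x⟩
  set M := ⨆ x, z x with hMd
  have hle : ∀ x, z x ≤ M := fun x => le_ciSup hbdd x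
  have hMpos : 0 < M := hx1.trans_le (hle x1)
  have hli : LocallyIntegrable z volume := hz.locallyIntegrable
  have hexp : Real.exp (-(Λ / 12)) < 1 := by
    rw [Real.exp_lt_one_iff]; linarith
  have key : ∀ x, cc d 2 * z x ≤ (cc d 2 - cc d 3) * M + Real.exp (-(Λ / 12)) * (cc d 3 * M) := by
    intro x
    have hd : ∀ t : ℝ, 0 < t → HasDerivAt (m 2 z x) (deriv (m 2 z x) t) t ∧
        (t / 6) * m 3 (fun y => Λ * z y) x t ≤ deriv (m 2 z x) t := by
      intro t ht
      obtain ⟨D, hD, hD2⟩ := deriv_m_ge h hli 0 (x := x) ht (subset_univ _)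
      have e : t / (2 * (((0:ℕ) : ℝ) + 3)) = t / 6 := by push_cast; ring
      rw [e] at hD2
      have hD' : HasDerivAt (m 2 z x) D t := hD
      rw [hD'.deriv]
      exact ⟨hD', hD2⟩
    have hm3 : ∀ t : ℝ, 0 < t → m 2 z x t - (cc d 2 - cc d 3) * M ≤ m 3 z x t := by
      intro t ht
      have h1 : m 3 (fun y => M - z y) x t ≤ m 2 (fun y => M - z y) x t :=
        m_succ_le (by norm_num) ht (continuous_const.sub hz).locallyIntegrable
          (fun y _ => by have := hle y; linarith)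
      rw [m_sub (by norm_num) ht (locallyIntegrable_const _) hli,
        m_sub (by norm_num) ht (locallyIntegrable_const _) hli, m_const ht, m_const ht] at h1
      linarith
    have hg := gronwall_aux (F := fun t => m 2 z x t - (cc d 2 - cc d 3) * M)
      (D := fun t => deriv (m 2 z x) t) (C := -(Λ / 6)) (T := 1)
      (F0 := cc d 2 * z x - (cc d 2 - cc d 3) * M) one_pos
      (fun t ht => (hd t ht.1).1.sub_const _) ?_
      ((tendsto_m (by norm_num) hli hz.continuousAt).sub_const _)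
    · have e : Real.exp (-(Λ / 6) * 1 ^ 2 / 2) = Real.exp (-(Λ / 12)) := by congr 1; ring
      rw [e] at hg
      have h2 : m 2 z x 1 ≤ cc d 2 * M := m_le (by norm_num) one_pos hli (fun y _ => hle y)
      have h3 : Real.exp (-(Λ / 12)) * (m 2 z x 1 - (cc d 2 - cc d 3) * M) ≤
          Real.exp (-(Λ / 12)) * (cc d 3 * M) :=
        mul_le_mul_of_nonneg_left (by linarith) (Real.exp_pos _).le
      linarith
    · intro t ht
      have h4 := (hd t ht.1).2
      rw [m_const_mul] at h4
      have h5 := hm3 t ht.1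
      have h6 : t / 6 * (Λ * (m 2 z x t - (cc d 2 - cc d 3) * M)) ≤ t / 6 * (Λ * m 3 z x t) := by
        have := ht.1
        gcongr
      have e : -(-(Λ / 6) * t * (m 2 z x t - (cc d 2 - cc d 3) * M)) =
        t / 6 * (Λ * (m 2 z x t - (cc d 2 - cc d 3) * M)) := by ring
      rw [e]
      linarith
  have h7 : cc d 2 * M ≤ (cc d 2 - cc d 3) * M + Real.exp (-(Λ / 12)) * (cc d 3 * M) := by
    have : M ≤ ((cc d 2 - cc d 3) * M + Real.exp (-(Λ / 12)) * (cc d 3 * M)) / cc d 2 := by
      have : Nonempty (E d) := ⟨0⟩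
      refine ciSup_le fun x => ?_
      rw [le_div_iff₀ hcc2]
      have := key x
      linarith
    rw [le_div_iff₀ hcc2] at this
    linarith
  have h8 : 0 < cc d 3 * M := by positivity
  nlinarith

lemma integrable_test {g φ : E d → ℝ} (hg : Continuous g) (hφ : Continuous φ)
    (hc : HasCompactSupport φ) : Integrable (fun x => g x * φ x) volume :=
  (hg.mul hφ).integrable_of_hasCompactSupport hc.mul_left

/-- comparison for the operator `Λ - Δ` -/
theorem compar {Λ : ℝ} (hΛ : 0 < Λ) {w1 w2 h1 h2 : E d → ℝ} {M1 M2 : ℝ}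
    (c1 : Continuous w1) (c2 : Continuous w2) (k1 : Continuous h1) (k2 : Continuous h2)
    (b1 : ∀ x, w1 x ≤ M1) (b2 : ∀ x, M2 ≤ w2 x)
    (H1 : WGe univ w1 (fun x => Λ * w1 x - h1 x)) (H2 : WEq univ w2 (fun x => Λ * w2 x - h2 x))
    (hle : ∀ x, h1 x ≤ h2 x) : ∀ x, w1 x ≤ w2 x := by
  have key := weak_max hΛ (z := fun x => w1 x - w2 x) (M0 := M1 - M2) (c1.sub c2)
    (fun x => by have := b1 x; have := b2 x; linarith) ?_
  · intro x; have := key x; linarith
  · intro φ hφ hc hs h0
    have e1 := H1 φ hφ hc hs h0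
    have e2 := H2 φ hφ hc hs
    have cl := continuous_lap hφ
    have sl := hasCompactSupport_lap hc
    have I1 : Integrable (fun x => w1 x * lap φ x) volume := integrable_test c1 cl sl
    have I2 : Integrable (fun x => w2 x * lap φ x) volume := integrable_test c2 cl sl
    have J1 : Integrable (fun x => (Λ * w1 x - h1 x) * φ x) volume :=
      integrable_test (by fun_prop) hφ.continuous hc
    have J2 : Integrable (fun x => (Λ * w2 x - h2 x) * φ x) volume :=
      integrable_test (by fun_prop) hφ.continuous hc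
    have J3 : Integrable (fun x => (Λ * (w1 x - w2 x)) * φ x) volume :=
      integrable_test (by fun_prop) hφ.continuous hc
    have e3 : ∫ x, (w1 x - w2 x) * lap φ x =
        (∫ x, w1 x * lap φ x) - ∫ x, w2 x * lap φ x := by
      rw [← integral_sub I1 I2]
      refine integral_congr_ae (Eventually.of_forall fun x => ?_)
      simp only
      ring
    rw [e3, e2]
    have e4 : ∫ x, (Λ * (w1 x - w2 x)) * φ x ≤
        (∫ x, (Λ * w1 x - h1 x) * φ x) - ∫ x, (Λ * w2 x - h2 x) * φ x := by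
      rw [← integral_sub J1 J2]
      refine integral_mono J3 (J1.sub J2) (fun x => ?_)
      have := mul_le_mul_of_nonneg_right (hle x) (h0 x)
      simp only
      linarith
    linarith

lemma Gr_props {Λ : ℝ} (hΛ : 0 < Λ) {h : E d → ℝ} {C : ℝ} (hc : Continuous h)
    (hC : ∀ x, |h x| ≤ C) : Continuous (Gr Λ h) ∧ (∃ D, ∀ x, |Gr Λ h x| ≤ D) ∧
      WEq univ (Gr Λ h) (fun x => Λ * Gr Λ h x - h x) := by
  have := Gr_aux hΛ hc hC
  exact ⟨this.1, this.2.1, fun φ h1 h2 _ => this.2.2 φ h1 h2⟩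

end Pool.Agent.ExtStar
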