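import Pool.Agent.ExtStar.Thin

set_option autoImplicit false

open MeasureTheory Metric Set Filter Topology

namespace Pool.Agent.ExtStar

variable {d : ℕ}

lemma LipDom.toChart {Ω : Set (E d)} {r Λ : ℝ} (hL : LipDom Ω r Λ) {y : E d}
    (hy : y ∈ frontier Ω) : ∃ (e : E d) (h : E d → ℝ), Chart Ω r Λ y e h := by
  obtain ⟨e, h, he, hlip, htr, h0, hm⟩ := hL.chart y hy
  exact ⟨e, h, ⟨hL.hr, hL.hΛ, hL.isOpen, he, hlip, htr, h0, hm⟩⟩

/-- Control of `u - a` near points where `u` is tiny. -/
theorem degen (R : RD) {Ω : Set (E d)} {r Λ : ℝ} (hL : LipDom Ω r Λ) (hr1 : r ≤ 1) :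
    ∃ C5 T5 δ5 : ℝ, 0 < C5 ∧ 0 < T5 ∧ 0 < δ5 ∧ δ5 ≤ 1 ∧ ∀ δ, 0 < δ → δ ≤ δ5 → ∃ c : ℝ, 0 < c ∧
      ∀ (u a : E d → ℝ) (K : ℝ), Sol R Ω u → Sup R Ω K a → ∀ x : E d, ball x δ ⊆ Ω → u x < c →
        (∀ z ∈ ball x 1, ball z δ ⊆ Ω → u z ≤ a z ∨ 1 - R.e1 ≤ a z) →
        ∀ y ∈ ball x T5, u y - a y ≤ C5 * δ ^ 3 * u x := by
  have hr := hL.hr
  have hΛ := hL.hΛ
  have hΩ := hL.isOpen
  have hcc : 0 < cc d 2 := cc_pos (by norm_num)
  have hω := ω_pos d
  have he1 := R.he1
  have he1' := R.he1'
  obtain ⟨C3, hC3, hcarl⟩ := carleson R d hr hr1 hΛ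
  have hp := pexp_pos R d hΛ
  set p := pexp R d Λ with hpdef
  have hCH := one_lt_CH R d
  set ρ3 : ℝ := r / (16 * Λ) with hρ3
  have hρ3pos : 0 < ρ3 := by positivity
  have hρ3r : ρ3 ≤ r / 16 := by
    rw [hρ3]; apply div_le_div_of_nonneg_left hr.le (by norm_num) (by linarith)
  set ρ2 : ℝ := rho2 r Λ with hρ2
  have hρ2pos : 0 < ρ2 := by rw [hρ2]; unfold rho2; positivity
  have hρ2r : ρ2 ≤ r / 128 := by
    have h1 : (1 + Λ) * ρ2 = r / (64 * Λ) := by
      rw [hρ2]; unfold rho2
      have : 1 + Λ ≠ 0 := by positivity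
      field_simp
    have h3 : r / (64 * Λ) ≤ r / 64 := by
      apply div_le_div_of_nonneg_left hr.le (by norm_num) (by linarith)
    nlinarith
  -- number of steps
  obtain ⟨k, hk⟩ := exists_nat_ge (3 * p + 9)
  have hkpos : (0:ℝ) < k := by linarith
  set s : ℝ := ρ2 / (4 * k) with hs
  have hspos : 0 < s := by positivity
  have hks : k * s = ρ2 / 4 := by rw [hs]; field_simp
  have hsρ2 : s ≤ ρ2 / 4 := by
    rw [← hks]
    have : (1:ℝ) ≤ k := by linarith
    nlinarith
  set C6 : ℝ := Real.exp (R.L / 4) * 2 ^ (d + 1) * ω d / cc d 2 with hC6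
  have hC6pos : 0 < C6 := by positivity
  set C7 : ℝ := (C6 * (Λ / s)) ^ k * (C3 * CH R d * (r / 8) ^ p) ^ 3 with hC7
  have hr8p : 0 < (r / 8) ^ p := Real.rpow_pos_of_pos (by positivity) _
  have hC7pos : 0 < C7 := by positivity
  set C5 : ℝ := max 1 C7 with hC5
  have hC5one : 1 ≤ C5 := le_max_left _ _
  have hC57 : C7 ≤ C5 ^ 3 := by
    have h1 : C7 ≤ C5 := le_max_right _ _
    have h2 : C5 ≤ C5 ^ 3 := by nlinarith [mul_nonneg (sub_nonneg.2 hC5one) (sub_nonneg.2 hC5one)]
    linarith
  set δ5 : ℝ := min (s / Λ) (ρ3 / 2) with hδ5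
  have hδ5pos : 0 < δ5 := lt_min (by positivity) (by positivity)
  refine ⟨C5, min (ρ3 / 8) (ρ2 / 4), δ5, by positivity, lt_min (by positivity) (by positivity),
    hδ5pos, ?_, ?_⟩
  · refine (min_le_right _ _).trans ?_
    linarith
  intro δ hδ hδle
  have hδs : Λ * δ ≤ s := by
    have : δ ≤ s / Λ := hδle.trans (min_le_left _ _)
    rw [le_div_iff₀ (by linarith)] at this
    linarith
  have hδρ : δ ≤ ρ3 / 2 := hδle.trans (min_le_right _ _)
  have hrδ : 0 < (r / 8 / δ) ^ p := Real.rpow_pos_of_pos (by positivity) _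
  set c : ℝ := min ((1 - R.e1) / CH R d) ((1 - R.e1) / (C3 * CH R d * (r / 8 / δ) ^ p)) with hc
  have hcpos : 0 < c := by
    have : 0 < 1 - R.e1 := by linarith
    exact lt_min (by positivity) (by positivity)
  refine ⟨c, hcpos, ?_⟩
  intro u a K hu ha x hxδ hux hcond y hy
  have hxΩ : x ∈ Ω := hxδ (mem_ball_self hδ)
  have huxpos : 0 < u x := hu.pos x hxΩ
  by_cases hint : ball x ρ3 ⊆ Ω
  · -- interior case
    have hyx : dist y x < ρ3 / 8 := lt_of_lt_of_le (mem_ball.1 hy) (min_le_left _ _)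
    have hyδ : ball y δ ⊆ Ω := by
      refine subset_trans ?_ hint
      refine ball_subset_ball' ?_
      linarith
    have h1 := (hu.harnack_ball hΩ hρ3pos (by linarith) hint (z' := y)
      (by rw [dist_comm]; exact hyx.le)).1
    have h2 : CH R d * u x < 1 - R.e1 := by
      have : u x < (1 - R.e1) / CH R d := lt_of_lt_of_le hux (min_le_left _ _)
      rw [lt_div_iff₀ (by linarith)] at this
      linarith
    have h3 : u y ≤ a y := by
      rcases hcond y (by rw [mem_ball]; linarith) hyδ with h | h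
      · exact h
      · linarith
    have : 0 ≤ C5 * δ ^ 3 * u x := by positivity
    linarith
  · obtain ⟨y0, hy0, hy0x⟩ := exists_frontier hΩ hxΩ hρ3pos hint
    obtain ⟨e, h, ch⟩ := hL.toChart hy0
    have hxy0 : dist x y0 < ρ3 := by rw [dist_comm]; exact hy0x
    have hxb : x ∈ ball y0 (r / 8) := by rw [mem_ball]; linarith
    have hhx0 : 0 < h x := (ch.mem x (by rw [mem_ball]; linarith)).1 hxΩ
    have hhx1 : h x ≤ r / 16 := by
      have h1 := (abs_le.1 (ch.lip x y0)).2
      rw [ch.h0, sub_zero] at h1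
      have h2 : Λ * dist x y0 ≤ Λ * ρ3 := mul_le_mul_of_nonneg_left hxy0.le (by linarith)
      have h3 : Λ * ρ3 = r / 16 := by rw [hρ3]; field_simp
      linarith
    have hhxδ : δ ≤ h x := by
      by_contra hcon
      rw [not_le] at hcon
      have h1 : x + (-(h x)) • e ∈ ball x δ := by
        rw [mem_ball, dist_add_smul ch, abs_neg, abs_of_pos hhx0]
        exact hcon
      have h2 : x + (-(h x)) • e ∈ ball y0 r := by
        rw [mem_ball]
        have h3 := dist_triangle (x + (-(h x)) • e) x y0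
        rw [dist_add_smul ch, abs_neg, abs_of_pos hhx0] at h3
        linarith
      have h4 := (ch.mem _ h2).1 (hxδ h1)
      rw [ch.tr] at h4
      linarith
    -- Carleson
    set M : ℝ := C3 * CH R d * (r / 8 / δ) ^ p * u x with hM
    have hM0 : 0 < M := by positivity
    have hMle : ∀ z ∈ ball x (ρ2 / 2), u z ≤ M := by
      intro z hz
      have h1 := hcarl Ω u y0 e h ch hu x hxb hhx0 hhx1 z hz
      have h2 := (ch.to_top hu hr1 (z := x) (by rw [mem_ball]; linarith) hhx0 (by linarith)).1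
      have h3 : (r / 8 / h x) ^ p ≤ (r / 8 / δ) ^ p := by
        apply Real.rpow_le_rpow (by positivity) _ hp.le
        exact div_le_div_of_nonneg_left (by positivity) hδ hhxδ
      calc u z ≤ C3 * u (top r e h x) := h1
        _ ≤ C3 * (CH R d * (r / 8 / h x) ^ p * u x) := mul_le_mul_of_nonneg_left h2 hC3.le
        _ ≤ C3 * (CH R d * (r / 8 / δ) ^ p * u x) := by gcongr
        _ = M := by rw [hM]; ring
    have hMlt : M < 1 - R.e1 := by
      have : u x < (1 - R.e1) / (C3 * CH R d * (r / 8 / δ) ^ p) :=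
        lt_of_lt_of_le hux (min_le_right _ _)
      rw [lt_div_iff₀ (by positivity)] at this
      rw [hM]; linarith
    -- thin support
    have hthin : ∀ z ∈ ball x (ρ2 / 2), ¬ (0 < h z ∧ h z ≤ Λ * δ) → u z ≤ a z := by
      intro z hz hnot
      by_contra hlt
      rw [not_le] at hlt
      have hzx : dist z x < ρ2 / 2 := hz
      have hzy0 : dist z y0 < r / 4 := by
        have := dist_triangle z x y0
        linarith
      have hzΩ : z ∈ Ω := by
        by_contra hzn
        have h1 := ha.w_nonpos hu z hzn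
        linarith
      have hhz : 0 < h z := (ch.mem z (by rw [mem_ball]; linarith)).1 hzΩ
      have hnb : ¬ ball z δ ⊆ Ω := by
        intro hb
        rcases hcond z (by rw [mem_ball]; linarith) hb with h1 | h1
        · linarith
        · have := hMle z hz
          linarith
      obtain ⟨z', hz', hz'Ω⟩ := not_subset.1 hnb
      have hz'z : dist z' z < δ := hz'
      have hz'y0 : z' ∈ ball y0 r := by
        rw [mem_ball]
        have := dist_triangle z' z y0
        linarith
      have h2 : h z' ≤ 0 := by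
        by_contra h3
        rw [not_le] at h3
        exact hz'Ω ((ch.mem z' hz'y0).2 h3)
      have h3 := (abs_le.1 (ch.lip z' z)).1
      have h4 : Λ * dist z' z ≤ Λ * δ := mul_le_mul_of_nonneg_left hz'z.le (by linarith)
      exact hnot ⟨hhz, by linarith⟩
    -- iteration
    have hiter : ∀ j : ℕ, ∀ z : E d, dist z x + j * s < ρ2 / 2 →
        pp 3 (u z - a z) ≤ (C6 * (Λ * δ / s)) ^ j * M ^ 3 := by
      intro j
      induction j with
      | zero =>
        intro z hz
        simp only [Nat.cast_zero, zero_mul, add_zero] at hz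
        rw [pow_zero, one_mul]
        have h1 := hMle z hz
        have h2 := ha.nonneg z
        calc pp 3 (u z - a z) ≤ pp 3 M := pp_mono 3 (by linarith)
          _ = M ^ 3 := pp_of_nonneg _ hM0.le
      | succ j ih =>
        intro z hz
        push_cast at hz
        have h1 := ch.thin_decay hu ha (y := z) (s := s) (b := Λ * δ)
          (S := (C6 * (Λ * δ / s)) ^ j * M ^ 3) (by positivity) hδs (by linarith) (by positivity)
          ?_ ?_
        · rw [pow_succ]
          calc _ ≤ _ := h1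
            _ = _ := by rw [hC6]; ring
        · intro z' hz'
          refine ih z' ?_
          have h2 : dist z' z < s := hz'
          have := dist_triangle z' z x
          linarith
        · intro z' hz' hnot
          refine hthin z' ?_ hnot
          have h2 : dist z' z < s := hz'
          have h3 := dist_triangle z' z x
          have h4 : 0 ≤ (j:ℝ) * s := by positivity
          rw [mem_ball]; linarith
    have hyx : dist y x < ρ2 / 4 := lt_of_lt_of_le (mem_ball.1 hy) (min_le_right _ _)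
    have hfin := hiter k y (by rw [hks]; linarith)
    -- compute
    have hδ1 : δ ≤ 1 := by linarith
    have hbound : (C6 * (Λ * δ / s)) ^ k * M ^ 3 ≤ (C5 * δ ^ 3 * u x) ^ 3 := by
      have e1 : (r / 8 / δ) ^ p = (r / 8) ^ p * (δ ^ p)⁻¹ := by
        rw [Real.div_rpow (by positivity) hδ.le]; rfl
      have e2 : (C6 * (Λ * δ / s)) ^ k * M ^ 3 =
          C7 * (δ ^ k * ((δ ^ p)⁻¹) ^ 3) * u x ^ 3 := by
        rw [hM, e1, hC7]
        have : C6 * (Λ * δ / s) = C6 * (Λ / s) * δ := by ring
        rw [this, mul_pow (C6 * (Λ / s)) δ k]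
        ring
      have e3 : δ ^ k * ((δ ^ p)⁻¹) ^ 3 ≤ δ ^ 9 := by
        have h1 : ((δ ^ p)⁻¹) ^ 3 = δ ^ (-(3 * p)) := by
          rw [← Real.rpow_neg hδ.le, ← Real.rpow_natCast, ← Real.rpow_mul hδ.le]
          congr 1; push_cast; ring
        rw [h1, ← Real.rpow_natCast, ← Real.rpow_natCast, ← Real.rpow_add hδ]
        apply Real.rpow_le_rpow_of_exponent_ge hδ hδ1
        push_cast
        linarith
      rw [e2]
      have hux3 : 0 < u x ^ 3 := by positivity
      calc C7 * (δ ^ k * ((δ ^ p)⁻¹) ^ 3) * u x ^ 3 ≤ C7 * δ ^ 9 * u x ^ 3 := by gcongr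
        _ ≤ C5 ^ 3 * δ ^ 9 * u x ^ 3 := by gcongr
        _ = _ := by ring
    have hall := hfin.trans hbound
    by_contra hcon
    rw [not_le] at hcon
    have h0 : 0 < C5 * δ ^ 3 * u x := by positivity
    rw [pp_of_nonneg _ (by linarith)] at hall
    have := pow_lt_pow_left₀ hcon h0.le (by norm_num : 3 ≠ 0)
    linarith

end Pool.Agent.ExtStar
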