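import Pool.Agent.ExtStar.Degen

set_option autoImplicit false

open MeasureTheory Metric Set Filter Topology

namespace Pool.Agent.ExtStar

variable {d : ℕ}

/-- dilation about `x₀` -/
noncomputable def dil (x₀ : E d) (κ : ℝ) (x : E d) : E d := x₀ + κ • (x - x₀)

/-- outward invariance under dilations -/
def Star (x₀ : E d) (Ω : Set (E d)) : Prop := ∀ x ∈ Ω, ∀ κ : ℝ, 1 ≤ κ → dil x₀ κ x ∈ Ω

lemma dil_one (x₀ x : E d) : dil x₀ 1 x = x := by unfold dil; simp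

lemma continuous_dil (x₀ : E d) (κ : ℝ) : Continuous (dil x₀ κ) := by unfold dil; fun_prop

lemma continuous_dil' (x₀ x : E d) : Continuous (fun κ => dil x₀ κ x) := by unfold dil; fun_prop

lemma dist_dil (x₀ : E d) {κ : ℝ} (hκ : 0 ≤ κ) (x y : E d) :
    dist (dil x₀ κ x) (dil x₀ κ y) = κ * dist x y := by
  unfold dil
  rw [dist_add_left, dist_smul₀, Real.norm_eq_abs, abs_of_nonneg hκ, dist_sub_right]

lemma dist_dil' (x₀ : E d) (κ κ' : ℝ) (x : E d) :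
    dist (dil x₀ κ x) (dil x₀ κ' x) = |κ - κ'| * ‖x - x₀‖ := by
  unfold dil
  rw [dist_add_left, dist_eq_norm, ← sub_smul, norm_smul, Real.norm_eq_abs]

lemma Star.ball {x₀ : E d} {Ω : Set (E d)} (hs : Star x₀ Ω) {x : E d} {δ κ : ℝ} (hκ : 1 ≤ κ)
    (hb : ball x δ ⊆ Ω) : Metric.ball (dil x₀ κ x) (κ * δ) ⊆ Ω := by
  intro z hz
  have hκ0 : 0 < κ := by linarith
  set z' : E d := dil x₀ κ⁻¹ z with hz'
  have h1 : dil x₀ κ z' = z := by
    rw [hz']; unfold dil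
    rw [add_sub_cancel_left, smul_smul, mul_inv_cancel₀ hκ0.ne', one_smul]
    abel
  have h2 : dist z' x < δ := by
    have h3 := dist_dil x₀ hκ0.le z' x
    rw [h1] at h3
    have h4 : dist z (dil x₀ κ x) < κ * δ := hz
    rw [h3] at h4
    exact lt_of_mul_lt_mul_left h4 hκ0.le
  rw [← h1]
  exact hs z' (hb h2) κ hκ

lemma Star.ball' {x₀ : E d} {Ω : Set (E d)} (hs : Star x₀ Ω) {x : E d} {δ κ : ℝ} (hκ : 1 ≤ κ)
    (hδ : 0 ≤ δ) (hb : Metric.ball x δ ⊆ Ω) : Metric.ball (dil x₀ κ x) δ ⊆ Ω :=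
  (ball_subset_ball (by nlinarith)).trans (hs.ball hκ hb)

lemma lap_dil (x₀ : E d) (κ : ℝ) {v : E d → ℝ} {x : E d} (hv : ContDiffAt ℝ 2 v (dil x₀ κ x)) :
    lap (fun y => v (dil x₀ κ y)) x = κ ^ 2 * lap v (dil x₀ κ x) := by
  have hD : ∀ y, HasFDerivAt (dil x₀ κ) (κ • ContinuousLinearMap.id ℝ (E d)) y := by
    intro y
    have h1 : HasFDerivAt (fun y : E d => y - x₀) (ContinuousLinearMap.id ℝ (E d)) y :=
      (hasFDerivAt_id y).sub_const x₀
    exact (h1.const_smul κ).const_add x₀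
  have hcont : ContinuousAt (dil x₀ κ) x := (hD x).continuousAt
  have h1 : fderiv ℝ (fun y => v (dil x₀ κ y)) =ᶠ[𝓝 x] fun y => κ • fderiv ℝ v (dil x₀ κ y) := by
    have : ∀ᶠ y in 𝓝 x, ContDiffAt ℝ 2 v (dil x₀ κ y) :=
      hcont.eventually (hv.eventually (by simp))
    filter_upwards [this] with y hy
    have h2 := (hy.differentiableAt (by norm_num)).hasFDerivAt.comp y (hD y)
    have h3 : fderiv ℝ (fun y => v (dil x₀ κ y)) y =
        (fderiv ℝ v (dil x₀ κ y)).comp (κ • ContinuousLinearMap.id ℝ (E d)) := h2.fderiv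
    rw [h3]
    ext z; simp
  rw [lap_eq, lap_eq, Finset.mul_sum]
  have h2 : HasFDerivAt (fun y => fderiv ℝ v (dil x₀ κ y))
      ((fderiv ℝ (fderiv ℝ v) (dil x₀ κ x)).comp (κ • ContinuousLinearMap.id ℝ (E d))) x :=
    ((contDiffAt_fderiv hv).differentiableAt (by norm_num)).hasFDerivAt.comp x (hD x)
  have h3 := h2.const_smul κ
  rw [h1.fderiv_eq]
  have h4 : fderiv ℝ (fun y => κ • fderiv ℝ v (dil x₀ κ y)) x =
    κ • ((fderiv ℝ (fderiv ℝ v) (dil x₀ κ x)).comp (κ • ContinuousLinearMap.id ℝ (E d))) :=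
    h3.fderiv
  rw [h4]
  refine Finset.sum_congr rfl fun i _ => ?_
  simp
  ring

variable {R : RD} {Ω : Set (E d)} {u v : E d → ℝ} {r Λ : ℝ} {x₀ : E d}

lemma Sol.dil_sup (hΩ : IsOpen Ω) (hs : Star x₀ Ω) (hv : Sol R Ω v) {κ : ℝ} (hκ : 1 ≤ κ) :
    Sup R Ω (κ ^ 2) (fun x => v (dil x₀ κ x)) where
  hK := by nlinarith
  cont := hv.cont.comp (continuous_dil x₀ κ)
  nonneg := fun x => hv.nonneg _
  le_one := fun x => hv.le_one _
  smooth := by
    have h1 : ContDiff ℝ 2 (dil x₀ κ) := by unfold dil; fun_prop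
    exact hv.smooth.comp h1.contDiffOn (fun x hx => hs x hx κ hκ)
  eq := by
    intro x hx
    have hx' := hs x hx κ hκ
    rw [lap_dil x₀ κ (hv.smooth.contDiffAt (hΩ.mem_nhds hx')), hv.eq _ hx']
    ring

/-- iteration of the local decay lemma -/
lemma iterate_decay {Y : E d → ℝ} {θ s : ℝ} (hθ : 0 < θ) (hs : 0 < s) {x0 : E d} {ρ : ℝ}
    (hY1 : ∀ x, Y x ≤ 1)
    (hstep : ∀ x, dist x x0 + s ≤ ρ → ∀ S, 0 ≤ S → (∀ z ∈ ball x s, Y z ≤ S) → Y x ≤ θ * S) :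
    ∀ (k : ℕ) (x : E d), dist x x0 + k * s ≤ ρ → Y x ≤ θ ^ k := by
  intro k
  induction k with
  | zero => intro x _; simpa using hY1 x
  | succ k ih =>
    intro x hx
    push_cast at hx
    have hk : 0 ≤ (k:ℝ) * s := by positivity
    have := hstep x (by linarith) (θ ^ k) (by positivity) (fun z hz => ih z (by
      have h1 : dist z x < s := hz
      have := dist_triangle z x x0
      linarith))
    rw [pow_succ]; linarith

/-- If `u ≤ a` fails only near the boundary or where `a` is close to one, it never fails. -/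
lemma order_of_cond {s θ : ℝ} (hθ0 : 0 < θ) (hθ1 : θ < 1)
    (hg : ∀ (u a : E d → ℝ) (K : ℝ), Sol R Ω u → Sup R Ω K a → ∀ (x : E d) (S : ℝ), 0 ≤ S →
        (∀ z ∈ ball x s, pp 3 (u z - a z) ≤ S) →
        (∀ z ∈ ball x s, ball z (s / 4) ⊆ Ω → u z ≤ a z ∨ 1 - R.e1 ≤ a z) →
        pp 3 (u x - a x) ≤ θ * S) {a : E d → ℝ} {K : ℝ} (hu : Sol R Ω u) (ha : Sup R Ω K a)
    (hcond : ∀ z, ball z (s / 4) ⊆ Ω → u z ≤ a z ∨ 1 - R.e1 ≤ a z) : ∀ x, u x ≤ a x := by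
  have hbdd : BddAbove (range fun x => pp 3 (u x - a x)) :=
    ⟨1, by rintro _ ⟨x, rfl⟩; exact pp_le_one (ha.w_le_one hu x)⟩
  set S := ⨆ x, pp 3 (u x - a x) with hS
  have hS0 : 0 ≤ S := (pp_nonneg 3 (u 0 - a 0)).trans (le_ciSup hbdd 0)
  have h1 : S ≤ θ * S := by
    have : Nonempty (E d) := ⟨0⟩
    refine ciSup_le fun x => ?_
    exact hg u a K hu ha x S hS0 (fun z _ => le_ciSup hbdd z) (fun z _ hz => hcond z hz)
  have h2 : S = 0 := by nlinarith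
  intro x
  by_contra hcon
  rw [not_le] at hcon
  have h3 : pp 3 (u x - a x) ≤ S := le_ciSup hbdd x
  rw [h2, pp_of_nonneg _ (by linarith)] at h3
  have : 0 < (u x - a x) ^ 3 := pow_pos (by linarith) 3
  linarith

end Pool.Agent.ExtStar
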