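import Pool.Agent.ExtStar.BigBall

set_option autoImplicit false

open MeasureTheory Metric Set Filter Topology

namespace Pool.Agent.ExtStar

variable {d : ℕ}

/-- a uniformly Lipschitz domain -/
structure LipDom (Ω : Set (E d)) (r Λ : ℝ) : Prop where
  hr : 0 < r
  hΛ : 1 ≤ Λ
  isOpen : IsOpen Ω
  chart : ∀ y ∈ frontier Ω, ∃ (e : E d) (h : E d → ℝ), ‖e‖ = 1 ∧
    (∀ z z', |h z - h z'| ≤ Λ * dist z z') ∧ (∀ (z : E d) (t : ℝ), h (z + t • e) = h z + t) ∧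
    h y = 0 ∧ ∀ z ∈ ball y r, (z ∈ Ω ↔ 0 < h z)

lemma exists_frontier {Ω : Set (E d)} (hΩ : IsOpen Ω) {x : E d} (hx : x ∈ Ω) {ρ : ℝ} (hρ : 0 < ρ)
    (h : ¬ ball x ρ ⊆ Ω) : ∃ y ∈ frontier Ω, y ∈ ball x ρ := by
  by_contra hcon
  push Not at hcon
  obtain ⟨x', hx', hx'Ω⟩ := not_subset.1 h
  have hpre : IsPreconnected (ball x ρ) := (convex_ball x ρ).isPreconnected
  have hfr : frontier Ω = closure Ω \ Ω := hΩ.frontier_eq
  have hcl : ∀ y ∈ ball x ρ, y ∉ Ω → y ∉ closure Ω := by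
    intro y hy hyΩ hyc
    exact hcon y (by rw [hfr]; exact ⟨hyc, hyΩ⟩) hy
  obtain ⟨y, _, hy1, hy2⟩ := hpre Ω (closure Ω)ᶜ hΩ isClosed_closure.isOpen_compl
    (by
      intro y hy
      by_cases hyΩ : y ∈ Ω
      · exact Or.inl hyΩ
      · exact Or.inr (hcl y hy hyΩ))
    ⟨x, mem_ball_self hρ, hx⟩ ⟨x', hx', hcl x' hx' hx'Ω⟩
  exact hy2 (subset_closure hy1)

/-- volume of the unit ball -/
noncomputable def ω (d : ℕ) : ℝ := (volume : Measure (E d)).real (ball 0 1)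

lemma ω_pos (d : ℕ) : 0 < ω d := by
  unfold ω
  rw [measureReal_def]
  exact ENNReal.toReal_pos (measure_ball_pos _ _ one_pos).ne' measure_ball_lt_top.ne

lemma vol_ball (x : E d) {ρ : ℝ} (hρ : 0 < ρ) :
    (volume : Measure (E d)).real (ball x ρ) = ρ ^ d * ω d := by
  unfold ω
  rw [measureReal_def, measureReal_def, Measure.addHaar_ball_of_pos volume x hρ,
    ENNReal.toReal_mul, ENNReal.toReal_ofReal (by positivity)]
  simp

/-- A hole in the support lowers the weighted mean. -/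
lemma m_hole {Y : E d → ℝ} (hY : LocallyIntegrable Y volume) {x p : E d} {t ρ θ S : ℝ} (ht : 0 < t)
    (hρ : 0 < ρ) (hθ0 : 0 ≤ θ) (hθ : θ ≤ 1) (hS : 0 ≤ S) (hle : ∀ z ∈ ball x t, Y z ≤ S)
    (hzero : ∀ z ∈ ball p ρ, Y z = 0) (hsub : ball p ρ ⊆ closedBall x (θ * t)) :
    m 2 Y x t ≤ S * (cc d 2 - (1 - θ ^ 2) ^ 2 * (ρ / t) ^ d * ω d) := by
  have hI : Integrable (fun z => ker 2 t x z) volume := integrable_ker (by norm_num) ht.le x
  have hind : Integrable ((ball p ρ).indicator (fun z => ker 2 t x z)) volume :=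
    hI.indicator measurableSet_ball
  have h1 : P 2 Y x t ≤ S * ((∫ z, ker 2 t x z) - ∫ z, (ball p ρ).indicator
      (fun z => ker 2 t x z) z) := by
    unfold P
    rw [← integral_sub hI hind, ← integral_const_mul]
    refine integral_mono (integrable_ker_mul (by norm_num) ht.le x hY)
      ((hI.sub hind).const_mul _) ?_
    intro z
    show ker 2 t x z * Y z ≤ S * (ker 2 t x z - (ball p ρ).indicator (fun z => ker 2 t x z) z)
    by_cases hz : z ∈ ball p ρ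
    · rw [indicator_of_mem hz, hzero z hz]; simp
    · rw [indicator_of_notMem hz, sub_zero]
      by_cases hz2 : z ∈ ball x t
      · have := mul_le_mul_of_nonneg_left (hle z hz2) (ker_nonneg 2 t x z)
        linarith
      · have : ker 2 t x z = 0 := ker_eq_zero (by norm_num) ht.le (by simpa [mem_ball] using hz2)
        simp [this]
  have h2 : ((1 - θ ^ 2) * t ^ 2) ^ 2 * (ρ ^ d * ω d) ≤
      ∫ z, (ball p ρ).indicator (fun z => ker 2 t x z) z := by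
    rw [integral_indicator measurableSet_ball, ← vol_ball p hρ]
    have h3 : ((1 - θ ^ 2) * t ^ 2) ^ 2 * (volume : Measure (E d)).real (ball p ρ) =
        ∫ z in ball p ρ, ((1 - θ ^ 2) * t ^ 2) ^ 2 := by
      rw [setIntegral_const, smul_eq_mul, mul_comm]
    rw [h3]
    refine setIntegral_mono_on ?_ hI.integrableOn measurableSet_ball ?_
    · exact integrableOn_const measure_ball_lt_top.ne
    · intro z hz
      have h4 : dist z x ≤ θ * t := hsub hz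
      have h5 : 0 ≤ 1 - θ ^ 2 := by nlinarith
      have h6 : (1 - θ ^ 2) * t ^ 2 ≤ max 0 (t ^ 2 - ‖z - x‖ ^ 2) := by
        refine le_max_of_le_right ?_
        rw [← dist_eq_norm]
        nlinarith [dist_nonneg (x := z) (y := x)]
      unfold ker pp
      gcongr
  rw [integral_ker ht] at h1
  unfold m
  rw [div_le_iff₀ (by positivity)]
  have e : S * (cc d 2 - (1 - θ ^ 2) ^ 2 * (ρ / t) ^ d * ω d) * t ^ (d + 2 * 2) =
      S * (t ^ (d + 2 * 2) * cc d 2 - ((1 - θ ^ 2) * t ^ 2) ^ 2 * (ρ ^ d * ω d)) := by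
    rw [div_pow, pow_add]
    field_simp
    ring
  rw [e]
  exact h1.trans (mul_le_mul_of_nonneg_left (by linarith) hS)

/-- strict supersolutions, e.g. dilated solutions -/
structure Sup (R : RD) (Ω : Set (E d)) (K : ℝ) (a : E d → ℝ) : Prop where
  hK : 1 ≤ K
  cont : Continuous a
  nonneg : ∀ x, 0 ≤ a x
  le_one : ∀ x, a x ≤ 1
  smooth : ContDiffOn ℝ 2 a Ω
  eq : ∀ x ∈ Ω, lap a x = - (K * R.f (a x))

variable {R : RD} {Ω : Set (E d)} {u a : E d → ℝ} {K : ℝ}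

lemma Sup.w_cont (ha : Sup R Ω K a) (hu : Sol R Ω u) : Continuous (fun z => u z - a z) :=
  hu.cont.sub ha.cont

lemma Sup.w_nonpos (ha : Sup R Ω K a) (hu : Sol R Ω u) : ∀ x ∉ Ω, u x - a x ≤ 0 := by
  intro x hx
  rw [hu.zero x hx]
  have := ha.nonneg x
  linarith

lemma Sup.w_le_one (ha : Sup R Ω K a) (hu : Sol R Ω u) : ∀ x, u x - a x ≤ 1 := by
  intro x
  have := ha.nonneg x
  have := hu.le_one x
  linarith

lemma Sup.w_smooth (ha : Sup R Ω K a) (hu : Sol R Ω u) :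
    ContDiffOn ℝ 2 (fun z => u z - a z) Ω := hu.smooth.sub ha.smooth

lemma Sup.f_nonneg (ha : Sup R Ω K a) (x : E d) : 0 ≤ R.f (a x) :=
  R.nonneg (ha.nonneg x) (ha.le_one x)

lemma Sup.w_lap (hΩ : IsOpen Ω) (ha : Sup R Ω K a) (hu : Sol R Ω u) {x : E d} (hx : x ∈ Ω) :
    lap (fun z => u z - a z) x = K * R.f (a x) - R.f (u x) := by
  rw [lap_sub (hu.smooth.contDiffAt (hΩ.mem_nhds hx)) (ha.smooth.contDiffAt (hΩ.mem_nhds hx)),
    hu.eq x hx, ha.eq x hx]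
  ring

lemma Sup.w_lap_ge (hΩ : IsOpen Ω) (ha : Sup R Ω K a) (hu : Sol R Ω u) {x : E d} (hx : x ∈ Ω) :
    R.f (a x) - R.f (u x) ≤ lap (fun z => u z - a z) x := by
  rw [ha.w_lap hΩ hu hx]
  have h1 := ha.f_nonneg x
  have h2 := ha.hK
  nlinarith

lemma Sup.w_lap_ge' (hΩ : IsOpen Ω) (ha : Sup R Ω K a) (hu : Sol R Ω u) :
    ∀ x ∈ Ω, 0 < u x - a x → -(R.L * (u x - a x)) ≤ lap (fun z => u z - a z) x := by
  intro x hx hpos
  refine le_trans ?_ (ha.w_lap_ge hΩ hu hx)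
  have := R.lip (a x) ⟨ha.nonneg x, ha.le_one x⟩ (u x) ⟨hu.nonneg x, hu.le_one x⟩
  rw [abs_sub_comm (a x), abs_of_pos hpos] at this
  have := neg_abs_le (R.f (a x) - R.f (u x))
  linarith

/-- decay of the cube of the positive part at points near a hole -/
lemma Sup.hole_decay (hΩ : IsOpen Ω) (ha : Sup R Ω K a) (hu : Sol R Ω u) {x p : E d}
    {t ρ θ S : ℝ} (ht : 0 < t) (hρ : 0 < ρ) (hθ0 : 0 ≤ θ) (hθ : θ ≤ 1) (hS : 0 ≤ S)
    (hle : ∀ z ∈ ball x t, pp 3 (u z - a z) ≤ S)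
    (hzero : ∀ z ∈ ball p ρ, z ∉ Ω) (hsub : ball p ρ ⊆ closedBall x (θ * t)) :
    cc d 2 * pp 3 (u x - a x) ≤ Real.exp (R.L * t ^ 2 / 4) *
      (S * (cc d 2 - (1 - θ ^ 2) ^ 2 * (ρ / t) ^ d * ω d)) := by
  have h1 := sub_mean_cube hΩ (ha.w_cont hu) (ha.w_nonpos hu) (ha.w_le_one hu) (ha.w_smooth hu)
    R.hL.le (ha.w_lap_ge' hΩ hu) x ht
  refine h1.trans (mul_le_mul_of_nonneg_left ?_ (Real.exp_pos _).le)
  exact m_hole (((continuous_pp 3).comp (ha.w_cont hu)).locallyIntegrable) ht hρ hθ0 hθ hS hle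
    (fun z hz => pp_of_nonpos (by norm_num) (ha.w_nonpos hu z (hzero z hz))) hsub

end Pool.Agent.ExtStar
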