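import Pool.Agent.ExtStar.Reg3
import Pool.Agent.ExtStar.Dil

set_option autoImplicit false

open MeasureTheory Metric Set Filter Topology

namespace Pool.Agent.ExtStar

variable {d : ℕ}

lemma sub_mean_weak {w : E d → ℝ} (hw : Continuous w) (h0 : ∀ z, 0 ≤ w z) {L : ℝ} (hL : 0 ≤ L)
    (h : WGe univ w (fun z => -(L * w z))) (i : ℕ) (x : E d) {t : ℝ} (ht : 0 < t) :
    cc d (i + 2) * w x ≤ Real.exp (L / (2 * ((i : ℝ) + 3)) * t ^ 2 / 2) * m (i + 2) w x t := by
  have hli := hw.locallyIntegrable (μ := (volume : Measure (E d)))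
  have hd : ∀ s : ℝ, 0 < s → HasDerivAt (m (i + 2) w x) (deriv (m (i + 2) w x) s) s ∧
      (s / (2 * ((i : ℝ) + 3))) * m (i + 3) (fun z => -(L * w z)) x s ≤
        deriv (m (i + 2) w x) s := by
    intro s hs
    obtain ⟨D, hD, hD2⟩ := deriv_m_ge h hli i (x := x) hs (subset_univ _)
    rw [hD.deriv]
    exact ⟨hD, hD2⟩
  refine gronwall_aux (F := m (i + 2) w x) (D := fun s => deriv (m (i + 2) w x) s) ht
    (fun s hs => (hd s hs.1).1) ?_ (tendsto_m (by omega) hli hw.continuousAt)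
  intro s hs
  have h1 := (hd s hs.1).2
  have e : (fun z => -(L * w z)) = fun z => (-L) * w z := by ext z; ring
  rw [e, m_const_mul] at h1
  have h2 : m (i + 3) w x s ≤ m (i + 2) w x s := m_succ_le (by omega) hs.1 hli (fun z _ => h0 z)
  have hs1 := hs.1
  have h3 : (s / (2 * ((i : ℝ) + 3))) * (L * m (i + 3) w x s) ≤
      (s / (2 * ((i : ℝ) + 3))) * (L * m (i + 2) w x s) := by
    gcongr
  have e2 : -(L / (2 * ((i : ℝ) + 3)) * s * m (i + 2) w x s) =
    -((s / (2 * ((i : ℝ) + 3))) * (L * m (i + 2) w x s)) := by ring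
  rw [e2]
  linarith

lemma Star.big_balls {x₀ : E d} {Ω : Set (E d)} (hΩ : IsOpen Ω) (hs : Star x₀ Ω)
    (hne : Ω.Nonempty) {T : ℝ} (hT : 0 < T) : ∃ p, closedBall p T ⊆ Ω := by
  obtain ⟨x, hx⟩ := hne
  obtain ⟨δ, hδ, hb⟩ := Metric.isOpen_iff.1 hΩ x hx
  refine ⟨dil x₀ (1 + T / δ) x, ?_⟩
  have h1 : 1 ≤ 1 + T / δ := by have : 0 < T / δ := by positivity
                                linarith
  refine subset_trans ?_ (hs.ball h1 hb)
  refine closedBall_subset_ball ?_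
  have : (1 + T / δ) * δ = δ + T := by field_simp
  rw [this]; linarith

/-- a compactly supported subsolution -/
lemma exists_subsol (R : RD) {x₀ : E d} {Ω : Set (E d)} (hΩ : IsOpen Ω) (hs : Star x₀ Ω)
    (hne : Ω.Nonempty) : ∃ (ψ : E d → ℝ) (p : E d), Continuous ψ ∧ (∀ x, 0 ≤ ψ x) ∧
      (∀ x, ψ x ≤ 1) ∧ p ∈ Ω ∧ 0 < ψ p ∧ ∀ V : E d → ℝ, Continuous V → (∀ x ∈ Ω, V x = 0) →
        WGe univ ψ (fun x => V x * ψ x - R.f (ψ x)) := by
  have hmu := R.hmu
  set T : ℝ := Real.sqrt (3 * ((d : ℝ) + 4) ^ 2 / (8 * R.mu)) + 1 with hT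
  have hT0 : 0 < T := by positivity
  have hT2 : 3 * ((d : ℝ) + 4) ^ 2 ≤ 8 * R.mu * T ^ 2 := by
    have h1 : Real.sqrt (3 * ((d : ℝ) + 4) ^ 2 / (8 * R.mu)) ^ 2 =
      3 * ((d : ℝ) + 4) ^ 2 / (8 * R.mu) := Real.sq_sqrt (by positivity)
    have h2 : 3 * ((d : ℝ) + 4) ^ 2 / (8 * R.mu) ≤ T ^ 2 := by
      have := Real.sqrt_nonneg (3 * ((d : ℝ) + 4) ^ 2 / (8 * R.mu))
      nlinarith
    rw [div_le_iff₀ (by positivity)] at h2
    linarith
  obtain ⟨p, hp⟩ := hs.big_balls hΩ hne hT0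
  have hs0 := R.hs0
  set ε : ℝ := R.s0 / (T ^ 2) ^ 3 with hε
  have hε0 : 0 < ε := by positivity
  have hkle : ∀ z, ε * ker 3 T p z ≤ R.s0 := by
    intro z
    calc ε * ker 3 T p z ≤ ε * (T ^ 2) ^ 3 := mul_le_mul_of_nonneg_left (ker_le p z) hε0.le
      _ = R.s0 := by rw [hε]; field_simp
  have hcd : ContDiff ℝ 2 (fun z => ε * ker 3 T p z) :=
    contDiff_const.mul (contDiff_ker 3 2 (by norm_num) T p)
  refine ⟨fun z => ε * ker 3 T p z, p, hcd.continuous, fun x => ?_, fun x => ?_, ?_, ?_, ?_⟩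
  · exact mul_nonneg hε0.le (ker_nonneg _ _ _ _)
  · exact (hkle x).trans R.hs0'.le
  · exact hp (mem_closedBall_self hT0.le)
  · have : ker 3 T p p = (T ^ 2) ^ 3 := by
      unfold ker; rw [sub_self, norm_zero, pp_of_nonneg _ (by nlinarith [sq_nonneg T])]; ring
    simp only [this]
    positivity
  · intro V hV hV0
    refine wge_of_contDiffOn isOpen_univ hcd.contDiffOn ?_ ?_
    · have h1 := hcd.continuous
      have h2 := R.cont
      exact (by fun_prop : Continuous fun x => V x * (ε * ker 3 T p x) -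
        R.f (ε * ker 3 T p x)).locallyIntegrable
    · intro z _
      rw [lap_const_mul ε (contDiff_ker 3 2 (by norm_num) T p).contDiffAt]
      have hl := lap_ker 0 T p z
      simp only [zero_add] at hl
      rw [hl]
      show V z * (ε * ker 3 T p z) - R.f (ε * ker 3 T p z) ≤ _
      by_cases hz : z ∈ ball p T
      · have hzΩ : z ∈ Ω := hp (ball_subset_closedBall hz)
        rw [hV0 z hzΩ, zero_mul, zero_sub]
        set q : ℝ := T ^ 2 - ‖z - p‖ ^ 2 with hq
        have hzn : ‖z - p‖ < T := by rw [← dist_eq_norm]; exact hz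
        have hq0 : 0 < q := by nlinarith [norm_nonneg (z - p)]
        have k1 : ker 1 T p z = q := by unfold ker; rw [pp_of_nonneg _ hq0.le, pow_one]
        have k2 : ker 2 T p z = q ^ 2 := by unfold ker; rw [pp_of_nonneg _ hq0.le]
        have k3 : ker 3 T p z = q ^ 3 := by unfold ker; rw [pp_of_nonneg _ hq0.le]
        have hpos : 0 < ε * ker 3 T p z := by rw [k3]; positivity
        have hlow := R.low _ hpos (hkle z)
        rw [k3] at hlow ⊢
        rw [k1, k2]
        have key : 0 ≤ R.mu * q ^ 2 - 6 * ((d : ℝ) + 4) * q + 24 * T ^ 2 := by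
          have h1 : 0 ≤ R.mu * (R.mu * q ^ 2 - 6 * ((d : ℝ) + 4) * q + 24 * T ^ 2) := by
            have h2 := sq_nonneg (R.mu * q - 3 * ((d : ℝ) + 4))
            nlinarith
          exact nonneg_of_mul_nonneg_right h1 hmu
        have h3 : 0 ≤ ε * q * (R.mu * q ^ 2 - 6 * ((d : ℝ) + 4) * q + 24 * T ^ 2) := by positivity
        push_cast
        nlinarith
      · have hz' : T ≤ dist z p := by simpa [mem_ball] using hz
        rw [ker_eq_zero (by norm_num) hT0.le hz', ker_eq_zero (by norm_num) hT0.le hz',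
          ker_eq_zero (by norm_num) hT0.le hz']
        simp [R.f0]

end Pool.Agent.ExtStar
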