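import Pool.Agent.ExtStar.Exist

set_option autoImplicit false

open MeasureTheory Metric Set Filter Topology

namespace Pool.Agent.ExtStar

variable {d : ℕ}

lemma WGe.mono_right {U : Set (E d)} {w g g' : E d → ℝ} (h : WGe U w g) (hg : Continuous g)
    (hg' : Continuous g') (hle : ∀ x, g' x ≤ g x) : WGe U w g' := by
  intro φ hφ hc hs h0
  refine le_trans ?_ (h φ hφ hc hs h0)
  refine integral_mono (integrable_test hg' hφ.continuous hc) (integrable_test hg hφ.continuous hc)
    (fun x => mul_le_mul_of_nonneg_right (hle x) (h0 x))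

/-- the penalising potential -/
noncomputable def Vn (Ω : Set (E d)) (n : ℕ) (x : E d) : ℝ := n * min 1 (infDist x Ω)

lemma Vn_cont (Ω : Set (E d)) (n : ℕ) : Continuous (Vn Ω n) := by
  unfold Vn
  have := continuous_infDist_pt Ω
  fun_prop

lemma Vn_nonneg (Ω : Set (E d)) (n : ℕ) (x : E d) : 0 ≤ Vn Ω n x :=
  mul_nonneg (Nat.cast_nonneg n) (le_min zero_le_one infDist_nonneg)

lemma Vn_le (Ω : Set (E d)) (n : ℕ) (x : E d) : Vn Ω n x ≤ n := by
  unfold Vn
  calc (n:ℝ) * min 1 (infDist x Ω) ≤ n * 1 :=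
        mul_le_mul_of_nonneg_left (min_le_left _ _) (Nat.cast_nonneg n)
    _ = n := mul_one _

lemma Vn_zero (Ω : Set (E d)) (n : ℕ) {x : E d} (hx : x ∈ Ω) : Vn Ω n x = 0 := by
  unfold Vn
  rw [infDist_zero_of_mem hx, min_eq_right zero_le_one, mul_zero]

lemma Vn_mono (Ω : Set (E d)) (n : ℕ) (x : E d) : Vn Ω n x ≤ Vn Ω (n + 1) x := by
  unfold Vn
  refine mul_le_mul_of_nonneg_right ?_ (le_min zero_le_one infDist_nonneg)
  push_cast; linarith

theorem exists_limit (R : RD) {x₀ : E d} {Ω : Set (E d)} (hΩ : IsOpen Ω) (hs : Star x₀ Ω)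
    (hne : Ω.Nonempty) :
    ∃ u : E d → ℝ, LocallyIntegrable u volume ∧ (∀ x, 0 ≤ u x) ∧ (∀ x, u x ≤ 1) ∧
      WEq Ω u (fun x => -R.f (u x)) ∧ ContinuousOn u Ω ∧
      (∀ (i : ℕ) (x : E d) (t : ℝ), 0 < t → cc d (i + 2) * u x ≤
        Real.exp (R.L / (2 * ((i : ℝ) + 3)) * t ^ 2 / 2) * m (i + 2) u x t) ∧
      (∀ x, x ∉ closure Ω → u x = 0) ∧ (∃ p ∈ Ω, 0 < u p) := by
  have hL := R.hL
  obtain ⟨ψ, p, ψc, ψ0, ψ1, pΩ, ψp, ψsub⟩ := exists_subsol R hΩ hs hne
  have hex := fun n : ℕ => exists_penal R (Vn_cont Ω n) (Vn_nonneg Ω n) (Vn_le Ω n)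
    (Nat.cast_nonneg n)
  choose W Wc W0 W1 We Wmax using hex
  have fcont : ∀ n, Continuous fun x => R.f (W n x) := fun n => R.cont.comp (Wc n)
  have gcont : ∀ n k, Continuous fun x => Vn Ω k x * W n x - R.f (W n x) := fun n k =>
    ((Vn_cont Ω k).mul (Wc n)).sub (fcont n)
  -- monotonicity
  have hanti1 : ∀ n x, W (n + 1) x ≤ W n x := by
    intro n
    refine Wmax n (W (n + 1)) (Wc _) (W0 _) (W1 _) ?_
    refine (We (n + 1)).toWGe.mono_right (gcont (n + 1) (n + 1)) (gcont (n + 1) n) (fun x => ?_)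
    have := mul_le_mul_of_nonneg_right (Vn_mono Ω n x) (W0 (n + 1) x)
    linarith
  have hge : ∀ n x, ψ x ≤ W n x := by
    intro n
    exact Wmax n ψ ψc ψ0 ψ1 (ψsub (Vn Ω n) (Vn_cont Ω n) (fun x hx => Vn_zero Ω n hx))
  set u : E d → ℝ := fun x => ⨅ n, W n x with hu
  have hbdd : ∀ x, BddBelow (range fun n => W n x) := fun x =>
    ⟨0, by rintro _ ⟨k, rfl⟩; exact W0 k x⟩
  have hlim : ∀ x, Tendsto (fun n => W n x) atTop (𝓝 (u x)) := fun x =>
    tendsto_atTop_ciInf (antitone_nat_of_succ_le (fun n => hanti1 n x)) (hbdd x)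
  have u0 : ∀ x, 0 ≤ u x := fun x => le_ciInf fun n => W0 n x
  have uW : ∀ n x, u x ≤ W n x := fun n x => ciInf_le (hbdd x) n
  have u1 : ∀ x, u x ≤ 1 := fun x => (uW 0 x).trans (W1 0 x)
  have hmeas : Measurable u :=
    measurable_of_tendsto_metrizable (fun n => (Wc n).measurable) (tendsto_pi_nhds.2 hlim)
  have hli : LocallyIntegrable u volume := by
    refine (locallyIntegrable_const (1:ℝ)).mono hmeas.aestronglyMeasurable
      (Eventually.of_forall fun x => ?_)
    rw [Real.norm_of_nonneg (u0 x), norm_one]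
    exact u1 x
  have fbd : ∀ n x, |R.f (W n x)| ≤ R.L := by
    intro n x
    have h1 := R.nonneg (W0 n x) (W1 n x)
    have h2 := R.le (W0 n x) (W1 n x)
    rw [abs_of_nonneg h1]
    have := W1 n x
    nlinarith
  have WeΩ : ∀ n, WEq Ω (W n) (fun x => -R.f (W n x)) := by
    intro n
    refine ((We n).mono (subset_univ Ω)).congr (fun x hx => ?_)
    rw [Vn_zero Ω n hx]; ring
  have flim : ∀ x, Tendsto (fun n => -R.f (W n x)) atTop (𝓝 (-R.f (u x))) := fun x =>
    ((R.cont.tendsto (u x)).comp (hlim x)).neg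
  refine ⟨u, hli, u0, u1, ?_, ?_, ?_, ?_, ⟨p, pΩ, ?_⟩⟩
  · exact weak_lim (w := W) (g := fun n x => -R.f (W n x)) (B := 1) (B' := R.L) Wc
      (fun n => (fcont n).neg) (fun n z => by rw [abs_of_nonneg (W0 n z)]; exact W1 n z)
      (fun n z _ => by rw [abs_neg]; exact fbd n z) hlim (fun z _ => flim z) WeΩ
  · refine continuousOn_of_quasi hΩ (C := cc d 3 * R.L / 12) hli u0 u1 ?_
    intro x t ht hbx
    have h1 : ∀ n, |m 2 (W n) x t - cc d 2 * W n x| ≤ cc d 3 * R.L / 12 * t ^ 2 := fun n =>
      quasi_mv (Wc n) (fcont n).neg.locallyIntegrable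
        (fun x _ => by
          show |-(R.f (W n x))| ≤ R.L
          rw [abs_neg]; exact fbd n x) (WeΩ n) ht hbx
    have h2 := m_tendsto_of_bdd (j := 2) (by norm_num) (x := x) ht Wc W0 W1 hlim
    exact le_of_tendsto (h2.sub ((hlim x).const_mul _)).abs (Eventually.of_forall h1)
  · intro i x t ht
    have h1 : ∀ n, cc d (i + 2) * W n x ≤
        Real.exp (R.L / (2 * ((i : ℝ) + 3)) * t ^ 2 / 2) * m (i + 2) (W n) x t := by
      intro n
      refine sub_mean_weak (Wc n) (W0 n) hL.le ?_ i x ht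
      refine (We n).toWGe.mono_right (gcont n n) (by have := Wc n; fun_prop) (fun x => ?_)
      have h1 := R.le (W0 n x) (W1 n x)
      have h2 := mul_nonneg (Vn_nonneg Ω n x) (W0 n x)
      linarith
    have h2 := m_tendsto_of_bdd (j := i + 2) (by omega) (x := x) ht Wc W0 W1 hlim
    exact le_of_tendsto_of_tendsto' ((hlim x).const_mul _) (h2.const_mul _) h1
  · intro x hx
    have hcc3 : 0 < cc d 3 := cc_pos (by norm_num)
    obtain ⟨δ, hδ, hδΩ⟩ := Metric.isOpen_iff.1 isClosed_closure.isOpen_compl x hx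
    set t : ℝ := δ / 2 with ht
    have ht0 : 0 < t := by positivity
    set c : ℝ := min 1 t with hc
    have hc0 : 0 < c := lt_min one_pos ht0
    -- lower bound for the potential
    have hVc : ∀ n, ∀ z ∈ ball x t, n * c ≤ Vn Ω n z := by
      intro n z hz
      unfold Vn
      refine mul_le_mul_of_nonneg_left ?_ (Nat.cast_nonneg n)
      refine min_le_min_left _ ?_
      rw [le_infDist hne]
      intro y hy
      by_contra hcon
      rw [not_le] at hcon
      have h1 : dist z x < t := hz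
      have h2 : dist y x < δ := by
        have := dist_triangle y z x
        rw [dist_comm y z] at this
        linarith
      exact hδΩ h2 (subset_closure hy)
    set φ : E d → ℝ := ker 3 t x with hφd
    have hφ : ContDiff ℝ 2 φ := contDiff_ker 3 2 (by norm_num) t x
    have hφc : HasCompactSupport φ := hasCompactSupport_ker (by norm_num) ht0.le x
    have hφ0 : ∀ z, 0 ≤ φ z := ker_nonneg 3 t x
    have hφz : ∀ z, z ∉ ball x t → φ z = 0 := fun z hz =>
      ker_eq_zero (by norm_num) ht0.le (by simpa [mem_ball] using hz)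
    have cl := continuous_lap hφ
    have sl := hasCompactSupport_lap hφc
    set K : ℝ := (∫ z, ‖lap φ z‖) + R.L * ∫ z, φ z with hK
    have hφi : Integrable φ volume := hφ.continuous.integrable_of_hasCompactSupport hφc
    have hli' : Integrable (lap φ) volume := cl.integrable_of_hasCompactSupport sl
    have iu : Integrable (fun z => φ z * u z) volume :=
      integrable_ker_mul (by norm_num) ht0.le x hli
    have hbound : ∀ n : ℕ, (n * c) * ∫ z, φ z * u z ≤ K := by
      intro n
      have e1 := We n φ hφ hφc (subset_univ _)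
      have I1 : Integrable (fun z => (Vn Ω n z * W n z) * φ z) volume :=
        integrable_test ((Vn_cont Ω n).mul (Wc n)) hφ.continuous hφc
      have I2 : Integrable (fun z => R.f (W n z) * φ z) volume :=
        integrable_test (fcont n) hφ.continuous hφc
      have e2 : ∫ z, (Vn Ω n z * W n z - R.f (W n z)) * φ z =
          (∫ z, (Vn Ω n z * W n z) * φ z) - ∫ z, R.f (W n z) * φ z := by
        rw [← integral_sub I1 I2]
        refine integral_congr_ae (Eventually.of_forall fun z => ?_)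
        simp only
        ring
      rw [e2] at e1
      have h1 : ∫ z, W n z * lap φ z ≤ ∫ z, ‖lap φ z‖ := by
        refine integral_mono (integrable_test (Wc n) cl sl) hli'.norm (fun z => ?_)
        calc W n z * lap φ z ≤ W n z * ‖lap φ z‖ :=
              mul_le_mul_of_nonneg_left (Real.le_norm_self _) (W0 n z)
          _ ≤ 1 * ‖lap φ z‖ := mul_le_mul_of_nonneg_right (W1 n z) (norm_nonneg _)
          _ = ‖lap φ z‖ := one_mul _
      have h2 : ∫ z, R.f (W n z) * φ z ≤ R.L * ∫ z, φ z := by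
        rw [← integral_const_mul]
        refine integral_mono I2 (hφi.const_mul _) (fun z => ?_)
        exact mul_le_mul_of_nonneg_right ((le_abs_self _).trans (fbd n z)) (hφ0 z)
      have h3 : (n * c) * ∫ z, φ z * u z ≤ ∫ z, (Vn Ω n z * W n z) * φ z := by
        rw [← integral_const_mul]
        refine integral_mono (iu.const_mul _) I1 (fun z => ?_)
        simp only
        by_cases hz : z ∈ ball x t
        · have h4 := hVc n z hz
          have h5 : (n * c) * u z ≤ Vn Ω n z * W n z :=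
            mul_le_mul h4 (uW n z) (u0 z) (Vn_nonneg Ω n z)
          have := mul_le_mul_of_nonneg_right h5 (hφ0 z)
          linarith
        · rw [hφz z hz]; simp
      linarith
    have hint0 : ∫ z, φ z * u z ≤ 0 := by
      by_contra hcon
      rw [not_le] at hcon
      obtain ⟨n, hn⟩ := exists_nat_gt (K / (c * ∫ z, φ z * u z))
      rw [div_lt_iff₀ (by positivity)] at hn
      have := hbound n
      nlinarith
    have hint : ∫ z, φ z * u z = 0 :=
      le_antisymm hint0 (integral_nonneg fun z => mul_nonneg (hφ0 z) (u0 z))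
    have hm : m 3 u x t = 0 := by
      unfold m P
      rw [← hφd, hint, zero_div]
    have hsub : cc d (1 + 2) * u x ≤
        Real.exp (R.L / (2 * (((1:ℕ) : ℝ) + 3)) * t ^ 2 / 2) * m (1 + 2) u x t := by
      have h1 : ∀ n, cc d (1 + 2) * W n x ≤
          Real.exp (R.L / (2 * (((1:ℕ) : ℝ) + 3)) * t ^ 2 / 2) * m (1 + 2) (W n) x t := by
        intro n
        refine sub_mean_weak (Wc n) (W0 n) hL.le ?_ 1 x ht0
        refine (We n).toWGe.mono_right (gcont n n) (by have := Wc n; fun_prop) (fun x => ?_)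
        have h1 := R.le (W0 n x) (W1 n x)
        have h2 := mul_nonneg (Vn_nonneg Ω n x) (W0 n x)
        linarith
      have h2 := m_tendsto_of_bdd (j := 1 + 2) (by omega) (x := x) ht0 Wc W0 W1 hlim
      exact le_of_tendsto_of_tendsto' ((hlim x).const_mul _) (h2.const_mul _) h1
    have hm' : m (1 + 2) u x t = 0 := hm
    rw [hm', mul_zero] at hsub
    have hcc3' : 0 < cc d (1 + 2) := hcc3
    have := u0 x
    nlinarith
  · exact ψp.trans_le (le_ciInf fun n => hge n p)

end Pool.Agent.ExtStar
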