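import Pool.Agent.ExtStar.Exist2

set_option autoImplicit false

open MeasureTheory Metric Set Filter Topology

namespace Pool.Agent.ExtStar

variable {d : ℕ}

/-- a function vanishing outside `closure Ω` with the sub-mean-value property is continuous
at the boundary and vanishes there -/
lemma boundary_cont {Ω : Set (E d)} {r Λ L : ℝ} (hLD : LipDom Ω r Λ) (hL0 : 0 < L) {u : E d → ℝ}
    (hli : LocallyIntegrable u volume) (u0 : ∀ x, 0 ≤ u x) (u1 : ∀ x, u x ≤ 1)
    (hsub : ∀ (x : E d) (t : ℝ), 0 < t → cc d 2 * u x ≤ Real.exp (L * t ^ 2) * m 2 u x t)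
    (hext : ∀ x, x ∉ closure Ω → u x = 0) {y : E d} (hy : y ∈ frontier Ω) :
    ∀ ε, 0 < ε → ∃ δ, 0 < δ ∧ ∀ x ∈ ball y δ, u x < ε := by
  have hr := hLD.hr
  have hΛ := hLD.hΛ
  have hΛ0 : 0 < Λ := by linarith
  have hcc : 0 < cc d 2 := cc_pos (by norm_num)
  have hω := ω_pos d
  obtain ⟨e, h, he, hLip, hshift, hy0, hΩh⟩ := hLD.chart y hy
  set A0 : ℝ := (1 - (1 / 2 : ℝ) ^ 2) ^ 2 * (1 / (8 * Λ)) ^ d * ω d with hA
  have hA0 : 0 < A0 := by
    rw [hA]; positivity
  -- choice of scale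
  obtain ⟨τ0, hτ0, hτr, hq⟩ : ∃ τ0 : ℝ, 0 < τ0 ∧ 9 * τ0 ≤ r ∧
      Real.exp (L * (8 * τ0) ^ 2) * (cc d 2 - A0) ≤ cc d 2 - A0 / 2 := by
    have hcont : Continuous fun s : ℝ => Real.exp (L * (8 * s) ^ 2) * (cc d 2 - A0) := by fun_prop
    have l0 : Tendsto (fun s : ℝ => Real.exp (L * (8 * s) ^ 2) * (cc d 2 - A0)) (𝓝[>] 0)
        (𝓝 (cc d 2 - A0)) := by
      have := (hcont.tendsto 0).mono_left (nhdsWithin_le_nhds (s := Ioi 0))
      simpa using this
    have l1 := l0.eventually_lt_const (show cc d 2 - A0 < cc d 2 - A0 / 2 by linarith)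
    have l2 : ∀ᶠ s in 𝓝[>] (0:ℝ), s ∈ Ioc 0 (r / 9) := Ioc_mem_nhdsGT (by positivity)
    obtain ⟨s, h1, h2⟩ := (l1.and l2).exists
    exact ⟨s, h2.1, by linarith [h2.2], h1.le⟩
  set q : ℝ := max (1 / 2) ((cc d 2 - A0 / 2) / cc d 2) with hqd
  have hq0 : 0 < q := lt_max_of_lt_left (by norm_num)
  have hq1 : q < 1 := by
    refine max_lt (by norm_num) ?_
    rw [div_lt_one hcc]; linarith
  -- one step
  have step : ∀ τ, 0 < τ → τ ≤ τ0 → ∀ S, 0 ≤ S → (∀ x ∈ ball y (9 * τ), u x ≤ S) →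
      ∀ x ∈ ball y τ, u x ≤ q * S := by
    intro τ hτ hττ0 S hS hle x hx
    have hxy : dist x y < τ := hx
    set p : E d := y + (-(2 * τ)) • e with hp
    have hdpy : dist p y ≤ 2 * τ := by
      rw [hp, dist_eq_norm, add_sub_cancel_left, norm_smul, he, mul_one, norm_neg,
        Real.norm_of_nonneg (by positivity)]
    have hhp : h p = -(2 * τ) := by rw [hp, hshift, hy0]; ring
    set ρ : ℝ := τ / Λ with hρ
    have hρ0 : 0 < ρ := by positivity
    have hρτ : ρ ≤ τ := by rw [hρ, div_le_iff₀ hΛ0]; nlinarith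
    have hΛρ : Λ * ρ = τ := by rw [hρ]; field_simp
    have hdisj : ball p ρ ∩ Ω = ∅ := by
      rw [eq_empty_iff_forall_notMem]
      rintro z ⟨hz, hzΩ⟩
      have hzp : dist z p < ρ := hz
      have h1 : z ∈ ball y r := by
        have := dist_triangle z p y
        show dist z y < r
        linarith
      have h2 := (hΩh z h1).1 hzΩ
      have h3 := hLip z p
      have h4 : Λ * dist z p ≤ Λ * ρ := mul_le_mul_of_nonneg_left hzp.le hΛ0.le
      rw [hhp] at h3
      have h5 := (abs_le.1 h3).2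
      linarith
    have hzero : ∀ z ∈ ball p ρ, u z = 0 := by
      intro z hz
      refine hext z ?_
      intro hcl
      rw [_root_.mem_closure_iff] at hcl
      obtain ⟨w, hw⟩ := hcl (ball p ρ) isOpen_ball hz
      rw [hdisj] at hw
      exact hw
    have hxp : dist p x ≤ 3 * τ := by
      have := dist_triangle p y x
      rw [dist_comm y x] at this
      linarith
    have hsubb : ball p ρ ⊆ closedBall x (1 / 2 * (8 * τ)) := by
      intro z hz
      have h1 : dist z p < ρ := hz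
      have := dist_triangle z p x
      show dist z x ≤ 1 / 2 * (8 * τ)
      linarith
    have hh := m_hole hli (x := x) (p := p) (t := 8 * τ) (ρ := ρ) (θ := 1 / 2) (S := S)
      (by positivity) hρ0 (by norm_num) (by norm_num) hS
      (fun z hz => hle z (by
        have h1 : dist z x < 8 * τ := hz
        have := dist_triangle z x y
        show dist z y < 9 * τ
        linarith)) hzero hsubb
    have e1 : ρ / (8 * τ) = 1 / (8 * Λ) := by rw [hρ]; field_simp
    rw [e1] at hh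
    have h1 := hsub x (8 * τ) (by positivity)
    have h2 : Real.exp (L * (8 * τ) ^ 2) ≤ Real.exp (L * (8 * τ0) ^ 2) := by
      apply Real.exp_le_exp.2
      have : (8 * τ) ^ 2 ≤ (8 * τ0) ^ 2 := by nlinarith
      exact mul_le_mul_of_nonneg_left this hL0.le
    have hm0 : 0 ≤ m 2 u x (8 * τ) := m_nonneg (by norm_num) (by positivity) (fun z _ => u0 z)
    have h3 : cc d 2 * u x ≤ S * (cc d 2 - A0 / 2) := by
      calc cc d 2 * u x ≤ Real.exp (L * (8 * τ) ^ 2) * m 2 u x (8 * τ) := h1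
        _ ≤ Real.exp (L * (8 * τ0) ^ 2) * m 2 u x (8 * τ) := mul_le_mul_of_nonneg_right h2 hm0
        _ ≤ Real.exp (L * (8 * τ0) ^ 2) * (S * (cc d 2 - A0)) :=
            mul_le_mul_of_nonneg_left hh (Real.exp_pos _).le
        _ = S * (Real.exp (L * (8 * τ0) ^ 2) * (cc d 2 - A0)) := by ring
        _ ≤ S * (cc d 2 - A0 / 2) := mul_le_mul_of_nonneg_left hq hS
    have h4 : u x ≤ (cc d 2 - A0 / 2) / cc d 2 * S := by
      rw [div_mul_eq_mul_div, le_div_iff₀ hcc]; linarith
    exact h4.trans (mul_le_mul_of_nonneg_right (le_max_right _ _) hS)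
  have iter : ∀ k : ℕ, ∀ x ∈ ball y (τ0 / 9 ^ k), u x ≤ q ^ k := by
    intro k
    induction k with
    | zero => intro x _; simpa using u1 x
    | succ k ih =>
      intro x hx
      have h1 : 9 * (τ0 / 9 ^ (k + 1)) = τ0 / 9 ^ k := by rw [pow_succ]; field_simp
      have h2 : τ0 / 9 ^ (k + 1) ≤ τ0 :=
        div_le_self hτ0.le (one_le_pow₀ (by norm_num))
      have := step (τ0 / 9 ^ (k + 1)) (by positivity) h2 (q ^ k) (by positivity)
        (by rw [h1]; exact ih) x hx
      rw [pow_succ]; linarith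
  intro ε hε
  obtain ⟨k, hk⟩ := exists_pow_lt_of_lt_one hε hq1
  exact ⟨τ0 / 9 ^ k, by positivity, fun x hx => (iter k x hx).trans_lt hk⟩

/-- strong maximum principle -/
lemma pos_of_super {Ω : Set (E d)} (hΩ : IsOpen Ω) (hconn : IsPreconnected Ω) {u g : E d → ℝ}
    (hu : Continuous u) (u0 : ∀ x, 0 ≤ u x) (g0 : ∀ x, 0 ≤ g x)
    (hw : WEq Ω u (fun z => -g z)) (hp : ∃ p ∈ Ω, 0 < u p) : ∀ x ∈ Ω, 0 < u x := by
  have hcc : 0 < cc d 2 := cc_pos (by norm_num)
  -- zeros propagate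
  have hprop : ∀ x ∈ Ω, u x = 0 → ∃ ρ, 0 < ρ ∧ ball x ρ ⊆ Ω ∧ ∀ z ∈ ball x ρ, u z = 0 := by
    intro x hx hux
    obtain ⟨ε, hε, hεΩ⟩ := Metric.isOpen_iff.1 hΩ x hx
    set t := ε / 2 with ht
    have ht0 : 0 < t := by positivity
    have hb : closedBall x t ⊆ Ω := (closedBall_subset_ball (by linarith)).trans hεΩ
    have h1 := mono_aux (F := fun s => - m 2 u x s) (F0 := -(cc d 2 * u x))
      (D := fun s => -((s / (2 * (((0:ℕ) : ℝ) + 3))) * m 3 (fun z => -g z) x s)) ht0
      (fun s hs => (deriv_m_eq hw hu.locallyIntegrable 0 hs.1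
        ((closedBall_subset_closedBall hs.2).trans hb)).neg) ?_
      (tendsto_m (by norm_num) hu.locallyIntegrable hu.continuousAt).neg
    · have h2 : m 2 u x t ≤ 0 := by rw [hux] at h1; linarith
      have h3 : P 2 u x t ≤ 0 := by
        unfold m at h2
        by_contra hcon
        rw [not_le] at hcon
        exact absurd h2 (not_le.2 (by positivity))
      have hint : Integrable (fun z => ker 2 t x z * u z) volume :=
        integrable_ker_mul (by norm_num) ht0.le x hu.locallyIntegrable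
      have h4 : ∫ z, ker 2 t x z * u z = 0 :=
        le_antisymm h3 (integral_nonneg fun z => mul_nonneg (ker_nonneg _ _ _ _) (u0 z))
      have h5 := (integral_eq_zero_iff_of_nonneg
        (fun z => mul_nonneg (ker_nonneg _ _ _ _) (u0 z)) hint).1 h4
      have h6 : (fun z => ker 2 t x z * u z) = fun _ => 0 := by
        refine (Continuous.ae_eq_iff_eq volume ((continuous_ker 2 t x).mul hu)
          continuous_const).1 h5
      refine ⟨t, ht0, ball_subset_closedBall.trans hb, fun z hz => ?_⟩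
      have h7 : ker 2 t x z * u z = 0 := congrFun h6 z
      have h8 : 0 < ker 2 t x z := by
        unfold ker
        have hz' : ‖z - x‖ < t := by rw [← dist_eq_norm]; exact hz
        have : 0 < t ^ 2 - ‖z - x‖ ^ 2 := by nlinarith [norm_nonneg (z - x)]
        rw [pp_of_nonneg _ this.le]; positivity
      rcases mul_eq_zero.1 h7 with h9 | h9
      · exact absurd h9 h8.ne'
      · exact h9
    · intro s hs
      have hs1 := hs.1
      have e : (fun z => -g z) = fun z => (-1) * g z := by ext z; ring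
      rw [e, m_const_mul]
      have h2 : 0 ≤ m 3 g x s := m_nonneg (by norm_num) hs1 (fun z _ => g0 z)
      have : 0 ≤ s / (2 * (((0:ℕ) : ℝ) + 3)) * m 3 g x s := by positivity
      linarith
  by_contra hcon
  push Not at hcon
  obtain ⟨x1, hx1, hux1⟩ := hcon
  obtain ⟨p, hpΩ, hup⟩ := hp
  have hO1 : IsOpen {x | 0 < u x} := isOpen_lt continuous_const hu
  have hO2 : IsOpen {x | x ∈ Ω ∧ u x = 0} := by
    rw [Metric.isOpen_iff]
    rintro x ⟨hx, hux⟩
    obtain ⟨ρ, hρ, hb, hz⟩ := hprop x hx hux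
    exact ⟨ρ, hρ, fun z hzb => ⟨hb hzb, hz z hzb⟩⟩
  obtain ⟨z, _, hz1, hz2⟩ := hconn {x | 0 < u x} {x | x ∈ Ω ∧ u x = 0} hO1 hO2
    (fun x hx => by
      rcases (u0 x).eq_or_lt with h | h
      · exact Or.inr ⟨hx, h.symm⟩
      · exact Or.inl h)
    ⟨p, hpΩ, hup⟩ ⟨x1, hx1, hx1, le_antisymm hux1 (u0 x1)⟩
  have h1 : 0 < u z := hz1
  have h2 : u z = 0 := hz2.2
  linarith

theorem exists_sol (R : RD) (hf : ContDiff ℝ 1 R.f) {Ω : Set (E d)} {r Λ : ℝ}
    (hLD : LipDom Ω r Λ) {x₀ : E d} (hs : Star x₀ Ω) (hne : Ω.Nonempty)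
    (hconn : IsPreconnected Ω) : ∃ u : E d → ℝ, Sol R Ω u := by
  have hΩ := hLD.isOpen
  obtain ⟨u, hli, u0, u1, hw, hcΩ, hsub, hext, hp⟩ := exists_limit R hΩ hs hne
  have hL := R.hL
  have hsub2 : ∀ (x : E d) (t : ℝ), 0 < t → cc d 2 * u x ≤
      Real.exp (R.L / 12 * t ^ 2) * m 2 u x t := by
    intro x t ht
    have := hsub 0 x t ht
    have e : R.L / (2 * (((0:ℕ) : ℝ) + 3)) * t ^ 2 / 2 = R.L / 12 * t ^ 2 := by
      push_cast; ring
    rw [e] at this
    exact this
  have hbd := fun y (hy : y ∈ frontier Ω) => boundary_cont hLD (L := R.L / 12) (by positivity)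
    hli u0 u1 hsub2 hext hy
  have hfr : ∀ y ∈ frontier Ω, u y = 0 := by
    intro y hy
    refine le_antisymm (le_of_forall_pos_lt_add fun ε hε => ?_) (u0 y)
    obtain ⟨δ, hδ, h⟩ := hbd y hy ε hε
    rw [zero_add]
    exact h y (mem_ball_self hδ)
  have hcont : Continuous u := by
    rw [continuous_iff_continuousAt]
    intro x
    by_cases hx : x ∈ Ω
    · exact hcΩ.continuousAt (hΩ.mem_nhds hx)
    · by_cases hxc : x ∈ closure Ω
      · have hxf : x ∈ frontier Ω := by rw [hΩ.frontier_eq]; exact ⟨hxc, hx⟩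
        rw [Metric.continuousAt_iff]
        intro ε hε
        obtain ⟨δ, hδ, h⟩ := hbd x hxf ε hε
        refine ⟨δ, hδ, fun {z} hz => ?_⟩
        rw [hfr x hxf, Real.dist_eq, sub_zero, abs_of_nonneg (u0 z)]
        exact h z hz
      · have h0 : u =ᶠ[𝓝 x] fun _ => 0 := by
          filter_upwards [isClosed_closure.isOpen_compl.mem_nhds hxc] with z hz
          exact hext z hz
        exact continuousAt_const.congr h0.symm
  have hzero : ∀ x ∉ Ω, u x = 0 := by
    intro x hx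
    by_cases hxc : x ∈ closure Ω
    · exact hfr x (by rw [hΩ.frontier_eq]; exact ⟨hxc, hx⟩)
    · exact hext x hxc
  exact ⟨u, {
    cont := hcont
    zero := hzero
    pos := pos_of_super hΩ hconn hcont u0 (fun x => R.nonneg (u0 x) (u1 x)) hw hp
    le_one := u1
    smooth := contDiffOn_of_weak hΩ hcont hf hw
    eq := lap_eq_of_weak hΩ hcont hf hw }⟩

end Pool.Agent.ExtStar
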