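import Pool.Agent.ExtStar.Dom

set_option autoImplicit false

open MeasureTheory Metric Set Filter Topology

namespace Pool.Agent.ExtStar

variable {d : ℕ}

/-- Local decay of `(u - a)₊ ^ 3` when positivity of `u - a` only occurs near the boundary or
where `a` is close to one. -/
theorem g_local (R : RD) {Ω : Set (E d)} {r Λ : ℝ} (hL : LipDom Ω r Λ) :
    ∃ s θ : ℝ, 0 < s ∧ s ≤ 1 ∧ s ≤ r ∧ 0 < θ ∧ θ < 1 ∧
      ∀ (u a : E d → ℝ) (K : ℝ), Sol R Ω u → Sup R Ω K a → ∀ (x : E d) (S : ℝ), 0 ≤ S →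
        (∀ z ∈ ball x s, pp 3 (u z - a z) ≤ S) →
        (∀ z ∈ ball x s, ball z (s / 4) ⊆ Ω → u z ≤ a z ∨ 1 - R.e1 ≤ a z) →
        pp 3 (u x - a x) ≤ θ * S := by
  have hr := hL.hr
  have hΛ := hL.hΛ
  have hΩ := hL.isOpen
  have hcc2 : 0 < cc d 2 := cc_pos (by norm_num)
  have hcc3 : 0 < cc d 3 := cc_pos (by norm_num)
  have hω := ω_pos d
  -- hole size
  set A : ℝ := (1 - (7 / 8 : ℝ) ^ 2) ^ 2 * (1 / (8 * Λ)) ^ d * ω d with hA
  have hA0 : 0 < A := by
    rw [hA]; positivity
  -- choice of s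
  have hs : ∃ s : ℝ, 0 < s ∧ s ≤ 1 ∧ s ≤ r ∧
      Real.exp (R.L * s ^ 2 / 4) * (cc d 2 - A) ≤ cc d 2 - A / 2 := by
    have hcont : Continuous fun s : ℝ => Real.exp (R.L * s ^ 2 / 4) * (cc d 2 - A) := by fun_prop
    have h0 : Tendsto (fun s : ℝ => Real.exp (R.L * s ^ 2 / 4) * (cc d 2 - A)) (𝓝[>] 0)
        (𝓝 (cc d 2 - A)) := by
      have := (hcont.tendsto 0).mono_left (nhdsWithin_le_nhds (s := Ioi 0))
      simpa using this
    have h1 : ∀ᶠ s in 𝓝[>] (0:ℝ), Real.exp (R.L * s ^ 2 / 4) * (cc d 2 - A) < cc d 2 - A / 2 :=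
      h0.eventually_lt_const (by linarith)
    have h2 : ∀ᶠ s in 𝓝[>] (0:ℝ), s ∈ Ioc 0 (min 1 r) := Ioc_mem_nhdsGT (lt_min one_pos hr)
    obtain ⟨s, hs1, hs2⟩ := (h1.and h2).exists
    exact ⟨s, hs2.1, hs2.2.trans (min_le_left _ _), hs2.2.trans (min_le_right _ _), hs1.le⟩
  obtain ⟨s, hs0, hs1, hsr, hsA⟩ := hs
  have hc1 := R.hc1
  set B : ℝ := R.c1 / 4 * cc d 3 * (s / 8) ^ 2 with hB
  have hB0 : 0 < B := by positivity
  set θ : ℝ := max ((cc d 2 - A / 2) / cc d 2) (cc d 2 / (cc d 2 + B)) with hθ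
  have hθ0 : 0 < θ := lt_max_of_lt_right (by positivity)
  have hθ1 : θ < 1 := by
    refine max_lt ?_ ?_
    · rw [div_lt_one hcc2]; linarith
    · rw [div_lt_one (by positivity)]; linarith
  refine ⟨s, θ, hs0, hs1, hsr, hθ0, hθ1, ?_⟩
  intro u a K hu ha x S hS hle hcond
  by_cases hx : x ∈ Ω
  swap
  · rw [pp_of_nonpos (by norm_num) (ha.w_nonpos hu x hx)]
    positivity
  by_cases hb : ball x (s / 2) ⊆ Ω
  · -- interior case
    have hU : ball x (s / 4) ⊆ Ω := (ball_subset_ball (by linarith)).trans hb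
    have h1 := super_growth_cube (U := ball x (s / 4)) isOpen_ball (ha.w_cont hu)
      ((ha.w_smooth hu).mono hU) hc1.le (x := x) (t := s / 8) ?_ (by positivity)
      (closedBall_subset_ball (by linarith))
    · have h2 : m 2 (fun z => pp 3 (u z - a z)) x (s / 8) ≤ cc d 2 * S :=
        m_le (by norm_num) (by positivity)
          (((continuous_pp 3).comp (ha.w_cont hu)).locallyIntegrable)
          (fun z hz => hle z (ball_subset_ball (by linarith) hz))
      have h3 : pp 3 (u x - a x) * (cc d 2 + B) ≤ cc d 2 * S := h1.trans h2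
      have h4 : pp 3 (u x - a x) ≤ cc d 2 / (cc d 2 + B) * S := by
        rw [div_mul_eq_mul_div, le_div_iff₀ (by positivity)]
        exact h3
      exact h4.trans (mul_le_mul_of_nonneg_right (le_max_right _ _) hS)
    · intro z hz hpos
      have hzb : ball z (s / 4) ⊆ Ω := by
        refine subset_trans ?_ hb
        refine ball_subset_ball' ?_
        have : dist z x < s / 4 := hz
        linarith
      have hzΩ : z ∈ Ω := hU hz
      rcases hcond z (ball_subset_ball (by linarith) hz) hzb with h | h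
      · linarith
      · refine le_trans ?_ (ha.w_lap_ge hΩ hu hzΩ)
        exact R.high (a z) (u z) h (by linarith) (hu.le_one z)
  · -- boundary case
    obtain ⟨y, hy, hyx⟩ := exists_frontier hΩ hx (by positivity) hb
    obtain ⟨e, h, he, hlip, htr, hy0, hch⟩ := hL.chart y hy
    set p : E d := y + (-(s / 4)) • e with hp
    have hhp : h p = -(s / 4) := by rw [hp, htr, hy0]; ring
    have hpy : dist p y = s / 4 := by
      rw [hp, dist_eq_norm, add_sub_cancel_left, norm_smul, he, mul_one, Real.norm_eq_abs,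
        abs_neg, abs_of_pos (by positivity)]
    have h8 : s / (8 * Λ) ≤ s / 8 := by
      apply div_le_div_of_nonneg_left hs0.le (by norm_num) (by linarith)
    have h1 := ha.hole_decay hΩ hu (x := x) (p := p) (t := s) (ρ := s / (8 * Λ)) (θ := 7 / 8)
      hs0 (by positivity) (by norm_num) (by norm_num) hS hle ?_ ?_
    · have e1 : s / (8 * Λ) / s = 1 / (8 * Λ) := by field_simp
      rw [e1] at h1
      have h2 : cc d 2 * pp 3 (u x - a x) ≤ (cc d 2 - A / 2) * S := by
        calc cc d 2 * pp 3 (u x - a x) ≤ _ := h1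
          _ = (Real.exp (R.L * s ^ 2 / 4) * (cc d 2 - A)) * S := by rw [hA]; ring
          _ ≤ (cc d 2 - A / 2) * S := mul_le_mul_of_nonneg_right hsA hS
      have h3 : pp 3 (u x - a x) ≤ (cc d 2 - A / 2) / cc d 2 * S := by
        rw [div_mul_eq_mul_div, le_div_iff₀ hcc2]
        linarith
      exact h3.trans (mul_le_mul_of_nonneg_right (le_max_left _ _) hS)
    · intro z hz
      have hzp : dist z p < s / (8 * Λ) := hz
      have hzy : z ∈ ball y r := by
        rw [mem_ball]
        have := dist_triangle z p y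
        linarith
      rw [hch z hzy, not_lt]
      have h3 := hlip z p
      have h4 : Λ * dist z p ≤ s / 8 := by
        have : Λ * dist z p ≤ Λ * (s / (8 * Λ)) := mul_le_mul_of_nonneg_left hzp.le (by linarith)
        have e2 : Λ * (s / (8 * Λ)) = s / 8 := by field_simp
        linarith
      have h5 := (abs_le.1 h3).2
      linarith
    · refine ball_subset_closedBall.trans (closedBall_subset_closedBall' ?_)
      have h3 := dist_triangle p y x
      have h4 : dist y x < s / 2 := hyx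
      linarith

end Pool.Agent.ExtStar
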