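import Pool.Agent.ExtStar.Mean

set_option autoImplicit false

open MeasureTheory Metric Set Filter Topology

namespace Pool.Agent.ExtStar

variable {d : ℕ}

lemma mono_aux {F D : ℝ → ℝ} {T F0 : ℝ} (hT : 0 < T)
    (hd : ∀ t ∈ Ioc 0 T, HasDerivAt F (D t) t) (h : ∀ t ∈ Ioc 0 T, 0 ≤ D t)
    (hlim : Tendsto F (𝓝[>] 0) (𝓝 F0)) : F0 ≤ F T := by
  have hmono : MonotoneOn F (Ioc 0 T) := by
    refine monotoneOn_of_deriv_nonneg (convex_Ioc 0 T)
      (fun t ht => (hd t ht).continuousAt.continuousWithinAt) ?_ ?_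
    · intro t ht
      exact (hd t (interior_subset ht)).differentiableAt.differentiableWithinAt
    · intro t ht
      rw [(hd t (interior_subset ht)).deriv]
      exact h t (interior_subset ht)
  refine le_of_tendsto hlim ?_
  have : Ioc 0 T ∈ 𝓝[>] (0 : ℝ) := Ioc_mem_nhdsGT hT
  filter_upwards [this] with t ht
  exact hmono ht ⟨hT, le_rfl⟩ ht.2

lemma gronwall_aux {F D : ℝ → ℝ} {C T F0 : ℝ} (hT : 0 < T)
    (hd : ∀ t ∈ Ioc 0 T, HasDerivAt F (D t) t) (h : ∀ t ∈ Ioc 0 T, -(C * t * F t) ≤ D t)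
    (hlim : Tendsto F (𝓝[>] 0) (𝓝 F0)) : F0 ≤ Real.exp (C * T ^ 2 / 2) * F T := by
  refine mono_aux (F := fun t => Real.exp (C * t ^ 2 / 2) * F t)
    (D := fun t => Real.exp (C * t ^ 2 / 2) * (C * t) * F t + Real.exp (C * t ^ 2 / 2) * D t) hT
    ?_ ?_ ?_
  · intro t ht
    have h1 : HasDerivAt (fun t : ℝ => C * t ^ 2 / 2) (C * t) t := by
      have := ((hasDerivAt_pow 2 t).const_mul C).div_const 2
      refine this.congr_deriv ?_
      simp; ring
    exact (h1.exp).mul (hd t ht)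
  · intro t ht
    have := h t ht
    have h2 : 0 < Real.exp (C * t ^ 2 / 2) := Real.exp_pos _
    have h3 : 0 ≤ Real.exp (C * t ^ 2 / 2) * (C * t * F t + D t) :=
      mul_nonneg h2.le (by linarith)
    calc (0:ℝ) ≤ _ := h3
      _ = _ := by ring
  · have h1 : Tendsto (fun t : ℝ => Real.exp (C * t ^ 2 / 2)) (𝓝[>] 0) (𝓝 1) := by
      have : Continuous fun t : ℝ => Real.exp (C * t ^ 2 / 2) := by fun_prop
      have h := (this.tendsto 0).mono_left (nhdsWithin_le_nhds (s := Ioi 0))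
      simpa using h
    simpa using h1.mul hlim

lemma growth_aux {F D : ℝ → ℝ} {K T F0 : ℝ} (hT : 0 < T)
    (hd : ∀ t ∈ Ioc 0 T, HasDerivAt F (D t) t) (h : ∀ t ∈ Ioc 0 T, K * t ≤ D t)
    (hlim : Tendsto F (𝓝[>] 0) (𝓝 F0)) : F0 + K * T ^ 2 / 2 ≤ F T := by
  have := mono_aux (F := fun t => F t - K * t ^ 2 / 2)
    (D := fun t => D t - K * t) hT (F0 := F0) ?_ ?_ ?_
  · linarith
  · intro t ht
    have h1 : HasDerivAt (fun t : ℝ => K * t ^ 2 / 2) (K * t) t := by
      have := ((hasDerivAt_pow 2 t).const_mul K).div_const 2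
      refine this.congr_deriv ?_
      simp; ring
    exact (hd t ht).sub h1
  · intro t ht
    have := h t ht
    linarith
  · have h1 : Tendsto (fun t : ℝ => K * t ^ 2 / 2) (𝓝[>] 0) (𝓝 0) := by
      have : Continuous fun t : ℝ => K * t ^ 2 / 2 := by fun_prop
      have h := (this.tendsto 0).mono_left (nhdsWithin_le_nhds (s := Ioi 0))
      simpa using h
    simpa using hlim.sub h1

/-- weighted means converge to the value at points of continuity -/
lemma tendsto_m {j : ℕ} (hj : j ≠ 0) {w : E d → ℝ} {x : E d} (hw : LocallyIntegrable w volume)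
    (hc : ContinuousAt w x) : Tendsto (m j w x) (𝓝[>] 0) (𝓝 (cc d j * w x)) := by
  rw [Metric.tendsto_nhds]
  intro ε hε
  have hcc : 0 < cc d j := cc_pos hj
  rw [Metric.continuousAt_iff] at hc
  obtain ⟨δ, hδ, h⟩ := hc (ε / (2 * cc d j)) (by positivity)
  filter_upwards [Ioo_mem_nhdsGT hδ] with t ht
  have h1 : ∀ z ∈ ball x t, |w z - w x| < ε / (2 * cc d j) := by
    intro z hz
    have := h (x := z) (lt_trans (mem_ball.1 hz) ht.2)
    simpa [Real.dist_eq] using this
  have up := m_le hj ht.1 hw (c := w x + ε / (2 * cc d j))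
    (fun z hz => by have := (abs_lt.1 (h1 z hz)).2; linarith)
  have lo := le_m hj ht.1 hw (c := w x - ε / (2 * cc d j))
    (fun z hz => by have := (abs_lt.1 (h1 z hz)).1; linarith)
  have e : cc d j * (ε / (2 * cc d j)) = ε / 2 := by field_simp
  rw [Real.dist_eq, abs_lt]
  constructor <;> nlinarith

/-- `Δ w ≥ g` weakly in `U` -/
def WGe (U : Set (E d)) (w g : E d → ℝ) : Prop :=
  ∀ φ : E d → ℝ, ContDiff ℝ 2 φ → HasCompactSupport φ → tsupport φ ⊆ U → (∀ z, 0 ≤ φ z) →
    ∫ z, g z * φ z ≤ ∫ z, w z * lap φ z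

lemma deriv_m_ge {U : Set (E d)} {w g : E d → ℝ} (h : WGe U w g) (hw : LocallyIntegrable w volume)
    (i : ℕ) {x : E d} {t : ℝ} (ht : 0 < t) (hb : closedBall x t ⊆ U) :
    ∃ D, HasDerivAt (m (i + 2) w x) D t ∧ (t / (2 * ((i : ℝ) + 3))) * m (i + 3) g x t ≤ D := by
  refine ⟨_, hasDerivAt_m i ht x hw, ?_⟩
  have h1 := h (ker (i + 3) t x) (contDiff_ker (i + 3) 2 (by omega) t x)
    (hasCompactSupport_ker (by omega) ht.le x) ((tsupport_ker (by omega) ht.le x).trans hb)
    (ker_nonneg _ _ _)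
  have h2 : ∫ z, g z * ker (i + 3) t x z = P (i + 3) g x t := by
    unfold P; congr 1; ext z; ring
  rw [h2] at h1
  have e : (t / (2 * ((i : ℝ) + 3))) * m (i + 3) g x t =
      P (i + 3) g x t / (2 * ((i : ℝ) + 3) * t ^ (d + 2 * (i + 2) + 1)) := by
    unfold m
    have : t ^ (d + 2 * (i + 3)) = t * t ^ (d + 2 * (i + 2) + 1) := by
      rw [← pow_succ']; congr 1
    rw [this]
    field_simp
  rw [e]
  exact div_le_div_of_nonneg_right h1 (by positivity)

lemma deriv_m_eq {U : Set (E d)} {w g : E d → ℝ}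
    (h : ∀ φ : E d → ℝ, ContDiff ℝ 2 φ → HasCompactSupport φ → tsupport φ ⊆ U →
      ∫ z, w z * lap φ z = ∫ z, g z * φ z) (hw : LocallyIntegrable w volume)
    (i : ℕ) {x : E d} {t : ℝ} (ht : 0 < t) (hb : closedBall x t ⊆ U) :
    HasDerivAt (m (i + 2) w x) ((t / (2 * ((i : ℝ) + 3))) * m (i + 3) g x t) t := by
  refine (hasDerivAt_m i ht x hw).congr_deriv ?_
  have h1 := h (ker (i + 3) t x) (contDiff_ker (i + 3) 2 (by omega) t x)
    (hasCompactSupport_ker (by omega) ht.le x) ((tsupport_ker (by omega) ht.le x).trans hb)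
  have h2 : ∫ z, g z * ker (i + 3) t x z = P (i + 3) g x t := by
    unfold P; congr 1; ext z; ring
  rw [h1, h2]
  unfold m
  have : t ^ (d + 2 * (i + 3)) = t * t ^ (d + 2 * (i + 2) + 1) := by
    rw [← pow_succ']; congr 1
  rw [this]
  field_simp

/-- classical `C²` functions satisfy the weak inequality -/
lemma wge_of_contDiffOn {U : Set (E d)} (hU : IsOpen U) {w g : E d → ℝ} (hw : ContDiffOn ℝ 2 w U)
    (hg : LocallyIntegrable g volume) (h : ∀ z ∈ U, g z ≤ lap w z) : WGe U w g := by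
  intro φ hφ hc hs hφ0
  rw [green hU hw hφ hc hs]
  have hlap : ContinuousOn (lap w) U := by
    have hw2 : ∀ z ∈ U, ContDiffAt ℝ 2 w z := fun z hz => hw.contDiffAt (hU.mem_nhds hz)
    have hw2c : ContinuousOn (fderiv ℝ (fderiv ℝ w)) U := fun z hz =>
      ((contDiffAt_fderiv (hw2 z hz)).fderiv_right (m := 0)
        (by norm_num)).continuousAt.continuousWithinAt
    have : lap w = fun z => ∑ i : Fin d, fderiv ℝ (fderiv ℝ w) z (bv i) (bv i) := by
      ext z; rw [lap_eq]
    rw [this]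
    fun_prop
  refine integral_mono ?_ (integrable_mul_of_cont hU hlap hφ.continuous hc hs) ?_
  · have := hg.integrable_smul_right_of_hasCompactSupport hφ.continuous hc
    simpa using this
  · intro z
    by_cases hz : z ∈ U
    · exact mul_le_mul_of_nonneg_right (h z hz) (hφ0 z)
    · have : φ z = 0 := image_eq_zero_of_notMem_tsupport (fun h => hz (hs h))
      simp [this]

end Pool.Agent.ExtStar
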