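import Pool.Agent.ExtStar.SubMean

set_option autoImplicit false

open MeasureTheory Metric Set Filter Topology

namespace Pool.Agent.ExtStar

variable {d : ℕ}

/-- a positive reaction with explicit constants -/
structure RD where
  /-- the reaction -/
  f : ℝ → ℝ
  cont : Continuous f
  f0 : f 0 = 0
  f1 : f 1 = 0
  pos : ∀ s, 0 < s → s < 1 → 0 < f s
  /-- Lipschitz constant -/
  L : ℝ
  hL : 0 < L
  lip : ∀ s ∈ Icc (0:ℝ) 1, ∀ t ∈ Icc (0:ℝ) 1, |f s - f t| ≤ L * |s - t|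
  /-- slope at zero -/
  mu : ℝ
  hmu : 0 < mu
  /-- range of the lower linear bound -/
  s0 : ℝ
  hs0 : 0 < s0
  hs0' : s0 < 1
  low : ∀ s, 0 < s → s ≤ s0 → mu * s < f s
  /-- range of stability near one -/
  e1 : ℝ
  he1 : 0 < e1
  he1' : e1 < 1
  /-- stability constant -/
  c1 : ℝ
  hc1 : 0 < c1
  high : ∀ s t, 1 - e1 ≤ s → s ≤ t → t ≤ 1 → c1 * (t - s) ≤ f s - f t

lemma RD.nonneg (R : RD) {s : ℝ} (h0 : 0 ≤ s) (h1 : s ≤ 1) : 0 ≤ R.f s := by
  rcases h0.eq_or_lt with rfl | h0'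
  · rw [R.f0]
  · rcases h1.eq_or_lt with rfl | h1'
    · rw [R.f1]
    · exact (R.pos s h0' h1').le

lemma RD.le (R : RD) {s : ℝ} (h0 : 0 ≤ s) (h1 : s ≤ 1) : R.f s ≤ R.L * s := by
  have := R.lip s ⟨h0, h1⟩ 0 ⟨le_rfl, zero_le_one⟩
  rw [R.f0, sub_zero, sub_zero, abs_of_nonneg h0] at this
  exact (le_abs_self _).trans this

/-- positive bounded solutions, extended by zero -/
structure Sol (R : RD) (Ω : Set (E d)) (u : E d → ℝ) : Prop where
  cont : Continuous u
  zero : ∀ x ∉ Ω, u x = 0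
  pos : ∀ x ∈ Ω, 0 < u x
  le_one : ∀ x, u x ≤ 1
  smooth : ContDiffOn ℝ 2 u Ω
  eq : ∀ x ∈ Ω, lap u x = - R.f (u x)

variable {R : RD} {Ω : Set (E d)} {u v : E d → ℝ}

lemma Sol.nonneg (h : Sol R Ω u) (x : E d) : 0 ≤ u x := by
  by_cases hx : x ∈ Ω
  · exact (h.pos x hx).le
  · rw [h.zero x hx]

lemma Sol.li (h : Sol R Ω u) : LocallyIntegrable u volume := h.cont.locallyIntegrable

lemma Sol.fcont (h : Sol R Ω u) : Continuous (fun z => R.f (u z)) := R.cont.comp h.cont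

lemma Sol.f_nonneg (h : Sol R Ω u) (x : E d) : 0 ≤ R.f (u x) := R.nonneg (h.nonneg x) (h.le_one x)

lemma Sol.f_le (h : Sol R Ω u) (x : E d) : R.f (u x) ≤ R.L * u x := R.le (h.nonneg x) (h.le_one x)

lemma Sol.hasDerivAt_m (hΩ : IsOpen Ω) (h : Sol R Ω u) (i : ℕ) {x : E d} {t : ℝ} (ht : 0 < t)
    (hb : closedBall x t ⊆ Ω) :
    HasDerivAt (m (i + 2) u x)
      (-((t / (2 * ((i : ℝ) + 3))) * m (i + 3) (fun z => R.f (u z)) x t)) t := by
  have h1 := deriv_m_eq (U := Ω) (w := u) (g := fun z => -1 * R.f (u z)) ?_ h.li i ht hb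
  · refine h1.congr_deriv ?_
    rw [m_const_mul]; ring
  · intro φ hφ hc hs
    rw [green hΩ h.smooth hφ hc hs]
    congr 1; ext z
    by_cases hz : z ∈ Ω
    · rw [h.eq z hz]; ring
    · have : φ z = 0 := image_eq_zero_of_notMem_tsupport (fun h => hz (hs h))
      simp [this]

lemma Sol.tendsto_m (h : Sol R Ω u) {j : ℕ} (hj : j ≠ 0) (x : E d) :
    Tendsto (m j u x) (𝓝[>] 0) (𝓝 (cc d j * u x)) :=
  Pool.Agent.ExtStar.tendsto_m hj h.li h.cont.continuousAt

/-- super-mean-value property -/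
lemma Sol.super_mean (hΩ : IsOpen Ω) (h : Sol R Ω u) (i : ℕ) {x : E d} {t : ℝ} (ht : 0 < t)
    (hb : closedBall x t ⊆ Ω) : m (i + 2) u x t ≤ cc d (i + 2) * u x := by
  have := mono_aux (F := fun s => - m (i + 2) u x s) (F0 := -(cc d (i + 2) * u x))
    (D := fun s => (s / (2 * ((i : ℝ) + 3))) * m (i + 3) (fun z => R.f (u z)) x s) ht ?_ ?_ ?_
  · simpa using this
  · intro s hs
    have := (h.hasDerivAt_m hΩ i hs.1 ((closedBall_subset_closedBall hs.2).trans hb)).neg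
    exact this.congr_deriv (by ring)
  · intro s hs
    have h1 : 0 ≤ m (i + 3) (fun z => R.f (u z)) x s :=
      m_nonneg (by omega) hs.1 (fun z _ => h.f_nonneg z)
    have hs1 := hs.1
    positivity
  · exact (h.tendsto_m (by omega) x).neg

/-- sub-mean-value property and quantitative control -/
lemma Sol.mean_lower (hΩ : IsOpen Ω) (h : Sol R Ω u) {x : E d} {t : ℝ} (ht : 0 < t)
    (hb : closedBall x t ⊆ Ω) :
    cc d 2 * u x - R.L / 12 * t ^ 2 * (cc d 2 * u x) ≤ m 2 u x t := by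
  have := growth_aux (F := fun s => m 2 u x s) (F0 := cc d 2 * u x)
    (K := -(R.L / 6 * (cc d 2 * u x)))
    (D := fun s => -((s / (2 * (((0:ℕ) : ℝ) + 3))) * m 3 (fun z => R.f (u z)) x s)) ht ?_ ?_ ?_
  · linarith
  · intro s hs
    exact h.hasDerivAt_m hΩ 0 hs.1 ((closedBall_subset_closedBall hs.2).trans hb)
  · intro s hs
    have hs1 := hs.1
    have h1 : m 3 (fun z => R.f (u z)) x s ≤ m 3 (fun z => R.L * u z) x s :=
      m_mono (by norm_num) hs.1 h.fcont.locallyIntegrable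
        (continuous_const.mul h.cont).locallyIntegrable (fun z _ => h.f_le z)
    rw [m_const_mul] at h1
    have h2 : m 3 u x s ≤ m 2 u x s := m_succ_le (by norm_num) hs.1 h.li (fun z _ => h.nonneg z)
    have h3 := h.super_mean hΩ 0 hs.1 ((closedBall_subset_closedBall hs.2).trans hb)
    have hL := R.hL
    have h4 : m 3 (fun z => R.f (u z)) x s ≤ R.L * (cc d 2 * u x) :=
      h1.trans (mul_le_mul_of_nonneg_left (h2.trans h3) hL.le)
    have h5 : s / (2 * (((0:ℕ) : ℝ) + 3)) = s / 6 := by push_cast; ring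
    rw [h5]
    have h6 : s / 6 * m 3 (fun z => R.f (u z)) x s ≤ s / 6 * (R.L * (cc d 2 * u x)) :=
      mul_le_mul_of_nonneg_left h4 (by positivity)
    linarith
  · exact h.tendsto_m (by norm_num) x

lemma Sol.sub_mean (hΩ : IsOpen Ω) (h : Sol R Ω u) {x : E d} {t : ℝ} (ht : 0 < t)
    (hb : closedBall x t ⊆ Ω) :
    cc d 2 * u x ≤ Real.exp (R.L * t ^ 2 / 12) * m 2 u x t := by
  have := gronwall_aux (F := fun s => m 2 u x s) (F0 := cc d 2 * u x)
    (C := R.L / 6)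
    (D := fun s => -((s / (2 * (((0:ℕ) : ℝ) + 3))) * m 3 (fun z => R.f (u z)) x s)) ht ?_ ?_ ?_
  · have e : R.L / 6 * t ^ 2 / 2 = R.L * t ^ 2 / 12 := by ring
    rw [e] at this; exact this
  · intro s hs
    exact h.hasDerivAt_m hΩ 0 hs.1 ((closedBall_subset_closedBall hs.2).trans hb)
  · intro s hs
    have hs1 := hs.1
    have h1 : m 3 (fun z => R.f (u z)) x s ≤ m 3 (fun z => R.L * u z) x s :=
      m_mono (by norm_num) hs.1 h.fcont.locallyIntegrable
        (continuous_const.mul h.cont).locallyIntegrable (fun z _ => h.f_le z)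
    rw [m_const_mul] at h1
    have h2 : m 3 u x s ≤ m 2 u x s := m_succ_le (by norm_num) hs.1 h.li (fun z _ => h.nonneg z)
    have hL := R.hL
    have h4 : m 3 (fun z => R.f (u z)) x s ≤ R.L * m 2 u x s :=
      h1.trans (mul_le_mul_of_nonneg_left h2 hL.le)
    have h5 : s / (2 * (((0:ℕ) : ℝ) + 3)) = s / 6 := by push_cast; ring
    rw [h5]
    have h6 : s / 6 * m 3 (fun z => R.f (u z)) x s ≤ s / 6 * (R.L * m 2 u x s) :=
      mul_le_mul_of_nonneg_left h4 (by positivity)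
    have e7 : R.L / 6 * s * m 2 u x s = s / 6 * (R.L * m 2 u x s) := by ring
    rw [e7]
    linarith
  · exact h.tendsto_m (by norm_num) x

lemma ker_compare {t : ℝ} (ht : 0 < t) {x x' : E d} (hd : dist x x' ≤ t / 2) (z : E d) :
    ker 2 t x' z ≤ (4 / 7) ^ 2 * ker 2 (2 * t) x z := by
  by_cases hz : t ≤ dist z x'
  · rw [ker_eq_zero (by norm_num) ht.le hz]
    have := ker_nonneg 2 (2 * t) x z
    positivity
  · rw [not_le] at hz
    have h1 : dist z x ≤ 3 * t / 2 := by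
      have := dist_triangle z x' x
      rw [dist_comm x' x] at this
      linarith
    have h2 : 7 / 4 * t ^ 2 ≤ (2 * t) ^ 2 - ‖z - x‖ ^ 2 := by
      rw [← dist_eq_norm]
      nlinarith [dist_nonneg (x := z) (y := x)]
    have h3 : (7 / 4 * t ^ 2) ^ 2 ≤ ker 2 (2 * t) x z := by
      unfold ker pp
      have : 7 / 4 * t ^ 2 ≤ max 0 ((2 * t) ^ 2 - ‖z - x‖ ^ 2) := le_max_of_le_right h2
      gcongr
    have h4 := ker_le (j := 2) (t := t) x' z
    nlinarith

lemma m_compare {w : E d → ℝ} (hw : LocallyIntegrable w volume) {t : ℝ} (ht : 0 < t)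
    {x x' : E d} (hd : dist x x' ≤ t / 2) (h0 : ∀ z ∈ ball x (2 * t), 0 ≤ w z) :
    m 2 w x' t ≤ 2 ^ d * (16 / 7) ^ 2 * m 2 w x (2 * t) := by
  have key : P 2 w x' t ≤ (4 / 7) ^ 2 * P 2 w x (2 * t) := by
    unfold P
    rw [← integral_const_mul]
    refine integral_mono (integrable_ker_mul (by norm_num) ht.le x' hw)
      ((integrable_ker_mul (by norm_num) (by positivity) x hw).const_mul _) ?_
    intro z
    by_cases hz : z ∈ ball x (2 * t)
    · calc ker 2 t x' z * w z ≤ ((4 / 7) ^ 2 * ker 2 (2 * t) x z) * w z :=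
            mul_le_mul_of_nonneg_right (ker_compare ht hd z) (h0 z hz)
        _ = (4 / 7) ^ 2 * (ker 2 (2 * t) x z * w z) := by ring
    · have h1 : 2 * t ≤ dist z x := by simpa [mem_ball] using hz
      have h2 : ker 2 (2 * t) x z = 0 := ker_eq_zero (by norm_num) (by positivity) h1
      have h3 : ker 2 t x' z = 0 := by
        have := ker_compare ht hd z
        rw [h2] at this
        have h4 := ker_nonneg 2 t x' z
        linarith
      simp [h2, h3]
  unfold m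
  have e : (2 * t) ^ (d + 2 * 2) = 2 ^ d * 16 * t ^ (d + 2 * 2) := by
    rw [mul_pow, pow_add]; norm_num
  rw [e]
  have ht' : 0 < t ^ (d + 2 * 2) := by positivity
  rw [div_le_iff₀ ht']
  calc P 2 w x' t ≤ (4 / 7) ^ 2 * P 2 w x (2 * t) := key
    _ = _ := by field_simp; ring

/-- Harnack constant -/
noncomputable def CH (R : RD) (d : ℕ) : ℝ := Real.exp (R.L / 12) * (2 ^ d * (16 / 7) ^ 2)

lemma one_le_CH (R : RD) (d : ℕ) : 1 ≤ CH R d := by
  unfold CH
  have h1 : 1 ≤ Real.exp (R.L / 12) := Real.one_le_exp (by have := R.hL; positivity)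
  have h2 : (1:ℝ) ≤ 2 ^ d := one_le_pow₀ (by norm_num)
  have h3 : (1:ℝ) ≤ (16 / 7) ^ 2 := by norm_num
  have h4 : (1:ℝ) ≤ 2 ^ d * (16 / 7) ^ 2 := one_le_mul_of_one_le_of_one_le h2 h3
  exact one_le_mul_of_one_le_of_one_le h1 h4

theorem Sol.harnack (hΩ : IsOpen Ω) (h : Sol R Ω u) {x x' : E d} {t : ℝ} (ht : 0 < t)
    (ht1 : t ≤ 1) (hb : closedBall x (2 * t) ⊆ Ω) (hd : dist x x' ≤ t / 2) :
    u x' ≤ CH R d * u x := by
  have hcc : 0 < cc d 2 := cc_pos (by norm_num)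
  have hL := R.hL
  have hb' : closedBall x' t ⊆ Ω := by
    refine subset_trans ?_ hb
    refine closedBall_subset_closedBall' ?_
    rw [dist_comm]; linarith
  have h1 := h.sub_mean hΩ ht hb'
  have h2 := m_compare h.li ht hd (fun z _ => h.nonneg z)
  have h3 := h.super_mean hΩ 0 (by positivity : 0 < 2 * t) hb
  have h4 : Real.exp (R.L * t ^ 2 / 12) ≤ Real.exp (R.L / 12) := by
    apply Real.exp_le_exp.2
    have : t ^ 2 ≤ 1 := by nlinarith
    nlinarith
  have h5 : 0 ≤ m 2 u x' t := m_nonneg (by norm_num) ht (fun z _ => h.nonneg z)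
  have h6 : cc d 2 * u x' ≤ Real.exp (R.L / 12) * (2 ^ d * (16 / 7) ^ 2 * (cc d 2 * u x)) := by
    calc cc d 2 * u x' ≤ Real.exp (R.L * t ^ 2 / 12) * m 2 u x' t := h1
      _ ≤ Real.exp (R.L / 12) * m 2 u x' t := mul_le_mul_of_nonneg_right h4 h5
      _ ≤ Real.exp (R.L / 12) * (2 ^ d * (16 / 7) ^ 2 * m 2 u x (2 * t)) :=
        mul_le_mul_of_nonneg_left h2 (Real.exp_pos _).le
      _ ≤ _ := by
        refine mul_le_mul_of_nonneg_left ?_ (Real.exp_pos _).le
        exact mul_le_mul_of_nonneg_left h3 (by positivity)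
  unfold CH
  have h7 : cc d 2 * u x' ≤ cc d 2 * (Real.exp (R.L / 12) * (2 ^ d * (16 / 7) ^ 2) * u x) := by
    calc _ ≤ _ := h6
      _ = _ := by ring
  exact le_of_mul_le_mul_left h7 hcc

lemma ker_lip {τ : ℝ} (hτ : 0 < τ) (x x' z : E d) :
    |ker 2 τ x z - ker 2 τ x' z| ≤ 4 * τ ^ 3 * dist x x' := by
  have hrep : ∀ y : E d, max 0 (τ ^ 2 - ‖z - y‖ ^ 2) = τ ^ 2 - (min τ ‖z - y‖) ^ 2 := by
    intro y
    rcases le_total τ ‖z - y‖ with h | h
    · rw [min_eq_left h, sub_self, max_eq_left]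
      nlinarith [norm_nonneg (z - y)]
    · rw [min_eq_right h, max_eq_right]
      nlinarith [norm_nonneg (z - y)]
  unfold ker pp
  rw [hrep, hrep]
  set a := min τ ‖z - x‖ with ha
  set b := min τ ‖z - x'‖ with hb
  have ha0 : 0 ≤ a := le_min hτ.le (norm_nonneg _)
  have hb0 : 0 ≤ b := le_min hτ.le (norm_nonneg _)
  have ha1 : a ≤ τ := min_le_left _ _
  have hb1 : b ≤ τ := min_le_left _ _
  have hab : |a - b| ≤ dist x x' := by
    have h1 : |a - b| ≤ |‖z - x‖ - ‖z - x'‖| := by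
      have := abs_min_sub_min_le_max τ ‖z - x‖ τ ‖z - x'‖
      simpa using this
    have h2 : |‖z - x‖ - ‖z - x'‖| ≤ ‖(z - x) - (z - x')‖ := abs_norm_sub_norm_le _ _
    have h3 : ‖(z - x) - (z - x')‖ = dist x x' := by
      rw [dist_comm, dist_eq_norm]; congr 1; abel
    linarith
  have e : (τ ^ 2 - a ^ 2) ^ 2 - (τ ^ 2 - b ^ 2) ^ 2 =
      (b - a) * ((b + a) * ((τ ^ 2 - a ^ 2) + (τ ^ 2 - b ^ 2))) := by ring
  rw [e, abs_mul, abs_sub_comm b a]
  have h1 : 0 ≤ (b + a) * ((τ ^ 2 - a ^ 2) + (τ ^ 2 - b ^ 2)) := by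
    have : 0 ≤ τ ^ 2 - a ^ 2 := by nlinarith
    have : 0 ≤ τ ^ 2 - b ^ 2 := by nlinarith
    positivity
  rw [abs_of_nonneg h1]
  have h2 : (b + a) * ((τ ^ 2 - a ^ 2) + (τ ^ 2 - b ^ 2)) ≤ 4 * τ ^ 3 := by
    have h3 : (τ ^ 2 - a ^ 2) + (τ ^ 2 - b ^ 2) ≤ 2 * τ ^ 2 := by nlinarith
    have h4 : b + a ≤ 2 * τ := by linarith
    have h5 : 0 ≤ (τ ^ 2 - a ^ 2) + (τ ^ 2 - b ^ 2) := by nlinarith
    calc (b + a) * ((τ ^ 2 - a ^ 2) + (τ ^ 2 - b ^ 2)) ≤ (2 * τ) * (2 * τ ^ 2) :=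
          mul_le_mul h4 h3 h5 (by positivity)
      _ = 4 * τ ^ 3 := by ring
  calc |a - b| * ((b + a) * ((τ ^ 2 - a ^ 2) + (τ ^ 2 - b ^ 2)))
      ≤ dist x x' * (4 * τ ^ 3) := mul_le_mul hab h2 h1 dist_nonneg
    _ = _ := by ring

/-- modulus of continuity of weighted means of nonnegative functions -/
lemma m_lip {w : E d → ℝ} (hw : LocallyIntegrable w volume) (h0 : ∀ z, 0 ≤ w z) {τ : ℝ}
    (hτ : 0 < τ) {x x' : E d} (hd : dist x x' ≤ τ) :
    |m 2 w x τ - m 2 w x' τ| ≤ 4 ^ (d + 4) / 36 * (dist x x' / τ) * m 2 w x (4 * τ) := by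
  have key : |P 2 w x τ - P 2 w x' τ| ≤ (dist x x' / (36 * τ)) * P 2 w x (4 * τ) := by
    unfold P
    rw [← integral_sub (integrable_ker_mul (by norm_num) hτ.le x hw)
      (integrable_ker_mul (by norm_num) hτ.le x' hw), ← integral_const_mul]
    refine (abs_integral_le_integral_abs).trans (integral_mono ?_ ?_ ?_)
    · exact ((integrable_ker_mul (by norm_num) hτ.le x hw).sub
        (integrable_ker_mul (by norm_num) hτ.le x' hw)).abs
    · exact (integrable_ker_mul (by norm_num) (by positivity) x hw).const_mul _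
    · intro z
      have hk4 := ker_nonneg 2 (4 * τ) x z
      show |ker 2 τ x z * w z - ker 2 τ x' z * w z| ≤
        dist x x' / (36 * τ) * (ker 2 (4 * τ) x z * w z)
      rw [← sub_mul, abs_mul, abs_of_nonneg (h0 z), ← mul_assoc]
      refine mul_le_mul_of_nonneg_right ?_ (h0 z)
      by_cases hz : dist z x ≤ 2 * τ
      · have h1 : (12 * τ ^ 2) ^ 2 ≤ ker 2 (4 * τ) x z := by
          unfold ker pp
          have : 12 * τ ^ 2 ≤ max 0 ((4 * τ) ^ 2 - ‖z - x‖ ^ 2) := by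
            refine le_max_of_le_right ?_
            rw [← dist_eq_norm]
            nlinarith [dist_nonneg (x := z) (y := x)]
          gcongr
        have h2 := ker_lip hτ x x' z
        have h3 : 0 ≤ dist x x' := dist_nonneg
        calc |ker 2 τ x z - ker 2 τ x' z| ≤ 4 * τ ^ 3 * dist x x' := h2
          _ = dist x x' / (36 * τ) * (12 * τ ^ 2) ^ 2 := by field_simp; ring
          _ ≤ _ := mul_le_mul_of_nonneg_left h1 (by positivity)
      · rw [not_le] at hz
        have h1 : ker 2 τ x z = 0 := ker_eq_zero (by norm_num) hτ.le (by linarith)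
        have h2 : ker 2 τ x' z = 0 := by
          refine ker_eq_zero (by norm_num) hτ.le ?_
          have := dist_triangle z x' x
          rw [dist_comm x' x] at this
          linarith
        rw [h1, h2, sub_zero, abs_zero]
        have h3 : 0 ≤ dist x x' := dist_nonneg
        positivity
  unfold m
  rw [← sub_div, abs_div, abs_of_pos (by positivity : 0 < τ ^ (d + 2 * 2))]
  have e : (4 * τ) ^ (d + 2 * 2) = 4 ^ (d + 4) * τ ^ (d + 2 * 2) := by rw [mul_pow]
  rw [e, div_le_iff₀ (by positivity)]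
  calc |P 2 w x τ - P 2 w x' τ| ≤ (dist x x' / (36 * τ)) * P 2 w x (4 * τ) := key
    _ = _ := by field_simp

/-- constant in the Hölder estimate -/
noncomputable def CHol (R : RD) (d : ℕ) : ℝ := R.L / 12 * (1 + CH R d) + 4 ^ (d + 4) / 36

lemma CHol_pos (R : RD) (d : ℕ) : 0 < CHol R d := by
  unfold CHol
  have := R.hL
  have := one_le_CH R d
  positivity

theorem Sol.holder (hΩ : IsOpen Ω) (h : Sol R Ω u) {x x' : E d} {τ : ℝ} (hτ : 0 < τ)
    (hτ1 : τ ≤ 1 / 2) (hb : closedBall x (4 * τ) ⊆ Ω) (hd : dist x x' ≤ τ) :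
    |u x - u x'| ≤ CHol R d * (dist x x' / τ + τ ^ 2) * u x := by
  have hcc : 0 < cc d 2 := cc_pos (by norm_num)
  have hL := R.hL
  have hCH := one_le_CH R d
  have hu := h.nonneg x
  have hu' := h.nonneg x'
  have hH : u x' ≤ CH R d * u x := by
    refine h.harnack hΩ (t := 2 * τ) (by positivity) (by linarith) ?_ (by linarith)
    have : 2 * (2 * τ) = 4 * τ := by ring
    rw [this]; exact hb
  have b1 : closedBall x τ ⊆ Ω := (closedBall_subset_closedBall (by linarith)).trans hb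
  have b2 : closedBall x' τ ⊆ Ω := by
    refine subset_trans ?_ hb
    refine closedBall_subset_closedBall' ?_
    rw [dist_comm]; linarith
  have s1 := h.super_mean hΩ 0 hτ b1
  have s2 := h.super_mean hΩ 0 hτ b2
  have l1 := h.mean_lower hΩ hτ b1
  have l2 := h.mean_lower hΩ hτ b2
  have s4 := h.super_mean hΩ 0 (by positivity : 0 < 4 * τ) hb
  have hl := m_lip h.li h.nonneg hτ hd
  simp only [zero_add] at s1 s2 s4
  have hl' : |m 2 u x τ - m 2 u x' τ| ≤ 4 ^ (d + 4) / 36 * (dist x x' / τ) * (cc d 2 * u x) := by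
    refine hl.trans (mul_le_mul_of_nonneg_left s4 ?_)
    have : 0 ≤ dist x x' := dist_nonneg
    positivity
  rw [abs_le] at hl'
  have hdd : 0 ≤ dist x x' / τ := by
    have : 0 ≤ dist x x' := dist_nonneg
    positivity
  have key : |cc d 2 * u x - cc d 2 * u x'| ≤
      cc d 2 * (CHol R d * (dist x x' / τ + τ ^ 2) * u x) := by
    have hK : cc d 2 * (CHol R d * (dist x x' / τ + τ ^ 2) * u x) ≥
        4 ^ (d + 4) / 36 * (dist x x' / τ) * (cc d 2 * u x) +
          R.L / 12 * τ ^ 2 * (cc d 2 * u x) + R.L / 12 * τ ^ 2 * (cc d 2 * (CH R d * u x)) := by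
      have e : cc d 2 * (CHol R d * (dist x x' / τ + τ ^ 2) * u x) -
        (4 ^ (d + 4) / 36 * (dist x x' / τ) * (cc d 2 * u x) +
          R.L / 12 * τ ^ 2 * (cc d 2 * u x) + R.L / 12 * τ ^ 2 * (cc d 2 * (CH R d * u x))) =
        cc d 2 * u x * (R.L / 12 * (1 + CH R d) * (dist x x' / τ) + 4 ^ (d + 4) / 36 * τ ^ 2) := by
        unfold CHol; ring
      have : 0 ≤ cc d 2 * u x * (R.L / 12 * (1 + CH R d) * (dist x x' / τ) +
        4 ^ (d + 4) / 36 * τ ^ 2) := by positivity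
      linarith
    have hx' : R.L / 12 * τ ^ 2 * (cc d 2 * u x') ≤
        R.L / 12 * τ ^ 2 * (cc d 2 * (CH R d * u x)) := by
      have : cc d 2 * u x' ≤ cc d 2 * (CH R d * u x) := mul_le_mul_of_nonneg_left hH hcc.le
      exact mul_le_mul_of_nonneg_left this (by positivity)
    have hp1 : 0 ≤ R.L / 12 * τ ^ 2 * (cc d 2 * u x) := by positivity
    rw [abs_le]
    constructor <;> linarith
  rw [← mul_sub, abs_mul, abs_of_pos hcc] at key
  exact le_of_mul_le_mul_left key hcc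

end Pool.Agent.ExtStar
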