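import Pool.Agent.ExtStar.Compar
import Pool.Agent.ExtStar.Sol

set_option autoImplicit false

open MeasureTheory Metric Set Filter Topology

namespace Pool.Agent.ExtStar

variable {d : ℕ}

/-! ### Limits -/

lemma m_abs_le {j : ℕ} (hj : j ≠ 0) {t : ℝ} (ht : 0 < t) {x : E d} {g : E d → ℝ} {B : ℝ}
    (hg : LocallyIntegrable g volume) (h : ∀ z ∈ ball x t, |g z| ≤ B) :
    |m j g x t| ≤ cc d j * B := by
  rw [abs_le]
  constructor
  · have := le_m hj ht hg (c := -B) (x := x) (fun z hz => (abs_le.1 (h z hz)).1)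
    linarith
  · exact m_le hj ht hg (fun z hz => (abs_le.1 (h z hz)).2)

/-- quantitative mean value property of weak solutions -/
lemma quasi_mv {U : Set (E d)} {w g : E d → ℝ} {B : ℝ} (hw : Continuous w)
    (hg : LocallyIntegrable g volume) (hB : ∀ x ∈ U, |g x| ≤ B) (h : WEq U w g) {x : E d} {t : ℝ}
    (ht : 0 < t) (hb : closedBall x t ⊆ U) :
    |m 2 w x t - cc d 2 * w x| ≤ cc d 3 * B / 12 * t ^ 2 := by
  have hd : ∀ s ∈ Ioc 0 t, HasDerivAt (m 2 w x) ((s / (2 * (((0:ℕ) : ℝ) + 3))) * m 3 g x s) s := by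
    intro s hs
    exact deriv_m_eq h hw.locallyIntegrable 0 hs.1 ((closedBall_subset_closedBall hs.2).trans hb)
  have hb3 : ∀ s ∈ Ioc 0 t, |m 3 g x s| ≤ cc d 3 * B := by
    intro s hs
    refine m_abs_le (by norm_num) hs.1 hg (fun z hz => hB z (hb ?_))
    exact (ball_subset_closedBall.trans (closedBall_subset_closedBall hs.2)) hz
  have hlim := tendsto_m (j := 2) (by norm_num) hw.locallyIntegrable (x := x) hw.continuousAt
  have e : ∀ s : ℝ, s / (2 * (((0:ℕ) : ℝ) + 3)) = s / 6 := fun s => by push_cast; ring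
  have h1 := growth_aux (F := m 2 w x) (K := -(cc d 3 * B) / 6)
    (D := fun s => (s / (2 * (((0:ℕ) : ℝ) + 3))) * m 3 g x s) ht hd ?_ hlim
  · have h2 := growth_aux (F := fun s => -m 2 w x s) (K := -(cc d 3 * B) / 6)
      (D := fun s => -((s / (2 * (((0:ℕ) : ℝ) + 3))) * m 3 g x s)) ht
      (fun s hs => (hd s hs).neg) ?_ hlim.neg
    · rw [abs_le]
      constructor <;> nlinarith
    · intro s hs
      rw [e]
      have := (abs_le.1 (hb3 s hs)).2
      have hs1 := hs.1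
      have := mul_le_mul_of_nonneg_left this (show 0 ≤ s / 6 by positivity)
      linarith
  · intro s hs
    rw [e]
    have := (abs_le.1 (hb3 s hs)).1
    have hs1 := hs.1
    have := mul_le_mul_of_nonneg_left this (show 0 ≤ s / 6 by positivity)
    linarith

lemma m_tendsto_of_bdd {j : ℕ} (hj : j ≠ 0) {w : ℕ → E d → ℝ} {w' : E d → ℝ} {x : E d} {t : ℝ}
    (ht : 0 < t) (hc : ∀ k, Continuous (w k)) (h0 : ∀ k z, 0 ≤ w k z) (h1 : ∀ k z, w k z ≤ 1)
    (hlim : ∀ z, Tendsto (fun k => w k z) atTop (𝓝 (w' z))) :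
    Tendsto (fun k => m j (w k) x t) atTop (𝓝 (m j w' x t)) := by
  unfold m P
  refine Tendsto.div_const ?_ _
  have hI : Integrable (fun z => ker j t x z) volume := integrable_ker hj ht.le x
  refine tendsto_integral_of_dominated_convergence (fun z => ker j t x z) ?_ hI ?_ ?_
  · intro k
    exact (integrable_ker_mul hj ht.le x (hc k).locallyIntegrable).aestronglyMeasurable
  · intro k
    refine Eventually.of_forall fun z => ?_
    rw [norm_mul, Real.norm_of_nonneg (ker_nonneg _ _ _ _), Real.norm_of_nonneg (h0 k z)]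
    calc ker j t x z * w k z ≤ ker j t x z * 1 :=
          mul_le_mul_of_nonneg_left (h1 k z) (ker_nonneg _ _ _ _)
      _ = _ := mul_one _
  · exact Eventually.of_forall fun z => (hlim z).const_mul _

/-- continuity from the quantitative mean value property -/
lemma continuousOn_of_quasi {U : Set (E d)} (hU : IsOpen U) {w : E d → ℝ} {C : ℝ}
    (hw : LocallyIntegrable w volume) (h0 : ∀ z, 0 ≤ w z) (h1 : ∀ z, w z ≤ 1)
    (hq : ∀ x t, 0 < t → closedBall x t ⊆ U → |m 2 w x t - cc d 2 * w x| ≤ C * t ^ 2) :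
    ContinuousOn w U := by
  intro x hx
  refine ContinuousAt.continuousWithinAt ?_
  have hcc : 0 < cc d 2 := cc_pos (by norm_num)
  obtain ⟨ρ, hρ, hρU⟩ := Metric.isOpen_iff.1 hU x hx
  rw [Metric.continuousAt_iff]
  intro ε hε
  -- choose t
  obtain ⟨t, ht, htρ, htC⟩ : ∃ t : ℝ, 0 < t ∧ 2 * t < ρ ∧ 2 * (|C| * t ^ 2) < cc d 2 * (ε / 2) := by
    have hcont : Continuous fun t : ℝ => 2 * (|C| * t ^ 2) := by fun_prop
    have l0 : Tendsto (fun t : ℝ => 2 * (|C| * t ^ 2)) (𝓝[>] 0) (𝓝 0) := by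
      have := (hcont.tendsto 0).mono_left (nhdsWithin_le_nhds (s := Ioi 0))
      simpa using this
    have l1 := l0.eventually_lt_const (show (0:ℝ) < cc d 2 * (ε / 2) by positivity)
    have l2 : ∀ᶠ s in 𝓝[>] (0:ℝ), s ∈ Ioo 0 (ρ / 2) := Ioo_mem_nhdsGT (by positivity)
    obtain ⟨t, h3, h4⟩ := (l1.and l2).exists
    exact ⟨t, h4.1, by linarith [h4.2], h3⟩
  set K : ℝ := 4 ^ (d + 4) / 36 * (1 / t) * cc d 2 with hK
  have hK0 : 0 < K := by positivity
  refine ⟨min t (cc d 2 * (ε / 2) / K), lt_min ht (by positivity), ?_⟩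
  intro y hy
  have hy1 : dist y x < t := hy.trans_le (min_le_left _ _)
  have hy2 : dist y x < cc d 2 * (ε / 2) / K := hy.trans_le (min_le_right _ _)
  have q1 := hq x t ht ((closedBall_subset_ball (by linarith)).trans hρU)
  have q2 := hq y t ht (by
    refine subset_trans ?_ hρU
    intro p hp
    have h5 : dist p y ≤ t := hp
    have := dist_triangle p y x
    show dist p x < ρ
    linarith)
  have hl := m_lip hw h0 ht hy1.le
  have h6 : m 2 w y (4 * t) ≤ cc d 2 * 1 :=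
    m_le (by norm_num) (by positivity) hw (fun z _ => h1 z)
  have h7 : |m 2 w y t - m 2 w x t| ≤ K * dist y x := by
    refine hl.trans ?_
    have hdn : 0 ≤ dist y x := dist_nonneg
    calc 4 ^ (d + 4) / 36 * (dist y x / t) * m 2 w y (4 * t)
        ≤ 4 ^ (d + 4) / 36 * (dist y x / t) * (cc d 2 * 1) := by gcongr
      _ = K * dist y x := by rw [hK]; ring
  have h8 : K * dist y x < cc d 2 * (ε / 2) := by
    rw [lt_div_iff₀ hK0] at hy2
    linarith
  have hC : C * t ^ 2 ≤ |C| * t ^ 2 := mul_le_mul_of_nonneg_right (le_abs_self C) (by positivity)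
  rw [Real.dist_eq]
  have h9 : |cc d 2 * (w y - w x)| < cc d 2 * ε := by
    rw [abs_le] at q1 q2 h7
    rw [abs_lt]
    constructor <;> nlinarith
  rw [abs_mul, abs_of_pos hcc] at h9
  exact lt_of_mul_lt_mul_left h9 hcc.le

/-- passing to the limit in weak equations -/
lemma weak_lim {U : Set (E d)} {w g : ℕ → E d → ℝ} {w' g' : E d → ℝ} {B B' : ℝ}
    (hw : ∀ k, Continuous (w k)) (hg : ∀ k, Continuous (g k))
    (bw : ∀ k z, |w k z| ≤ B) (bg : ∀ k, ∀ z ∈ U, |g k z| ≤ B')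
    (lw : ∀ z, Tendsto (fun k => w k z) atTop (𝓝 (w' z)))
    (lg : ∀ z ∈ U, Tendsto (fun k => g k z) atTop (𝓝 (g' z)))
    (h : ∀ k, WEq U (w k) (g k)) : WEq U w' g' := by
  intro φ hφ hc hs
  have cl := continuous_lap hφ
  have sl := hasCompactSupport_lap hc
  have T1 : Tendsto (fun k => ∫ z, w k z * lap φ z) atTop (𝓝 (∫ z, w' z * lap φ z)) := by
    refine tendsto_integral_of_dominated_convergence (fun z => B * ‖lap φ z‖) ?_ ?_ ?_ ?_
    · intro k; exact ((hw k).mul cl).aestronglyMeasurable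
    · exact ((cl.integrable_of_hasCompactSupport sl).norm.const_mul B)
    · intro k
      refine Eventually.of_forall fun z => ?_
      rw [norm_mul]
      exact mul_le_mul_of_nonneg_right (bw k z) (norm_nonneg _)
    · exact Eventually.of_forall fun z => (lw z).mul_const _
  have T2 : Tendsto (fun k => ∫ z, g k z * φ z) atTop (𝓝 (∫ z, g' z * φ z)) := by
    refine tendsto_integral_of_dominated_convergence (fun z => B' * ‖φ z‖) ?_ ?_ ?_ ?_
    · intro k; exact ((hg k).mul hφ.continuous).aestronglyMeasurable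
    · exact ((hφ.continuous.integrable_of_hasCompactSupport hc).norm.const_mul B')
    · intro k
      refine Eventually.of_forall fun z => ?_
      rw [norm_mul]
      by_cases hz : z ∈ U
      · exact mul_le_mul_of_nonneg_right (bg k z hz) (norm_nonneg _)
      · have : φ z = 0 := image_eq_zero_of_notMem_tsupport (fun h => hz (hs h))
        rw [this, norm_zero, mul_zero, mul_zero]
    · refine Eventually.of_forall fun z => ?_
      by_cases hz : z ∈ U
      · exact (lg z hz).mul_const _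
      · have : φ z = 0 := image_eq_zero_of_notMem_tsupport (fun h => hz (hs h))
        simp [this]
  have e : (fun k => ∫ z, w k z * lap φ z) = fun k => ∫ z, g k z * φ z := by
    ext k; exact h k φ hφ hc hs
  rw [e] at T1
  exact tendsto_nhds_unique T1 T2

/-! ### Monotone iteration -/

/-- monotone source term -/
noncomputable def FF (R : RD) (V : E d → ℝ) (Λ : ℝ) (x : E d) (s : ℝ) : ℝ := (Λ - V x) * s + R.f s

/-- the iterates -/
noncomputable def WW (R : RD) (V : E d → ℝ) (Λ : ℝ) : ℕ → E d → ℝ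
  | 0 => fun _ => 1
  | (k + 1) => Gr Λ (fun x => FF R V Λ x (WW R V Λ k x))

variable {R : RD} {V : E d → ℝ} {Λ n : ℝ}

lemma FF_mono (hV : ∀ x, V x ≤ n) (hΛ : n + R.L ≤ Λ) (x : E d) {s t : ℝ} (hs : 0 ≤ s)
    (hst : s ≤ t) (ht : t ≤ 1) : FF R V Λ x s ≤ FF R V Λ x t := by
  unfold FF
  have h1 := R.lip s ⟨hs, hst.trans ht⟩ t ⟨hs.trans hst, ht⟩
  rw [abs_sub_comm s t, abs_of_nonneg (by linarith : 0 ≤ t - s)] at h1
  have h2 := le_abs_self (R.f s - R.f t)
  have h3 := hV x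
  have h4 : R.L * (t - s) ≤ (Λ - V x) * (t - s) :=
    mul_le_mul_of_nonneg_right (by linarith) (by linarith)
  nlinarith

lemma FF_zero (x : E d) : FF R V Λ x 0 = 0 := by unfold FF; rw [R.f0]; ring

lemma FF_one (x : E d) : FF R V Λ x 1 = Λ - V x := by unfold FF; rw [R.f1]; ring

lemma FF_cont (hVc : Continuous V) {w : E d → ℝ} (hw : Continuous w) :
    Continuous (fun x => FF R V Λ x (w x)) := by
  unfold FF
  have := R.cont
  fun_prop

lemma FF_nonneg (hV : ∀ x, V x ≤ n) (hΛ : n + R.L ≤ Λ) (x : E d) {s : ℝ} (hs : 0 ≤ s)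
    (hs1 : s ≤ 1) : 0 ≤ FF R V Λ x s := by
  rw [← FF_zero (R := R) (V := V) (Λ := Λ) x]
  exact FF_mono hV hΛ x le_rfl hs hs1

lemma FF_le (hV0 : ∀ x, 0 ≤ V x) (hV : ∀ x, V x ≤ n) (hΛ : n + R.L ≤ Λ) (x : E d) {s : ℝ}
    (hs : 0 ≤ s) (hs1 : s ≤ 1) : FF R V Λ x s ≤ Λ := by
  have h1 := FF_mono hV hΛ x hs hs1 le_rfl
  rw [FF_one] at h1
  have := hV0 x
  linarith

lemma weq_const (U : Set (E d)) (c : ℝ) : WEq U (fun _ => c) (fun _ => 0) := by
  intro φ hφ hc hs
  have h := green (U := univ) isOpen_univ (w := fun _ : E d => c) contDiffOn_const hφ hc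
    (subset_univ _)
  rw [h]
  have : ∀ z : E d, lap (fun _ : E d => c) z = 0 := by
    intro z
    rw [lap_eq]
    simp
  simp [this]

/-- basic facts on the iterates -/
lemma WW_basic (hVc : Continuous V) (hV0 : ∀ x, 0 ≤ V x) (hV : ∀ x, V x ≤ n) (hn : 0 ≤ n)
    (hΛ : n + R.L ≤ Λ) (k : ℕ) :
    Continuous (WW R V Λ k) ∧ (∀ x, 0 ≤ WW R V Λ k x) ∧ (∀ x, WW R V Λ k x ≤ 1) ∧
      WEq univ (WW R V Λ (k + 1)) (fun x => Λ * WW R V Λ (k + 1) x - FF R V Λ x (WW R V Λ k x)) := by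
  have hΛ0 : 0 < Λ := by have := R.hL; linarith
  induction k with
  | zero =>
    have hF := FF_cont (R := R) (Λ := Λ) hVc (continuous_const (y := (1:ℝ)) (X := E d))
    have hb : ∀ x : E d, |FF R V Λ x 1| ≤ Λ := by
      intro x
      rw [abs_of_nonneg (FF_nonneg hV hΛ x zero_le_one le_rfl)]
      exact FF_le hV0 hV hΛ x zero_le_one le_rfl
    have := Gr_props hΛ0 hF hb
    exact ⟨continuous_const, fun x => zero_le_one, fun x => le_rfl, this.2.2⟩
  | succ k ih =>
    obtain ⟨ic, i0, i1, ie⟩ := ih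
    have hF := FF_cont (R := R) (Λ := Λ) hVc ic
    have hb : ∀ x, |FF R V Λ x (WW R V Λ k x)| ≤ Λ := by
      intro x
      rw [abs_of_nonneg (FF_nonneg hV hΛ x (i0 x) (i1 x))]
      exact FF_le hV0 hV hΛ x (i0 x) (i1 x)
    obtain ⟨gc, ⟨D, gD⟩, ge⟩ := Gr_props hΛ0 hF hb
    have gc' : Continuous (WW R V Λ (k + 1)) := gc
    have gD' : ∀ x, |WW R V Λ (k + 1) x| ≤ D := gD
    have g0 : ∀ x, 0 ≤ WW R V Λ (k + 1) x := by
      refine compar hΛ0 (w1 := fun _ => 0) (h1 := fun _ => 0) (M1 := 0) (M2 := -D)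
        continuous_const gc' continuous_const hF (fun _ => le_rfl)
        (fun x => (abs_le.1 (gD' x)).1) ?_ ge
        (fun x => FF_nonneg hV hΛ x (i0 x) (i1 x))
      have := (weq_const (d := d) univ 0).toWGe
      simpa using this
    have g1 : ∀ x, WW R V Λ (k + 1) x ≤ 1 := by
      refine compar hΛ0 (w2 := fun _ => 1) (h2 := fun _ => Λ) (M1 := D) (M2 := 1)
        gc' continuous_const hF continuous_const
        (fun x => (abs_le.1 (gD' x)).2) (fun _ => le_rfl) ge.toWGe ?_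
        (fun x => FF_le hV0 hV hΛ x (i0 x) (i1 x))
      have := (weq_const (d := d) univ 1)
      simpa using this
    have hF' := FF_cont (R := R) (Λ := Λ) hVc gc'
    have hb' : ∀ x, |FF R V Λ x (WW R V Λ (k + 1) x)| ≤ Λ := by
      intro x
      rw [abs_of_nonneg (FF_nonneg hV hΛ x (g0 x) (g1 x))]
      exact FF_le hV0 hV hΛ x (g0 x) (g1 x)
    exact ⟨gc', g0, g1, (Gr_props hΛ0 hF' hb').2.2⟩

lemma WW_anti (hVc : Continuous V) (hV0 : ∀ x, 0 ≤ V x) (hV : ∀ x, V x ≤ n) (hn : 0 ≤ n)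
    (hΛ : n + R.L ≤ Λ) (k : ℕ) : ∀ x, WW R V Λ (k + 1) x ≤ WW R V Λ k x := by
  have hΛ0 : 0 < Λ := by have := R.hL; linarith
  induction k with
  | zero => exact (WW_basic hVc hV0 hV hn hΛ 1).2.2.1
  | succ k ih =>
    have b0 := WW_basic hVc hV0 hV hn hΛ k
    have b1 := WW_basic hVc hV0 hV hn hΛ (k + 1)
    have b2 := WW_basic hVc hV0 hV hn hΛ (k + 2)
    exact compar hΛ0 (M1 := 1) (M2 := 0) b2.1 b1.1 (FF_cont hVc b1.1) (FF_cont hVc b0.1)
      b2.2.2.1 b1.2.1 b1.2.2.2.toWGe b0.2.2.2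
      (fun x => FF_mono hV hΛ x (b1.2.1 x) (ih x) (b0.2.2.1 x))

lemma WW_ge (hVc : Continuous V) (hV0 : ∀ x, 0 ≤ V x) (hV : ∀ x, V x ≤ n) (hn : 0 ≤ n)
    (hΛ : n + R.L ≤ Λ) {w : E d → ℝ} (hw : Continuous w) (w0 : ∀ x, 0 ≤ w x) (w1 : ∀ x, w x ≤ 1)
    (hsub : WGe univ w (fun x => V x * w x - R.f (w x))) (k : ℕ) : ∀ x, w x ≤ WW R V Λ k x := by
  have hΛ0 : 0 < Λ := by have := R.hL; linarith
  induction k with
  | zero => exact w1
  | succ k ih =>
    have b0 := WW_basic hVc hV0 hV hn hΛ k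
    have b1 := WW_basic hVc hV0 hV hn hΛ (k + 1)
    refine compar hΛ0 (M1 := 1) (M2 := 0) hw b1.1 (FF_cont (R := R) (Λ := Λ) hVc hw)
      (FF_cont hVc b0.1) w1 b1.2.1 ?_ b0.2.2.2
      (fun x => FF_mono hV hΛ x (w0 x) (ih x) (b0.2.2.1 x))
    have e : (fun x => Λ * w x - FF R V Λ x (w x)) = fun x => V x * w x - R.f (w x) := by
      ext x; unfold FF; ring
    rw [e]; exact hsub

/-- Solution of the penalised problem `-Δ W + V W = f(W)` on the whole space, which lies above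
every subsolution. -/
theorem exists_penal (R : RD) {V : E d → ℝ} {n : ℝ} (hVc : Continuous V) (hV0 : ∀ x, 0 ≤ V x)
    (hV : ∀ x, V x ≤ n) (hn : 0 ≤ n) :
    ∃ W : E d → ℝ, Continuous W ∧ (∀ x, 0 ≤ W x) ∧ (∀ x, W x ≤ 1) ∧
      WEq univ W (fun x => V x * W x - R.f (W x)) ∧
      ∀ w : E d → ℝ, Continuous w → (∀ x, 0 ≤ w x) → (∀ x, w x ≤ 1) →
        WGe univ w (fun x => V x * w x - R.f (w x)) → ∀ x, w x ≤ W x := by
  set Λ : ℝ := n + R.L with hΛd
  have hΛ : n + R.L ≤ Λ := le_rfl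
  have hΛ0 : 0 < Λ := by have := R.hL; linarith
  have hb := fun k => WW_basic hVc hV0 hV hn hΛ k
  have ha := fun k => WW_anti hVc hV0 hV hn hΛ k
  set W : E d → ℝ := fun x => ⨅ k, WW R V Λ k x with hW
  have hbdd : ∀ x, BddBelow (range fun k => WW R V Λ k x) := fun x =>
    ⟨0, by rintro _ ⟨k, rfl⟩; exact (hb k).2.1 x⟩
  have hanti : ∀ x, Antitone (fun k => WW R V Λ k x) := fun x =>
    antitone_nat_of_succ_le (fun k => ha k x)
  have hlim : ∀ x, Tendsto (fun k => WW R V Λ k x) atTop (𝓝 (W x)) := fun x =>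
    tendsto_atTop_ciInf (hanti x) (hbdd x)
  have W0 : ∀ x, 0 ≤ W x := fun x => le_ciInf fun k => (hb k).2.1 x
  have W1 : ∀ x, W x ≤ 1 := fun x => (ciInf_le (hbdd x) 0).trans ((hb 0).2.2.1 x)
  have hmeas : Measurable W :=
    measurable_of_tendsto_metrizable (fun k => (hb k).1.measurable)
      (tendsto_pi_nhds.2 hlim)
  have hli : LocallyIntegrable W volume := by
    refine (locallyIntegrable_const (1:ℝ)).mono hmeas.aestronglyMeasurable
      (Eventually.of_forall fun x => ?_)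
    rw [Real.norm_of_nonneg (W0 x), norm_one]
    exact W1 x
  have habs : ∀ k x, |Λ * WW R V Λ (k + 1) x - FF R V Λ x (WW R V Λ k x)| ≤ Λ := by
    intro k x
    have h1 := FF_nonneg hV hΛ x ((hb k).2.1 x) ((hb k).2.2.1 x)
    have h2 := FF_le hV0 hV hΛ x ((hb k).2.1 x) ((hb k).2.2.1 x)
    have h3 := (hb (k + 1)).2.1 x
    have h4 := (hb (k + 1)).2.2.1 x
    rw [abs_le]
    constructor <;> nlinarith
  have hgc : ∀ k, Continuous (fun x => Λ * WW R V Λ (k + 1) x - FF R V Λ x (WW R V Λ k x)) :=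
    fun k => (continuous_const.mul (hb (k + 1)).1).sub (FF_cont hVc (hb k).1)
  have hlim' : ∀ x, Tendsto (fun k => WW R V Λ (k + 1) x) atTop (𝓝 (W x)) := fun x =>
    (tendsto_add_atTop_iff_nat 1).2 (hlim x)
  have hWc : Continuous W := by
    rw [← continuousOn_univ]
    refine continuousOn_of_quasi isOpen_univ (C := cc d 3 * Λ / 12) hli W0 W1 ?_
    intro x t ht hbx
    have h1 : ∀ k, |m 2 (WW R V Λ (k + 1)) x t - cc d 2 * WW R V Λ (k + 1) x| ≤
        cc d 3 * Λ / 12 * t ^ 2 := fun k =>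
      quasi_mv (hb (k + 1)).1 (hgc k).locallyIntegrable (fun x _ => habs k x) (hb k).2.2.2 ht hbx
    have h2 := m_tendsto_of_bdd (j := 2) (by norm_num) (x := x) ht (fun k => (hb (k + 1)).1)
      (fun k => (hb (k + 1)).2.1) (fun k => (hb (k + 1)).2.2.1) hlim'
    exact le_of_tendsto (h2.sub ((hlim' x).const_mul _)).abs (Eventually.of_forall h1)
  refine ⟨W, hWc, W0, W1, ?_, ?_⟩
  · have h := weak_lim (U := univ) (w := fun k => WW R V Λ (k + 1))
      (g := fun k x => Λ * WW R V Λ (k + 1) x - FF R V Λ x (WW R V Λ k x))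
      (w' := W) (g' := fun x => Λ * W x - FF R V Λ x (W x)) (B := 1) (B' := Λ)
      (fun k => (hb (k + 1)).1) hgc
      (fun k z => by rw [abs_of_nonneg ((hb (k + 1)).2.1 z)]; exact (hb (k + 1)).2.2.1 z)
      (fun k z _ => habs k z) hlim' ?_ (fun k => (hb k).2.2.2)
    · refine h.congr (fun x _ => ?_)
      unfold FF; ring
    · intro z _
      refine ((hlim' z).const_mul _).sub ?_
      unfold FF
      exact ((hlim z).const_mul _).add ((R.cont.tendsto (W z)).comp (hlim z))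
  · intro w hw w0 w1 hsub x
    exact le_ciInf fun k => WW_ge hVc hV0 hV hn hΛ hw w0 w1 hsub k x

end Pool.Agent.ExtStar
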