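import Pool.Agent.ExtStar.Dil

set_option autoImplicit false

open MeasureTheory Metric Set Filter Topology

namespace Pool.Agent.ExtStar

variable {d : ℕ}

variable {R : RD} {Ω : Set (E d)} {u v a : E d → ℝ} {K : ℝ}

lemma Sup.fcont (h : Sup R Ω K a) : Continuous (fun z => R.f (a z)) := R.cont.comp h.cont

lemma Sup.hasDerivAt_m (hΩ : IsOpen Ω) (h : Sup R Ω K a) (i : ℕ) {x : E d} {t : ℝ} (ht : 0 < t)
    (hb : closedBall x t ⊆ Ω) :
    HasDerivAt (m (i + 2) a x)
      (-((t / (2 * ((i : ℝ) + 3))) * (K * m (i + 3) (fun z => R.f (a z)) x t))) t := by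
  have h1 := deriv_m_eq (U := Ω) (w := a) (g := fun z => -K * R.f (a z)) ?_
    h.cont.locallyIntegrable i ht hb
  · refine h1.congr_deriv ?_
    rw [m_const_mul]; ring
  · intro φ hφ hc hs
    rw [green hΩ h.smooth hφ hc hs]
    congr 1; ext z
    by_cases hz : z ∈ Ω
    · rw [h.eq z hz]; ring
    · have : φ z = 0 := image_eq_zero_of_notMem_tsupport (fun h => hz (hs h))
      simp [this]

/-- quantitative strict inequality -/
lemma margin (hΩ : IsOpen Ω) (hu : Sol R Ω u) (ha : Sup R Ω K a) {x : E d} {T ς φ0 : ℝ}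
    (hT : 0 < T) (hT1 : T ≤ 1) (hb : closedBall x T ⊆ Ω) (hς : 0 ≤ ς) (hφ : 0 ≤ φ0)
    (hle : ∀ z ∈ ball x T, u z - a z ≤ ς) (hf : ∀ z ∈ ball x T, φ0 ≤ R.f (a z)) :
    Real.exp (-(R.L / 12)) * cc d 3 / (12 * cc d 2) * ((K - 1) * φ0 * T ^ 2) ≤
      a x - u x + 2 * ς := by
  have hcc : 0 < cc d 2 := cc_pos (by norm_num)
  have hcc3 : 0 < cc d 3 := cc_pos (by norm_num)
  have hL := R.hL
  have hK := ha.hK
  have hwc : Continuous (fun z => a z - u z + 2 * ς) := (ha.cont.sub hu.cont).add continuous_const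
  have hwl : LocallyIntegrable (fun z => a z - u z + 2 * ς) volume := hwc.locallyIntegrable
  have hac : Continuous (fun z => a z - u z) := ha.cont.sub hu.cont
  have hKf : Continuous (fun z => K * R.f (a z)) := continuous_const.mul ha.fcont
  have hLw : Continuous (fun z => R.L * (a z - u z + 2 * ς)) := continuous_const.mul hwc
  have hLw' : Continuous (fun z => (K - 1) * φ0 - R.L * (a z - u z + 2 * ς)) :=
    continuous_const.sub hLw
  have hKf' : Continuous (fun z => K * R.f (a z) - R.f (u z)) := hKf.sub hu.fcont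
  -- the quantity G
  have hG : ∀ t, 0 < t → m 2 (fun z => a z - u z + 2 * ς) x t =
      m 2 a x t - m 2 u x t + cc d 2 * (2 * ς) := by
    intro t ht
    rw [m_add (by norm_num) ht hac.locallyIntegrable
      (locallyIntegrable_const _), m_sub (by norm_num) ht ha.cont.locallyIntegrable hu.li,
      m_const ht]
  have key := growth_aux
    (F := fun t => -(Real.exp (-(R.L / 12 * t ^ 2)) * (m 2 a x t - m 2 u x t + cc d 2 * (2 * ς))))
    (D := fun t => -(Real.exp (-(R.L / 12 * t ^ 2)) * (-(R.L / 6 * t)) *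
        (m 2 a x t - m 2 u x t + cc d 2 * (2 * ς)) +
      Real.exp (-(R.L / 12 * t ^ 2)) *
        (-((t / (2 * (((0:ℕ) : ℝ) + 3))) * (K * m 3 (fun z => R.f (a z)) x t)) -
          -((t / (2 * (((0:ℕ) : ℝ) + 3))) * m 3 (fun z => R.f (u z)) x t))))
    (K := Real.exp (-(R.L / 12)) * ((K - 1) * φ0 * cc d 3) / 6)
    (F0 := -(1 * (cc d 2 * a x - cc d 2 * u x + cc d 2 * (2 * ς)))) hT ?_ ?_ ?_
  · have h1 : 0 ≤ m 2 a x T - m 2 u x T + cc d 2 * (2 * ς) := by
      rw [← hG T hT]
      exact m_nonneg (by norm_num) hT (fun z hz => by have := hle z hz; linarith)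
    have h2 : 0 ≤ Real.exp (-(R.L / 12 * T ^ 2)) * (m 2 a x T - m 2 u x T + cc d 2 * (2 * ς)) :=
      mul_nonneg (Real.exp_pos _).le h1
    have h3 : Real.exp (-(R.L / 12)) * cc d 3 / (12 * cc d 2) * ((K - 1) * φ0 * T ^ 2) =
      (Real.exp (-(R.L / 12)) * ((K - 1) * φ0 * cc d 3) / 6 * T ^ 2 / 2) / cc d 2 := by
      field_simp; ring
    rw [h3, div_le_iff₀ hcc]
    nlinarith
  · intro t ht
    have e1 : HasDerivAt (fun t : ℝ => Real.exp (-(R.L / 12 * t ^ 2)))
        (Real.exp (-(R.L / 12 * t ^ 2)) * (-(R.L / 6 * t))) t := by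
      have := (((hasDerivAt_pow 2 t).const_mul (R.L / 12)).neg).exp
      refine this.congr_deriv ?_
      simp; ring
    have hb' := (closedBall_subset_closedBall ht.2).trans hb
    exact (e1.mul (((ha.hasDerivAt_m hΩ 0 ht.1 hb').sub (hu.hasDerivAt_m hΩ 0 ht.1 hb')).add_const
      _)).neg
  · intro t ht
    have ht1 := ht.1
    set G := m 2 a x t - m 2 u x t + cc d 2 * (2 * ς) with hGd
    have hball : ∀ z ∈ ball x t, z ∈ ball x T := fun z hz => ball_subset_ball ht.2 hz
    have h5 : t / (2 * (((0:ℕ) : ℝ) + 3)) = t / 6 := by push_cast; ring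
    rw [h5]
    -- lower bound for m 3
    have h6 : m 3 (fun z => (K - 1) * φ0 - R.L * (a z - u z + 2 * ς)) x t ≤
        K * m 3 (fun z => R.f (a z)) x t - m 3 (fun z => R.f (u z)) x t := by
      rw [← m_const_mul, ← m_sub (by norm_num) ht1 hKf.locallyIntegrable
        hu.fcont.locallyIntegrable]
      refine m_mono (by norm_num) ht1 hLw'.locallyIntegrable hKf'.locallyIntegrable ?_
      · intro z hz
        have g1 := hf z (hball z hz)
        have g2 := hle z (hball z hz)
        have g3 := R.lip (a z) ⟨ha.nonneg z, ha.le_one z⟩ (u z) ⟨hu.nonneg z, hu.le_one z⟩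
        have g4 : |a z - u z| ≤ a z - u z + 2 * ς := by
          rw [abs_le]; constructor <;> linarith
        have g5 : R.L * |a z - u z| ≤ R.L * (a z - u z + 2 * ς) :=
          mul_le_mul_of_nonneg_left g4 hL.le
        have g6 := neg_abs_le (R.f (a z) - R.f (u z))
        have g7 : (K - 1) * φ0 ≤ (K - 1) * R.f (a z) :=
          mul_le_mul_of_nonneg_left g1 (by linarith)
        nlinarith
    have h7 : m 3 (fun z => (K - 1) * φ0 - R.L * (a z - u z + 2 * ς)) x t =
        cc d 3 * ((K - 1) * φ0) - R.L * m 3 (fun z => a z - u z + 2 * ς) x t := by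
      rw [m_sub (by norm_num) ht1 (locallyIntegrable_const _) hLw.locallyIntegrable,
        m_const ht1, m_const_mul]
    have h8 : m 3 (fun z => a z - u z + 2 * ς) x t ≤ G := by
      rw [hGd, ← hG t ht1]
      exact m_succ_le (by norm_num) ht1 hwl
        (fun z hz => by have := hle z (hball z hz); linarith)
    have h9 : cc d 3 * ((K - 1) * φ0) - R.L * G ≤
        K * m 3 (fun z => R.f (a z)) x t - m 3 (fun z => R.f (u z)) x t := by
      rw [h7] at h6
      have := mul_le_mul_of_nonneg_left h8 hL.le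
      linarith
    have h10 : t / 6 * (cc d 3 * ((K - 1) * φ0) - R.L * G) ≤ t / 6 *
        (K * m 3 (fun z => R.f (a z)) x t - m 3 (fun z => R.f (u z)) x t) :=
      mul_le_mul_of_nonneg_left h9 (by positivity)
    have h11 : Real.exp (-(R.L / 12)) ≤ Real.exp (-(R.L / 12 * t ^ 2)) := by
      apply Real.exp_le_exp.2
      have : t ^ 2 ≤ 1 := by nlinarith [ht.2]
      nlinarith
    have h12 : 0 ≤ (K - 1) * φ0 * cc d 3 * (t / 6) := by
      have : 0 ≤ K - 1 := by linarith
      positivity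
    have h13 : Real.exp (-(R.L / 12)) * ((K - 1) * φ0 * cc d 3 * (t / 6)) ≤
        Real.exp (-(R.L / 12 * t ^ 2)) * ((K - 1) * φ0 * cc d 3 * (t / 6)) :=
      mul_le_mul_of_nonneg_right h11 h12
    have h14 : Real.exp (-(R.L / 12 * t ^ 2)) * ((K - 1) * φ0 * cc d 3 * (t / 6)) ≤
      Real.exp (-(R.L / 12 * t ^ 2)) * (R.L / 6 * t * G + t / 6 *
        (K * m 3 (fun z => R.f (a z)) x t - m 3 (fun z => R.f (u z)) x t)) :=
      mul_le_mul_of_nonneg_left (by linarith) (Real.exp_pos _).le
    linarith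
  · have h1 : Tendsto (fun t : ℝ => Real.exp (-(R.L / 12 * t ^ 2))) (𝓝[>] 0) (𝓝 1) := by
      have : Continuous fun t : ℝ => Real.exp (-(R.L / 12 * t ^ 2)) := by fun_prop
      have h := (this.tendsto 0).mono_left (nhdsWithin_le_nhds (s := Ioi 0))
      simpa using h
    have h2 := tendsto_m (j := 2) (by norm_num) ha.cont.locallyIntegrable
      (x := x) ha.cont.continuousAt
    have h3 := hu.tendsto_m (j := 2) (by norm_num) x
    exact (h1.mul ((h2.sub h3).add_const _)).neg

end Pool.Agent.ExtStar
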