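import Pool.Agent.ExtStar.Basic

set_option autoImplicit false

open MeasureTheory Metric Set Filter Topology

namespace Pool.Agent.ExtStar

variable {d : ℕ}

/-- unnormalised weighted mean -/
noncomputable def P (j : ℕ) (w : E d → ℝ) (x : E d) (t : ℝ) : ℝ := ∫ z, ker j t x z * w z

/-- normalising constants -/
noncomputable def cc (d j : ℕ) : ℝ := ∫ z : E d, ker j 1 0 z

/-- weighted mean (of total mass `cc d j`) -/
noncomputable def m (j : ℕ) (w : E d → ℝ) (x : E d) (t : ℝ) : ℝ := P j w x t / t ^ (d + 2 * j)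

lemma integrable_ker_mul {j : ℕ} (hj : j ≠ 0) {t : ℝ} (ht : 0 ≤ t) (x : E d) {w : E d → ℝ}
    (hw : LocallyIntegrable w volume) : Integrable (fun z => ker j t x z * w z) volume := by
  have := hw.integrable_smul_left_of_hasCompactSupport (continuous_ker j t x)
    (hasCompactSupport_ker hj ht x)
  simpa using this

lemma integrable_ker {j : ℕ} (hj : j ≠ 0) {t : ℝ} (ht : 0 ≤ t) (x : E d) :
    Integrable (fun z => ker j t x z) volume :=
  (continuous_ker j t x).integrable_of_hasCompactSupport (hasCompactSupport_ker hj ht x)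

lemma ker_scale {j : ℕ} {t : ℝ} (ht : 0 < t) (x z : E d) :
    ker j t x (z + x) = (t ^ 2) ^ j * ker j 1 0 (t⁻¹ • z) := by
  unfold ker pp
  rw [← mul_pow]
  congr 1
  rw [mul_max_of_nonneg _ _ (sq_nonneg t), mul_zero, add_sub_cancel_right, sub_zero,
    norm_smul, norm_inv, Real.norm_eq_abs, abs_of_pos ht]
  congr 1
  field_simp

lemma integral_ker {j : ℕ} {t : ℝ} (ht : 0 < t) (x : E d) :
    ∫ z, ker j t x z = t ^ (d + 2 * j) * cc d j := by
  have h1 : ∫ z, ker j t x z = ∫ z, ker j t x (z + x) :=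
    (integral_add_right_eq_self (μ := (volume : Measure (E d))) (fun z => ker j t x z) x).symm
  rw [h1]
  simp_rw [ker_scale ht]
  rw [integral_const_mul, Measure.integral_comp_inv_smul_of_nonneg volume _ ht.le]
  simp only [finrank_euclideanSpace, Fintype.card_fin, smul_eq_mul, cc]
  ring

lemma cc_pos {j : ℕ} (hj : j ≠ 0) : 0 < cc d j := by
  unfold cc
  rw [integral_pos_iff_support_of_nonneg (fun z => ker_nonneg _ _ _ _)
    (integrable_ker hj zero_le_one 0)]
  have h1 : ball (0 : E d) 1 ⊆ Function.support fun z => ker j 1 0 z := by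
    intro z hz
    have : ‖z‖ < 1 := by simpa using hz
    simp only [Function.mem_support, ker, sub_zero]
    have h2 : 0 < 1 ^ 2 - ‖z‖ ^ 2 := by nlinarith [norm_nonneg z]
    rw [pp_of_nonneg _ h2.le]
    positivity
  exact lt_of_lt_of_le (measure_ball_pos _ _ one_pos) (measure_mono h1)

lemma P_mono {j : ℕ} (hj : j ≠ 0) {t : ℝ} (ht : 0 ≤ t) {x : E d} {v w : E d → ℝ}
    (hv : LocallyIntegrable v volume) (hw : LocallyIntegrable w volume)
    (h : ∀ z ∈ ball x t, v z ≤ w z) : P j v x t ≤ P j w x t := by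
  unfold P
  refine integral_mono (integrable_ker_mul hj ht x hv) (integrable_ker_mul hj ht x hw) ?_
  intro z
  by_cases hz : z ∈ ball x t
  · exact mul_le_mul_of_nonneg_left (h z hz) (ker_nonneg _ _ _ _)
  · have : ker j t x z = 0 := ker_eq_zero hj ht (by simpa [mem_ball] using hz)
    simp [this]

lemma P_const {j : ℕ} {t : ℝ} (ht : 0 < t) (x : E d) (c : ℝ) :
    P j (fun _ => c) x t = t ^ (d + 2 * j) * cc d j * c := by
  unfold P
  rw [integral_mul_const, integral_ker ht]

lemma P_add {j : ℕ} (hj : j ≠ 0) {t : ℝ} (ht : 0 ≤ t) {x : E d} {v w : E d → ℝ}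
    (hv : LocallyIntegrable v volume) (hw : LocallyIntegrable w volume) :
    P j (fun z => v z + w z) x t = P j v x t + P j w x t := by
  unfold P
  rw [← integral_add (integrable_ker_mul hj ht x hv) (integrable_ker_mul hj ht x hw)]
  congr 1; ext z; ring

lemma P_sub {j : ℕ} (hj : j ≠ 0) {t : ℝ} (ht : 0 ≤ t) {x : E d} {v w : E d → ℝ}
    (hv : LocallyIntegrable v volume) (hw : LocallyIntegrable w volume) :
    P j (fun z => v z - w z) x t = P j v x t - P j w x t := by
  unfold P
  rw [← integral_sub (integrable_ker_mul hj ht x hv) (integrable_ker_mul hj ht x hw)]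
  congr 1; ext z; ring

lemma P_const_mul {j : ℕ} {t : ℝ} {x : E d} {w : E d → ℝ} (c : ℝ) :
    P j (fun z => c * w z) x t = c * P j w x t := by
  unfold P
  rw [← integral_const_mul]
  congr 1; ext z; ring

lemma P_congr {j : ℕ} (hj : j ≠ 0) {t : ℝ} (ht : 0 ≤ t) {x : E d} {v w : E d → ℝ}
    (h : ∀ z ∈ ball x t, v z = w z) : P j v x t = P j w x t := by
  unfold P
  congr 1; ext z
  by_cases hz : z ∈ ball x t
  · rw [h z hz]
  · have : ker j t x z = 0 := ker_eq_zero hj ht (by simpa [mem_ball] using hz)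
    simp [this]

lemma m_mono {j : ℕ} (hj : j ≠ 0) {t : ℝ} (ht : 0 < t) {x : E d} {v w : E d → ℝ}
    (hv : LocallyIntegrable v volume) (hw : LocallyIntegrable w volume)
    (h : ∀ z ∈ ball x t, v z ≤ w z) : m j v x t ≤ m j w x t := by
  unfold m
  exact div_le_div_of_nonneg_right (P_mono hj ht.le hv hw h) (by positivity)

lemma m_const {j : ℕ} {t : ℝ} (ht : 0 < t) (x : E d) (c : ℝ) :
    m j (fun _ => c) x t = cc d j * c := by
  unfold m
  rw [P_const ht]
  field_simp

lemma m_add {j : ℕ} (hj : j ≠ 0) {t : ℝ} (ht : 0 < t) {x : E d} {v w : E d → ℝ}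
    (hv : LocallyIntegrable v volume) (hw : LocallyIntegrable w volume) :
    m j (fun z => v z + w z) x t = m j v x t + m j w x t := by
  unfold m
  rw [P_add hj ht.le hv hw, add_div]

lemma m_sub {j : ℕ} (hj : j ≠ 0) {t : ℝ} (ht : 0 < t) {x : E d} {v w : E d → ℝ}
    (hv : LocallyIntegrable v volume) (hw : LocallyIntegrable w volume) :
    m j (fun z => v z - w z) x t = m j v x t - m j w x t := by
  unfold m
  rw [P_sub hj ht.le hv hw, sub_div]

lemma m_const_mul {j : ℕ} {t : ℝ} {x : E d} {w : E d → ℝ} (c : ℝ) :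
    m j (fun z => c * w z) x t = c * m j w x t := by
  unfold m
  rw [P_const_mul, mul_div_assoc]

lemma m_congr {j : ℕ} (hj : j ≠ 0) {t : ℝ} (ht : 0 ≤ t) {x : E d} {v w : E d → ℝ}
    (h : ∀ z ∈ ball x t, v z = w z) : m j v x t = m j w x t := by
  unfold m; rw [P_congr hj ht h]

lemma m_nonneg {j : ℕ} (hj : j ≠ 0) {t : ℝ} (ht : 0 < t) {x : E d} {w : E d → ℝ}
    (h : ∀ z ∈ ball x t, 0 ≤ w z) : 0 ≤ m j w x t := by
  unfold m P
  refine div_nonneg (integral_nonneg fun z => ?_) (by positivity)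
  by_cases hz : z ∈ ball x t
  · exact mul_nonneg (ker_nonneg _ _ _ _) (h z hz)
  · have : ker j t x z = 0 := ker_eq_zero hj ht.le (by simpa [mem_ball] using hz)
    simp [this]

lemma le_m {j : ℕ} (hj : j ≠ 0) {t : ℝ} (ht : 0 < t) {x : E d} {w : E d → ℝ} {c : ℝ}
    (hw : LocallyIntegrable w volume) (h : ∀ z ∈ ball x t, c ≤ w z) : cc d j * c ≤ m j w x t := by
  rw [← m_const ht x c]
  exact m_mono hj ht (locallyIntegrable_const c) hw h

lemma m_le {j : ℕ} (hj : j ≠ 0) {t : ℝ} (ht : 0 < t) {x : E d} {w : E d → ℝ} {c : ℝ}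
    (hw : LocallyIntegrable w volume) (h : ∀ z ∈ ball x t, w z ≤ c) : m j w x t ≤ cc d j * c := by
  rw [← m_const ht x c]
  exact m_mono hj ht hw (locallyIntegrable_const c) h

/-- `m (j+1) ≤ m j` for nonnegative functions -/
lemma m_succ_le {j : ℕ} (hj : j ≠ 0) {t : ℝ} (ht : 0 < t) {x : E d} {w : E d → ℝ}
    (hw : LocallyIntegrable w volume) (h : ∀ z ∈ ball x t, 0 ≤ w z) :
    m (j + 1) w x t ≤ m j w x t := by
  unfold m P
  have e : t ^ (d + 2 * (j + 1)) = t ^ 2 * t ^ (d + 2 * j) := by ring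
  rw [e, div_le_div_iff₀ (by positivity) (by positivity)]
  have key : ∫ z, ker (j + 1) t x z * w z ≤ t ^ 2 * ∫ z, ker j t x z * w z := by
    rw [← integral_const_mul]
    refine integral_mono (integrable_ker_mul (by omega) ht.le x hw)
      ((integrable_ker_mul hj ht.le x hw).const_mul _) ?_
    intro z
    by_cases hz : z ∈ ball x t
    · have h1 : ker (j + 1) t x z ≤ t ^ 2 * ker j t x z := by
        unfold ker pp
        rw [pow_succ, mul_comm]
        refine mul_le_mul_of_nonneg_right (max_le (by positivity) ?_) (by positivity)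
        have := sq_nonneg ‖z - x‖
        linarith
      calc ker (j + 1) t x z * w z ≤ (t ^ 2 * ker j t x z) * w z :=
            mul_le_mul_of_nonneg_right h1 (h z hz)
        _ = t ^ 2 * (ker j t x z * w z) := by ring
    · have h1 : ker (j + 1) t x z = 0 :=
        ker_eq_zero (by omega) ht.le (by simpa [mem_ball] using hz)
      have h2 : ker j t x z = 0 := ker_eq_zero hj ht.le (by simpa [mem_ball] using hz)
      simp [h1, h2]
  calc (∫ z, ker (j + 1) t x z * w z) * t ^ (d + 2 * j)
      ≤ (t ^ 2 * ∫ z, ker j t x z * w z) * t ^ (d + 2 * j) :=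
        mul_le_mul_of_nonneg_right key (by positivity)
    _ = _ := by ring

lemma hasDerivAt_ker (i : ℕ) (t : ℝ) (x z : E d) :
    HasDerivAt (fun t => ker (i + 2) t x z) (2 * ((i : ℝ) + 2) * t * ker (i + 1) t x z) t := by
  unfold ker
  have h1 : HasDerivAt (fun t : ℝ => t ^ 2 - ‖z - x‖ ^ 2) (2 * t) t := by
    have := (hasDerivAt_pow 2 t).sub_const (‖z - x‖ ^ 2)
    simpa using this
  have h2 := (hasDerivAt_pp i (t ^ 2 - ‖z - x‖ ^ 2)).comp t h1
  have h3 : (((i : ℝ) + 2) * pp (i + 1) (t ^ 2 - ‖z - x‖ ^ 2)) * (2 * t) =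
    2 * ((i : ℝ) + 2) * t * pp (i + 1) (t ^ 2 - ‖z - x‖ ^ 2) := by ring
  rw [h3] at h2
  exact h2

lemma ker_abs_radius (j : ℕ) (t : ℝ) (x z : E d) : ker j |t| x z = ker j t x z := by
  unfold ker; rw [sq_abs]

lemma hasDerivAt_P (i : ℕ) {t : ℝ} (ht : 0 < t) (x : E d) {w : E d → ℝ}
    (hw : LocallyIntegrable w volume) :
    HasDerivAt (P (i + 2) w x) (2 * ((i : ℝ) + 2) * t * P (i + 1) w x t) t := by
  have key := hasDerivAt_integral_of_dominated_loc_of_deriv_le (μ := (volume : Measure (E d)))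
    (F := fun t z => ker (i + 2) t x z * w z) (x₀ := t) (s := ball t t)
    (F' := fun t z => (2 * ((i : ℝ) + 2) * t * ker (i + 1) t x z) * w z)
    (bound := fun z => (closedBall x (2 * t)).indicator
      (fun z => (2 * ((i : ℝ) + 2) * (2 * t) * ((2 * t) ^ 2) ^ (i + 1)) * |w z|) z)
    (ball_mem_nhds t ht) ?_ ?_ ?_ ?_ ?_ ?_
  · have h := key.2
    have e : ∫ z, (2 * ((i : ℝ) + 2) * t * ker (i + 1) t x z) * w z =
        2 * ((i : ℝ) + 2) * t * P (i + 1) w x t := by
      unfold P
      rw [← integral_const_mul]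
      congr 1; ext z; ring
    rw [e] at h
    exact h
  · exact Eventually.of_forall fun s =>
      ((continuous_ker _ _ _).aestronglyMeasurable).mul hw.aestronglyMeasurable
  · exact integrable_ker_mul (by omega) ht.le x hw
  · exact (((continuous_ker _ _ _).aestronglyMeasurable).const_mul _).mul hw.aestronglyMeasurable
  · refine Eventually.of_forall fun z s hs => ?_
    have hs' : |s - t| < t := by simpa [Real.dist_eq] using hs
    have hs1 : 0 < s := by rw [abs_lt] at hs'; linarith
    have hs2 : s ≤ 2 * t := by rw [abs_lt] at hs'; linarith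
    by_cases hz : z ∈ closedBall x (2 * t)
    · rw [indicator_of_mem hz, norm_mul, Real.norm_eq_abs, Real.norm_eq_abs]
      refine mul_le_mul_of_nonneg_right ?_ (abs_nonneg _)
      rw [abs_of_nonneg (mul_nonneg (by positivity) (ker_nonneg _ _ _ _))]
      have h1 := ker_le (j := i + 1) (t := s) x z
      have h2 : (s ^ 2) ^ (i + 1) ≤ ((2 * t) ^ 2) ^ (i + 1) := by gcongr
      have h3 : 0 ≤ ker (i + 1) s x z := ker_nonneg _ _ _ _
      calc 2 * ((i : ℝ) + 2) * s * ker (i + 1) s x z
          ≤ 2 * ((i : ℝ) + 2) * (2 * t) * ((2 * t) ^ 2) ^ (i + 1) := by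
            gcongr
            exact h1.trans h2
        _ = _ := rfl
    · rw [indicator_of_notMem hz]
      have : ker (i + 1) s x z = 0 := by
        refine ker_eq_zero (by omega) hs1.le ?_
        have : 2 * t < dist z x := by simpa [mem_closedBall] using hz
        linarith
      simp [this]
  · rw [integrable_indicator_iff measurableSet_closedBall]
    exact (hw.integrableOn_isCompact (isCompact_closedBall x (2 * t))).abs.const_mul _
  · refine Eventually.of_forall fun z s hs => ?_
    exact (hasDerivAt_ker i s x z).mul_const (w z)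

/-- derivative of the weighted mean in terms of the Laplacian of the kernel -/
lemma hasDerivAt_m (i : ℕ) {t : ℝ} (ht : 0 < t) (x : E d) {w : E d → ℝ}
    (hw : LocallyIntegrable w volume) :
    HasDerivAt (m (i + 2) w x)
      ((∫ z, w z * lap (ker (i + 3) t x) z) / (2 * ((i : ℝ) + 3) * t ^ (d + 2 * (i + 2) + 1))) t := by
  have h1 := (hasDerivAt_P i ht x hw).div (hasDerivAt_pow (d + 2 * (i + 2)) t)
    (by positivity : t ^ (d + 2 * (i + 2)) ≠ 0)
  have e1 : ∫ z, w z * lap (ker (i + 3) t x) z = 2 * ((i : ℝ) + 3) *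
      (2 * ((i : ℝ) + 2) * t ^ 2 * P (i + 1) w x t -
        ((d : ℝ) + 2 * ((i : ℝ) + 2)) * P (i + 2) w x t) := by
    unfold P
    rw [← integral_const_mul, ← integral_const_mul, ← integral_sub, ← integral_const_mul]
    · congr 1; ext z; rw [lap_ker]; ring
    · exact (integrable_ker_mul (by omega) ht.le x hw).const_mul _
    · exact (integrable_ker_mul (by omega) ht.le x hw).const_mul _
  refine HasDerivAt.congr_deriv (f := m (i + 2) w x) h1 ?_
  rw [e1]
  have hpow : t ^ (d + 2 * (i + 2)) = t * t ^ (d + 2 * (i + 2) - 1) := by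
    rw [← pow_succ']
    congr 1
  have hpow1 : t ^ (d + 2 * (i + 2) + 1) = t ^ 2 * t ^ (d + 2 * (i + 2) - 1) := by
    rw [← pow_add]
    congr 1
    omega
  rw [hpow, hpow1]
  have ht' : t ^ (d + 2 * (i + 2) - 1) ≠ 0 := by positivity
  set T := t ^ (d + 2 * (i + 2) - 1)
  push_cast
  field_simp

lemma integrable_mul_of_cont {U : Set (E d)} (hU : IsOpen U) {a b : E d → ℝ}
    (ha : ContinuousOn a U) (hb : Continuous b) (hc : HasCompactSupport b) (hs : tsupport b ⊆ U) :
    Integrable (fun z => a z * b z) volume := by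
  have hcont : Continuous (fun z => a z * b z) := by
    rw [continuous_iff_continuousAt]
    intro z
    by_cases hz : z ∈ U
    · exact (ha.continuousAt (hU.mem_nhds hz)).mul hb.continuousAt
    · have h1 : z ∉ tsupport b := fun h => hz (hs h)
      have h2 : (fun z => a z * b z) =ᶠ[𝓝 z] fun _ => 0 := by
        filter_upwards [notMem_tsupport_iff_eventuallyEq.1 h1] with y hy
        simp [hy]
      exact (continuousAt_const (y := (0 : ℝ))).congr h2.symm
  exact hcont.integrable_of_hasCompactSupport hc.mul_left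

/-- Green's identity for compactly supported test functions -/
lemma green {U : Set (E d)} (hU : IsOpen U) {w φ : E d → ℝ} (hw : ContDiffOn ℝ 2 w U)
    (hφ : ContDiff ℝ 2 φ) (hc : HasCompactSupport φ) (hs : tsupport φ ⊆ U) :
    ∫ z, w z * lap φ z = ∫ z, lap w z * φ z := by
  have hw2 : ∀ z ∈ U, ContDiffAt ℝ 2 w z := fun z hz => hw.contDiffAt (hU.mem_nhds hz)
  -- first derivatives
  have hφ1 : ContDiff ℝ 1 (fderiv ℝ φ) := hφ.fderiv_right (m := 1) (by norm_num)
  have hφ1c : HasCompactSupport (fderiv ℝ φ) := hc.fderiv ℝ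
  have hφ1s : tsupport (fderiv ℝ φ) ⊆ U := (tsupport_fderiv_subset ℝ).trans hs
  have hφ2 : Continuous (fderiv ℝ (fderiv ℝ φ)) := hφ1.continuous_fderiv (by norm_num)
  have hφ2c : HasCompactSupport (fderiv ℝ (fderiv ℝ φ)) := hφ1c.fderiv ℝ
  have hφ2s : tsupport (fderiv ℝ (fderiv ℝ φ)) ⊆ U := (tsupport_fderiv_subset ℝ).trans hφ1s
  have hw1 : ContinuousOn (fderiv ℝ w) U := fun z hz =>
    (contDiffAt_fderiv (hw2 z hz)).continuousAt.continuousWithinAt
  have hw2c : ContinuousOn (fderiv ℝ (fderiv ℝ w)) U := fun z hz =>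
    ((contDiffAt_fderiv (hw2 z hz)).fderiv_right (m := 0) (by norm_num)).continuousAt.continuousWithinAt
  have key : ∀ i : Fin d, ∫ z, w z * fderiv ℝ (fderiv ℝ φ) z (bv i) (bv i) =
      ∫ z, fderiv ℝ (fderiv ℝ w) z (bv i) (bv i) * φ z := by
    intro i
    have s1 : ∀ (ψ : E d → E d →L[ℝ] ℝ), tsupport (fun z => ψ z (bv i)) ⊆ tsupport ψ := by
      intro ψ
      apply closure_mono
      intro z hz h
      exact hz (by simp [h])
    have s2 : ∀ (ψ : E d → E d →L[ℝ] E d →L[ℝ] ℝ),
        tsupport (fun z => ψ z (bv i) (bv i)) ⊆ tsupport ψ := by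
      intro ψ
      apply closure_mono
      intro z hz h
      exact hz (by simp [h])
    -- g = ∂ᵢφ
    have hg : ∀ z, HasFDerivAt (fun z => fderiv ℝ φ z (bv i))
        ((ContinuousLinearMap.apply ℝ ℝ (bv i)).comp (fderiv ℝ (fderiv ℝ φ) z)) z := by
      intro z
      exact (ContinuousLinearMap.apply ℝ ℝ (bv i)).hasFDerivAt.comp z
        (hφ1.differentiable (by norm_num) z).hasFDerivAt
    have hg' : ∀ z, fderiv ℝ (fun z => fderiv ℝ φ z (bv i)) z (bv i) =
        fderiv ℝ (fderiv ℝ φ) z (bv i) (bv i) := by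
      intro z; rw [(hg z).fderiv]; rfl
    have hf : ∀ z ∈ U, HasFDerivAt (fun z => fderiv ℝ w z (bv i))
        ((ContinuousLinearMap.apply ℝ ℝ (bv i)).comp (fderiv ℝ (fderiv ℝ w) z)) z := by
      intro z hz
      exact (ContinuousLinearMap.apply ℝ ℝ (bv i)).hasFDerivAt.comp z
        ((contDiffAt_fderiv (hw2 z hz)).differentiableAt (by norm_num)).hasFDerivAt
    have hf' : ∀ z ∈ U, fderiv ℝ (fun z => fderiv ℝ w z (bv i)) z (bv i) =
        fderiv ℝ (fderiv ℝ w) z (bv i) (bv i) := by
      intro z hz; rw [(hf z hz).fderiv]; rfl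
    have c1 : Continuous fun z => fderiv ℝ φ z (bv i) := by
      have := hφ1.continuous
      fun_prop
    have c2 : Continuous fun z => fderiv ℝ (fderiv ℝ φ) z (bv i) (bv i) := by fun_prop
    have cs1 : HasCompactSupport fun z => fderiv ℝ φ z (bv i) :=
      hφ1c.of_isClosed_subset (isClosed_tsupport _) (s1 _)
    have cs2 : HasCompactSupport fun z => fderiv ℝ (fderiv ℝ φ) z (bv i) (bv i) :=
      hφ2c.of_isClosed_subset (isClosed_tsupport _) (s2 _)
    have a1 : ContinuousOn (fun z => fderiv ℝ w z (bv i)) U := by fun_prop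
    have a2 : ContinuousOn (fun z => fderiv ℝ (fderiv ℝ w) z (bv i) (bv i)) U := by fun_prop
    have I1 : Integrable (fun z => w z * fderiv ℝ (fderiv ℝ φ) z (bv i) (bv i)) volume :=
      integrable_mul_of_cont hU hw.continuousOn c2 cs2 ((s2 _).trans hφ2s)
    have I2 : Integrable (fun z => fderiv ℝ w z (bv i) * fderiv ℝ φ z (bv i)) volume :=
      integrable_mul_of_cont hU a1 c1 cs1 ((s1 _).trans hφ1s)
    have I3 : Integrable (fun z => w z * fderiv ℝ φ z (bv i)) volume :=
      integrable_mul_of_cont hU hw.continuousOn c1 cs1 ((s1 _).trans hφ1s)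
    have I4 : Integrable (fun z => fderiv ℝ w z (bv i) * φ z) volume :=
      integrable_mul_of_cont hU a1 hφ.continuous hc hs
    have I5 : Integrable (fun z => fderiv ℝ (fderiv ℝ w) z (bv i) (bv i) * φ z) volume :=
      integrable_mul_of_cont hU a2 hφ.continuous hc hs
    have e5 : ∀ z, fderiv ℝ (fun z => fderiv ℝ w z (bv i)) z (bv i) * φ z =
        fderiv ℝ (fderiv ℝ w) z (bv i) (bv i) * φ z := by
      intro z
      by_cases hz : z ∈ U
      · rw [hf' z hz]
      · have : φ z = 0 := image_eq_zero_of_notMem_tsupport (fun h => hz (hs h))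
        simp [this]
    have step1 := integral_mul_fderiv_eq_neg_fderiv_mul_of_integrable (μ := (volume : Measure (E d)))
      (f := w) (g := fun z => fderiv ℝ φ z (bv i)) (v := bv i) I2
      (by simpa only [hg'] using I1) I3
      (fun z hz => (hw2 z (hφ1s (s1 _ hz))).differentiableAt (by norm_num))
      (fun z _ => (hg z).differentiableAt)
    have step2 := integral_mul_fderiv_eq_neg_fderiv_mul_of_integrable (μ := (volume : Measure (E d)))
      (f := fun z => fderiv ℝ w z (bv i)) (g := φ) (v := bv i)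
      (by simpa only [e5] using I5) I2 I4
      (fun z hz => (hf z (hs hz)).differentiableAt)
      (fun z _ => hφ.differentiable (by norm_num) z)
    simp only [hg'] at step1
    simp only [e5] at step2
    rw [step1, step2, neg_neg]
  have e1 : ∀ z, w z * lap φ z = ∑ i : Fin d, w z * fderiv ℝ (fderiv ℝ φ) z (bv i) (bv i) := by
    intro z; rw [lap_eq, Finset.mul_sum]
  have e2 : ∀ z, lap w z * φ z = ∑ i : Fin d, fderiv ℝ (fderiv ℝ w) z (bv i) (bv i) * φ z := by
    intro z; rw [lap_eq, Finset.sum_mul]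
  simp_rw [e1, e2]
  rw [integral_finsetSum, integral_finsetSum]
  · exact Finset.sum_congr rfl fun i _ => key i
  · intro i _
    refine integrable_mul_of_cont hU ?_ hφ.continuous hc hs
    fun_prop
  · intro i _
    refine integrable_mul_of_cont hU hw.continuousOn (by fun_prop)
      (hφ2c.of_isClosed_subset (isClosed_tsupport _) ?_) ((closure_mono ?_).trans hφ2s)
    · apply closure_mono
      intro z hz h
      exact hz (by simp [h])
    · intro z hz h
      exact hz (by simp [h])

end Pool.Agent.ExtStar
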