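import Pool.Agent.ExtStar.Uniq

set_option autoImplicit false

open MeasureTheory Metric Set Filter Topology

namespace Pool.Agent.ExtStar

theorem exists_RD (f : ℝ → ℝ) (hf : ContDiff ℝ 1 f) (h0 : f 0 = 0) (h1 : f 1 = 0)
    (hd1 : deriv f 1 < 0) (hpos : ∀ t : ℝ, 0 < t → t < 1 → 0 < f t) (hd0 : 0 < deriv f 0) :
    ∃ R : RD, R.f = f := by
  have hdc : Continuous (deriv f) := hf.continuous_deriv (by norm_num)
  have hdiff : Differentiable ℝ f := hf.differentiable (by norm_num)
  obtain ⟨C, hC⟩ := (isCompact_Icc (a := (0:ℝ)) (b := 1)).exists_bound_of_continuousOn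
    hdc.continuousOn
  obtain ⟨s0, hs0, hs01, hlow⟩ : ∃ s0 : ℝ, 0 < s0 ∧ s0 < 1 ∧
      ∀ s, 0 < s → s ≤ s0 → deriv f 0 / 2 * s < f s := by
    have h2 : ∀ᶠ t in 𝓝 (0:ℝ), deriv f 0 / 2 < deriv f t :=
      (hdc.tendsto 0).eventually_const_lt (by linarith)
    obtain ⟨ε, hε, hball⟩ := Metric.eventually_nhds_iff.1 h2
    refine ⟨min (ε / 2) (1 / 2), lt_min (by positivity) (by norm_num),
      (min_le_right _ _).trans_lt (by norm_num), ?_⟩
    intro s hs hs'
    have h3 := Convex.mul_sub_lt_image_sub_of_lt_deriv (convex_Icc (0:ℝ) s)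
      hdiff.continuous.continuousOn hdiff.differentiableOn (C := deriv f 0 / 2) (by
        intro x hx
        rw [interior_Icc] at hx
        apply hball
        rw [Real.dist_eq, sub_zero, abs_of_pos hx.1]
        have : s ≤ ε / 2 := hs'.trans (min_le_left _ _)
        linarith [hx.2]) 0 ⟨le_rfl, hs.le⟩ s ⟨hs.le, le_rfl⟩ hs
    rw [h0, sub_zero, sub_zero] at h3
    exact h3
  obtain ⟨e1, he1, he11, hhigh⟩ : ∃ e1 : ℝ, 0 < e1 ∧ e1 < 1 ∧
      ∀ s t, 1 - e1 ≤ s → s ≤ t → t ≤ 1 → (-deriv f 1 / 2) * (t - s) ≤ f s - f t := by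
    have h2 : ∀ᶠ t in 𝓝 (1:ℝ), deriv f t < deriv f 1 / 2 :=
      (hdc.tendsto 1).eventually_lt_const (by linarith)
    obtain ⟨ε, hε, hball⟩ := Metric.eventually_nhds_iff.1 h2
    refine ⟨min (ε / 2) (1 / 2), lt_min (by positivity) (by norm_num),
      (min_le_right _ _).trans_lt (by norm_num), ?_⟩
    intro s t hs hst ht
    have h3 := Convex.image_sub_le_mul_sub_of_deriv_le (convex_Icc s t)
      hdiff.continuous.continuousOn hdiff.differentiableOn (C := deriv f 1 / 2) (by
        intro x hx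
        rw [interior_Icc] at hx
        refine (hball ?_).le
        rw [Real.dist_eq, abs_sub_comm, abs_of_pos (by linarith [hx.2])]
        have : min (ε / 2) (1 / 2) ≤ ε / 2 := min_le_left _ _
        linarith [hx.1]) s ⟨le_rfl, hst⟩ t ⟨hst, le_rfl⟩ hst
    linarith
  refine ⟨{ f := f, cont := hf.continuous, f0 := h0, f1 := h1, pos := hpos, L := |C| + 1,
            hL := by positivity, lip := ?_, mu := deriv f 0 / 2, hmu := by linarith, s0 := s0,
            hs0 := hs0, hs0' := hs01, low := hlow, e1 := e1, he1 := he1, he1' := he11,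
            c1 := -deriv f 1 / 2, hc1 := by linarith, high := hhigh }, rfl⟩
  intro s hs t ht
  have h3 := Convex.norm_image_sub_le_of_norm_deriv_le (f := f) (C := |C| + 1)
    (s := Icc (0:ℝ) 1) (x := t) (y := s) (fun x _ => hdiff x)
    (fun x hx => (hC x hx).trans (by have := le_abs_self C; linarith)) (convex_Icc 0 1) ht hs
  simpa [Real.norm_eq_abs] using h3

/-- the classical formulation of a bounded positive solution -/
def ClassSol {d : ℕ} (f : ℝ → ℝ) (Ω : Set (E d)) (u : E d → ℝ) : Prop :=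
  ContDiffOn ℝ 2 u Ω ∧ ContinuousOn u (closure Ω) ∧
    (∃ C : ℝ, ∀ x ∈ Ω, |u x| ≤ C) ∧
    (∀ x ∈ Ω, -(∑ i : Fin d,
      iteratedFDeriv ℝ 2 u x (fun _ => EuclideanSpace.single i (1 : ℝ))) = f (u x)) ∧
    (∀ x ∈ frontier Ω, u x = 0) ∧ (∀ x ∈ Ω, 0 < u x)

lemma ind_eqOn_closure {d : ℕ} {Ω : Set (E d)} (hΩ : IsOpen Ω) {u : E d → ℝ}
    (h0 : ∀ x ∈ frontier Ω, u x = 0) : EqOn (Ω.indicator u) u (closure Ω) := by
  intro x hx
  by_cases hxΩ : x ∈ Ω
  · rw [indicator_of_mem hxΩ]
  · rw [indicator_of_notMem hxΩ, h0 x (by rw [hΩ.frontier_eq]; exact ⟨hx, hxΩ⟩)]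

lemma ind_continuous {d : ℕ} {Ω : Set (E d)} (hΩ : IsOpen Ω) {u : E d → ℝ}
    (hc : ContinuousOn u (closure Ω)) (h0 : ∀ x ∈ frontier Ω, u x = 0) :
    Continuous (Ω.indicator u) := by
  have h1 : ContinuousOn (Ω.indicator u) (closure Ω) := hc.congr (ind_eqOn_closure hΩ h0)
  have h2 : ContinuousOn (Ω.indicator u) Ωᶜ := by
    refine (continuousOn_const (c := (0:ℝ))).congr ?_
    intro x hx
    exact indicator_of_notMem hx _
  have h3 := h1.union_of_isClosed h2 isClosed_closure hΩ.isClosed_compl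
  have h4 : closure Ω ∪ Ωᶜ = univ := by
    refine eq_univ_of_forall fun x => ?_
    by_cases hx : x ∈ Ω
    · exact Or.inl (subset_closure hx)
    · exact Or.inr hx
  rw [h4] at h3
  exact continuousOn_univ.1 h3

lemma lap_normsq {d : ℕ} (x₁ x : E d) : lap (fun y => ‖y - x₁‖ ^ 2) x = 2 * d := by
  have h := lap_q (d := d) 0 x₁ x
  have e : (fun y : E d => ‖y - x₁‖ ^ 2) = fun y => (-1) * ((0:ℝ) ^ 2 - ‖y - x₁‖ ^ 2) := by
    ext y; ring
  rw [e, lap_const_mul _ (contDiff_q 0 x₁).contDiffAt, h]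
  ring

/-- bounded solutions are at most one -/
lemma ClassSol.le_one {d : ℕ} {f : ℝ → ℝ} (hf : Continuous f) (hneg : ∀ t : ℝ, 1 < t → f t < 0)
    {Ω : Set (E d)} (hΩ : IsOpen Ω) {u : E d → ℝ} (h : ClassSol f Ω u) : ∀ x ∈ Ω, u x ≤ 1 := by
  obtain ⟨hsm, hc, ⟨C, hC⟩, heq, h0, hpos⟩ := h
  intro x₁ hx₁
  by_contra hlt
  rw [not_le] at hlt
  have hUc := ind_continuous hΩ hc h0
  set U := Ω.indicator u with hU
  have hUC : ∀ x, U x ≤ C := by
    intro x
    by_cases hx : x ∈ Ω
    · rw [hU, indicator_of_mem hx]; exact (le_abs_self _).trans (hC x hx)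
    · rw [hU, indicator_of_notMem hx]
      exact (abs_nonneg _).trans (hC x₁ hx₁)
  have hU1 : U x₁ = u x₁ := indicator_of_mem hx₁ _
  have hC1 : u x₁ ≤ C := by rw [← hU1]; exact hUC x₁
  obtain ⟨c, hc0, hcf⟩ : ∃ c : ℝ, 0 < c ∧ ∀ s ∈ Icc (u x₁) C, f s ≤ -c := by
    obtain ⟨s, hs, hmax⟩ := isCompact_Icc.exists_isMaxOn (nonempty_Icc.2 hC1) hf.continuousOn
    refine ⟨-f s, by have := hneg s (hlt.trans_le hs.1); linarith, fun t ht => ?_⟩
    have := hmax ht
    simpa using this
  set ε : ℝ := c / (2 * (2 * d + 1)) with hε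
  have hε0 : 0 < ε := by positivity
  set ρ : ℝ := Real.sqrt ((C + 1) / ε) + 1 with hρ
  have hCpos : 0 < C + 1 := by linarith
  have hρ0 : 0 < ρ := by positivity
  have hρ2 : C + 1 < ε * ρ ^ 2 := by
    have h1 : Real.sqrt ((C + 1) / ε) ^ 2 = (C + 1) / ε := Real.sq_sqrt (by positivity)
    have h2 : (C + 1) / ε < ρ ^ 2 := by
      have := Real.sqrt_nonneg ((C + 1) / ε)
      nlinarith
    rw [div_lt_iff₀ hε0] at h2
    linarith
  have hWc : Continuous (fun x => U x - ε * ‖x - x₁‖ ^ 2) := by fun_prop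
  obtain ⟨p, hp, hpmax⟩ := (isCompact_closedBall x₁ ρ).exists_isMaxOn
    ⟨x₁, mem_closedBall_self hρ0.le⟩ hWc.continuousOn
  have hp1 : u x₁ ≤ U p - ε * ‖p - x₁‖ ^ 2 := by
    have := hpmax (mem_closedBall_self hρ0.le)
    simpa [hU1] using this
  have hpU : u x₁ ≤ U p := by
    have : 0 ≤ ε * ‖p - x₁‖ ^ 2 := by positivity
    linarith
  have hpΩ : p ∈ Ω := by
    by_contra hn
    rw [hU, indicator_of_notMem hn] at hpU
    linarith
  have hpb : p ∈ ball x₁ ρ := by
    rw [mem_ball, dist_eq_norm]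
    by_contra hn
    rw [not_lt] at hn
    have h1 : ρ ^ 2 ≤ ‖p - x₁‖ ^ 2 := pow_le_pow_left₀ hρ0.le hn 2
    have h2 := hUC p
    nlinarith
  have hUu : U =ᶠ[𝓝 p] u := by
    filter_upwards [hΩ.mem_nhds hpΩ] with y hy
    exact indicator_of_mem hy _
  have hUp : U p = u p := indicator_of_mem hpΩ _
  have hCD : ContDiffAt ℝ 2 u p := hsm.contDiffAt (hΩ.mem_nhds hpΩ)
  have hCDU : ContDiffAt ℝ 2 U p := hCD.congr_of_eventuallyEq hUu
  have hq : ContDiffAt ℝ 2 (fun x => ‖x - x₁‖ ^ 2) p := by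
    have : ContDiff ℝ 2 (fun x : E d => ‖x - x₁‖ ^ 2) := by
      exact (contDiff_id.sub contDiff_const).norm_sq ℝ
    exact this.contDiffAt
  have hmin : IsLocalMin (fun x => ε * ‖x - x₁‖ ^ 2 - U x) p := by
    filter_upwards [isOpen_ball.mem_nhds hpb] with y hy
    have := hpmax (ball_subset_closedBall hy)
    simp only [mem_ofPred_eq] at this
    linarith
  have h3 := lap_nonneg_of_isLocalMin ((contDiffAt_const.mul hq).sub hCDU) hmin
  rw [lap_sub (contDiffAt_const.mul hq) hCDU, lap_const_mul _ hq, lap_normsq,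
    lap_congr hUu] at h3
  have h4 : -lap u p = f (u p) := heq p hpΩ
  have h5 := hcf (u p) ⟨by rw [← hUp]; exact hpU, by rw [← hUp]; exact hUC p⟩
  have h6 : ε * (2 * d) < c := by
    have : ε * (2 * (2 * d + 1)) = c := by rw [hε]; field_simp
    have hd : (0:ℝ) ≤ d := Nat.cast_nonneg d
    nlinarith
  linarith

lemma ClassSol.toSol {d : ℕ} (R : RD) (hneg : ∀ t : ℝ, 1 < t → R.f t < 0)
    {Ω : Set (E d)} (hΩ : IsOpen Ω) {u : E d → ℝ} (h : ClassSol R.f Ω u) :
    Sol R Ω (Ω.indicator u) where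
  cont := ind_continuous hΩ h.2.1 h.2.2.2.2.1
  zero := fun x hx => indicator_of_notMem hx _
  pos := fun x hx => by rw [indicator_of_mem hx]; exact h.2.2.2.2.2 x hx
  le_one := by
    intro x
    by_cases hx : x ∈ Ω
    · rw [indicator_of_mem hx]; exact h.le_one R.cont hneg hΩ x hx
    · rw [indicator_of_notMem hx]; exact zero_le_one
  smooth := h.1.congr (fun x hx => indicator_of_mem hx _)
  eq := by
    intro x hx
    have hUu : Ω.indicator u =ᶠ[𝓝 x] u := by
      filter_upwards [hΩ.mem_nhds hx] with y hy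
      exact indicator_of_mem hy _
    rw [lap_congr hUu, indicator_of_mem hx]
    have h4 : -lap u x = R.f (u x) := h.2.2.2.1 x hx
    linarith

lemma Sol.toClassSol {d : ℕ} {R : RD} {Ω : Set (E d)} {u : E d → ℝ} (hΩ : IsOpen Ω)
    (h : Sol R Ω u) : ClassSol R.f Ω u := by
  refine ⟨h.smooth, h.cont.continuousOn, ⟨1, fun x _ => ?_⟩, fun x hx => ?_, fun x hx => ?_,
    h.pos⟩
  · rw [abs_of_nonneg (h.nonneg x)]; exact h.le_one x
  · have := h.eq x hx
    show -lap u x = R.f (u x)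
    linarith
  · refine h.zero x ?_
    rw [hΩ.frontier_eq] at hx
    exact hx.2

lemma star_of_starConvex {d : ℕ} {Ω : Set (E d)} {x₀ : E d} (h : StarConvex ℝ x₀ Ωᶜ) :
    Star x₀ Ω := by
  intro x hx κ hκ
  by_contra hn
  have hκ0 : 0 < κ := by linarith
  have h1 := h (y := dil x₀ κ x) hn (a := 1 - κ⁻¹) (b := κ⁻¹)
    (by rw [sub_nonneg]; exact inv_le_one_of_one_le₀ hκ) (by positivity) (by ring)
  refine h1 ?_
  have e : (1 - κ⁻¹) • x₀ + κ⁻¹ • dil x₀ κ x = x := by
    unfold dil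
    rw [smul_add, smul_smul, inv_mul_cancel₀ hκ0.ne', one_smul, sub_smul, one_smul]
    abel
  rw [e]; exact hx

/-- uniform graph charts give uniform Lipschitz charts -/
lemma lipDom_of_charts {n : ℕ} {Ω : Set (E (n + 1))} (hΩ : IsOpen Ω) {r M : ℝ} (hr : 0 < r)
    (h : ∀ x ∈ frontier Ω,
        ∃ R : EuclideanSpace ℝ (Fin (n + 1)) ≃ₗᵢ[ℝ] EuclideanSpace ℝ (Fin (n + 1)),
        ∃ φ : (Fin n → ℝ) → ℝ, ContDiff ℝ 2 φ ∧ (∀ y, |φ y| ≤ M) ∧
          (∀ y, ‖fderiv ℝ φ y‖ ≤ M) ∧
          ∀ z ∈ Metric.ball x r,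
            (z ∈ Ω ↔ φ (fun i : Fin n => R (z - x) (Fin.castSucc i)) < R (z - x) (Fin.last n))) :
    LipDom Ω r (1 + |M|) where
  hr := hr
  hΛ := by have := abs_nonneg M; linarith
  isOpen := hΩ
  chart := by
    intro y hy
    obtain ⟨R, φ, hφ, hφM, hφ', hz⟩ := h y hy
    set T : E (n + 1) → (Fin n → ℝ) := fun z => fun i => R (z - y) (Fin.castSucc i) with hT
    have hM : 0 ≤ M := (abs_nonneg _).trans (hφM 0)
    have hTd : ∀ z z', dist (T z) (T z') ≤ dist z z' := by
      intro z z'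
      rw [dist_pi_le_iff dist_nonneg]
      intro i
      rw [Real.dist_eq]
      show |R (z - y) (Fin.castSucc i) - R (z' - y) (Fin.castSucc i)| ≤ _
      have e : R (z - y) (Fin.castSucc i) - R (z' - y) (Fin.castSucc i) =
          R (z - z') (Fin.castSucc i) := by
        have : R (z - z') = R (z - y) - R (z' - y) := by
          rw [← map_sub]; congr 1; abel
        rw [this]; rfl
      rw [e, ← Real.norm_eq_abs]
      calc ‖R (z - z') (Fin.castSucc i)‖ ≤ ‖R (z - z')‖ := PiLp.norm_apply_le _ _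
        _ = dist z z' := by rw [LinearIsometryEquiv.norm_map, dist_eq_norm]
    have hLast : ∀ z z', |R (z - y) (Fin.last n) - R (z' - y) (Fin.last n)| ≤ dist z z' := by
      intro z z'
      have e : R (z - y) (Fin.last n) - R (z' - y) (Fin.last n) = R (z - z') (Fin.last n) := by
        have : R (z - z') = R (z - y) - R (z' - y) := by
          rw [← map_sub]; congr 1; abel
        rw [this]; rfl
      rw [e, ← Real.norm_eq_abs]
      calc ‖R (z - z') (Fin.last n)‖ ≤ ‖R (z - z')‖ := PiLp.norm_apply_le _ _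
        _ = dist z z' := by rw [LinearIsometryEquiv.norm_map, dist_eq_norm]
    have hφL : ∀ a b, |φ a - φ b| ≤ M * dist a b := by
      intro a b
      have := Convex.norm_image_sub_le_of_norm_fderiv_le (𝕜 := ℝ) (f := φ) (C := M)
        (s := univ) (x := b) (y := a) (fun x _ => (hφ.differentiable (by norm_num)) x)
        (fun x _ => hφ' x) convex_univ (mem_univ _) (mem_univ _)
      rw [dist_eq_norm]
      simpa [Real.norm_eq_abs] using this
    set g : E (n + 1) → ℝ := fun z => R (z - y) (Fin.last n) - φ (T z) with hg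
    have hgL : ∀ z z', |g z - g z'| ≤ (1 + |M|) * dist z z' := by
      intro z z'
      have h1 := hLast z z'
      have h2 := (hφL (T z) (T z')).trans (mul_le_mul_of_nonneg_left (hTd z z') hM)
      have e : g z - g z' = (R (z - y) (Fin.last n) - R (z' - y) (Fin.last n)) -
        (φ (T z) - φ (T z')) := by rw [hg]; ring
      rw [e, abs_of_nonneg hM]
      refine (abs_sub _ _).trans ?_
      linarith
    have hgc : Continuous g := by
      have : LipschitzWith (Real.toNNReal (1 + |M|)) g := by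
        refine LipschitzWith.of_dist_le_mul fun a b => ?_
        rw [Real.dist_eq, Real.coe_toNNReal _ (by have := abs_nonneg M; linarith)]
        exact hgL a b
      exact this.continuous
    have hzg : ∀ z ∈ ball y r, (z ∈ Ω ↔ 0 < g z) := by
      intro z hzb
      rw [hz z hzb, hg]
      exact sub_pos.symm
    refine ⟨R.symm (EuclideanSpace.single (Fin.last n) 1), g, ?_, hgL, ?_, ?_, hzg⟩
    · rw [LinearIsometryEquiv.norm_map]; simp
    · intro z t
      have e : R (z + t • R.symm (EuclideanSpace.single (Fin.last n) 1) - y) =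
          R (z - y) + t • EuclideanSpace.single (Fin.last n) 1 := by
        have : z + t • R.symm (EuclideanSpace.single (Fin.last n) 1) - y =
          (z - y) + t • R.symm (EuclideanSpace.single (Fin.last n) 1) := by abel
        rw [this, map_add, map_smul, LinearIsometryEquiv.apply_symm_apply]
      have e1 : T (z + t • R.symm (EuclideanSpace.single (Fin.last n) 1)) = T z := by
        ext i
        simp only [hT]
        rw [e]
        simp [Fin.castSucc_ne_last]
      simp only [hg]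
      rw [e1, e]
      simp
      ring
    · -- g y = 0
      have hyΩ : y ∉ Ω := by rw [hΩ.frontier_eq] at hy; exact hy.2
      have hyc : y ∈ closure Ω := by rw [hΩ.frontier_eq] at hy; exact hy.1
      have h1 : g y ≤ 0 := by
        by_contra hn
        exact hyΩ ((hzg y (mem_ball_self hr)).2 (not_le.1 hn))
      have h2 : 0 ≤ g y := by
        by_contra hn
        rw [not_le] at hn
        have h3 : ∀ᶠ z in 𝓝 y, g z < 0 := (hgc.tendsto y).eventually_lt_const hn
        have h4 : ∀ᶠ z in 𝓝 y, z ∈ ball y r := isOpen_ball.mem_nhds (mem_ball_self hr)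
        obtain ⟨z, hzΩ, hz1, hz2⟩ :=
          ((mem_closure_iff_frequently.1 hyc).and_eventually (h3.and h4)).exists
        have := (hzg z hz2).1 hzΩ
        linarith
      linarith

end Pool.Agent.ExtStar
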