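import Pool.Agent.ExtStar.Iter

set_option autoImplicit false

open MeasureTheory Metric Set Filter Topology

namespace Pool.Agent.ExtStar

variable {d : ℕ}

/-- scaled means -/
noncomputable def A (j : ℕ) (h : E d → ℝ) (x : E d) (s : ℝ) : ℝ :=
  ∫ y, ker j 1 0 y * h (x + s • y)

/-- scaled first moments, as a covector -/
noncomputable def BL (h : E d → ℝ) (x : E d) (s : ℝ) : E d →L[ℝ] ℝ :=
  ∫ y, (ker 3 1 0 y * h (x + s • y)) • innerSL ℝ y

lemma integral_scale {G : Type*} [NormedAddCommGroup G] [NormedSpace ℝ G] (F : E d → G)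
    (x : E d) {s : ℝ} (hs : 0 < s) : ∫ y, F (x + s • y) = (s ^ d)⁻¹ • ∫ z, F z := by
  have h1 := Measure.integral_comp_smul_of_nonneg (volume : Measure (E d))
    (fun y => F (x + y)) s (hR := hs.le)
  rw [h1, integral_add_left_eq_self (μ := (volume : Measure (E d))) F x]
  simp

lemma ker_scale' {j : ℕ} {s : ℝ} (hs : 0 < s) (x y : E d) :
    ker j s x (x + s • y) = s ^ (2 * j) * ker j 1 0 y := by
  unfold ker pp
  rw [pow_mul, ← mul_pow]
  congr 1
  rw [mul_max_of_nonneg _ _ (sq_nonneg s), mul_zero, add_sub_cancel_left, sub_zero,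
    norm_smul, Real.norm_eq_abs, abs_of_pos hs]
  congr 1
  ring

lemma m_eq_A {j : ℕ} (h : E d → ℝ) (x : E d) {s : ℝ} (hs : 0 < s) : m j h x s = A j h x s := by
  have h1 := integral_scale (fun z => ker j s x z * h z) x hs
  have h2 : ∫ y, ker j s x (x + s • y) * h (x + s • y) = s ^ (2 * j) * A j h x s := by
    unfold A
    rw [← integral_const_mul]
    refine integral_congr_ae (Eventually.of_forall fun y => ?_)
    simp only
    rw [ker_scale' hs]; ring
  rw [h2, smul_eq_mul] at h1
  unfold m P
  have h3 : ∫ z, ker j s x z * h z = s ^ (d + 2 * j) * A j h x s := by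
    rw [pow_add, mul_assoc, h1, ← mul_assoc, mul_inv_cancel₀ (by positivity), one_mul]
  rw [h3]
  field_simp

lemma continuous_innerSL_apply : Continuous (fun y : E d => (innerSL ℝ y : E d →L[ℝ] ℝ)) :=
  (innerSL ℝ (E := E d)).continuous

lemma continuous_ker_one (j : ℕ) : Continuous (fun y : E d => ker j 1 0 y) := continuous_ker j 1 0

lemma continuous_A {j : ℕ} (hj : j ≠ 0) {h : E d → ℝ} {C : ℝ} (hc : Continuous h)
    (hC : ∀ x, |h x| ≤ C) : Continuous (fun p : E d × ℝ => A j h p.1 p.2) := by
  unfold A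
  have hk := continuous_ker_one (d := d) j
  refine continuous_of_dominated (bound := fun y => ker j 1 0 y * C) ?_ ?_ ?_ ?_
  · intro p
    exact (by fun_prop : Continuous fun y : E d => ker j 1 0 y * h (p.1 + p.2 • y)).aestronglyMeasurable
  · intro p
    refine Eventually.of_forall fun y => ?_
    rw [norm_mul, Real.norm_of_nonneg (ker_nonneg _ _ _ _), Real.norm_eq_abs]
    exact mul_le_mul_of_nonneg_left (hC _) (ker_nonneg _ _ _ _)
  · exact (integrable_ker hj zero_le_one 0).mul_const C
  · exact Eventually.of_forall fun y => by fun_prop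

lemma norm_innerSL (y : E d) : ‖(innerSL ℝ y : E d →L[ℝ] ℝ)‖ = ‖y‖ := innerSL_apply_norm ℝ y

lemma continuous_BL {h : E d → ℝ} {C : ℝ} (hc : Continuous h)
    (hC : ∀ x, |h x| ≤ C) : Continuous (fun p : E d × ℝ => BL h p.1 p.2) := by
  unfold BL
  have hk := continuous_ker_one (d := d) 3
  have hi := continuous_innerSL_apply (d := d)
  refine continuous_of_dominated (bound := fun y => ker 3 1 0 y * C) ?_ ?_ ?_ ?_
  · intro p
    exact (by fun_prop : Continuous fun y : E d =>
      (ker 3 1 0 y * h (p.1 + p.2 • y)) • (innerSL ℝ y : E d →L[ℝ] ℝ)).aestronglyMeasurable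
  · intro p
    refine Eventually.of_forall fun y => ?_
    rw [norm_smul, norm_mul, Real.norm_of_nonneg (ker_nonneg _ _ _ _), Real.norm_eq_abs,
      norm_innerSL]
    have hC0 : 0 ≤ C := (abs_nonneg _).trans (hC 0)
    by_cases hy : ‖y‖ ≤ 1
    · calc ker 3 1 0 y * |h (p.1 + p.2 • y)| * ‖y‖ ≤ ker 3 1 0 y * C * 1 :=
            mul_le_mul (mul_le_mul_of_nonneg_left (hC _) (ker_nonneg _ _ _ _)) hy
              (norm_nonneg _) (mul_nonneg (ker_nonneg _ _ _ _) hC0)
        _ = _ := mul_one _
    · have : ker 3 1 0 y = 0 := ker_eq_zero (by norm_num) zero_le_one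
        (by rw [dist_zero_right]; linarith [not_le.1 hy])
      simp [this]
  · exact (integrable_ker (by norm_num) zero_le_one 0).mul_const C
  · exact Eventually.of_forall fun y => by fun_prop

lemma norm_BL_le {h : E d → ℝ} {C : ℝ} (hC : ∀ x, |h x| ≤ C) (x : E d) (s : ℝ) :
    ‖BL h x s‖ ≤ cc d 3 * C := by
  have hC0 : 0 ≤ C := (abs_nonneg _).trans (hC 0)
  unfold BL cc
  rw [← integral_mul_const]
  refine norm_integral_le_of_norm_le ((integrable_ker (by norm_num) zero_le_one 0).mul_const C)
    (Eventually.of_forall fun y => ?_)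
  rw [norm_smul, norm_mul, Real.norm_of_nonneg (ker_nonneg _ _ _ _), Real.norm_eq_abs,
    norm_innerSL]
  by_cases hy : ‖y‖ ≤ 1
  · calc ker 3 1 0 y * |h (x + s • y)| * ‖y‖ ≤ ker 3 1 0 y * C * 1 :=
          mul_le_mul (mul_le_mul_of_nonneg_left (hC _) (ker_nonneg _ _ _ _)) hy
            (norm_nonneg _) (mul_nonneg (ker_nonneg _ _ _ _) hC0)
      _ = _ := mul_one _
  · have : ker 3 1 0 y = 0 := ker_eq_zero (by norm_num) zero_le_one
      (by rw [dist_zero_right]; linarith [not_le.1 hy])
    simp [this]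

lemma hasFDerivAt_ker4 (s : ℝ) (x z : E d) :
    HasFDerivAt (fun x : E d => ker 4 s x z) ((8 * ker 3 s x z) • innerSL ℝ (z - x)) x := by
  have h1 : HasFDerivAt (fun x : E d => z - x) (-(ContinuousLinearMap.id ℝ (E d))) x := by
    simpa using (hasFDerivAt_id x).const_sub z
  have h2 := h1.norm_sq
  have h3 := h2.const_sub (s ^ 2)
  have h4 := (hasDerivAt_pp 2 (s ^ 2 - ‖z - x‖ ^ 2)).comp_hasFDerivAt x h3
  have h5 : HasFDerivAt (fun x : E d => ker 4 s x z) _ x := h4
  refine h5.congr_fderiv ?_
  ext v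
  simp [ker]
  ring

/-- differentiation of scaled means of merely continuous functions -/
lemma hasFDerivAt_A4 {h : E d → ℝ} (hc : Continuous h) (hs : HasCompactSupport h) (x : E d)
    {s : ℝ} (hs0 : 0 < s) :
    HasFDerivAt (fun x => A 4 h x s) ((8 / s) • BL h x s) x := by
  have hint : Integrable h volume := hc.integrable_of_hasCompactSupport hs
  have hk : ∀ (j : ℕ) (x : E d), Continuous fun z => ker j s x z := fun j x => continuous_ker j s x
  have hi := continuous_innerSL_apply (d := d)
  have key : HasFDerivAt (fun x => ∫ z, ker 4 s x z * h z)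
      (∫ z, (h z * (8 * ker 3 s x z)) • innerSL ℝ (z - x)) x := by
    refine hasFDerivAt_integral_of_dominated_of_fderiv_le (μ := (volume : Measure (E d)))
      (F := fun x z => ker 4 s x z * h z)
      (F' := fun x z => (h z * (8 * ker 3 s x z)) • innerSL ℝ (z - x))
      (bound := fun z => |h z| * (8 * (s ^ 2) ^ 3 * s)) (s := univ) univ_mem ?_ ?_ ?_ ?_ ?_ ?_
    · exact Eventually.of_forall fun x => ((hk 4 x).mul hc).aestronglyMeasurable
    · exact integrable_ker_mul (by norm_num) hs0.le x hc.locallyIntegrable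
    · have := hk 3 x
      exact (by fun_prop : Continuous fun z => (h z * (8 * ker 3 s x z)) •
        (innerSL ℝ (z - x) : E d →L[ℝ] ℝ)).aestronglyMeasurable
    · refine Eventually.of_forall fun z x _ => ?_
      rw [norm_smul, norm_mul, norm_mul, Real.norm_of_nonneg (ker_nonneg _ _ _ _), norm_innerSL,
        Real.norm_eq_abs]
      have h8 : ‖(8:ℝ)‖ = 8 := by norm_num
      rw [h8, mul_assoc]
      refine mul_le_mul_of_nonneg_left ?_ (abs_nonneg _)
      by_cases hz : ‖z - x‖ ≤ s
      · exact mul_le_mul (mul_le_mul_of_nonneg_left (ker_le x z) (by norm_num)) hz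
          (norm_nonneg _) (by positivity)
      · have : ker 3 s x z = 0 := ker_eq_zero (by norm_num) hs0.le
          (by rw [dist_eq_norm]; linarith [not_le.1 hz])
        rw [this]
        simp only [mul_zero, zero_mul]
        positivity
    · exact hint.abs.mul_const _
    · refine Eventually.of_forall fun z x _ => ?_
      have := (hasFDerivAt_ker4 s x z).mul_const (h z)
      refine this.congr_fderiv ?_
      rw [smul_smul]
  have e1 : (fun x => A 4 h x s) = fun x => (s ^ (d + 8))⁻¹ * ∫ z, ker 4 s x z * h z := by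
    ext x
    rw [← m_eq_A h x hs0]
    unfold m P
    rw [div_eq_inv_mul]
  rw [e1]
  have h2 := key.const_mul ((s ^ (d + 8))⁻¹)
  refine h2.congr_fderiv ?_
  have h3 := integral_scale (fun z => (h z * (8 * ker 3 s x z)) • (innerSL ℝ (z - x) : E d →L[ℝ] ℝ))
    x hs0
  have h4 : ∫ y, (h (x + s • y) * (8 * ker 3 s x (x + s • y))) •
      (innerSL ℝ (x + s • y - x) : E d →L[ℝ] ℝ) = (8 * s ^ 7) • BL h x s := by
    unfold BL
    rw [← integral_smul]
    refine integral_congr_ae (Eventually.of_forall fun y => ?_)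
    simp only
    rw [ker_scale' hs0, add_sub_cancel_left]
    ext v
    simp
    ring
  rw [h4] at h3
  have h5 : ∫ z, (h z * (8 * ker 3 s x z)) • (innerSL ℝ (z - x) : E d →L[ℝ] ℝ) =
      (s ^ d) • ((8 * s ^ 7) • BL h x s) := by
    rw [h3, smul_smul, mul_inv_cancel₀ (by positivity), one_smul]
  rw [h5, smul_smul, smul_smul]
  congr 1
  have : s ^ (d + 8) = s ^ d * s ^ 7 * s := by ring
  rw [this]
  field_simp

/-- the potential-type operator -/
noncomputable def II (h : E d → ℝ) (T : ℝ) (x : E d) : ℝ := ∫ s in Ioc 0 T, (s / 8) * A 4 h x s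

lemma hasFDerivAt_II {h : E d → ℝ} (hc : Continuous h) (hs : HasCompactSupport h) {T : ℝ}
    (x : E d) : HasFDerivAt (II h T) (∫ s in Ioc 0 T, BL h x s) x := by
  obtain ⟨C, hC0, hC'⟩ := exists_bound_of_compact hc hs
  have hC : ∀ x, |h x| ≤ C := fun x => by rw [← Real.norm_eq_abs]; exact hC' x
  have cA := continuous_A (j := 4) (by norm_num) hc hC
  have cB := continuous_BL hc hC
  have cA' : ∀ x, Continuous fun s : ℝ => (s / 8) * A 4 h x s := by
    intro x
    have : Continuous fun s : ℝ => A 4 h x s := cA.comp (Continuous.prodMk_right x)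
    fun_prop
  refine hasFDerivAt_integral_of_dominated_of_fderiv_le (μ := volume.restrict (Ioc 0 T))
    (F := fun x s => (s / 8) * A 4 h x s) (F' := fun x s => BL h x s)
    (bound := fun _ => cc d 3 * C) (s := univ) univ_mem ?_ ?_ ?_ ?_ ?_ ?_
  · exact Eventually.of_forall fun x => (cA' x).aestronglyMeasurable
  · exact ((cA' x).integrableOn_Icc (a := 0) (b := T)).mono_set Ioc_subset_Icc_self
  · exact (cB.comp (Continuous.prodMk_right x)).aestronglyMeasurable
  · exact Eventually.of_forall fun s x _ => norm_BL_le hC x s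
  · exact integrableOn_const measure_Ioc_lt_top.ne
  · rw [ae_restrict_iff' measurableSet_Ioc]
    refine Eventually.of_forall fun s hs1 x _ => ?_
    have := (hasFDerivAt_A4 hc hs x hs1.1).const_mul (s / 8)
    refine this.congr_fderiv ?_
    rw [smul_smul]
    have hs1' := hs1.1
    have : s / 8 * (8 / s) = 1 := by field_simp
    rw [this, one_smul]

lemma contDiff_one_II {h : E d → ℝ} (hc : Continuous h) (hs : HasCompactSupport h) (T : ℝ) :
    ContDiff ℝ 1 (II h T) := by
  rw [contDiff_one_iff_hasFDerivAt]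
  refine ⟨fun x => ∫ s in Ioc 0 T, BL h x s, ?_, fun x => hasFDerivAt_II hc hs x⟩
  obtain ⟨C, hC0, hC'⟩ := exists_bound_of_compact hc hs
  have hC : ∀ x, |h x| ≤ C := fun x => by rw [← Real.norm_eq_abs]; exact hC' x
  have cB := continuous_BL hc hC
  refine continuous_of_dominated (bound := fun _ => cc d 3 * C) ?_ ?_ ?_ ?_
  · intro x; exact (cB.comp (Continuous.prodMk_right x)).aestronglyMeasurable
  · intro x; exact Eventually.of_forall fun s => norm_BL_le hC x s
  · exact integrableOn_const measure_Ioc_lt_top.ne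
  · exact Eventually.of_forall fun s => cB.comp (Continuous.prodMk_left s)

end Pool.Agent.ExtStar
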