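import Pool.Agent.ExtStar.Reg

set_option autoImplicit false

open MeasureTheory Metric Set Filter Topology

namespace Pool.Agent.ExtStar

variable {d : ℕ}

/-- the measure used to write `II` as one integral -/
noncomputable def nu (d : ℕ) (T : ℝ) : Measure (ℝ × E d) :=
  (volume.restrict (Ioc (0:ℝ) T)).prod volume

instance (T : ℝ) : SFinite (nu d T) := by unfold nu; infer_instance

lemma integrable_wt (T : ℝ) :
    Integrable (fun p : ℝ × E d => (p.1 / 8) * ker 4 1 0 p.2) (nu d T) := by
  unfold nu
  refine Integrable.mul_prod (f := fun s : ℝ => s / 8) (g := fun y : E d => ker 4 1 0 y) ?_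
    (integrable_ker (by norm_num) zero_le_one 0)
  have : Continuous fun s : ℝ => s / 8 := by fun_prop
  exact (this.integrableOn_Icc (a := 0) (b := T)).mono_set Ioc_subset_Icc_self

lemma integrable_wt_mul (T : ℝ) {h : E d → ℝ} {C : ℝ} (hc : Continuous h) (hC : ∀ x, |h x| ≤ C)
    (x : E d) : Integrable (fun p : ℝ × E d => ((p.1 / 8) * ker 4 1 0 p.2) *
      h (x + p.1 • p.2)) (nu d T) := by
  refine (integrable_wt T).mul_bdd (c := C) ?_ (Eventually.of_forall fun p => ?_)
  · exact (by fun_prop : Continuous fun p : ℝ × E d => h (x + p.1 • p.2)).aestronglyMeasurable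
  · rw [Real.norm_eq_abs]; exact hC _

lemma II_eq (T : ℝ) {h : E d → ℝ} {C : ℝ} (hc : Continuous h) (hC : ∀ x, |h x| ≤ C) (x : E d) :
    II h T x = ∫ p, ((p.1 / 8) * ker 4 1 0 p.2) * h (x + p.1 • p.2) ∂(nu d T) := by
  have h1 := integrable_wt_mul T hc hC x
  unfold nu at h1 ⊢
  rw [integral_prod _ h1]
  unfold II A
  refine integral_congr_ae (Eventually.of_forall fun s => ?_)
  simp only
  rw [← integral_const_mul]
  refine integral_congr_ae (Eventually.of_forall fun y => ?_)
  simp only
  ring

lemma fderiv_II {h : E d → ℝ} (hc : ContDiff ℝ 1 h) (hs : HasCompactSupport h) (T : ℝ)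
    (x v : E d) : fderiv ℝ (II h T) x v = II (fun z => fderiv ℝ h z v) T x := by
  obtain ⟨C, hC0, hC'⟩ := exists_bound_of_compact hc.continuous hs
  have hC : ∀ x, |h x| ≤ C := fun x => by rw [← Real.norm_eq_abs]; exact hC' x
  have hc1 : Continuous (fderiv ℝ h) := hc.continuous_fderiv (by norm_num)
  have hs1 : HasCompactSupport (fderiv ℝ h) := hs.fderiv ℝ
  obtain ⟨D, hD0, hD⟩ := exists_bound_of_compact hc1 hs1
  have hk := continuous_ker_one (d := d) 4
  have hv : Continuous fun z => fderiv ℝ h z v := by fun_prop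
  have hvb : ∀ z, |fderiv ℝ h z v| ≤ D * ‖v‖ := by
    intro z
    rw [← Real.norm_eq_abs]
    exact ((fderiv ℝ h z).le_opNorm v).trans (mul_le_mul_of_nonneg_right (hD z) (norm_nonneg _))
  have hII : II h T = fun x => ∫ p, ((p.1 / 8) * ker 4 1 0 p.2) * h (x + p.1 • p.2) ∂(nu d T) := by
    ext x; exact II_eq T hc.continuous hC x
  have hcF' : ∀ x : E d, Continuous fun p : ℝ × E d => ((p.1 / 8) * ker 4 1 0 p.2) •
      fderiv ℝ h (x + p.1 • p.2) := by
    intro x; fun_prop
  have key : HasFDerivAt (II h T)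
      (∫ p, ((p.1 / 8) * ker 4 1 0 p.2) • fderiv ℝ h (x + p.1 • p.2) ∂(nu d T)) x := by
    rw [hII]
    refine hasFDerivAt_integral_of_dominated_of_fderiv_le (μ := nu d T)
      (F := fun x (p : ℝ × E d) => ((p.1 / 8) * ker 4 1 0 p.2) * h (x + p.1 • p.2))
      (F' := fun x p => ((p.1 / 8) * ker 4 1 0 p.2) • fderiv ℝ h (x + p.1 • p.2))
      (bound := fun p => ‖(p.1 / 8) * ker 4 1 0 p.2‖ * D) (s := univ) univ_mem ?_ ?_ ?_ ?_ ?_ ?_
    · exact Eventually.of_forall fun x =>
        (integrable_wt_mul T hc.continuous hC x).aestronglyMeasurable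
    · exact integrable_wt_mul T hc.continuous hC x
    · exact (hcF' x).aestronglyMeasurable
    · refine Eventually.of_forall fun p x _ => ?_
      rw [norm_smul]
      exact mul_le_mul_of_nonneg_left (hD _) (norm_nonneg _)
    · exact (integrable_wt T).norm.mul_const D
    · refine Eventually.of_forall fun p x _ => ?_
      have h1 : HasFDerivAt (fun x : E d => x + p.1 • p.2) (ContinuousLinearMap.id ℝ (E d)) x :=
        (hasFDerivAt_id x).add_const _
      have h2 := ((hc.differentiable (by norm_num)) (x + p.1 • p.2)).hasFDerivAt.comp x h1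
      have h3 := h2.const_mul ((p.1 / 8) * ker 4 1 0 p.2)
      refine h3.congr_fderiv ?_
      rw [ContinuousLinearMap.comp_id]
  rw [key.fderiv, II_eq T hv hvb x]
  have hint : Integrable (fun p : ℝ × E d => ((p.1 / 8) * ker 4 1 0 p.2) •
      fderiv ℝ h (x + p.1 • p.2)) (nu d T) := by
    refine ((integrable_wt T).norm.mul_const D).mono' (hcF' x).aestronglyMeasurable
      (Eventually.of_forall fun p => ?_)
    rw [norm_smul]
    exact mul_le_mul_of_nonneg_left (hD _) (norm_nonneg _)
  rw [ContinuousLinearMap.integral_apply hint]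
  refine integral_congr_ae (Eventually.of_forall fun p => ?_)
  simp

lemma contDiff_two_II {h : E d → ℝ} (hc : ContDiff ℝ 1 h) (hs : HasCompactSupport h) (T : ℝ) :
    ContDiff ℝ 2 (II h T) := by
  have : ContDiff ℝ (1 + 1) (II h T) := by
    rw [contDiff_succ_iff_fderiv_apply]
    refine ⟨fun x => (hasFDerivAt_II hc.continuous hs x).differentiableAt, by simp, fun v => ?_⟩
    have e : (fun x => fderiv ℝ (II h T) x v) = II (fun z => fderiv ℝ h z v) T := by
      ext x; exact fderiv_II hc hs T x v
    rw [e]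
    have hc1 : Continuous (fderiv ℝ h) := hc.continuous_fderiv (by norm_num)
    refine contDiff_one_II (by fun_prop) ?_ T
    refine (hs.fderiv ℝ).of_isClosed_subset (isClosed_tsupport _) ?_
    apply closure_mono
    intro z hz h
    exact hz (by simp [h])
  norm_num at this
  exact this

open scoped Convolution in
lemma contDiff_m3 {u : E d → ℝ} (hu : Continuous u) {T : ℝ} (hT : 0 < T) :
    ContDiff ℝ 2 (fun x => m 3 u x T) := by
  have h1 : ContDiff ℝ ((2 : ℕ∞) : WithTop ℕ∞) (u ⋆[ContinuousLinearMap.mul ℝ ℝ, volume]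
      (ker 3 T (0 : E d))) := by
    refine HasCompactSupport.contDiff_convolution_right _
      (hasCompactSupport_ker (by norm_num) hT.le 0) hu.locallyIntegrable ?_
    exact contDiff_ker 3 2 (by norm_num) T 0
  have e : (fun x => m 3 u x T) = fun x => (u ⋆[ContinuousLinearMap.mul ℝ ℝ, volume]
      (ker 3 T (0 : E d))) x / T ^ (d + 2 * 3) := by
    ext x
    unfold m P
    congr 1
    rw [convolution_def]
    refine integral_congr_ae (Eventually.of_forall fun z => ?_)
    simp only [ContinuousLinearMap.mul_apply']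
    unfold ker
    rw [sub_zero, norm_sub_rev, mul_comm]
  rw [e]
  exact ContDiff.div_const h1 _

end Pool.Agent.ExtStar
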