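import Pool.Agent.ExtStar.Reg2

set_option autoImplicit false

open MeasureTheory Metric Set Filter Topology

namespace Pool.Agent.ExtStar

variable {d : ℕ}

lemma rep_formula {U : Set (E d)} {u g h : E d → ℝ} {C : ℝ} (hu : Continuous u)
    (hw : WEq U u (fun z => -g z)) (hh : Continuous h) (hC : ∀ x, |h x| ≤ C) {x : E d} {T : ℝ}
    (hT : 0 < T) (hb : closedBall x T ⊆ U) (hgh : ∀ z ∈ ball x T, g z = h z) :
    cc d 3 * u x = m 3 u x T + II h T x := by
  have cA := continuous_A (j := 4) (by norm_num) hh hC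
  have cA' : Continuous fun s : ℝ => -((s / 8) * A 4 h x s) := by
    have : Continuous fun s : ℝ => A 4 h x s := cA.comp (Continuous.prodMk_right x)
    fun_prop
  have hd : ∀ s ∈ Ioc 0 T, HasDerivAt (m 3 u x) (-((s / 8) * A 4 h x s)) s := by
    intro s hs
    have h1 := deriv_m_eq hw hu.locallyIntegrable 1 hs.1
      ((closedBall_subset_closedBall hs.2).trans hb)
    have h2 : HasDerivAt (m 3 u x) ((s / (2 * (((1:ℕ) : ℝ) + 3))) *
      m 4 (fun z => -g z) x s) s := h1
    refine h2.congr_deriv ?_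
    have e1 : (fun z => -g z) = fun z => (-1) * g z := by ext z; ring
    have e2 : m 4 g x s = m 4 h x s :=
      m_congr (by norm_num) hs.1.le (fun z hz => hgh z (ball_subset_ball hs.2 hz))
    rw [e1, m_const_mul, e2, m_eq_A h x hs.1]
    push_cast
    ring
  have hftc := intervalIntegral.integral_eq_sub_of_hasDerivAt_of_tendsto hT
    (fun s hs => hd s ⟨hs.1, hs.2.le⟩) (cA'.intervalIntegrable 0 T)
    (tendsto_m (j := 3) (by norm_num) hu.locallyIntegrable hu.continuousAt)
    (((hd T ⟨hT, le_rfl⟩).continuousAt.tendsto).mono_left nhdsWithin_le_nhds)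
  rw [intervalIntegral.integral_neg, intervalIntegral.integral_of_le hT.le] at hftc
  unfold II
  linarith

/-- interior regularity for continuous weak solutions of semilinear equations -/
theorem contDiffOn_of_weak {U : Set (E d)} (hU : IsOpen U) {u : E d → ℝ} {f : ℝ → ℝ}
    (hu : Continuous u) (hf : ContDiff ℝ 1 f) (hw : WEq U u (fun z => -f (u z))) :
    ContDiffOn ℝ 2 u U := by
  have hcc3 : 0 < cc d 3 := cc_pos (by norm_num)
  -- localisation data
  have loc : ∀ x0 ∈ U, ∃ (ρ : ℝ) (χ : E d → ℝ), 0 < ρ ∧ closedBall x0 (3 * ρ) ⊆ U ∧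
      ContDiff ℝ 1 χ ∧ HasCompactSupport χ ∧ tsupport χ ⊆ closedBall x0 (3 * ρ) ∧
      ∀ x ∈ closedBall x0 (2 * ρ), χ x = 1 := by
    intro x0 hx0
    obtain ⟨ε, hε, hεU⟩ := Metric.isOpen_iff.1 hU x0 hx0
    set ρ := ε / 4 with hρ
    have hρ0 : 0 < ρ := by positivity
    let b : ContDiffBump x0 := ⟨2 * ρ, 3 * ρ, by positivity, by linarith⟩
    refine ⟨ρ, b, hρ0, ?_, b.contDiff, b.hasCompactSupport, ?_, ?_⟩
    · exact (closedBall_subset_ball (by linarith)).trans hεU
    · rw [b.tsupport_eq]
    · intro x hx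
      exact b.one_of_mem_closedBall hx
  -- representation near a point
  have rep : ∀ (x0 : E d) (ρ : ℝ) (χ : E d → ℝ), 0 < ρ → closedBall x0 (3 * ρ) ⊆ U →
      Continuous χ → HasCompactSupport χ → (∀ x ∈ closedBall x0 (2 * ρ), χ x = 1) →
      ∀ x ∈ ball x0 ρ, u x = (m 3 u x ρ + II (fun z => χ z * f (u z)) ρ x) / cc d 3 := by
    intro x0 ρ χ hρ hsub hχ hχs hχ1 x hx
    have hhc : Continuous fun z => χ z * f (u z) := hχ.mul (hf.continuous.comp hu)
    obtain ⟨C, hC0, hC⟩ := exists_bound_of_compact hhc hχs.mul_right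
    have hxd : dist x x0 < ρ := hx
    have h := rep_formula (g := fun z => f (u z)) hu hw hhc
      (fun x => by rw [← Real.norm_eq_abs]; exact hC x) (x := x) hρ
      (by
        refine subset_trans ?_ hsub
        intro z hz
        have h1 : dist z x ≤ ρ := hz
        have := dist_triangle z x x0
        show dist z x0 ≤ 3 * ρ
        linarith)
      (fun z hz => by
        have h1 : dist z x < ρ := hz
        have := dist_triangle z x x0
        have h2 : χ z = 1 := hχ1 z (by show dist z x0 ≤ 2 * ρ; linarith)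
        simp [h2])
    rw [eq_div_iff hcc3.ne', mul_comm]
    exact h
  -- first regularity step
  have C1 : ∀ x0 ∈ U, ContDiffAt ℝ 1 u x0 := by
    intro x0 hx0
    obtain ⟨ρ, χ, hρ, hsub, hχ, hχs, _, hχ1⟩ := loc x0 hx0
    have hr := rep x0 ρ χ hρ hsub hχ.continuous hχs hχ1
    have hhc : Continuous fun z => χ z * f (u z) := hχ.continuous.mul (hf.continuous.comp hu)
    have h1 : ContDiff ℝ 1 (fun x => (m 3 u x ρ + II (fun z => χ z * f (u z)) ρ x) / cc d 3) :=
      (((contDiff_m3 hu hρ).of_le (by norm_num)).add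
        (contDiff_one_II hhc hχs.mul_right ρ)).div_const _
    refine h1.contDiffAt.congr_of_eventuallyEq ?_
    filter_upwards [isOpen_ball.mem_nhds (mem_ball_self hρ)] with x hx
    exact hr x hx
  have C2 : ∀ x0 ∈ U, ContDiffAt ℝ 2 u x0 := by
    intro x0 hx0
    obtain ⟨ρ, χ, hρ, hsub, hχ, hχs, hts, hχ1⟩ := loc x0 hx0
    have hr := rep x0 ρ χ hρ hsub hχ.continuous hχs hχ1
    have hh1 : ContDiff ℝ 1 fun z => χ z * f (u z) := by
      rw [contDiff_iff_contDiffAt]
      intro x
      by_cases hx : x ∈ U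
      · exact hχ.contDiffAt.mul (hf.contDiffAt.comp x (C1 x hx))
      · have hx' : x ∉ tsupport χ := fun h => hx (hsub (hts h))
        have h0 : (fun z => χ z * f (u z)) =ᶠ[𝓝 x] fun _ => 0 := by
          filter_upwards [(isClosed_tsupport χ).isOpen_compl.mem_nhds hx'] with z hz
          rw [image_eq_zero_of_notMem_tsupport hz, zero_mul]
        exact contDiffAt_const.congr_of_eventuallyEq h0
    have h1 : ContDiff ℝ 2 (fun x => (m 3 u x ρ + II (fun z => χ z * f (u z)) ρ x) / cc d 3) :=
      ((contDiff_m3 hu hρ).add (contDiff_two_II hh1 hχs.mul_right ρ)).div_const _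
    refine h1.contDiffAt.congr_of_eventuallyEq ?_
    filter_upwards [isOpen_ball.mem_nhds (mem_ball_self hρ)] with x hx
    exact hr x hx
  exact fun x hx => (C2 x hx).contDiffWithinAt

/-- the equation holds pointwise -/
theorem lap_eq_of_weak {U : Set (E d)} (hU : IsOpen U) {u : E d → ℝ} {f : ℝ → ℝ}
    (hu : Continuous u) (hf : ContDiff ℝ 1 f) (hw : WEq U u (fun z => -f (u z))) :
    ∀ x ∈ U, lap u x = -f (u x) := by
  have h2 := contDiffOn_of_weak hU hu hf hw
  have hlap : ContinuousOn (lap u) U := by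
    have hw2 : ∀ z ∈ U, ContDiffAt ℝ 2 u z := fun z hz => h2.contDiffAt (hU.mem_nhds hz)
    have hw2c : ContinuousOn (fderiv ℝ (fderiv ℝ u)) U := fun z hz =>
      ((contDiffAt_fderiv (hw2 z hz)).fderiv_right (m := 0)
        (by norm_num)).continuousAt.continuousWithinAt
    have : lap u = fun z => ∑ i : Fin d, fderiv ℝ (fderiv ℝ u) z (bv i) (bv i) := by
      ext z; rw [lap_eq]
    rw [this]
    fun_prop
  have hfu : Continuous fun z => f (u z) := hf.continuous.comp hu
  have hF : ContinuousOn (fun z => lap u z + f (u z)) U := hlap.add hfu.continuousOn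
  have hae := hU.ae_eq_zero_of_integral_contDiff_smul_eq_zero (μ := (volume : Measure (E d)))
    (hF.locallyIntegrableOn hU.measurableSet) (fun φ hφ hc hs => by
      have hφ2 : ContDiff ℝ 2 φ := hφ.of_le (WithTop.coe_le_coe.2 le_top)
      have g1 := green hU h2 hφ2 hc hs
      have g2 := hw φ hφ2 hc hs
      have I1 : Integrable (fun z => lap u z * φ z) volume :=
        integrable_mul_of_cont hU hlap hφ.continuous hc hs
      have I2 : Integrable (fun z => -f (u z) * φ z) volume :=
        integrable_mul_of_cont hU (hfu.neg).continuousOn hφ.continuous hc hs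
      have e : ∀ z, φ z • (lap u z + f (u z)) = lap u z * φ z - (-f (u z) * φ z) := by
        intro z; rw [smul_eq_mul]; ring
      simp_rw [e]
      rw [integral_sub I1 I2, ← g1, g2, sub_self])
  have h3 : (fun z => lap u z + f (u z)) =ᵐ[volume.restrict U] fun _ => 0 := by
    rw [Filter.EventuallyEq, ae_restrict_iff' hU.measurableSet]
    exact hae
  have h4 := Measure.eqOn_open_of_ae_eq h3 hU hF continuousOn_const
  intro x hx
  have := h4 hx
  simp only at this
  linarith

end Pool.Agent.ExtStar
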