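import Pool.Agent.ExtStar.Growth

set_option autoImplicit false

open MeasureTheory Metric Set Filter Topology

namespace Pool.Agent.ExtStar

variable {d : ℕ}

/-- unnormalised Gaussian -/
noncomputable def gs (y : E d) : ℝ := Real.exp (-(1 / 2) * ‖y‖ ^ 2)

lemma gs_pos (y : E d) : 0 < gs y := Real.exp_pos _

lemma gs_neg (y : E d) : gs (-y) = gs y := by unfold gs; rw [norm_neg]

lemma integrable_gauss {b : ℝ} (hb : 0 < b) :
    Integrable (fun y : E d => Real.exp (-b * ‖y‖ ^ 2)) volume := by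
  refine Integrable.of_integral_ne_zero ?_
  rw [GaussianFourier.integral_rexp_neg_mul_sq_norm hb]
  positivity

lemma integrable_gs : Integrable (gs : E d → ℝ) volume := integrable_gauss (by norm_num)

lemma contDiff_gs (n : ℕ∞) : ContDiff ℝ n (gs : E d → ℝ) := by
  unfold gs
  exact (contDiff_const.mul (contDiff_id.norm_sq ℝ)).exp

lemma continuous_gs : Continuous (gs : E d → ℝ) := (contDiff_gs 0).continuous

lemma norm_mul_gs_le (y : E d) : ‖y‖ * gs y ≤ Real.exp (-(1 / 4) * ‖y‖ ^ 2) := by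
  have h1 : ‖y‖ ≤ Real.exp (1 / 4 * ‖y‖ ^ 2) := by
    have := Real.add_one_le_exp (1 / 4 * ‖y‖ ^ 2)
    nlinarith [sq_nonneg (‖y‖ / 2 - 1)]
  unfold gs
  calc ‖y‖ * Real.exp (-(1 / 2) * ‖y‖ ^ 2)
      ≤ Real.exp (1 / 4 * ‖y‖ ^ 2) * Real.exp (-(1 / 2) * ‖y‖ ^ 2) :=
        mul_le_mul_of_nonneg_right h1 (Real.exp_pos _).le
    _ = Real.exp (-(1 / 4) * ‖y‖ ^ 2) := by rw [← Real.exp_add]; congr 1; ring

lemma integrable_norm_mul_gs : Integrable (fun y : E d => ‖y‖ * gs y) volume := by
  refine (integrable_gauss (d := d) (b := 1 / 4) (by norm_num)).mono'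
    (continuous_norm.mul continuous_gs).aestronglyMeasurable (Eventually.of_forall fun y => ?_)
  rw [Real.norm_of_nonneg (by have := gs_pos y; positivity)]
  exact norm_mul_gs_le y

lemma fderiv_gs (y v : E d) : fderiv ℝ gs y v = -(inner ℝ y v * gs y) := by
  have h2 : HasFDerivAt (fun y : E d => ‖y‖ ^ 2) (2 • (innerSL ℝ y)) y := by
    have := (hasFDerivAt_id y).norm_sq
    simpa using this
  have h3 := (h2.const_mul (-(1 / 2) : ℝ)).exp
  have h4 : HasFDerivAt gs _ y := h3
  rw [h4.fderiv]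
  simp [gs]
  ring

/-- bounded continuous functions times integrable continuous ones -/
lemma integrable_mul_bdd {g b : E d → ℝ} (hg : Integrable g volume) {C : ℝ} (hb : Continuous b)
    (hC : ∀ y, |b y| ≤ C) : Integrable (fun y => g y * b y) volume := by
  refine hg.mul_bdd (c := C) hb.aestronglyMeasurable (Eventually.of_forall fun y => ?_)
  rw [Real.norm_eq_abs]; exact hC y

/-- Gaussian means -/
noncomputable def N (φ : E d → ℝ) (x : E d) (t : ℝ) : ℝ := ∫ y, gs y * φ (x + t • y)

lemma exists_bound_of_compact {F : Type*} [NormedAddCommGroup F] {g : E d → F}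
    (hg : Continuous g) (hc : HasCompactSupport g) : ∃ C : ℝ, 0 ≤ C ∧ ∀ z, ‖g z‖ ≤ C := by
  obtain ⟨C, hC⟩ := hg.bounded_above_of_compact_support hc
  exact ⟨C, (norm_nonneg _).trans (hC 0), hC⟩

lemma hasDerivAt_N {φ : E d → ℝ} (hφ : ContDiff ℝ 2 φ) (hc : HasCompactSupport φ) (x : E d)
    (t : ℝ) : HasDerivAt (N φ x) (∫ y, gs y * fderiv ℝ φ (x + t • y) y) t := by
  have hφ1 : Continuous (fderiv ℝ φ) := hφ.continuous_fderiv (by norm_num)
  obtain ⟨C, hC0, hC⟩ := exists_bound_of_compact hφ1 (hc.fderiv ℝ)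
  obtain ⟨C', hC'0, hC'⟩ := exists_bound_of_compact hφ.continuous hc
  have hcφ : ∀ s : ℝ, Continuous fun y => φ (x + s • y) := by
    intro s; have := hφ.continuous; fun_prop
  have hcφ' : ∀ s : ℝ, Continuous fun y => fderiv ℝ φ (x + s • y) y := by
    intro s; fun_prop
  refine (hasDerivAt_integral_of_dominated_loc_of_deriv_le (bound := fun y => C * (‖y‖ * gs y))
    (F := fun s y => gs y * φ (x + s • y)) (F' := fun s y => gs y * fderiv ℝ φ (x + s • y) y)
    (s := univ) (x₀ := t) (μ := volume) univ_mem ?_ ?_ ?_ ?_ ?_ ?_).2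
  · exact Eventually.of_forall fun s => (continuous_gs.mul (hcφ s)).aestronglyMeasurable
  · exact integrable_mul_bdd integrable_gs (hcφ t) (C := C') (fun y => by
      rw [← Real.norm_eq_abs]; exact hC' _)
  · exact (continuous_gs.mul (hcφ' t)).aestronglyMeasurable
  · refine Eventually.of_forall fun y s _ => ?_
    rw [norm_mul, Real.norm_of_nonneg (gs_pos y).le]
    have h1 : ‖fderiv ℝ φ (x + s • y) y‖ ≤ C * ‖y‖ :=
      ((fderiv ℝ φ (x + s • y)).le_opNorm y).trans
        (mul_le_mul_of_nonneg_right (hC _) (norm_nonneg _))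
    calc gs y * ‖fderiv ℝ φ (x + s • y) y‖ ≤ gs y * (C * ‖y‖) :=
          mul_le_mul_of_nonneg_left h1 (gs_pos y).le
      _ = C * (‖y‖ * gs y) := by ring
  · exact integrable_norm_mul_gs.const_mul C
  · refine Eventually.of_forall fun y s _ => ?_
    have h1 : HasDerivAt (fun s : ℝ => x + s • y) y s := by
      simpa using ((hasDerivAt_id s).smul_const y).const_add x
    have h2 := (hφ.differentiable (by norm_num) (x + s • y)).hasFDerivAt.comp_hasDerivAt s h1
    exact h2.const_mul (gs y)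

lemma integrable_coord_mul_gs (i : Fin d) : Integrable (fun y : E d => y i * gs y) volume := by
  refine integrable_norm_mul_gs.mono' ?_ (Eventually.of_forall fun y => ?_)
  · exact (Continuous.mul (by fun_prop) continuous_gs).aestronglyMeasurable
  · rw [norm_mul, Real.norm_of_nonneg (gs_pos y).le]
    exact mul_le_mul_of_nonneg_right (PiLp.norm_apply_le y i) (gs_pos y).le

lemma ibp_N_aux {ψ ψ' : E d → ℝ} (i : Fin d) {C C' : ℝ} (t : ℝ)
    (hψc : Continuous ψ) (hψ'c : Continuous ψ') (hψ : ∀ y, DifferentiableAt ℝ ψ y)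
    (hψ' : ∀ y, fderiv ℝ ψ y (bv i) = t * ψ' y) (hC : ∀ y, |ψ y| ≤ C) (hC' : ∀ y, |ψ' y| ≤ C') :
    ∫ y, gs y * (y i * ψ y) = t * ∫ y, gs y * ψ' y := by
  have hy : ∀ y : E d, fderiv ℝ gs y (bv i) = -(y i * gs y) := by
    intro y; rw [fderiv_gs, EuclideanSpace.inner_single_right]; simp
  have hyi := integrable_coord_mul_gs (d := d) i
  have h := integral_mul_fderiv_eq_neg_fderiv_mul_of_integrable (μ := (volume : Measure (E d)))
    (f := gs) (g := ψ) (v := bv i) ?_ ?_ ?_
    (fun y _ => (contDiff_gs 1).differentiable (by norm_num) y) (fun y _ => hψ y)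
  · simp_rw [hψ', hy] at h
    have e1 : (fun y : E d => gs y * (y i * ψ y)) = fun y => y i * gs y * ψ y := by
      ext y; ring
    have e2 : (fun y : E d => gs y * (t * ψ' y)) = fun y => t * (gs y * ψ' y) := by
      ext y; ring
    have e3 : (fun y : E d => -(y i * gs y) * ψ y) = fun y => -(y i * gs y * ψ y) := by
      ext y; ring
    rw [e2, integral_const_mul, e3, integral_neg, neg_neg] at h
    rw [e1, h]
  · simp_rw [hy]
    exact integrable_mul_bdd hyi.neg hψc hC
  · simp_rw [hψ']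
    refine integrable_mul_bdd (C := |t| * C') integrable_gs (continuous_const.mul hψ'c) ?_
    intro y; rw [abs_mul]
    exact mul_le_mul_of_nonneg_left (hC' _) (abs_nonneg t)
  · exact integrable_mul_bdd integrable_gs hψc hC

lemma fderiv_apply_eq_sum (A : E d →L[ℝ] ℝ) (y : E d) : A y = ∑ i, y i * A (bv i) := by
  have hy : ∑ i, y i • (bv i : E d) = y := by
    ext j
    simp [Pi.single_apply]
  calc A y = A (∑ i, y i • (bv i : E d)) := by rw [hy]
    _ = _ := by rw [map_sum]; simp only [map_smul, smul_eq_mul]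

lemma ibp_N {φ : E d → ℝ} (hφ : ContDiff ℝ 2 φ) (hc : HasCompactSupport φ) (x : E d)
    (t : ℝ) : ∫ y, gs y * fderiv ℝ φ (x + t • y) y = t * N (lap φ) x t := by
  have hφ1 : ContDiff ℝ 1 (fderiv ℝ φ) := hφ.fderiv_right (m := 1) (by norm_num)
  have hφ2 : Continuous (fderiv ℝ (fderiv ℝ φ)) := hφ1.continuous_fderiv (by norm_num)
  have hc1 : HasCompactSupport (fderiv ℝ φ) := hc.fderiv ℝ
  have hc2 : HasCompactSupport (fderiv ℝ (fderiv ℝ φ)) := hc1.fderiv ℝ
  obtain ⟨C, hC0, hC⟩ := exists_bound_of_compact hφ1.continuous hc1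
  have hbv : ∀ i : Fin d, ‖(bv i : E d)‖ = 1 := by intro i; simp
  have hi1 : ∀ (i : Fin d) (y : E d), |fderiv ℝ φ (x + t • y) (bv i)| ≤ C := by
    intro i y
    rw [← Real.norm_eq_abs]
    have := (fderiv ℝ φ (x + t • y)).le_opNorm (bv i)
    rw [hbv, mul_one] at this
    exact this.trans (hC _)
  have hi2 : ∀ (i : Fin d), ∃ C', ∀ (z : E d), |fderiv ℝ (fderiv ℝ φ) z (bv i) (bv i)| ≤ C' := by
    intro i
    have c : Continuous fun z => fderiv ℝ (fderiv ℝ φ) z (bv i) (bv i) := by fun_prop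
    have hs : HasCompactSupport fun z => fderiv ℝ (fderiv ℝ φ) z (bv i) (bv i) := by
      refine hc2.of_isClosed_subset (isClosed_tsupport _) ?_
      apply closure_mono
      intro z hz h
      exact hz (by simp [h])
    obtain ⟨C', _, h⟩ := exists_bound_of_compact c hs
    exact ⟨C', h⟩
  choose C' hi2 using hi2
  have c1 : ∀ i : Fin d, Continuous fun y => fderiv ℝ φ (x + t • y) (bv i) := by
    intro i; have := hφ1.continuous; fun_prop
  have c2 : ∀ i : Fin d, Continuous fun y => fderiv ℝ (fderiv ℝ φ) (x + t • y) (bv i) (bv i) := by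
    intro i; fun_prop
  have key : ∀ i : Fin d, ∫ y, gs y * (y i * fderiv ℝ φ (x + t • y) (bv i)) =
      t * ∫ y, gs y * fderiv ℝ (fderiv ℝ φ) (x + t • y) (bv i) (bv i) := by
    intro i
    have hg : ∀ y, HasFDerivAt (fun y => fderiv ℝ φ (x + t • y) (bv i))
        ((ContinuousLinearMap.apply ℝ ℝ (bv i)).comp
          ((fderiv ℝ (fderiv ℝ φ) (x + t • y)).comp (t • ContinuousLinearMap.id ℝ (E d)))) y := by
      intro y
      have h0 : HasFDerivAt (fun y : E d => x + t • y) (t • ContinuousLinearMap.id ℝ (E d)) y :=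
        ((hasFDerivAt_id y).const_smul t).const_add x
      have h1 := (hφ1.differentiable (by norm_num) (x + t • y)).hasFDerivAt.comp y h0
      exact (ContinuousLinearMap.apply ℝ ℝ (bv i)).hasFDerivAt.comp y h1
    exact ibp_N_aux i t (c1 i) (c2 i) (fun y => (hg y).differentiableAt)
      (fun y => by rw [(hg y).fderiv]; simp) (hi1 i) (fun y => hi2 i _)
  have I1 : ∀ i ∈ (Finset.univ : Finset (Fin d)),
      Integrable (fun y => gs y * (y i * fderiv ℝ φ (x + t • y) (bv i))) volume := by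
    intro i _
    have := integrable_mul_bdd (integrable_coord_mul_gs i) (c1 i) (hi1 i)
    refine this.congr (Eventually.of_forall fun y => ?_)
    ring
  have I2 : ∀ i ∈ (Finset.univ : Finset (Fin d)),
      Integrable (fun y => gs y * fderiv ℝ (fderiv ℝ φ) (x + t • y) (bv i) (bv i)) volume :=
    fun i _ => integrable_mul_bdd integrable_gs (c2 i) (fun y => hi2 i _)
  calc ∫ y, gs y * fderiv ℝ φ (x + t • y) y
      = ∫ y, ∑ i, gs y * (y i * fderiv ℝ φ (x + t • y) (bv i)) := by
        refine integral_congr_ae (Eventually.of_forall fun y => ?_)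
        simp only
        rw [← Finset.mul_sum, ← fderiv_apply_eq_sum]
    _ = ∑ i, ∫ y, gs y * (y i * fderiv ℝ φ (x + t • y) (bv i)) := integral_finsetSum _ I1
    _ = ∑ i, t * ∫ y, gs y * fderiv ℝ (fderiv ℝ φ) (x + t • y) (bv i) (bv i) :=
        Finset.sum_congr rfl fun i _ => key i
    _ = t * ∑ i, ∫ y, gs y * fderiv ℝ (fderiv ℝ φ) (x + t • y) (bv i) (bv i) := by
        rw [Finset.mul_sum]
    _ = t * ∫ y, ∑ i, gs y * fderiv ℝ (fderiv ℝ φ) (x + t • y) (bv i) (bv i) := by
        rw [integral_finsetSum _ I2]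
    _ = t * N (lap φ) x t := by
        congr 1
        refine integral_congr_ae (Eventually.of_forall fun y => ?_)
        simp only
        rw [lap_eq, Finset.mul_sum]

end Pool.Agent.ExtStar
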