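import Pool.Agent.ExtStar.Resolv

set_option autoImplicit false

open MeasureTheory Metric Set Filter Topology

namespace Pool.Agent.ExtStar

variable {d : ℕ}

lemma tendsto_exp_sq {Λ : ℝ} (hΛ : 0 < Λ) :
    Tendsto (fun t : ℝ => Real.exp (-(Λ / 2 * t ^ 2))) atTop (𝓝 0) := by
  refine Real.tendsto_exp_atBot.comp (tendsto_neg_atTop_atBot.comp ?_)
  exact Tendsto.const_mul_atTop (by positivity) (tendsto_pow_atTop (by norm_num))

lemma hasDerivAt_exp_sq (Λ t : ℝ) : HasDerivAt (fun t : ℝ => Real.exp (-(Λ / 2 * t ^ 2)))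
    (-(Λ * t * Real.exp (-(Λ / 2 * t ^ 2)))) t := by
  have := (((hasDerivAt_pow 2 t).const_mul (Λ / 2)).neg).exp
  refine this.congr_deriv ?_
  simp
  ring

lemma integrableOn_texp {Λ : ℝ} (hΛ : 0 < Λ) :
    IntegrableOn (fun t : ℝ => t * Real.exp (-(Λ / 2 * t ^ 2))) (Ioi 0) volume := by
  have h := integrableOn_Ioi_deriv_of_nonneg' (a := (0:ℝ))
    (g := fun t => -Real.exp (-(Λ / 2 * t ^ 2)))
    (g' := fun t => Λ * t * Real.exp (-(Λ / 2 * t ^ 2))) (l := -0)
    (fun t _ => (hasDerivAt_exp_sq Λ t).neg.congr_deriv (by ring))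
    (fun t ht => by have : 0 < t := ht; positivity)
    (tendsto_exp_sq hΛ).neg
  have h2 := h.const_mul (Λ⁻¹)
  refine h2.congr (Eventually.of_forall fun t => ?_)
  field_simp

/-- the kernel of the resolvent, in scaling form -/
noncomputable def kk (Λ : ℝ) (p : ℝ × E d) : ℝ := p.1 * Real.exp (-(Λ / 2 * p.1 ^ 2)) * gs p.2

/-- the measure on (scale, direction) pairs -/
noncomputable def mu (d : ℕ) : Measure (ℝ × E d) := (volume.restrict (Ioi (0:ℝ))).prod volume

instance : SFinite (mu d) := by unfold mu; infer_instance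

lemma continuous_kk (Λ : ℝ) : Continuous (kk Λ : ℝ × E d → ℝ) := by
  unfold kk
  have := continuous_gs (d := d)
  fun_prop

lemma integrable_kk {Λ : ℝ} (hΛ : 0 < Λ) : Integrable (kk Λ : ℝ × E d → ℝ) (mu d) := by
  unfold mu kk
  exact Integrable.mul_prod (integrableOn_texp hΛ) integrable_gs

/-- unnormalised resolvent -/
noncomputable def G0 (Λ : ℝ) (h : E d → ℝ) (x : E d) : ℝ :=
  ∫ p, kk Λ p * h (x + p.1 • p.2) ∂(mu d)

lemma integrable_kk_mul {Λ : ℝ} (hΛ : 0 < Λ) {h : E d → ℝ} {C : ℝ} (hc : Continuous h)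
    (hC : ∀ x, |h x| ≤ C) (x : E d) :
    Integrable (fun p : ℝ × E d => kk Λ p * h (x + p.1 • p.2)) (mu d) := by
  refine (integrable_kk hΛ).mul_bdd (c := C) ?_ (Eventually.of_forall fun p => ?_)
  · exact (by fun_prop : Continuous fun p : ℝ × E d => h (x + p.1 • p.2)).aestronglyMeasurable
  · rw [Real.norm_eq_abs]; exact hC _

lemma continuous_G0 {Λ : ℝ} (hΛ : 0 < Λ) {h : E d → ℝ} {C : ℝ} (hc : Continuous h)
    (hC : ∀ x, |h x| ≤ C) : Continuous (G0 Λ h) := by
  refine continuous_of_dominated (bound := fun p => ‖kk Λ p‖ * C) ?_ ?_ ?_ ?_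
  · intro x; exact (integrable_kk_mul hΛ hc hC x).aestronglyMeasurable
  · intro x
    refine Eventually.of_forall fun p => ?_
    rw [norm_mul]
    exact mul_le_mul_of_nonneg_left (by rw [Real.norm_eq_abs]; exact hC _) (norm_nonneg _)
  · exact (integrable_kk hΛ).norm.mul_const C
  · exact Eventually.of_forall fun p => by fun_prop

lemma bound_G0 {Λ : ℝ} (hΛ : 0 < Λ) {h : E d → ℝ} {C : ℝ}
    (hC : ∀ x, |h x| ≤ C) (x : E d) : |G0 Λ h x| ≤ (∫ p, ‖kk Λ p‖ ∂(mu d)) * C := by
  unfold G0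
  rw [← Real.norm_eq_abs, ← integral_mul_const]
  refine norm_integral_le_of_norm_le ((integrable_kk hΛ).norm.mul_const C)
    (Eventually.of_forall fun p => ?_)
  rw [norm_mul]
  exact mul_le_mul_of_nonneg_left (by rw [Real.norm_eq_abs]; exact hC _) (norm_nonneg _)

lemma continuous_lap {φ : E d → ℝ} (hφ : ContDiff ℝ 2 φ) : Continuous (lap φ) := by
  have hφ1 : ContDiff ℝ 1 (fderiv ℝ φ) := hφ.fderiv_right (m := 1) (by norm_num)
  have hφ2 : Continuous (fderiv ℝ (fderiv ℝ φ)) := hφ1.continuous_fderiv (by norm_num)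
  have : lap φ = fun z => ∑ i : Fin d, fderiv ℝ (fderiv ℝ φ) z (bv i) (bv i) := by
    ext z; rw [lap_eq]
  rw [this]
  fun_prop

lemma hasCompactSupport_lap {φ : E d → ℝ} (hc : HasCompactSupport φ) :
    HasCompactSupport (lap φ) := by
  have hc2 : HasCompactSupport (fderiv ℝ (fderiv ℝ φ)) := (hc.fderiv ℝ).fderiv ℝ
  refine hc2.of_isClosed_subset (isClosed_tsupport _) ?_
  apply closure_mono
  intro z hz h
  refine hz ?_
  rw [lap_eq]
  simp [h]

lemma tsupport_lap_subset {φ : E d → ℝ} : tsupport (lap φ) ⊆ tsupport φ := by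
  refine subset_trans ?_ ((tsupport_fderiv_subset ℝ).trans (tsupport_fderiv_subset ℝ (f := φ)))
  apply closure_mono
  intro z hz h
  refine hz ?_
  rw [lap_eq]
  simp [h]

/-- `G0` inverts `Λ - Δ` on test functions -/
lemma G0_inv {Λ : ℝ} (hΛ : 0 < Λ) {φ : E d → ℝ} (hφ : ContDiff ℝ 2 φ)
    (hc : HasCompactSupport φ) (x : E d) :
    G0 Λ (fun z => Λ * φ z - lap φ z) x = (∫ y, gs (y : E d)) * φ x := by
  obtain ⟨C, hC0, hC⟩ := exists_bound_of_compact hφ.continuous hc
  obtain ⟨C', hC'0, hC'⟩ := exists_bound_of_compact (continuous_lap hφ) (hasCompactSupport_lap hc)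
  have hψc : Continuous (fun z => Λ * φ z - lap φ z) :=
    (continuous_const.mul hφ.continuous).sub (continuous_lap hφ)
  have hψb : ∀ z, |Λ * φ z - lap φ z| ≤ Λ * C + C' := by
    intro z
    have h1 := hC z
    have h2 := hC' z
    rw [Real.norm_eq_abs] at h1 h2
    have h3 : |Λ * φ z| ≤ Λ * C := by
      rw [abs_mul, abs_of_pos hΛ]; exact mul_le_mul_of_nonneg_left h1 hΛ.le
    exact (abs_sub _ _).trans (by linarith)
  have hint := integrable_kk_mul hΛ hψc hψb x
  have hint' : Integrable (fun p : ℝ × E d => kk Λ p * (Λ * φ (x + p.1 • p.2) -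
    lap φ (x + p.1 • p.2))) ((volume.restrict (Ioi (0:ℝ))).prod volume) := hint
  unfold G0 mu
  rw [integral_prod _ hint']
  have hinner : ∀ t : ℝ, ∫ y : E d, kk Λ (t, y) * (Λ * φ (x + t • y) - lap φ (x + t • y)) =
      t * Real.exp (-(Λ / 2 * t ^ 2)) * (Λ * N φ x t - N (lap φ) x t) := by
    intro t
    have I1 : Integrable (fun y => gs y * φ (x + t • y)) volume :=
      integrable_mul_bdd integrable_gs (by have := hφ.continuous; fun_prop)
        (fun y => by rw [← Real.norm_eq_abs]; exact hC _)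
    have I2 : Integrable (fun y => gs y * lap φ (x + t • y)) volume :=
      integrable_mul_bdd integrable_gs (by have := continuous_lap hφ; fun_prop)
        (fun y => by rw [← Real.norm_eq_abs]; exact hC' _)
    unfold N
    rw [← integral_const_mul, ← integral_sub (I1.const_mul Λ) I2, ← integral_const_mul]
    refine integral_congr_ae (Eventually.of_forall fun y => ?_)
    simp only [kk]
    ring
  have hI := hint'.integral_prod_left
  simp only [hinner] at hI ⊢
  have hD : ∀ t : ℝ, HasDerivAt (fun t => -(Real.exp (-(Λ / 2 * t ^ 2)) * N φ x t))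
      (t * Real.exp (-(Λ / 2 * t ^ 2)) * (Λ * N φ x t - N (lap φ) x t)) t := by
    intro t
    have h1 := hasDerivAt_N hφ hc x t
    rw [ibp_N hφ hc x t] at h1
    exact ((hasDerivAt_exp_sq Λ t).mul h1).neg.congr_deriv (by ring)
  have hlim : Tendsto (fun t => -(Real.exp (-(Λ / 2 * t ^ 2)) * N φ x t)) atTop (𝓝 0) := by
    rw [← neg_zero]
    refine Tendsto.neg ?_
    have hb : ∀ t, |N φ x t| ≤ (∫ y, gs (y : E d)) * C := by
      intro t
      unfold N
      rw [← Real.norm_eq_abs, ← integral_mul_const]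
      refine norm_integral_le_of_norm_le (integrable_gs.mul_const C)
        (Eventually.of_forall fun p => ?_)
      rw [norm_mul, Real.norm_of_nonneg (gs_pos p).le]
      exact mul_le_mul_of_nonneg_left (hC _) (gs_pos p).le
    have h2 := (tendsto_exp_sq hΛ).mul_const ((∫ y, gs (y : E d)) * C)
    rw [zero_mul] at h2
    refine squeeze_zero_norm (fun t => ?_) h2
    rw [norm_mul, Real.norm_of_nonneg (Real.exp_pos _).le, Real.norm_eq_abs]
    exact mul_le_mul_of_nonneg_left (hb t) (Real.exp_pos _).le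
  have h := integral_Ioi_of_hasDerivAt_of_tendsto' (a := (0:ℝ)) (fun t _ => hD t) hI hlim
  rw [h]
  simp [N, integral_mul_const]

end Pool.Agent.ExtStar
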