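import Pool.Agent.ExtStar.Resolv2

set_option autoImplicit false

open MeasureTheory Metric Set Filter Topology

namespace Pool.Agent.ExtStar

variable {d : ℕ}

lemma gs_int_pos : 0 < ∫ y, gs (y : E d) := by
  have h := GaussianFourier.integral_rexp_neg_mul_sq_norm (V := E d)
    (show (0:ℝ) < 1 / 2 by norm_num)
  have : ∫ y, gs (y : E d) = (Real.pi / (1 / 2)) ^ (Module.finrank ℝ (E d) / 2 : ℝ) := h
  rw [this]
  positivity

lemma G0_symm_aux {Λ : ℝ} (hΛ : 0 < Λ) {ψ : E d → ℝ} {C : ℝ} (hc : Continuous ψ)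
    (hC : ∀ x, |ψ x| ≤ C) (x : E d) :
    ∫ p, kk Λ p * ψ (x - p.1 • p.2) ∂(mu d) = G0 Λ ψ x := by
  have h1 := integrable_kk_mul hΛ hc hC x
  have h2 : Integrable (fun p : ℝ × E d => kk Λ p * ψ (x - p.1 • p.2)) (mu d) := by
    refine (integrable_kk hΛ).mul_bdd (c := C) ?_ (Eventually.of_forall fun p => ?_)
    · exact (by fun_prop : Continuous fun p : ℝ × E d => ψ (x - p.1 • p.2)).aestronglyMeasurable
    · rw [Real.norm_eq_abs]; exact hC _
  unfold G0
  unfold mu at h1 h2 ⊢
  rw [integral_prod _ h1, integral_prod _ h2]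
  refine integral_congr_ae (Eventually.of_forall fun t => ?_)
  simp only
  rw [← integral_neg_eq_self]
  refine integral_congr_ae (Eventually.of_forall fun y => ?_)
  simp only [kk, gs_neg, smul_neg, sub_neg_eq_add]

lemma weak_G0 {Λ : ℝ} (hΛ : 0 < Λ) {h ψ : E d → ℝ} {C : ℝ} (hc : Continuous h)
    (hC : ∀ x, |h x| ≤ C) (hψ : Continuous ψ) (hψc : HasCompactSupport ψ) :
    ∫ x, G0 Λ h x * ψ x = ∫ x, h x * G0 Λ ψ x := by
  obtain ⟨D, hD0, hD⟩ := exists_bound_of_compact hψ hψc
  have hψi : Integrable ψ volume := hψ.integrable_of_hasCompactSupport hψc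
  have hC0 : 0 ≤ C := (abs_nonneg _).trans (hC 0)
  -- first integrability
  have I1 : Integrable (Function.uncurry fun (x : E d) (p : ℝ × E d) =>
      kk Λ p * h (x + p.1 • p.2) * ψ x) (volume.prod (mu d)) := by
    have h1 : Integrable (fun z : E d × (ℝ × E d) => ψ z.1 * kk Λ z.2) (volume.prod (mu d)) :=
      hψi.mul_prod (integrable_kk hΛ)
    have h2 : Integrable (fun z : E d × (ℝ × E d) => (ψ z.1 * kk Λ z.2) *
        h (z.1 + z.2.1 • z.2.2)) (volume.prod (mu d)) := by
      refine h1.mul_bdd (c := C) ?_ (Eventually.of_forall fun p => ?_)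
      · exact (by fun_prop : Continuous fun z : E d × (ℝ × E d) =>
          h (z.1 + z.2.1 • z.2.2)).aestronglyMeasurable
      · rw [Real.norm_eq_abs]; exact hC _
    refine h2.congr (Eventually.of_forall fun z => ?_)
    simp only [Function.uncurry]
    ring
  have I2 : Integrable (Function.uncurry fun (x : E d) (p : ℝ × E d) =>
      kk Λ p * (h x * ψ (x - p.1 • p.2))) (volume.prod (mu d)) := by
    have hcont : Continuous (Function.uncurry fun (x : E d) (p : ℝ × E d) =>
      kk Λ p * (h x * ψ (x - p.1 • p.2))) := by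
      have := continuous_kk (d := d) Λ
      unfold Function.uncurry
      fun_prop
    rw [integrable_prod_iff' hcont.aestronglyMeasurable]
    constructor
    · refine Eventually.of_forall fun p => ?_
      simp only [Function.uncurry]
      have h3 : Integrable (fun x => ψ (x - p.1 • p.2)) volume := hψi.comp_sub_right _
      have h4 : Integrable (fun x => ψ (x - p.1 • p.2) * h x) volume :=
        integrable_mul_bdd h3 hc hC
      refine (h4.const_mul (kk Λ p)).congr (Eventually.of_forall fun x => ?_)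
      simp only
      ring
    · refine ((integrable_kk hΛ).norm.mul_const (C * ∫ x, ‖ψ x‖)).mono' ?_ ?_
      · exact hcont.norm.aestronglyMeasurable.prod_swap.integral_prod_right'
      · refine Eventually.of_forall fun p => ?_
        rw [Real.norm_of_nonneg (integral_nonneg fun x => norm_nonneg _)]
        simp only [Function.uncurry]
        have h3 : Integrable (fun x => ψ (x - p.1 • p.2)) volume := hψi.comp_sub_right _
        calc ∫ x, ‖kk Λ p * (h x * ψ (x - p.1 • p.2))‖
            ≤ ∫ x, ‖kk Λ p‖ * C * ‖ψ (x - p.1 • p.2)‖ := by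
              refine integral_mono_of_nonneg (Eventually.of_forall fun x => norm_nonneg _)
                (h3.norm.const_mul _) (Eventually.of_forall fun x => ?_)
              simp only [norm_mul]
              have h5 : ‖h x‖ ≤ C := by rw [Real.norm_eq_abs]; exact hC x
              calc ‖kk Λ p‖ * (‖h x‖ * ‖ψ (x - p.1 • p.2)‖)
                  ≤ ‖kk Λ p‖ * (C * ‖ψ (x - p.1 • p.2)‖) := by gcongr
                _ = _ := by ring
          _ = ‖kk Λ p‖ * C * ∫ x, ‖ψ (x - p.1 • p.2)‖ := integral_const_mul _ _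
          _ = ‖kk Λ p‖ * C * ∫ x, ‖ψ x‖ := by
              rw [integral_sub_right_eq_self (fun x => ‖ψ x‖) (p.1 • p.2)]
          _ = ‖kk Λ p‖ * (C * ∫ x, ‖ψ x‖) := by ring
  calc ∫ x, G0 Λ h x * ψ x = ∫ x, ∫ p, kk Λ p * h (x + p.1 • p.2) * ψ x ∂(mu d) := by
        refine integral_congr_ae (Eventually.of_forall fun x => ?_)
        simp only [G0]
        rw [← integral_mul_const]
    _ = ∫ p, ∫ x, kk Λ p * h (x + p.1 • p.2) * ψ x ∂volume ∂(mu d) := integral_integral_swap I1
    _ = ∫ p, ∫ x, kk Λ p * (h x * ψ (x - p.1 • p.2)) ∂volume ∂(mu d) := by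
        refine integral_congr_ae (Eventually.of_forall fun p => ?_)
        simp only
        rw [← integral_sub_right_eq_self _ (p.1 • p.2)]
        refine integral_congr_ae (Eventually.of_forall fun x => ?_)
        simp only [sub_add_cancel]
        ring
    _ = ∫ x, ∫ p, kk Λ p * (h x * ψ (x - p.1 • p.2)) ∂(mu d) := (integral_integral_swap I2).symm
    _ = ∫ x, h x * G0 Λ ψ x := by
        refine integral_congr_ae (Eventually.of_forall fun x => ?_)
        simp only
        rw [← G0_symm_aux hΛ hψ (fun x => by rw [← Real.norm_eq_abs]; exact hD x) x,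
          ← integral_const_mul]
        refine integral_congr_ae (Eventually.of_forall fun p => ?_)
        simp only
        ring

/-- the resolvent -/
noncomputable def Gr (Λ : ℝ) (h : E d → ℝ) (x : E d) : ℝ :=
  (∫ y, gs (y : E d))⁻¹ * G0 Λ h x

/-- Solvability of `Λ W - Δ W = h` for bounded continuous data, in the weak sense. -/
theorem Gr_aux {Λ : ℝ} (hΛ : 0 < Λ) {h : E d → ℝ} {C : ℝ} (hc : Continuous h)
    (hC : ∀ x, |h x| ≤ C) : Continuous (Gr Λ h) ∧ (∃ D, ∀ x, |Gr Λ h x| ≤ D) ∧
      ∀ φ : E d → ℝ, ContDiff ℝ 2 φ → HasCompactSupport φ →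
        ∫ x, Gr Λ h x * lap φ x = ∫ x, (Λ * Gr Λ h x - h x) * φ x := by
  unfold Gr
  have hZ := gs_int_pos (d := d)
  set Z := ∫ y, gs (y : E d) with hZd
  have hWc : Continuous (fun x => Z⁻¹ * G0 Λ h x) :=
    continuous_const.mul (continuous_G0 hΛ hc hC)
  refine ⟨hWc, ⟨Z⁻¹ * ((∫ p, ‖kk Λ p‖ ∂(mu d)) * C), fun x => ?_⟩, ?_⟩
  · rw [abs_mul, abs_of_pos (inv_pos.2 hZ)]
    exact mul_le_mul_of_nonneg_left (bound_G0 hΛ hC x) (inv_pos.2 hZ).le
  · intro φ hφ hφc
    have hψc : Continuous (fun z => Λ * φ z - lap φ z) :=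
      (continuous_const.mul hφ.continuous).sub (continuous_lap hφ)
    have hψs : HasCompactSupport (fun z => Λ * φ z - lap φ z) :=
      (hφc.mul_left (f := fun _ => Λ)).sub (hasCompactSupport_lap hφc)
    have h1 := weak_G0 hΛ hc hC hψc hψs
    simp only [G0_inv hΛ hφ hφc, ← hZd] at h1
    have J1 : Integrable (fun x => Z⁻¹ * G0 Λ h x * (Λ * φ x)) volume :=
      (hWc.mul (continuous_const.mul hφ.continuous)).integrable_of_hasCompactSupport
        ((hφc.mul_left (f := fun _ => Λ)).mul_left)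
    have J2 : Integrable (fun x => Z⁻¹ * G0 Λ h x * lap φ x) volume :=
      (hWc.mul (continuous_lap hφ)).integrable_of_hasCompactSupport
        ((hasCompactSupport_lap hφc).mul_left)
    have J3 : Integrable (fun x => h x * φ x) volume :=
      (hc.mul hφ.continuous).integrable_of_hasCompactSupport hφc.mul_left
    have h2 : ∫ x, Z⁻¹ * G0 Λ h x * (Λ * φ x - lap φ x) = ∫ x, h x * φ x := by
      have e1 : ∀ x, Z⁻¹ * G0 Λ h x * (Λ * φ x - lap φ x) =
        Z⁻¹ * (G0 Λ h x * (Λ * φ x - lap φ x)) := fun x => by ring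
      simp_rw [e1]
      rw [integral_const_mul, h1]
      have e2 : ∀ x, h x * (Z * φ x) = Z * (h x * φ x) := fun x => by ring
      simp_rw [e2]
      rw [integral_const_mul, ← mul_assoc, inv_mul_cancel₀ hZ.ne', one_mul]
    have h3 : ∫ x, Z⁻¹ * G0 Λ h x * (Λ * φ x - lap φ x) =
      (∫ x, Z⁻¹ * G0 Λ h x * (Λ * φ x)) - ∫ x, Z⁻¹ * G0 Λ h x * lap φ x := by
      rw [← integral_sub J1 J2]
      refine integral_congr_ae (Eventually.of_forall fun x => ?_)
      simp only
      ring
    have h4 : ∫ x, (Λ * (Z⁻¹ * G0 Λ h x) - h x) * φ x =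
      (∫ x, Z⁻¹ * G0 Λ h x * (Λ * φ x)) - ∫ x, h x * φ x := by
      rw [← integral_sub J1 J3]
      refine integral_congr_ae (Eventually.of_forall fun x => ?_)
      simp only
      ring
    rw [h4]
    rw [h3] at h2
    linarith

end Pool.Agent.ExtStar
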