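import Pool.Agent.ExtStar.Carleson2

set_option autoImplicit false

open MeasureTheory Metric Set Filter Topology

namespace Pool.Agent.ExtStar

variable {d : ℕ}
variable {R : RD} {Ω : Set (E d)} {u : E d → ℝ} {r Λ : ℝ} {y0 e : E d} {h : E d → ℝ}

lemma Chart.h_cont (c : Chart Ω r Λ y0 e h) : Continuous h := by
  have hΛ := c.hΛ
  rw [Metric.continuous_iff]
  intro z ε hε
  refine ⟨ε / Λ, by positivity, fun z' hz' => ?_⟩
  rw [Real.dist_eq]
  refine lt_of_le_of_lt (c.lip z' z) ?_
  rw [lt_div_iff₀ (by linarith)] at hz'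
  linarith

/-- volume of a thin layer above the boundary -/
lemma Chart.thin_volume (c : Chart Ω r Λ y0 e h) (y : E d) {s b : ℝ} (hb : 0 < b) (hbs : b ≤ s) :
    (volume : Measure (E d)).real ({z | 0 < h z ∧ h z ≤ b} ∩ ball y s) ≤
      2 * b / s * ((2 * s) ^ d * ω d) := by
  have hs : 0 < s := by linarith
  set T : Set (E d) := {z | 0 < h z ∧ h z ≤ b} ∩ ball y s with hT
  have hc := c.h_cont
  have hTm : MeasurableSet T := by
    refine MeasurableSet.inter ?_ measurableSet_ball
    have h1 : MeasurableSet {z | 0 < h z} := (isOpen_lt continuous_const hc).measurableSet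
    have h2 : MeasurableSet {z | h z ≤ b} := (isClosed_le hc continuous_const).measurableSet
    exact h1.inter h2
  set J : ℕ := ⌊s / b⌋₊ with hJ
  have hJ1 : (J : ℝ) ≤ s / b := Nat.floor_le (by positivity)
  have hJ2 : s / b < J + 1 := Nat.lt_floor_add_one _
  have hsb : 1 ≤ s / b := by rw [le_div_iff₀ hb]; linarith
  have hJ3 : s / (2 * b) ≤ J := by
    have h1 : s / (2 * b) = s / b / 2 := by field_simp
    rw [h1]
    have h2 : (1 : ℕ) ≤ J := Nat.le_floor (by simpa using hsb)
    have h3 : (1:ℝ) ≤ J := by exact_mod_cast h2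
    linarith
  -- translates
  set Tj : ℕ → Set (E d) := fun j => (fun z => z + (-(j * b)) • e) ⁻¹' T with hTj
  have hmeas : ∀ j, MeasurableSet (Tj j) := fun j =>
    (continuous_id.add continuous_const).measurable hTm
  have hvol : ∀ j, (volume : Measure (E d)) (Tj j) = volume T := by
    intro j
    exact measure_preimage_add_right volume _ T
  have hdisj : (↑(Finset.range J) : Set ℕ).PairwiseDisjoint Tj := by
    intro i _ j _ hij
    rw [Function.onFun, Set.disjoint_left]
    intro z hz1 hz2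
    have h1 : 0 < h (z + (-(i * b)) • e) ∧ h (z + (-(i * b)) • e) ≤ b := hz1.1
    have h2 : 0 < h (z + (-(j * b)) • e) ∧ h (z + (-(j * b)) • e) ≤ b := hz2.1
    rw [c.tr] at h1 h2
    rcases lt_or_gt_of_ne hij with h3 | h3
    · have h4 : (i : ℝ) + 1 ≤ j := by exact_mod_cast h3
      nlinarith
    · have h4 : (j : ℝ) + 1 ≤ i := by exact_mod_cast h3
      nlinarith
  have hsub : (⋃ j ∈ Finset.range J, Tj j) ⊆ ball y (2 * s) := by
    intro z hz
    simp only [mem_iUnion, Finset.mem_range] at hz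
    obtain ⟨j, hj, hz⟩ := hz
    have h1 : dist (z + (-(j * b)) • e) y < s := hz.2
    have h2 : dist (z + (-(j * b)) • e) z = j * b := by
      rw [dist_add_smul c, abs_neg, abs_of_nonneg (by positivity)]
    have h3 : (j : ℝ) * b ≤ s := by
      have : (j : ℝ) ≤ J := by exact_mod_cast hj.le
      have h4 : (j : ℝ) ≤ s / b := this.trans hJ1
      rwa [le_div_iff₀ hb] at h4
    have h4 := dist_triangle z (z + (-(j * b)) • e) y
    have h5 : dist z (z + (-(j * b)) • e) = j * b := by rw [dist_comm]; exact h2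
    rw [mem_ball]; linarith
  have hsum : (J : ENNReal) * (volume : Measure (E d)) T ≤ volume (ball y (2 * s)) := by
    calc (J : ENNReal) * (volume : Measure (E d)) T
        = ∑ j ∈ Finset.range J, (volume : Measure (E d)) (Tj j) := by
          simp [hvol]
      _ = volume (⋃ j ∈ Finset.range J, Tj j) :=
          (measure_biUnion_finset hdisj (fun j _ => hmeas j)).symm
      _ ≤ _ := measure_mono hsub
  have hreal : (J : ℝ) * (volume : Measure (E d)).real T ≤ (2 * s) ^ d * ω d := by
    rw [← vol_ball y (by positivity : 0 < 2 * s)]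
    rw [measureReal_def, measureReal_def]
    have := ENNReal.toReal_mono measure_ball_lt_top.ne hsum
    rwa [ENNReal.toReal_mul, ENNReal.toReal_natCast] at this
  have h0 : 0 ≤ (volume : Measure (E d)).real T := measureReal_nonneg
  have h1 : s / (2 * b) * (volume : Measure (E d)).real T ≤ (2 * s) ^ d * ω d :=
    (mul_le_mul_of_nonneg_right hJ3 h0).trans hreal
  have h2 : (volume : Measure (E d)).real T =
      2 * b / s * (s / (2 * b) * (volume : Measure (E d)).real T) := by field_simp
  rw [h2]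
  exact mul_le_mul_of_nonneg_left h1 (by positivity)

lemma Chart.thin_mean (c : Chart Ω r Λ y0 e h) {Y : E d → ℝ} (hY : LocallyIntegrable Y volume)
    {y : E d} {s b S : ℝ} (hb : 0 < b) (hbs : b ≤ s) (hS : 0 ≤ S)
    (hle : ∀ z ∈ ball y s, Y z ≤ S) (hzero : ∀ z ∈ ball y s, ¬ (0 < h z ∧ h z ≤ b) → Y z ≤ 0) :
    m 2 Y y s ≤ S * (2 ^ (d + 1) * ω d * (b / s)) := by
  have hs : 0 < s := by linarith
  set T : Set (E d) := {z | 0 < h z ∧ h z ≤ b} ∩ ball y s with hT
  have hc := c.h_cont
  have hTm : MeasurableSet T := by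
    refine MeasurableSet.inter ?_ measurableSet_ball
    have h1 : MeasurableSet {z | 0 < h z} := (isOpen_lt continuous_const hc).measurableSet
    have h2 : MeasurableSet {z | h z ≤ b} := (isClosed_le hc continuous_const).measurableSet
    exact h1.inter h2
  have hTfin : (volume : Measure (E d)) T ≠ ⊤ :=
    (lt_of_le_of_lt (measure_mono inter_subset_right) measure_ball_lt_top).ne
  have hv := c.thin_volume y hb hbs
  have hint : Integrable (T.indicator (fun _ => (s ^ 2) ^ 2 * S)) (volume : Measure (E d)) :=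
    (integrable_indicator_iff hTm).2 (integrableOn_const hTfin)
  have h1 : P 2 Y y s ≤ (s ^ 2) ^ 2 * S * (volume : Measure (E d)).real T := by
    have e1 : (s ^ 2) ^ 2 * S * (volume : Measure (E d)).real T =
        ∫ z, T.indicator (fun _ => (s ^ 2) ^ 2 * S) z := by
      rw [integral_indicator hTm, setIntegral_const, smul_eq_mul, mul_comm]
    rw [e1]
    unfold P
    refine integral_mono (integrable_ker_mul (by norm_num) hs.le y hY) hint ?_
    intro z
    show ker 2 s y z * Y z ≤ T.indicator (fun _ => (s ^ 2) ^ 2 * S) z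
    by_cases hz : z ∈ ball y s
    · by_cases hz2 : 0 < h z ∧ h z ≤ b
      · have hzT : z ∈ T := ⟨hz2, hz⟩
        rw [indicator_of_mem hzT]
        have h2 := ker_le (j := 2) (t := s) y z
        have h3 := ker_nonneg 2 s y z
        calc ker 2 s y z * Y z ≤ ker 2 s y z * S := mul_le_mul_of_nonneg_left (hle z hz) h3
          _ ≤ _ := mul_le_mul_of_nonneg_right h2 hS
      · have hzT : z ∉ T := fun hh => hz2 hh.1
        rw [indicator_of_notMem hzT]
        exact mul_nonpos_of_nonneg_of_nonpos (ker_nonneg _ _ _ _) (hzero z hz hz2)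
    · have hzT : z ∉ T := fun hh => hz hh.2
      rw [indicator_of_notMem hzT, ker_eq_zero (by norm_num) hs.le (by simpa [mem_ball] using hz)]
      simp
  unfold m
  rw [div_le_iff₀ (by positivity)]
  refine h1.trans ?_
  have h2 : (s ^ 2) ^ 2 * S * (volume : Measure (E d)).real T ≤
      (s ^ 2) ^ 2 * S * (2 * b / s * ((2 * s) ^ d * ω d)) :=
    mul_le_mul_of_nonneg_left hv (by positivity)
  refine h2.trans (le_of_eq ?_)
  rw [mul_pow, pow_add, pow_add]
  field_simp
  ring

/-- one step of decay in the thin layer -/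
lemma Chart.thin_decay (c : Chart Ω r Λ y0 e h) {a : E d → ℝ} {K : ℝ} (hu : Sol R Ω u)
    (ha : Sup R Ω K a) {y : E d} {s b S : ℝ} (hb : 0 < b) (hbs : b ≤ s) (hs1 : s ≤ 1) (hS : 0 ≤ S)
    (hle : ∀ z ∈ ball y s, pp 3 (u z - a z) ≤ S)
    (hzero : ∀ z ∈ ball y s, ¬ (0 < h z ∧ h z ≤ b) → u z ≤ a z) :
    pp 3 (u y - a y) ≤ (Real.exp (R.L / 4) * 2 ^ (d + 1) * ω d / cc d 2 * (b / s)) * S := by
  have hs : 0 < s := by linarith
  have hL := R.hL
  have hω := ω_pos d
  have hcc : 0 < cc d 2 := cc_pos (by norm_num)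
  have h1 := sub_mean_cube c.isOpen (ha.w_cont hu) (ha.w_nonpos hu) (ha.w_le_one hu)
    (ha.w_smooth hu) R.hL.le (ha.w_lap_ge' c.isOpen hu) y hs
  have h2 := c.thin_mean (((continuous_pp 3).comp (ha.w_cont hu)).locallyIntegrable) hb hbs hS hle
    (fun z hz hz2 => (pp_of_nonpos (by norm_num) (by
      have := hzero z hz hz2
      linarith) : pp 3 (u z - a z) = 0).le)
  have h3 : Real.exp (R.L * s ^ 2 / 4) ≤ Real.exp (R.L / 4) := by
    apply Real.exp_le_exp.2
    have : s ^ 2 ≤ 1 := by nlinarith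
    nlinarith
  have h4 : cc d 2 * pp 3 (u y - a y) ≤ Real.exp (R.L / 4) *
      (S * (2 ^ (d + 1) * ω d * (b / s))) := by
    refine h1.trans ?_
    have h5 : 0 ≤ S * (2 ^ (d + 1) * ω d * (b / s)) := by positivity
    calc _ ≤ Real.exp (R.L * s ^ 2 / 4) * (S * (2 ^ (d + 1) * ω d * (b / s))) :=
          mul_le_mul_of_nonneg_left h2 (Real.exp_pos _).le
      _ ≤ _ := mul_le_mul_of_nonneg_right h3 h5
  rw [← mul_le_mul_iff_right₀ hcc]
  refine h4.trans (le_of_eq ?_)
  field_simp

end Pool.Agent.ExtStar
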