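import Pool.Agent.ExtStar.Margin

set_option autoImplicit false

open MeasureTheory Metric Set Filter Topology

namespace Pool.Agent.ExtStar

variable {d : ℕ}

/-- Near-maximality selection: a violation at `κ` with no violation in a large ball at a slightly
larger parameter. -/
lemma selection {P : E d → ℝ → Prop} {κ0 η : ℝ} (hη : 0 < η) (hP0 : ∀ x κ, P x κ → κ ≤ κ0)
    (x₀ : E d) {x₁ : E d} (h1 : P x₁ (1 + 2 * η)) {S τ : ℝ} (hS : 0 < S) (hτ : 0 < τ) :
    ∃ x κ κ', P x κ ∧ 1 + η ≤ κ ∧ κ < κ' ∧ (κ' - κ) * (1 + ‖x - x₀‖) ≤ τ ∧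
      ∀ x' ∈ ball x S, ¬ P x' κ' := by
  set ℓ : E d → ℝ := fun x => Real.log (1 + ‖x - x₀‖) with hℓ
  have hℓ0 : ∀ x, 0 ≤ ℓ x := fun x => Real.log_nonneg (by have := norm_nonneg (x - x₀); linarith)
  have hκ0 : 0 < κ0 := by have := hP0 _ _ h1; linarith
  -- choice of ε
  obtain ⟨ε, hε, hε1, hε2⟩ : ∃ ε : ℝ, 0 < ε ∧ ε * (S + 1) ≤ τ ∧ ε * ℓ x₁ ≤ η / 2 := by
    refine ⟨min (τ / (S + 1)) (η / 2 / (1 + ℓ x₁)), ?_, ?_, ?_⟩
    · have := hℓ0 x₁
      exact lt_min (by positivity) (by positivity)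
    · calc min (τ / (S + 1)) (η / 2 / (1 + ℓ x₁)) * (S + 1) ≤ τ / (S + 1) * (S + 1) :=
            mul_le_mul_of_nonneg_right (min_le_left _ _) (by linarith)
        _ = τ := by field_simp
    · have h0 := hℓ0 x₁
      calc min (τ / (S + 1)) (η / 2 / (1 + ℓ x₁)) * ℓ x₁ ≤ η / 2 / (1 + ℓ x₁) * ℓ x₁ :=
            mul_le_mul_of_nonneg_right (min_le_right _ _) h0
        _ ≤ η / 2 := by
          rw [div_mul_eq_mul_div, div_le_iff₀ (by linarith)]
          nlinarith
  set A : Set ℝ := {g | ∃ x κ, P x κ ∧ g = κ - ε * ℓ x} with hA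
  have hAb : BddAbove A := ⟨κ0, by
    rintro g ⟨x, κ, hP, rfl⟩
    have := hP0 x κ hP
    have := mul_nonneg hε.le (hℓ0 x)
    linarith⟩
  have hAn : A.Nonempty := ⟨_, x₁, _, h1, rfl⟩
  set M := sSup A with hM
  have hM1 : 1 + 3 / 2 * η ≤ M := by
    have : (1 + 2 * η) - ε * ℓ x₁ ≤ M := le_csSup hAb ⟨x₁, _, h1, rfl⟩
    linarith
  set ε' : ℝ := min (η / 2) (ε * Real.exp (-(κ0 / ε))) with hε'
  have hε'0 : 0 < ε' := lt_min (by positivity) (by positivity)
  obtain ⟨g, ⟨x, κ, hPx, rfl⟩, hg⟩ := exists_lt_of_lt_csSup hAn (show M - ε' < M by linarith)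
  have hκ1 : 1 + η ≤ κ := by
    have := mul_nonneg hε.le (hℓ0 x)
    have : ε' ≤ η / 2 := min_le_left _ _
    linarith
  have hnx : 0 ≤ ‖x - x₀‖ := norm_nonneg _
  have hexp : 1 + ‖x - x₀‖ ≤ Real.exp (κ0 / ε) := by
    have h2 : ε * ℓ x ≤ κ0 := by
      have : ε' ≤ η / 2 := min_le_left _ _
      have := hP0 x κ hPx
      linarith
    have h3 : ℓ x ≤ κ0 / ε := by
      rw [le_div_iff₀ hε]; linarith
    calc 1 + ‖x - x₀‖ = Real.exp (ℓ x) := by
          rw [hℓ]; exact (Real.exp_log (by linarith)).symm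
      _ ≤ _ := Real.exp_le_exp.2 h3
  refine ⟨x, κ, κ + ε * S / (1 + ‖x - x₀‖) + ε', hPx, hκ1, ?_, ?_, ?_⟩
  · have : 0 < ε * S / (1 + ‖x - x₀‖) := by positivity
    linarith
  · have e : (κ + ε * S / (1 + ‖x - x₀‖) + ε' - κ) * (1 + ‖x - x₀‖) =
        ε * S + ε' * (1 + ‖x - x₀‖) := by
      field_simp; ring
    rw [e]
    have h4 : ε' * (1 + ‖x - x₀‖) ≤ ε := by
      calc ε' * (1 + ‖x - x₀‖) ≤ (ε * Real.exp (-(κ0 / ε))) * Real.exp (κ0 / ε) :=
            mul_le_mul (min_le_right _ _) hexp (by linarith) (by positivity)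
        _ = ε := by rw [mul_assoc, ← Real.exp_add]; simp
    linarith
  · intro x' hx' hP'
    have h5 : (κ + ε * S / (1 + ‖x - x₀‖) + ε') - ε * ℓ x' ≤ M := le_csSup hAb ⟨x', _, hP', rfl⟩
    have h6 : ℓ x' ≤ ℓ x + S / (1 + ‖x - x₀‖) := by
      have h7 : 1 + ‖x' - x₀‖ ≤ (1 + ‖x - x₀‖) * (1 + S / (1 + ‖x - x₀‖)) := by
        have h8 : ‖x' - x₀‖ ≤ ‖x - x₀‖ + S := by
          have h9 : ‖x' - x₀‖ ≤ ‖x' - x‖ + ‖x - x₀‖ := by
            have := norm_add_le (x' - x) (x - x₀)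
            rwa [sub_add_sub_cancel] at this
          have h10 : ‖x' - x‖ < S := by rw [← dist_eq_norm]; exact hx'
          linarith
        have : (1 + ‖x - x₀‖) * (1 + S / (1 + ‖x - x₀‖)) = 1 + ‖x - x₀‖ + S := by
          field_simp
        linarith
      calc ℓ x' = Real.log (1 + ‖x' - x₀‖) := rfl
        _ ≤ Real.log ((1 + ‖x - x₀‖) * (1 + S / (1 + ‖x - x₀‖))) :=
          Real.log_le_log (by have := norm_nonneg (x' - x₀); linarith) h7
        _ = ℓ x + Real.log (1 + S / (1 + ‖x - x₀‖)) :=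
          Real.log_mul (by positivity) (by positivity)
        _ ≤ ℓ x + S / (1 + ‖x - x₀‖) := by
          have := Real.log_le_sub_one_of_pos (x := 1 + S / (1 + ‖x - x₀‖)) (by positivity)
          linarith
    have h11 : ε * ℓ x' ≤ ε * ℓ x + ε * S / (1 + ‖x - x₀‖) := by
      have := mul_le_mul_of_nonneg_left h6 hε.le
      rw [mul_add, ← mul_div_assoc] at this
      exact this
    linarith

lemma exists_modulus (R : RD) (d : ℕ) {δ ϖ : ℝ} (hδ : 0 < δ) (hδ1 : δ ≤ 1) (hϖ : 0 < ϖ) :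
    ∃ τ : ℝ, 0 < τ ∧ τ ≤ δ / 32 ∧ ∀ (Ω : Set (E d)) (v : E d → ℝ), IsOpen Ω → Sol R Ω v →
      ∀ z z', ball z δ ⊆ Ω → dist z z' ≤ τ → |v z - v z'| ≤ ϖ * v z := by
  have hC := CHol_pos R d
  obtain ⟨τ', hτ', hτ1, hτ2⟩ : ∃ τ' : ℝ, 0 < τ' ∧ τ' ≤ δ / 8 ∧ CHol R d * τ' ^ 2 ≤ ϖ / 2 := by
    refine ⟨min (δ / 8) (ϖ / 2 / CHol R d), lt_min (by positivity) (by positivity),
      min_le_left _ _, ?_⟩
    have h1 : min (δ / 8) (ϖ / 2 / CHol R d) ≤ ϖ / 2 / CHol R d := min_le_right _ _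
    have h2 : min (δ / 8) (ϖ / 2 / CHol R d) ≤ 1 := (min_le_left _ _).trans (by linarith)
    have h3 : 0 < min (δ / 8) (ϖ / 2 / CHol R d) := lt_min (by positivity) (by positivity)
    calc CHol R d * min (δ / 8) (ϖ / 2 / CHol R d) ^ 2
        ≤ CHol R d * (ϖ / 2 / CHol R d) := by
          refine mul_le_mul_of_nonneg_left ?_ hC.le
          nlinarith
      _ = ϖ / 2 := by field_simp
  refine ⟨min (min (δ / 32) τ') (ϖ / 2 / CHol R d * τ'), ?_, ?_, ?_⟩
  · exact lt_min (lt_min (by positivity) hτ') (by positivity)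
  · exact (min_le_left _ _).trans (min_le_left _ _)
  · intro Ω v hΩ hv z z' hb hd
    have h1 : dist z z' ≤ τ' := hd.trans ((min_le_left _ _).trans (min_le_right _ _))
    have h2 : dist z z' ≤ ϖ / 2 / CHol R d * τ' := hd.trans (min_le_right _ _)
    have h3 := hv.holder hΩ (x := z) (x' := z') hτ' (by linarith)
      ((closedBall_subset_ball (by linarith)).trans hb) h1
    refine h3.trans (mul_le_mul_of_nonneg_right ?_ (hv.nonneg z))
    have h4 : CHol R d * (dist z z' / τ') ≤ ϖ / 2 := by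
      have : dist z z' / τ' ≤ ϖ / 2 / CHol R d := by rw [div_le_iff₀ hτ']; exact h2
      calc CHol R d * (dist z z' / τ') ≤ CHol R d * (ϖ / 2 / CHol R d) :=
            mul_le_mul_of_nonneg_left this hC.le
        _ = ϖ / 2 := by field_simp
    linarith [mul_add (CHol R d) (dist z z' / τ') (τ' ^ 2)]

lemma LipDom.mono {Ω : Set (E d)} {r r' Λ : ℝ} (h : LipDom Ω r Λ) (h0 : 0 < r') (hr : r' ≤ r) :
    LipDom Ω r' Λ where
  hr := h0
  hΛ := h.hΛ
  isOpen := h.isOpen
  chart := by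
    intro y hy
    obtain ⟨e, g, h1, h2, h3, h4, h5⟩ := h.chart y hy
    exact ⟨e, g, h1, h2, h3, h4, fun z hz => h5 z (ball_subset_ball hr hz)⟩

variable {R : RD} {Ω : Set (E d)} {u v : E d → ℝ} {r Λ : ℝ} {x₀ : E d}

/-- local comparison of a solution in a small ball -/
lemma Sol.harnack_small (hΩ : IsOpen Ω) (hv : Sol R Ω v) {δ : ℝ} (hδ : 0 < δ) (hδ1 : δ ≤ 1)
    {z y : E d} (hb : ball z δ ⊆ Ω) (hd : dist z y ≤ δ / 16) :
    v z ≤ CH R d * v y ∧ v y ≤ CH R d * v z := by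
  constructor
  · refine hv.harnack hΩ (t := δ / 8) (by positivity) (by linarith) ?_ (by
      rw [dist_comm]; linarith)
    refine subset_trans ?_ hb
    intro p hp
    have h1 : dist p y ≤ 2 * (δ / 8) := hp
    have h2 := dist_triangle p y z
    rw [dist_comm y z] at h2
    show dist p z < δ
    linarith
  · refine hv.harnack hΩ (t := δ / 8) (by positivity) (by linarith) ?_ (by linarith)
    exact (closedBall_subset_ball (by linarith)).trans hb

theorem uniqueness (R : RD) {Ω : Set (E d)} {r Λ : ℝ} (hLD : LipDom Ω r Λ) {x₀ : E d}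
    (hs : Star x₀ Ω) {u v : E d → ℝ} (hu : Sol R Ω u) (hv : Sol R Ω v) : ∀ x, u x ≤ v x := by
  have hΩ := hLD.isOpen
  have hcc : 0 < cc d 2 := cc_pos (by norm_num)
  have hcc3 : 0 < cc d 3 := cc_pos (by norm_num)
  have hCH := one_le_CH R d
  have hCH0 : 0 < CH R d := by linarith
  have he1 := R.he1
  have he1' := R.he1'
  have hmu := R.hmu
  obtain ⟨s, θ, hs0, hs1, hsr, hθ0, hθ1, hg⟩ := g_local R hLD
  obtain ⟨R2, hR2, hbig⟩ := Sol.big_ball R d
  obtain ⟨C5, T5, δ5, hC5, hT5, hδ5, hδ51, hdeg⟩ := degen R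
    (hLD.mono (r' := min r 1) (lt_min hLD.hr one_pos) (min_le_left _ _)) (min_le_right _ _)
  -- dilates for large parameters
  set κ0 : ℝ := max 1 (4 * R2 / s + 1) with hκ0
  have hκ01 : 1 ≤ κ0 := le_max_left _ _
  have hlarge : ∀ κ, κ0 ≤ κ → ∀ x, u x ≤ v (dil x₀ κ x) := by
    intro κ hκ
    have hκ1 : 1 ≤ κ := hκ01.trans hκ
    refine order_of_cond hθ0 hθ1 hg hu (hv.dil_sup hΩ hs hκ1) ?_
    intro z hz
    right
    refine hbig Ω v hΩ hv _ (subset_trans ?_ (hs.ball hκ1 hz))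
    refine closedBall_subset_ball ?_
    have h1 : 4 * R2 / s + 1 ≤ κ := (le_max_right _ _).trans hκ
    have h2 : 4 * R2 / s < κ := by linarith
    rw [div_lt_iff₀ hs0] at h2
    linarith
  by_contra hcon
  -- a violation near the original parameter
  obtain ⟨z', hz'b, hz'1, hz'2⟩ : ∃ z', ball z' (s / 4) ⊆ Ω ∧ v z' < u z' ∧ v z' < 1 - R.e1 := by
    by_contra hno
    push Not at hno
    have hsup := hv.dil_sup hΩ hs (le_refl (1:ℝ))
    refine hcon (fun x => ?_)
    have := order_of_cond hθ0 hθ1 hg hu hsup (fun z hz => ?_) x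
    · simpa [dil_one] using this
    · simp only [dil_one]
      by_cases h : u z ≤ v z
      · exact Or.inl h
      · exact Or.inr (hno z hz (not_le.1 h))
  obtain ⟨η, hη, hη1, hη2⟩ : ∃ η : ℝ, 0 < η ∧ v (dil x₀ (1 + 2 * η) z') < u z' ∧
      v (dil x₀ (1 + 2 * η) z') < 1 - R.e1 := by
    have hc : Continuous (fun η : ℝ => v (dil x₀ (1 + 2 * η) z')) :=
      hv.cont.comp ((continuous_dil' x₀ z').comp (by fun_prop))
    have h0 : Tendsto (fun η : ℝ => v (dil x₀ (1 + 2 * η) z')) (𝓝[>] 0) (𝓝 (v z')) := by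
      have := (hc.tendsto 0).mono_left (nhdsWithin_le_nhds (s := Ioi 0))
      simpa [dil_one] using this
    have h1 := h0.eventually_lt_const hz'1
    have h2 := h0.eventually_lt_const hz'2
    obtain ⟨η, h3, h4, h5⟩ := (h1.and (h2.and self_mem_nhdsWithin)).exists
    exact ⟨η, h5, h3, h4⟩
  -- constants
  set cM : ℝ := Real.exp (-(R.L / 12)) * cc d 3 / (12 * cc d 2) with hcM
  have hcM0 : 0 < cM := by positivity
  have hκ2 : 0 < 32 * (κ0 + 1) := by linarith
  set B : ℝ := cM * (2 * η) * (R.mu / CH R d) / (32 * (κ0 + 1)) ^ 2 with hB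
  have hB0 : 0 < B := by positivity
  obtain ⟨δ, hδ, hδs, hδ5', hδT, hδC, hδB⟩ : ∃ δ : ℝ, 0 < δ ∧ δ ≤ s / 4 ∧ δ ≤ δ5 ∧ δ ≤ T5 ∧
      C5 * δ ^ 3 ≤ 1 / 2 ∧ (1 + 4 * C5 * CH R d) * δ < B := by
    have c1 : Tendsto (fun δ : ℝ => C5 * δ ^ 3) (𝓝[>] 0) (𝓝 0) := by
      have : Continuous (fun δ : ℝ => C5 * δ ^ 3) := by fun_prop
      have := (this.tendsto 0).mono_left (nhdsWithin_le_nhds (s := Ioi 0))
      simpa using this
    have c2 : Tendsto (fun δ : ℝ => (1 + 4 * C5 * CH R d) * δ) (𝓝[>] 0) (𝓝 0) := by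
      have : Continuous (fun δ : ℝ => (1 + 4 * C5 * CH R d) * δ) := by fun_prop
      have := (this.tendsto 0).mono_left (nhdsWithin_le_nhds (s := Ioi 0))
      simpa using this
    have h1 := c1.eventually_lt_const (show (0:ℝ) < 1 / 2 by norm_num)
    have h2 := c2.eventually_lt_const hB0
    have h3 : ∀ᶠ δ in 𝓝[>] (0:ℝ), δ ∈ Ioc 0 (min (s / 4) (min δ5 T5)) :=
      Ioc_mem_nhdsGT (lt_min (by positivity) (lt_min hδ5 hT5))
    obtain ⟨δ, h4, h5, h6⟩ := (h1.and (h2.and h3)).exists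
    exact ⟨δ, h6.1, h6.2.trans (min_le_left _ _),
      h6.2.trans ((min_le_right _ _).trans (min_le_left _ _)),
      h6.2.trans ((min_le_right _ _).trans (min_le_right _ _)), h4.le, h5⟩
  have hδ1 : δ ≤ 1 := by linarith
  obtain ⟨c, hc, hdegc⟩ := hdeg δ hδ hδ5'
  set c' : ℝ := min c (R.s0 / CH R d) with hc'
  have hc'0 : 0 < c' := lt_min hc (div_pos R.hs0 hCH0)
  -- case B constants
  obtain ⟨τB, hτB, hτBδ, hmodB⟩ := exists_modulus R d hδ hδ1 (show 0 < R.e1 / 2 by positivity)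
  obtain ⟨φB, hφB, hφBmin⟩ := R.exists_min (c' / (2 * CH R d ^ 2)) (1 - R.e1 / 2)
    (by positivity) (by linarith)
  set TB : ℝ := τB / (2 * (κ0 + 1)) with hTB
  have hTB0 : 0 < TB := by positivity
  have hTBτ : (κ0 + 1) * TB = τB / 2 := by rw [hTB]; field_simp
  set ς : ℝ := min (c' / 2) (cM * (2 * η) * φB * TB ^ 2 / 6) with hς
  have hς0 : 0 < ς := lt_min (by positivity) (by positivity)
  obtain ⟨k, hk⟩ := exists_pow_lt_of_lt_one (show 0 < ς ^ 3 by positivity) hθ1
  obtain ⟨τA, hτA, hτAδ, hmodA⟩ := exists_modulus R d hδ hδ1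
    (show 0 < min ς (δ ^ 3) from lt_min hς0 (by positivity))
  set S : ℝ := k * s + 1 with hS
  have hS1 : 1 ≤ S := by
    have : 0 ≤ (k:ℝ) * s := by positivity
    linarith
  -- selection
  set P : E d → ℝ → Prop := fun x κ => ball x δ ⊆ Ω ∧ v (dil x₀ κ x) < u x ∧
    v (dil x₀ κ x) < 1 - R.e1 with hP
  have hP0 : ∀ x κ, P x κ → κ ≤ κ0 := by
    intro x κ hx
    by_contra hlt
    have := hlarge κ (not_le.1 hlt).le x
    exact absurd hx.2.1 (not_lt.2 this)
  obtain ⟨x, κ, κ', hPx, hκη, hκκ', hκτ, hno⟩ := selection hη hP0 x₀ (x₁ := z')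
    ⟨(ball_subset_ball hδs).trans hz'b, hη1, hη2⟩ (S := S) (by linarith)
    (τ := min (min τA (τB / 2)) 1) (lt_min (lt_min hτA (by positivity)) one_pos)
  have hnx : 0 ≤ ‖x - x₀‖ := norm_nonneg _
  have hκ1 : 1 ≤ κ := by linarith
  have hκ'1 : 1 ≤ κ' := by linarith
  have hκle := hP0 x κ hPx
  have hdκ : (κ' - κ) ≤ min (min τA (τB / 2)) 1 := by
    have h0 : 0 ≤ (κ' - κ) * ‖x - x₀‖ := mul_nonneg (by linarith only [hκκ']) hnx
    linarith only [h0, hκτ]
  have hκ'0 : κ' ≤ κ0 + 1 := by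
    have : κ' - κ ≤ 1 := hdκ.trans (min_le_right _ _)
    linarith
  obtain ⟨hxb, hxv, hxe⟩ := hPx
  set z := dil x₀ κ x with hz
  have hzb : ball z δ ⊆ Ω := hs.ball' hκ1 hδ.le hxb
  have hzΩ : z ∈ Ω := hzb (mem_ball_self hδ)
  have hvz := hv.pos z hzΩ
  have hdzz : dist z (dil x₀ κ' x) ≤ min τA (τB / 2) := by
    rw [hz, dist_dil', abs_sub_comm, abs_of_pos (by linarith)]
    have : (κ' - κ) * ‖x - x₀‖ ≤ (κ' - κ) * (1 + ‖x - x₀‖) :=
      mul_le_mul_of_nonneg_left (by linarith only) (by linarith only [hκκ'])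
    exact this.trans (hκτ.trans (min_le_left _ _))
  have ha := hv.dil_sup hΩ hs hκ'1
  -- points near x are dilated near z
  have hnear : ∀ T, ∀ y ∈ ball x T, dist z (dil x₀ κ' y) ≤ min τA (τB / 2) + (κ0 + 1) * T := by
    intro T y hy
    have h1 : dist (dil x₀ κ' x) (dil x₀ κ' y) ≤ (κ0 + 1) * T := by
      rw [dist_dil x₀ (by linarith)]
      have h2 : dist x y < T := by rw [dist_comm]; exact hy
      have h3 : 0 ≤ dist x y := dist_nonneg
      exact mul_le_mul hκ'0 h2.le h3 (by linarith only [hκ01])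
    have := dist_triangle z (dil x₀ κ' x) (dil x₀ κ' y)
    linarith
  have hax : v (dil x₀ κ' x) - u x < min ς (δ ^ 3) * v z := by
    have := hmodA Ω v hΩ hv z (dil x₀ κ' x) hzb (hdzz.trans (min_le_left _ _))
    rw [abs_le] at this
    linarith [this.1]
  have hno' : ∀ y ∈ ball x S, ball y δ ⊆ Ω →
      u y ≤ v (dil x₀ κ' y) ∨ 1 - R.e1 ≤ v (dil x₀ κ' y) := by
    intro y hy hyb
    by_contra hh
    push Not at hh
    exact hno y hy ⟨hyb, hh.1, hh.2⟩
  have hK : 2 * η ≤ κ' ^ 2 - 1 := by nlinarith only [hκη, hκκ', hη, hκ'1]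
  by_cases hcase : u x < c'
  · -- Case A
    have hd := hdegc u (fun y => v (dil x₀ κ' y)) (κ' ^ 2) hu ha x hxb
      (hcase.trans_le (min_le_left _ _))
      (fun y hy hyb => hno' y (ball_subset_ball hS1 hy) hyb)
    set T : ℝ := δ / (32 * (κ0 + 1)) with hT
    have hT0 : 0 < T := by positivity
    have hTδ : (κ0 + 1) * T = δ / 32 := by rw [hT]; field_simp
    have hTle : T ≤ δ / 32 := by nlinarith only [hTδ, hκ01, hT0]
    have hux := hu.pos x (hxb (mem_ball_self hδ))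
    have hharn : ∀ y ∈ ball x T, v z ≤ CH R d * v (dil x₀ κ' y) ∧
        v (dil x₀ κ' y) ≤ CH R d * v z := by
      intro y hy
      refine hv.harnack_small hΩ hδ hδ1 hzb ?_
      have h1 := hnear T y hy
      have h2 : min τA (τB / 2) ≤ τA := min_le_left _ _
      linarith
    have hs0' : ∀ y ∈ ball x T, v (dil x₀ κ' y) ≤ R.s0 := by
      intro y hy
      refine (hharn y hy).2.trans ?_
      have h1 : v z ≤ R.s0 / CH R d := (hxv.trans hcase).le.trans (min_le_right _ _)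
      calc CH R d * v z ≤ CH R d * (R.s0 / CH R d) := mul_le_mul_of_nonneg_left h1 hCH0.le
        _ = R.s0 := by field_simp
    have hm := margin hΩ hu ha (x := x) (T := T) (ς := C5 * δ ^ 3 * u x)
      (φ0 := R.mu * (v z / CH R d)) hT0 (by linarith)
      ((closedBall_subset_ball (by linarith)).trans hxb) (by positivity) (by positivity)
      (fun y hy => hd y (ball_subset_ball (by linarith) hy))
      (fun y hy => by
        have h1 := (hharn y hy).1
        have h2 : v z / CH R d ≤ v (dil x₀ κ' y) := by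
          rw [div_le_iff₀ hCH0]; linarith
        have h3 : 0 < v (dil x₀ κ' y) := lt_of_lt_of_le (by positivity) h2
        have h4 := R.low _ h3 (hs0' y hy)
        have h5 := mul_le_mul_of_nonneg_left h2 hmu.le
        linarith)
    rw [← hcM] at hm
    have hxx := hharn x (mem_ball_self hT0)
    have hu2 : u x ≤ 2 * CH R d * v z := by
      have h1 := hd x (mem_ball_self hT5)
      have h2 : C5 * δ ^ 3 * u x ≤ 1 / 2 * u x := mul_le_mul_of_nonneg_right hδC hux.le
      have h3 := hxx.2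
      linarith
    have hlow : B * δ ^ 2 * v z ≤ cM * ((κ' ^ 2 - 1) * (R.mu * (v z / CH R d)) * T ^ 2) := by
      have e : B * δ ^ 2 * v z = cM * ((2 * η) * (R.mu * (v z / CH R d)) * T ^ 2) := by
        rw [hB, hT]; field_simp
      rw [e]
      refine mul_le_mul_of_nonneg_left ?_ hcM0.le
      refine mul_le_mul_of_nonneg_right ?_ (by positivity)
      exact mul_le_mul_of_nonneg_right hK (by positivity)
    have hup : v (dil x₀ κ' x) - u x + 2 * (C5 * δ ^ 3 * u x) <
        (1 + 4 * C5 * CH R d) * δ * δ ^ 2 * v z := by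
      have h1 : min ς (δ ^ 3) * v z ≤ δ ^ 3 * v z :=
        mul_le_mul_of_nonneg_right (min_le_right _ _) hvz.le
      have h2 : C5 * δ ^ 3 * u x ≤ C5 * δ ^ 3 * (2 * CH R d * v z) :=
        mul_le_mul_of_nonneg_left hu2 (by positivity)
      have e : (1 + 4 * C5 * CH R d) * δ * δ ^ 2 * v z =
        δ ^ 3 * v z + 2 * (C5 * δ ^ 3 * (2 * CH R d * v z)) := by ring
      rw [e]
      linarith
    have hfin : (1 + 4 * C5 * CH R d) * δ * δ ^ 2 * v z < B * δ ^ 2 * v z := by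
      have : 0 < δ ^ 2 * v z := by positivity
      nlinarith only [mul_pos this (sub_pos.2 hδB)]
    linarith
  · -- Case B
    rw [not_lt] at hcase
    have hit := iterate_decay (Y := fun y => pp 3 (u y - v (dil x₀ κ' y))) hθ0 hs0 (x0 := x)
      (ρ := S) (fun y => pp_le_one (ha.w_le_one hu y)) (by
        intro y hy S' hS' hle
        refine hg u _ _ hu ha y S' hS' hle ?_
        intro p hp hpb
        refine hno' p ?_ ((ball_subset_ball hδs).trans hpb)
        have h1 : dist p y < s := hp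
        have := dist_triangle p y x
        show dist p x < S
        linarith) k
    have hςle : ∀ y ∈ ball x 1, u y - v (dil x₀ κ' y) ≤ ς := by
      intro y hy
      by_contra hh
      rw [not_le] at hh
      have h1 := hit y (by have : dist y x < 1 := hy; linarith)
      have h2 : ς ^ 3 < pp 3 (u y - v (dil x₀ κ' y)) := by
        rw [pp_of_nonneg _ (by linarith)]
        exact pow_lt_pow_left₀ hh hς0.le (by norm_num)
      exact absurd h1 (not_le.2 (hk.trans h2))
    have hTB1 : TB ≤ δ / 32 := by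
      have : TB ≤ τB := by
        nlinarith only [hTBτ, hκ01, hTB0, hτB]
      linarith
    have hnearB : ∀ y ∈ ball x TB, dist z (dil x₀ κ' y) ≤ τB := by
      intro y hy
      have h1 := hnear TB y hy
      have h2 : min τA (τB / 2) ≤ τB / 2 := min_le_right _ _
      linarith
    have hxx : dist z (dil x₀ κ' x) ≤ τB := hnearB x (mem_ball_self hTB0)
    have hvzlow : c' / (2 * CH R d) ≤ v z := by
      have h1 := (hv.harnack_small hΩ hδ hδ1 hzb (y := dil x₀ κ' x) (by linarith)).2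
      have h2 := hςle x (mem_ball_self one_pos)
      have h3 : ς ≤ c' / 2 := min_le_left _ _
      rw [div_le_iff₀ (by positivity)]
      linarith
    have hm := margin hΩ hu ha (x := x) (T := TB) (ς := ς)
      (φ0 := φB) hTB0 (by linarith)
      ((closedBall_subset_ball (by linarith)).trans hxb) hς0.le hφB.le
      (fun y hy => hςle y (ball_subset_ball (by linarith) hy))
      (fun y hy => by
        refine hφBmin _ ⟨?_, ?_⟩
        · have h1 := (hv.harnack_small hΩ hδ hδ1 hzb (y := dil x₀ κ' y)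
            (by have := hnearB y hy; linarith)).1
          have h2 : c' / (2 * CH R d) ≤ CH R d * v (dil x₀ κ' y) := hvzlow.trans h1
          rw [div_le_iff₀ (by positivity)] at h2 ⊢
          linarith
        · have h1 := hmodB Ω v hΩ hv z (dil x₀ κ' y) hzb (hnearB y hy)
          rw [abs_le] at h1
          have h2 : R.e1 / 2 * v z ≤ R.e1 / 2 := by
            have := hv.le_one z
            nlinarith only [this, he1]
          linarith [h1.1])
    rw [← hcM] at hm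
    have h1 : cM * (2 * η) * φB * TB ^ 2 ≤ cM * ((κ' ^ 2 - 1) * φB * TB ^ 2) := by
      have e : cM * (2 * η) * φB * TB ^ 2 = cM * ((2 * η) * φB * TB ^ 2) := by ring
      rw [e]
      refine mul_le_mul_of_nonneg_left ?_ hcM0.le
      refine mul_le_mul_of_nonneg_right ?_ (by positivity)
      exact mul_le_mul_of_nonneg_right hK hφB.le
    have h2 : ς ≤ cM * (2 * η) * φB * TB ^ 2 / 6 := min_le_right _ _
    have h3 : min ς (δ ^ 3) * v z ≤ ς := by
      calc min ς (δ ^ 3) * v z ≤ ς * 1 :=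
            mul_le_mul (min_le_left _ _) (hv.le_one z) hvz.le hς0.le
        _ = ς := mul_one _
    linarith

end Pool.Agent.ExtStar
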